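import Pool.Agent.MP_d6da41_co.Defs

-- ======== part 0: formerly Pool.Agent.MP_d6da41_co.Man
section MrgPart0

/-! Flag systems with images of faces. -/

namespace Pool.Agent.MP_d6da41_co

open Relation

theorem Img.map_comp {U V W : Type} (g : V → W) (h : U → V) :
    ∀ (m : ℕ) (X : Img U m), Img.map (g ∘ h) m X = Img.map g m (Img.map h m X)
  | 0, _ => rfl
  | m + 1, X => by
    have : Img.map (g ∘ h) m = Img.map g m ∘ Img.map h m := funext (Img.map_comp g h m)
    show Img.map (g ∘ h) m '' X = Img.map g m '' (Img.map h m '' X)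
    rw [this, Set.image_comp]

theorem Img.map_id {V : Type} : ∀ (m : ℕ) (X : Img V m), Img.map id m X = X
  | 0, _ => rfl
  | m + 1, X => by
    have : Img.map (id : V → V) m = id := funext (Img.map_id m)
    show Img.map id m '' X = X
    rw [this, Set.image_id]

theorem Img.map_injective {V W : Type} {g : V → W} (hg : Function.Injective g) :
    ∀ m : ℕ, Function.Injective (Img.map g m)
  | 0 => hg
  | m + 1 => Set.image_injective.2 (Img.map_injective hg m)

theorem Img.map_succ {V W : Type} (g : V → W) (m : ℕ) (X : Set (Img V m)) :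
    Img.map g (m + 1) X = Img.map g m '' X := rfl

theorem Img.map_mul {V : Type} [MetricSpace V] (g h : V ≃ᵢ V) (m : ℕ) (X : Img V m) :
    Img.map (g * h : V ≃ᵢ V) m X = Img.map g m (Img.map h m X) :=
  Img.map_comp g h m X

theorem Img.map_one {V : Type} [MetricSpace V] (m : ℕ) (X : Img V m) :
    Img.map (1 : V ≃ᵢ V) m X = X :=
  Img.map_id m X

theorem Img.map_inv_self {V : Type} [MetricSpace V] (g : V ≃ᵢ V) (m : ℕ) (X : Img V m) :
    Img.map (g⁻¹ : V ≃ᵢ V) m (Img.map g m X) = X := by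
  rw [← Img.map_mul, inv_mul_cancel, Img.map_one]

theorem Img.map_self_inv {V : Type} [MetricSpace V] (g : V ≃ᵢ V) (m : ℕ) (X : Img V m) :
    Img.map g m (Img.map (g⁻¹ : V ≃ᵢ V) m X) = X := by
  rw [← Img.map_mul, mul_inv_cancel, Img.map_one]

/-- Paths using the moves `r i`, `i < n`, `I i`. -/
def Conn {Ω : Type} (r : ℕ → Ω → Ω) (n : ℕ) (I : ℕ → Prop) : Ω → Ω → Prop :=
  ReflTransGen (fun a b => ∃ i, i < n ∧ I i ∧ b = r i a)

section Conn
variable {Ω : Type} {r : ℕ → Ω → Ω} {n : ℕ}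

theorem Conn.refl {I : ℕ → Prop} (a : Ω) : Conn r n I a a := ReflTransGen.refl

theorem Conn.trans {I : ℕ → Prop} {a b c : Ω} (h : Conn r n I a b) (h' : Conn r n I b c) :
    Conn r n I a c := ReflTransGen.trans h h'

theorem Conn.step {I : ℕ → Prop} (a : Ω) {i : ℕ} (hi : i < n) (hI : I i) :
    Conn r n I a (r i a) := ReflTransGen.single ⟨i, hi, hI, rfl⟩

theorem Conn.tail {I : ℕ → Prop} {a b : Ω} (h : Conn r n I a b) {i : ℕ} (hi : i < n) (hI : I i) :
    Conn r n I a (r i b) := h.trans (Conn.step b hi hI)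

theorem Conn.induction {I : ℕ → Prop} {a : Ω} {P : Ω → Prop} (h0 : P a)
    (hs : ∀ b i, i < n → I i → Conn r n I a b → P b → P (r i b)) {b : Ω} (h : Conn r n I a b) :
    P b := by
  unfold Conn at h
  induction h with
  | refl => exact h0
  | tail hb hbc ih =>
    obtain ⟨i, hi, hI, rfl⟩ := hbc
    exact hs _ i hi hI hb ih

theorem Conn.mono {I J : ℕ → Prop} (hIJ : ∀ i, i < n → I i → J i) {a b : Ω}
    (h : Conn r n I a b) : Conn r n J a b :=
  Conn.induction (P := fun b => Conn r n J a b) (Conn.refl a)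
    (fun _ i hi hI _ hb => hb.tail hi (hIJ i hi hI)) h

theorem Conn.symm (inv : ∀ i, i < n → ∀ a, r i (r i a) = a) {I : ℕ → Prop} {a b : Ω}
    (h : Conn r n I a b) : Conn r n I b a := by
  refine Conn.induction (P := fun b => Conn r n I b a) (Conn.refl a) ?_ h
  intro b i hi hI _ hb
  have := Conn.step (r := r) (I := I) (r i b) hi hI
  rw [inv i hi] at this
  exact this.trans hb

theorem Conn.eq_of_empty {I : ℕ → Prop} (hI : ∀ i, i < n → ¬ I i) {a b : Ω}
    (h : Conn r n I a b) : b = a :=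
  Conn.induction (P := fun b => b = a) rfl (fun _ i hi h _ _ => (hI i hi h).elim) h

theorem Conn.of_single (inv : ∀ i, i < n → ∀ a, r i (r i a) = a) {I : ℕ → Prop} {k : ℕ}
    (hI : ∀ i, i < n → I i → i = k) {a b : Ω} (h : Conn r n I a b) : b = a ∨ b = r k a := by
  refine Conn.induction (P := fun b => b = a ∨ b = r k a) (Or.inl rfl) ?_ h
  intro b i hi hi' _ hb
  obtain rfl := hI i hi hi'
  rcases hb with rfl | rfl
  · exact Or.inr rfl
  · exact Or.inl (inv i hi a)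

/-- A move commuting with all moves in `I` transports paths. -/
theorem Conn.map_comm {I : ℕ → Prop} {t : Ω → Ω}
    (ht : ∀ i, i < n → I i → ∀ a, t (r i a) = r i (t a)) {a b : Ω}
    (h : Conn r n I a b) : Conn r n I (t a) (t b) := by
  refine Conn.induction (P := fun b => Conn r n I (t a) (t b)) (Conn.refl _) ?_ h
  intro b i hi hI _ hb
  rw [ht i hi hI]
  exact hb.tail hi hI

end Conn

/-- A system of flags of rank `n` with images of faces in `V`. -/
structure Man (V : Type) (n : ℕ) where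
  Ω : Type
  r : ℕ → Ω → Ω
  f : (j : ℕ) → Ω → Img V j
  inv : ∀ i, i < n → ∀ a, r i (r i a) = a
  fix : ∀ i, i < n → ∀ j, j ≤ n → j ≠ i → ∀ a, f j (r i a) = f j a
  move : ∀ i, i < n → ∀ a, f i (r i a) ≠ f i a
  succ : ∀ j, j < n → ∀ a, f (j + 1) a = {Y : Img V j | ∃ b, Conn r n (· ≤ j) a b ∧ f j b = Y}
  sc : ∀ a b, Conn r n (fun i => f i a ≠ f i b) a b

namespace Man

variable {V W : Type} {n : ℕ} (M : Man V n)

/-- paths in `M` -/
abbrev C (I : ℕ → Prop) (a b : M.Ω) : Prop := Conn M.r n I a b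

/-- the vertex of a flag -/
def vt (a : M.Ω) : V := M.f 0 a

variable {M}

theorem vt_r {i : ℕ} (h1 : 1 ≤ i) (hi : i < n) (a : M.Ω) : M.vt (M.r i a) = M.vt a :=
  M.fix i hi 0 (Nat.zero_le n) (by omega) a

theorem csymm {I : ℕ → Prop} {a b : M.Ω} (h : M.C I a b) : M.C I b a := Conn.symm M.inv h

theorem cfix {I : ℕ → Prop} {a b : M.Ω} (h : M.C I a b) {j : ℕ} (hj : j ≤ n) (hI : ¬ I j) :
    M.f j b = M.f j a := by
  refine Conn.induction (P := fun b => M.f j b = M.f j a) rfl ?_ h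
  intro b i hi hi' _ hb
  rw [M.fix i hi j hj (fun e => hI (e ▸ hi')), hb]

theorem conn_of_agree {I : ℕ → Prop} {a b : M.Ω}
    (h : ∀ j, j < n → ¬ I j → M.f j a = M.f j b) : M.C I a b :=
  (M.sc a b).mono (fun i hi hne => by_contra fun hI => hne (h i hi hI))

theorem conn_all (a b : M.Ω) : M.C (fun _ => True) a b :=
  (M.sc a b).mono (fun _ _ _ => trivial)

theorem ext {a b : M.Ω} (h : ∀ j, j < n → M.f j a = M.f j b) : a = b :=
  (Conn.eq_of_empty (I := fun _ => False) (fun _ _ h => h)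
    (conn_of_agree (fun j hj _ => h j hj))).symm

theorem top_eq (a b : M.Ω) : M.f n a = M.f n b :=
  (cfix (I := fun i => i < n) (conn_of_agree (fun j hj h => (h hj).elim)) le_rfl
    (lt_irrefl n)).symm

theorem adj {a b : M.Ω} {i : ℕ} (h : ∀ j, j < n → j ≠ i → M.f j a = M.f j b) :
    b = a ∨ b = M.r i a :=
  Conn.of_single M.inv (I := fun j => j = i) (fun _ _ h => h) (conn_of_agree h)

theorem r_ne {i : ℕ} (hi : i < n) (a : M.Ω) : M.r i a ≠ a :=
  fun e => M.move i hi a (by rw [e])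

theorem mem_succ {j : ℕ} (hj : j < n) (a : M.Ω) :
    M.f j a ∈ (show Set (Img V j) from M.f (j + 1) a) := by
  rw [M.succ j hj]
  exact ⟨a, Conn.refl a, rfl⟩

theorem exists_of_mem {j : ℕ} (hj : j < n) {a : M.Ω} {Y : Img V j}
    (h : Y ∈ (show Set (Img V j) from M.f (j + 1) a)) :
    ∃ b, M.C (· ≤ j) a b ∧ M.f j b = Y := by
  rw [M.succ j hj] at h
  exact h

/-- A chain of images is the chain of a flag. -/
theorem chain (F : (j : ℕ) → Img V j) (a : M.Ω) (htop : F n = M.f n a)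
    (hF : ∀ j, j < n → F j ∈ (show Set (Img V j) from F (j + 1))) :
    ∃ b, ∀ j, j ≤ n → M.f j b = F j := by
  have key : ∀ k, k ≤ n → ∃ b, ∀ j, k ≤ j → j ≤ n → M.f j b = F j := by
    intro k hk
    induction hk using Nat.decreasingInduction with
    | self =>
      refine ⟨a, fun j h1 h2 => ?_⟩
      obtain rfl : j = n := le_antisymm h2 h1
      exact htop.symm
    | of_succ k hk ih =>
      obtain ⟨b, hb⟩ := ih
      have h1 := hF k hk
      rw [← hb (k + 1) le_rfl hk] at h1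
      obtain ⟨c, hc, hc'⟩ := exists_of_mem hk h1
      refine ⟨c, fun j h1 h2 => ?_⟩
      rcases h1.eq_or_lt with rfl | h1
      · exact hc'
      · rw [cfix hc h2 (by omega), hb j h1 h2]
  obtain ⟨b, hb⟩ := key 0 (Nat.zero_le n)
  exact ⟨b, fun j hj => hb j (Nat.zero_le j) hj⟩

/-- Mixing flags. -/
theorem chain' (g : ℕ → M.Ω)
    (hg : ∀ j, j < n → M.f j (g j) = M.f j (g (j + 1)) ∨ M.f (j + 1) (g j) = M.f (j + 1) (g (j + 1))) :
    ∃ b, ∀ j, j ≤ n → M.f j b = M.f j (g j) := by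
  refine chain (fun j => M.f j (g j)) (g n) rfl fun j hj => ?_
  rcases hg j hj with h | h
  · show M.f j (g j) ∈ (show Set (Img V j) from M.f (j + 1) (g (j + 1)))
    rw [h]; exact mem_succ hj _
  · show M.f j (g j) ∈ (show Set (Img V j) from M.f (j + 1) (g (j + 1)))
    rw [← h]; exact mem_succ hj _

theorem mix {a b : M.Ω} {k : ℕ} (h : M.f k a = M.f k b) :
    ∃ c, (∀ j, j ≤ k → j ≤ n → M.f j c = M.f j a) ∧ ∀ j, k ≤ j → j ≤ n → M.f j c = M.f j b := by
  obtain ⟨c, hc⟩ := chain' (M := M) (fun j => if j ≤ k then a else b) (fun j _ => by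
    by_cases h1 : j + 1 ≤ k
    · left; rw [if_pos h1, if_pos (by omega)]
    · by_cases h2 : j ≤ k
      · left; obtain rfl : j = k := by omega
        rw [if_pos h2, if_neg h1, h]
      · left; rw [if_neg h1, if_neg h2])
  refine ⟨c, fun j h1 h2 => by rw [hc j h2, if_pos h1], fun j h1 h2 => ?_⟩
  rw [hc j h2]
  split_ifs with h3
  · obtain rfl : j = k := by omega
    exact h
  · rfl

/-- The diamond condition for images. -/
theorem diamond {a b : M.Ω} {i : ℕ} (hi : i < n)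
    (h1 : ∀ j, j + 1 = i → M.f j b = M.f j a) (h2 : M.f (i + 1) b = M.f (i + 1) a) :
    M.f i b = M.f i a ∨ M.f i b = M.f i (M.r i a) := by
  obtain ⟨c, hc⟩ := chain' (M := M) (fun j => if j = i then b else a) (fun j _ => by
    by_cases e1 : j = i
    · subst e1; right; rw [if_pos rfl, if_neg (by omega), h2]
    · by_cases e2 : j + 1 = i
      · left; rw [if_neg e1, if_pos e2, h1 j e2]
      · left; rw [if_neg e1, if_neg e2])
  have hci := hc i hi.le
  rw [if_pos rfl] at hci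
  rcases adj (a := a) (b := c) (i := i) (fun j hj hji => by rw [hc j hj.le, if_neg hji])
    with rfl | rfl
  · exact Or.inl hci.symm
  · exact Or.inr hci.symm

theorem f_r_r {i k : ℕ} (hi : i < n) (hk : k < n) (h1 : k ≠ i) (h2 : k ≠ i + 1) (h3 : k + 1 ≠ i)
    (a : M.Ω) : M.f i (M.r i (M.r k a)) = M.f i (M.r i a) := by
  rcases diamond (a := a) (b := M.r i (M.r k a)) hi
    (fun j hj => by rw [M.fix i hi j (by omega) (by omega), M.fix k hk j (by omega) (by omega)])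
    (by rw [M.fix i hi _ hi (by omega), M.fix k hk _ hi (by omega)]) with h | h
  · exact absurd (h.trans (M.fix k hk i hi.le h1.symm a).symm) (M.move i hi _)
  · exact h

theorem comm {i k : ℕ} (hik : i + 2 ≤ k) (hk : k < n) (a : M.Ω) :
    M.r i (M.r k a) = M.r k (M.r i a) := by
  have hi : i < n := by omega
  refine ext fun j hj => ?_
  by_cases e1 : j = i
  · subst e1
    rw [f_r_r hi hk (by omega) (by omega) (by omega), M.fix k hk j hj.le (by omega)]
  · by_cases e2 : j = k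
    · subst e2
      rw [f_r_r hk hi (by omega) (by omega) (by omega), M.fix i hi j hj.le (by omega)]
    · rw [M.fix i hi j hj.le e1, M.fix k hk j hj.le e2, M.fix k hk j hj.le e2,
        M.fix i hi j hj.le e1]

/-- Digon lemma: consecutive moves do not commute everywhere. -/
theorem not_comm {i : ℕ} (hi : i + 1 < n) (a : M.Ω)
    (h : ∀ b, M.r (i + 1) (M.r i b) = M.r i (M.r (i + 1) b)) : False := by
  have hc : ∀ k, k < n → k ≤ i → ∀ b, M.r (i + 1) (M.r k b) = M.r k (M.r (i + 1) b) := by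
    intro k hk hki b
    rcases hki.eq_or_lt with rfl | hki
    · exact h b
    · exact (comm (by omega) hi b).symm
  have sub : ∀ b, (show Set (Img V i) from M.f (i + 1) b) ⊆
      (show Set (Img V i) from M.f (i + 1) (M.r (i + 1) b)) := by
    intro b Y hY
    obtain ⟨c, hc1, rfl⟩ := exists_of_mem (by omega) hY
    have := Conn.map_comm (t := M.r (i + 1)) hc hc1
    rw [← M.fix (i + 1) hi i (by omega) (by omega) c, ← cfix this hi.le (by omega)]
    exact mem_succ (by omega) _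
  apply M.move (i + 1) hi a
  refine Set.Subset.antisymm ?_ (sub a)
  have := sub (M.r (i + 1) a)
  rwa [M.inv _ hi] at this

/-- The map `φ` carries the flag `a` of `M` to the flag `b` of `M'`. -/
def A (M : Man V n) (M' : Man W n) (φ : V → W) (a : M.Ω) (b : M'.Ω) : Prop :=
  ∀ j, j ≤ n → M'.f j b = Img.map φ j (M.f j a)

theorem A.unique {M' : Man W n} {φ : V → W} {a : M.Ω} {b b' : M'.Ω} (h : A M M' φ a b)
    (h' : A M M' φ a b') : b = b' :=
  ext fun j hj => by rw [h j hj.le, h' j hj.le]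

theorem A.comp {U : Type} {M' : Man W n} {M'' : Man U n} {φ : V → W} {ψ : W → U} {a : M.Ω}
    {b : M'.Ω} {c : M''.Ω} (h : A M M' φ a b) (h' : A M' M'' ψ b c) : A M M'' (ψ ∘ φ) a c :=
  fun j hj => by rw [h' j hj, h j hj, Img.map_comp]

theorem A.exists {M' : Man W n} {φ : V → W} {a : M.Ω} {b : M'.Ω}
    (h : M'.f n b = Img.map φ n (M.f n a)) (c : M.Ω) : ∃ d, A M M' φ c d := by
  refine chain (fun j => Img.map φ j (M.f j c)) b (by rw [h, top_eq c a]) fun j hj => ?_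
  exact Set.mem_image_of_mem _ (mem_succ hj c)

theorem A.exists' {M' : Man W n} {φ : V → W} {a : M.Ω} {b : M'.Ω}
    (h : A M M' φ a b) (c : M.Ω) : ∃ d, A M M' φ c d := A.exists (h n le_rfl) c

theorem A.r {M' : Man W n} {φ : V → W} (hφ : Function.Injective φ) {a : M.Ω} {b : M'.Ω}
    (h : A M M' φ a b) {i : ℕ} (hi : i < n) : A M M' φ (M.r i a) (M'.r i b) := by
  obtain ⟨d, hd⟩ := h.exists' (M.r i a)
  rcases adj (a := b) (b := d) (i := i) (fun j hj hji => by
    rw [h j hj.le, hd j hj.le, M.fix i hi j hj.le hji]) with rfl | rfl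
  · exact absurd (Img.map_injective hφ i ((hd i hi.le).symm.trans (h i hi.le))) (M.move i hi a)
  · exact hd

theorem A.conn {M' : Man W n} {φ : V → W} (hφ : Function.Injective φ) {a c : M.Ω} {b : M'.Ω}
    (h : A M M' φ a b) {I : ℕ → Prop} (hc : M.C I a c) : ∃ d, A M M' φ c d ∧ M'.C I b d := by
  refine Conn.induction (P := fun c => ∃ d, A M M' φ c d ∧ M'.C I b d) ⟨b, h, Conn.refl b⟩ ?_ hc
  rintro c i hi hI - ⟨d, hd, hd'⟩
  exact ⟨_, hd.r hφ hi, hd'.tail hi hI⟩

/-- A map fixing the vertices of the base `j`-face fixes all faces of the base flag up to rank `j`. -/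
theorem map_fix_of_vertices {φ : V → V} {j : ℕ} (hj : j ≤ n) {a : M.Ω}
    (h : ∀ b, M.C (· < j) a b → φ (M.vt b) = M.vt b) :
    ∀ i, i ≤ j → ∀ b, M.C (· < j) a b → Img.map φ i (M.f i b) = M.f i b := by
  intro i
  induction i with
  | zero => exact fun _ b hb => h b hb
  | succ i ih =>
    intro hi b hb
    have : ∀ Y ∈ (show Set (Img V i) from M.f (i + 1) b), Img.map φ i Y = Y := by
      intro Y hY
      obtain ⟨c, hc, rfl⟩ := exists_of_mem (by omega) hY
      exact ih (by omega) c (hb.trans (hc.mono fun k _ hk => by omega))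
    show Img.map φ i '' (M.f (i + 1) b) = M.f (i + 1) b
    rw [Set.image_congr this, Set.image_id']

/-- Two maps that agree on the vertices agree on all faces. -/
theorem map_congr {φ ψ : V → W} (h : ∀ b, φ (M.vt b) = ψ (M.vt b)) :
    ∀ i, i ≤ n → ∀ b, Img.map φ i (M.f i b) = Img.map ψ i (M.f i b) := by
  intro i
  induction i with
  | zero => exact fun _ b => h b
  | succ i ih =>
    intro hi b
    show Img.map φ i '' (M.f (i + 1) b) = Img.map ψ i '' (M.f (i + 1) b)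
    refine Set.image_congr fun Y hY => ?_
    obtain ⟨c, -, rfl⟩ := exists_of_mem (by omega) hY
    exact ih (by omega) c

theorem finite_of_vertices (h : (Set.range M.vt).Finite) : Finite M.Ω := by
  have key : ∀ j, j ≤ n → (Set.range (M.f j)).Finite := by
    intro j
    induction j with
    | zero => exact fun _ => h
    | succ j ih =>
      intro hj
      refine (ih (by omega)).finite_subsets.subset ?_
      rintro _ ⟨a, rfl⟩ Y hY
      obtain ⟨c, -, rfl⟩ := exists_of_mem (by omega) hY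
      exact ⟨c, rfl⟩
  have : ∀ j : Fin n, Finite (Set.range (M.f j)) := fun j => (key j j.2.le).to_subtype
  refine Finite.of_injective
    (fun a => (fun j : Fin n => (⟨M.f j a, a, rfl⟩ : Set.range (M.f j)))) fun a b hab => ?_
  refine ext fun j hj => ?_
  exact congrArg Subtype.val (congrFun hab ⟨j, hj⟩)

/-- Transport of a flag system along a map that is injective on the vertices. -/
def map (M : Man V n) (φ : V → W) (ψ : W → V) (h : ∀ a, ψ (φ (M.vt a)) = M.vt a) : Man W n :=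
  have key : ∀ j, j ≤ n → ∀ a, Img.map ψ j (Img.map φ j (M.f j a)) = M.f j a := fun j hj a => by
    rw [← Img.map_comp, map_congr (ψ := id) h j hj, Img.map_id]
  { Ω := M.Ω
    r := M.r
    f := fun j a => Img.map φ j (M.f j a)
    inv := M.inv
    fix := fun i hi j hj hji a => by rw [M.fix i hi j hj hji]
    move := fun i hi a e => M.move i hi a (by rw [← key i hi.le, e, key i hi.le])
    succ := fun j hj a => by
      rw [M.succ j hj, Img.map_succ]
      refine Set.ext fun Y => ?_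
      constructor
      · rintro ⟨_, ⟨b, hb, rfl⟩, rfl⟩
        exact ⟨b, hb, rfl⟩
      · rintro ⟨b, hb, rfl⟩
        exact ⟨_, ⟨b, hb, rfl⟩, rfl⟩
    sc := fun a b => (M.sc a b).mono fun i hi hne e =>
      hne (by rw [← key i hi.le, e, key i hi.le]) }

end Man

end Pool.Agent.MP_d6da41_co

end MrgPart0

-- ======== part 1: formerly Pool.Agent.MP_d6da41_co.Sym
section MrgPart1

/-! Chirality of flag systems, distinguished generators, Wythoff's construction. -/

namespace Pool.Agent.MP_d6da41_co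

open Relation

section GG
variable {Γ : Type} [Group Γ]

/-- The group generated by the `τ i * (τ k)⁻¹`, `a ≤ i, k < b`. -/
def GG (τ : ℕ → Γ) (a b : ℕ) : Subgroup Γ :=
  Subgroup.closure {x | ∃ i k, a ≤ i ∧ i < b ∧ a ≤ k ∧ k < b ∧ x = τ i * (τ k)⁻¹}

theorem mem_GG {τ : ℕ → Γ} {a b i k : ℕ} (h1 : a ≤ i) (h2 : i < b) (h3 : a ≤ k) (h4 : k < b) :
    τ i * (τ k)⁻¹ ∈ GG τ a b :=
  Subgroup.subset_closure ⟨i, k, h1, h2, h3, h4, rfl⟩

theorem GG_le {τ : ℕ → Γ} {a b : ℕ} {X : Subgroup Γ}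
    (h : ∀ i, a ≤ i → i + 1 < b → τ i * (τ (i + 1))⁻¹ ∈ X) : GG τ a b ≤ X := by
  have key : ∀ i, a ≤ i → ∀ k, i ≤ k → k < b → τ i * (τ k)⁻¹ ∈ X := by
    intro i hi k hk
    induction k, hk using Nat.le_induction with
    | base => intro _; rw [mul_inv_cancel]; exact X.one_mem
    | succ k hk ih =>
      intro hb
      have := X.mul_mem (ih (by omega)) (h k (by omega) hb)
      rwa [mul_assoc, inv_mul_cancel_left] at this
  rw [GG, Subgroup.closure_le]
  rintro _ ⟨i, k, h1, h2, h3, h4, rfl⟩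
  rcases le_total i k with hik | hik
  · exact key i h1 k hik h4
  · have := X.inv_mem (key k h3 i hik h2)
    rwa [mul_inv_rev, inv_inv] at this

theorem GG_mono {τ : ℕ → Γ} {a b a' b' : ℕ} (h1 : a' ≤ a) (h2 : b ≤ b') :
    GG τ a b ≤ GG τ a' b' :=
  GG_le fun i _ _ => mem_GG (by omega) (by omega) (by omega) (by omega)

theorem GG_trivial {τ : ℕ → Γ} {a b : ℕ} (h : b ≤ a + 1) {g : Γ} (hg : g ∈ GG τ a b) : g = 1 :=
  Subgroup.mem_bot.1 (GG_le (X := ⊥) (fun i _ _ => by omega) hg)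

theorem tau_mem_GG {τ : ℕ → Γ} {n a i : ℕ} (hl : τ (n - 1) = 1) (h1 : a ≤ i) (h2 : i < n) :
    τ i ∈ GG τ a n := by
  have := mem_GG (τ := τ) (a := a) (b := n) (i := i) (k := n - 1) h1 h2 (by omega) (by omega)
  rwa [hl, inv_one, mul_one] at this

theorem GG_le_of_tau {τ : ℕ → Γ} {a b : ℕ} {X : Subgroup Γ}
    (h : ∀ i, a ≤ i → i < b → τ i ∈ X) : GG τ a b ≤ X :=
  GG_le fun i h1 h2 => X.mul_mem (h i h1 (by omega)) (X.inv_mem (h _ (by omega) h2))

theorem GG_map {Γ' : Type} [Group Γ'] (θ : Γ →* Γ') (τ : ℕ → Γ) (a b : ℕ) :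
    GG (fun i => θ (τ i)) a b = (GG τ a b).map θ := by
  apply le_antisymm
  · exact GG_le fun i h1 h2 => ⟨_, mem_GG (i := i) (k := i + 1) h1 (by omega) (by omega) h2,
      by rw [map_mul, map_inv]⟩
  · rw [Subgroup.map_le_iff_le_comap]
    refine GG_le fun i h1 h2 => ?_
    rw [Subgroup.mem_comap, map_mul, map_inv]
    exact mem_GG (τ := fun i => θ (τ i)) h1 (by omega) (by omega) h2

end GG

section Wyth

theorem wyth_natural {V W : Type} {S : ℕ → V → V} {S' : ℕ → W → W} {φ : V → W} {n : ℕ}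
    (hS : ∀ i, 1 ≤ i → i < n → Function.Surjective (S i))
    (hS' : ∀ i, 1 ≤ i → i < n → Function.Injective (S' i))
    (h : ∀ i, 1 ≤ i → i < n → ∀ x, φ (S i x) = S' i (φ x)) (hn : 2 ≤ n) (v : V) :
    ∀ j, j ≤ n → Img.map φ j (wyth S v j) = wyth S' (φ v) j
  | 0, _ => rfl
  | 1, _ => by
    show φ '' {v, S 1 v} = {φ v, S' 1 (φ v)}
    rw [Set.image_pair, h 1 le_rfl (by omega)]
  | j + 2, hj => by
    have ih := wyth_natural hS hS' h hn v (j + 1) (by omega)
    have hc : ∀ i, 1 ≤ i → i ≤ j + 1 → ∀ A, Img.map φ (j + 1) (Img.map (S i) (j + 1) A)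
        = Img.map (S' i) (j + 1) (Img.map φ (j + 1) A) := by
      intro i h1 h2 A
      rw [← Img.map_comp, ← Img.map_comp]
      congr 1
      exact funext (h i h1 (by omega))
    have hsurj : ∀ i, 1 ≤ i → i ≤ j + 1 → ∀ B, ∃ A, B = Img.map (S i) (j + 1) A := by
      intro i h1 h2 B
      obtain ⟨t, ht⟩ := (hS i h1 (by omega)).hasRightInverse
      refine ⟨Img.map t (j + 1) B, ?_⟩
      rw [← Img.map_comp, ht.comp_eq_id, Img.map_id]
    show Img.map φ (j + 1) '' _ = _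
    refine Set.ext fun Y => ⟨?_, fun hY => ?_⟩
    · rintro ⟨X, hX, rfl⟩
      show EqvGen _ (wyth S' (φ v) (j + 1)) _
      rw [← ih]
      have hX' : EqvGen _ (wyth S v (j + 1)) X := hX
      generalize wyth S v (j + 1) = Z at hX'
      clear hX
      induction hX' with
      | rel A B hAB =>
        obtain ⟨i, h1, h2, rfl⟩ := hAB
        exact EqvGen.rel _ _ ⟨i, h1, h2, hc i h1 h2 A⟩
      | refl A => exact EqvGen.refl _
      | symm A B _ ih => exact EqvGen.symm _ _ ih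
      | trans A B C _ _ ih1 ih2 => exact EqvGen.trans _ _ _ ih1 ih2
    · have hY' : EqvGen _ (wyth S' (φ v) (j + 1)) Y := hY
      have key : ∀ A' B' : Img W (j + 1), EqvGen
          (fun A B => ∃ i, 1 ≤ i ∧ i ≤ j + 1 ∧ B = Img.map (S' i) (j + 1) A) A' B' →
          (∀ A, A' = Img.map φ (j + 1) A → ∃ B, B' = Img.map φ (j + 1) B ∧ EqvGen
            (fun A B => ∃ i, 1 ≤ i ∧ i ≤ j + 1 ∧ B = Img.map (S i) (j + 1) A) A B) ∧
          (∀ B, B' = Img.map φ (j + 1) B → ∃ A, A' = Img.map φ (j + 1) A ∧ EqvGen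
            (fun A B => ∃ i, 1 ≤ i ∧ i ≤ j + 1 ∧ B = Img.map (S i) (j + 1) A) B A) := by
        intro A' B' hAB
        induction hAB with
        | rel A' B' hAB =>
          obtain ⟨i, h1, h2, rfl⟩ := hAB
          constructor
          · rintro A rfl
            exact ⟨_, (hc i h1 h2 A).symm, EqvGen.rel _ _ ⟨i, h1, h2, rfl⟩⟩
          · intro B hB
            obtain ⟨A, rfl⟩ := hsurj i h1 h2 B
            rw [hc i h1 h2] at hB
            exact ⟨A, Img.map_injective (hS' i h1 (by omega)) _ hB,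
              EqvGen.symm _ _ (EqvGen.rel _ _ ⟨i, h1, h2, rfl⟩)⟩
        | refl A' => exact ⟨fun A h => ⟨A, h, EqvGen.refl _⟩, fun A h => ⟨A, h, EqvGen.refl _⟩⟩
        | symm A' B' _ ih => exact ⟨ih.2, ih.1⟩
        | trans A' B' C' _ _ ih1 ih2 =>
          constructor
          · intro A hA
            obtain ⟨B, hB, e1⟩ := ih1.1 A hA
            obtain ⟨C, hC, e2⟩ := ih2.1 B hB
            exact ⟨C, hC, EqvGen.trans _ _ _ e1 e2⟩
          · intro C hC
            obtain ⟨B, hB, e1⟩ := ih2.2 C hC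
            obtain ⟨A, hA, e2⟩ := ih1.2 B hB
            exact ⟨A, hA, EqvGen.trans _ _ _ e1 e2⟩
      obtain ⟨B, hB, e⟩ := (key _ _ hY').1 _ ih.symm
      exact ⟨B, e, hB.symm⟩

theorem wyth_congr {V : Type} {S S' : ℕ → V → V} {n : ℕ}
    (h : ∀ i, 1 ≤ i → i < n → S i = S' i) (hn : 2 ≤ n) (v : V) :
    ∀ j, j ≤ n → wyth S v j = wyth S' v j
  | 0, _ => rfl
  | 1, _ => by
    show ({v, S 1 v} : Set V) = {v, S' 1 v}
    rw [h 1 le_rfl (by omega)]
  | j + 2, hj => by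
    have ih := wyth_congr h hn v (j + 1) (by omega)
    have : (fun A B => ∃ i, 1 ≤ i ∧ i ≤ j + 1 ∧ B = Img.map (S i) (j + 1) A)
        = (fun A B => ∃ i, 1 ≤ i ∧ i ≤ j + 1 ∧ B = Img.map (S' i) (j + 1) A) := by
      funext A B
      refine propext ⟨?_, ?_⟩
      · rintro ⟨i, h1, h2, e⟩; exact ⟨i, h1, h2, by rw [← h i h1 (by omega)]; exact e⟩
      · rintro ⟨i, h1, h2, e⟩; exact ⟨i, h1, h2, by rw [h i h1 (by omega)]; exact e⟩
    show {Y | EqvGen _ (wyth S v (j + 1)) Y} = {Y | EqvGen _ (wyth S' v (j + 1)) Y}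
    rw [this, ih]

variable {V : Type} [MetricSpace V]

/-- The stabilizer of a point. -/
def stabI (x : V) : Subgroup (V ≃ᵢ V) where
  carrier := {g | g x = x}
  one_mem' := rfl
  mul_mem' := fun {g h} hg hh => by
    show g (h x) = x
    rw [show h x = x from hh]; exact hg
  inv_mem' := fun {g} hg => by
    show g.symm x = x
    conv_lhs => rw [← show g x = x from hg]
    exact g.symm_apply_apply x

theorem mem_stabI {x : V} {g : V ≃ᵢ V} : g ∈ stabI x ↔ g x = x := Iff.rfl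

/-- The distinguished generators as maps. -/
def sig (τ : ℕ → V ≃ᵢ V) (i : ℕ) : V → V := (τ (i - 1) * (τ i)⁻¹ : V ≃ᵢ V)

theorem eqvGen_iff (τ : ℕ → V ≃ᵢ V) (j m : ℕ) (X Y : Img V m) :
    EqvGen (fun A B => ∃ i, 1 ≤ i ∧ i ≤ j ∧ B = Img.map (sig τ i) m A) X Y ↔
      ∃ g ∈ GG τ 0 (j + 1), Y = Img.map g m X := by
  constructor
  · intro h
    induction h with
    | rel A B hAB =>
      obtain ⟨i, h1, h2, rfl⟩ := hAB
      exact ⟨_, mem_GG (i := i - 1) (k := i) (by omega) (by omega) (by omega) (by omega), rfl⟩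
    | refl A => exact ⟨1, one_mem _, (Img.map_one m A).symm⟩
    | symm A B _ ih =>
      obtain ⟨g, hg, rfl⟩ := ih
      exact ⟨g⁻¹, inv_mem hg, (Img.map_inv_self g m A).symm⟩
    | trans A B C _ _ ih1 ih2 =>
      obtain ⟨g, hg, rfl⟩ := ih1
      obtain ⟨h, hh, rfl⟩ := ih2
      exact ⟨h * g, mul_mem hh hg, (Img.map_mul h g m A).symm⟩
  · rintro ⟨g, hg, rfl⟩
    let Z : Subgroup (V ≃ᵢ V) :=
      { carrier := {g | ∀ X, EqvGen (fun A B => ∃ i, 1 ≤ i ∧ i ≤ j ∧ B = Img.map (sig τ i) m A)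
          X (Img.map g m X)}
        one_mem' := fun X => by rw [Img.map_one]; exact EqvGen.refl _
        mul_mem' := fun {g h} hg hh X => by
          rw [Img.map_mul]; exact EqvGen.trans _ _ _ (hh X) (hg _)
        inv_mem' := fun {g} hg X => by
          have := hg (Img.map (g⁻¹ : V ≃ᵢ V) m X)
          rw [Img.map_self_inv] at this
          exact EqvGen.symm _ _ this }
    have : GG τ 0 (j + 1) ≤ Z := GG_le fun i _ h2 X =>
      EqvGen.rel _ _ ⟨i + 1, by omega, by omega, rfl⟩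
    exact this hg X

end Wyth

namespace Man

variable {V : Type} [MetricSpace V] {n : ℕ} {M : Man V n}

/-- The isometry `g` carries the flag `a` to the flag `b`. -/
abbrev B (M : Man V n) (g : V ≃ᵢ V) (a b : M.Ω) : Prop := A M M g a b

theorem B.one (a : M.Ω) : M.B 1 a a := fun j _ => (Img.map_one j _).symm

theorem B.mul {g h : V ≃ᵢ V} {a b c : M.Ω} (h1 : M.B h a b) (h2 : M.B g b c) :
    M.B (g * h) a c := A.comp (φ := h) (ψ := g) h1 h2

theorem B.inv {g : V ≃ᵢ V} {a b : M.Ω} (h : M.B g a b) : M.B g⁻¹ b a :=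
  fun j hj => by rw [h j hj, Img.map_inv_self]

theorem B.r' {g : V ≃ᵢ V} {a b : M.Ω} (h : M.B g a b) {i : ℕ} (hi : i < n) :
    M.B g (M.r i a) (M.r i b) := A.r g.injective h hi

theorem B.vertex {g : V ≃ᵢ V} {a b : M.Ω} (h : M.B g a b) : M.vt b = g (M.vt a) :=
  h 0 (Nat.zero_le n)

theorem B.all {g : V ≃ᵢ V} {a : M.Ω} (h : M.B g a a) (b : M.Ω) : M.B g b b :=
  Conn.induction (P := fun b => M.B g b b) h (fun _ _ hi _ _ hb => hb.r' hi) (conn_all a b)

theorem B.of_vertices {g : V ≃ᵢ V} (h : ∀ b, g (M.vt b) = M.vt b) (b : M.Ω) : M.B g b b :=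
  fun j hj => by rw [map_congr (ψ := id) h j hj, Img.map_id]

/-- Chirality. -/
structure Chi (M : Man V n) : Prop where
  pos : 0 < n
  adj : ∀ a i, i < n → ∀ g, ¬ M.B g a (M.r i a)
  two : ∀ a b c, (∃ g, M.B g a b) ∨ (∃ g, M.B g a c) ∨ ∃ g, M.B g b c

/-- Distinguished generators for the base flag `a`. -/
structure Base (M : Man V n) (a : M.Ω) (τ : ℕ → V ≃ᵢ V) : Prop where
  act : ∀ i, i < n → M.B (τ i) a (M.r (n - 1) (M.r i a))
  last : τ (n - 1) = 1

theorem Chi.exists_base (h : M.Chi) (a : M.Ω) : ∃ τ, M.Base a τ := by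
  have hn := h.pos
  have : ∀ i, ∃ g : V ≃ᵢ V, (i < n → M.B g a (M.r (n - 1) (M.r i a))) ∧ (i = n - 1 → g = 1) := by
    intro i
    by_cases e : i = n - 1
    · refine ⟨1, fun _ => ?_, fun _ => rfl⟩
      rw [e, M.inv _ (by omega)]; exact B.one a
    by_cases hi : i < n
    · rcases h.two a (M.r i a) (M.r (n - 1) (M.r i a)) with ⟨g, hg⟩ | ⟨g, hg⟩ | ⟨g, hg⟩
      · exact absurd hg (h.adj a i hi g)
      · exact ⟨g, fun _ => hg, fun e' => absurd e' e⟩
      · exact absurd hg (h.adj _ _ (by omega) g)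
    · exact ⟨1, fun h => absurd h hi, fun _ => rfl⟩
  choose τ hτ using this
  exact ⟨τ, fun i hi => (hτ i).1 hi, (hτ _).2 rfl⟩

variable {a : M.Ω} {τ : ℕ → V ≃ᵢ V}

theorem Base.act_inv (h : M.Base a τ) {i : ℕ} (hi : i < n) :
    M.B (τ i)⁻¹ a (M.r i (M.r (n - 1) a)) := by
  have := ((h.act i hi).inv.r' (i := n - 1) (by omega)).r' hi
  rwa [M.inv _ (by omega), M.inv _ hi] at this

theorem Base.swap (h : M.Base a τ) (hn : 0 < n) : M.Base (M.r (n - 1) a) (fun i => (τ i)⁻¹) :=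
  ⟨fun i hi => (h.act_inv hi).r' (by omega), by simp [h.last]⟩

theorem Base.act2 (h : M.Base a τ) {i k : ℕ} (hi : i < n) (hk : k < n) :
    M.B (τ i * (τ k)⁻¹) a (M.r k (M.r i a)) := by
  have := ((h.act i hi).r' (i := n - 1) (by omega)).r' hk
  rw [M.inv _ (by omega)] at this
  exact (h.act_inv hk).mul this

theorem Base.of_mem (h : M.Base a τ) {s t : ℕ} (ht : t ≤ n) {g : V ≃ᵢ V} (hg : g ∈ GG τ s t) :
    ∃ b, M.B g a b ∧ M.C (fun i => s ≤ i ∧ i < t) a b := by
  let Z : Subgroup (V ≃ᵢ V) :=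
    { carrier := {g | ∃ b, M.B g a b ∧ M.C (fun i => s ≤ i ∧ i < t) a b}
      one_mem' := ⟨a, B.one a, Conn.refl a⟩
      mul_mem' := by
        rintro g h ⟨b, hb, hb'⟩ ⟨c, hc, hc'⟩
        obtain ⟨d, hd, hd'⟩ := A.conn g.injective hb hc'
        exact ⟨d, hc.mul hd, hb'.trans hd'⟩
      inv_mem' := by
        rintro g ⟨b, hb, hb'⟩
        obtain ⟨d, hd, hd'⟩ := A.conn (g⁻¹).injective hb.inv (csymm hb')
        exact ⟨d, hd, hd'⟩ }
  have : GG τ s t ≤ Z := GG_le fun i h1 h2 =>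
    ⟨_, h.act2 (by omega) (by omega), ((Conn.refl a).tail (by omega) (by omega)).tail
      (by omega) (by omega)⟩
  exact this hg

theorem Base.path (h : M.Base a τ) {s t : ℕ} {b : M.Ω} (hb : M.C (fun i => s ≤ i ∧ i < t) a b) :
    ∃ g ∈ GG τ s t, M.B g a b ∨ ∃ k, k < n ∧ s ≤ k ∧ k < t ∧ M.B g (M.r k a) b := by
  refine Conn.induction (P := fun b => ∃ g ∈ GG τ s t, M.B g a b ∨
    ∃ k, k < n ∧ s ≤ k ∧ k < t ∧ M.B g (M.r k a) b) ⟨1, one_mem _, Or.inl (B.one a)⟩ ?_ hb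
  rintro b i hi hI - ⟨g, hg, hb | ⟨k, hk, h1, h2, hb⟩⟩
  · exact ⟨g, hg, Or.inr ⟨i, hi, hI.1, hI.2, hb.r' hi⟩⟩
  · exact ⟨g * (τ k * (τ i)⁻¹), mul_mem hg (mem_GG h1 h2 hI.1 hI.2),
      Or.inl ((h.act2 hk hi).mul (hb.r' hi))⟩

theorem Base.stab (h : M.Base a τ) (hc : M.Chi) {s t : ℕ} {b : M.Ω} {g : V ≃ᵢ V}
    (hg : M.B g a b) (hb : M.C (fun i => s ≤ i ∧ i < t) a b) : ∃ g' ∈ GG τ s t, M.B g' a b := by
  obtain ⟨g', hg', hb' | ⟨k, hk, -, -, hb'⟩⟩ := h.path hb
  · exact ⟨g', hg', hb'⟩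
  · exact absurd (hg.mul hb'.inv) (hc.adj a k hk _)

theorem Base.orbits (h : M.Base a τ) (hn : 0 < n) (b : M.Ω) :
    ∃ g ∈ GG τ 0 n, M.B g a b ∨ M.B g (M.r (n - 1) a) b := by
  obtain ⟨g, hg, hb | ⟨k, hk, -, -, hb⟩⟩ := h.path (s := 0) (t := n) (b := b)
    ((conn_all a b).mono fun i hi _ => ⟨Nat.zero_le i, hi⟩)
  · exact ⟨g, hg, Or.inl hb⟩
  · refine ⟨g * τ k, mul_mem hg (tau_mem_GG h.last (Nat.zero_le k) hk), Or.inr ?_⟩
    have := (h.act k hk).r' (i := n - 1) (by omega)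
    rw [M.inv _ (by omega)] at this
    exact this.mul hb

theorem Base.vertices (h : M.Base a τ) (hn : 2 ≤ n) (b : M.Ω) :
    ∃ g ∈ GG τ 0 n, M.vt b = g (M.vt a) := by
  obtain ⟨g, hg, hb | hb⟩ := h.orbits (by omega) b
  · exact ⟨g, hg, hb.vertex⟩
  · exact ⟨g, hg, by rw [hb.vertex, vt_r (by omega) (by omega)]⟩

theorem Base.vertex_mem (h : M.Base a τ) {g : V ≃ᵢ V} (hg : g ∈ GG τ 0 n) :
    ∃ b, M.vt b = g (M.vt a) := by
  obtain ⟨b, hb, -⟩ := h.of_mem le_rfl hg
  exact ⟨b, hb.vertex⟩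

theorem Base.fix_vertex (h : M.Base a τ) (hn : 2 ≤ n) {i : ℕ} (h1 : 1 ≤ i) (hi : i < n) :
    τ i (M.vt a) = M.vt a := by
  rw [← (h.act i hi).vertex, vt_r (by omega) (by omega), vt_r h1 hi]

theorem Base.move_vertex (h : M.Base a τ) (hn : 2 ≤ n) : τ 0 (M.vt a) ≠ M.vt a := by
  rw [← (h.act 0 (by omega)).vertex, vt_r (by omega) (by omega)]
  exact M.move 0 (by omega) a

/-- No digons. -/
theorem Base.digon (h : M.Base a τ) {i : ℕ} (hi : i + 1 < n) :
    ¬ M.B (τ i * (τ (i + 1))⁻¹ * (τ i * (τ (i + 1))⁻¹)) a a := by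
  intro hB
  have h1 := h.act2 (i := i) (k := i + 1) (by omega) hi
  have h2 := (h1.r' (i := i) (by omega)).r' hi
  have h3 : M.r (i + 1) (M.r i (M.r (i + 1) (M.r i a))) = a := A.unique (h1.mul h2) hB
  have P : ∀ c, M.r (i + 1) (M.r i c) = M.r i (M.r (i + 1) c) → ∀ g b, M.B g c b →
      M.r (i + 1) (M.r i b) = M.r i (M.r (i + 1) b) := by
    intro c hc g b hb
    have e1 := (hb.r' (i := i) (by omega)).r' hi
    have e2 := (hb.r' hi).r' (i := i) (by omega)
    rw [hc] at e1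
    exact A.unique e1 e2
  have ha : M.r (i + 1) (M.r i a) = M.r i (M.r (i + 1) a) := by
    have := congrArg (fun x => M.r i (M.r (i + 1) x)) h3
    simp only [M.inv _ hi, M.inv i (by omega)] at this
    exact this
  have ha' : M.r (i + 1) (M.r i (M.r i a)) = M.r i (M.r (i + 1) (M.r i a)) := by
    rw [ha, M.inv i (by omega), M.inv i (by omega)]
  refine not_comm hi a fun b => ?_
  obtain ⟨g, -, hb | hb⟩ := h.orbits (by omega) b
  · exact P a ha g b hb
  · have := (h.act_inv (i := i) (by omega)).r' (i := i) (by omega)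
    rw [M.inv i (by omega)] at this
    exact P _ ha' _ b (this.mul hb)

/-- Wythoff's construction recovers the faces of the base flag. -/
theorem Base.wyth (h : M.Base a τ) (hn : 2 ≤ n) :
    ∀ j, j ≤ n → M.f j a = wyth (sig τ) (M.vt a) j
  | 0, _ => rfl
  | 1, _ => by
    rw [M.succ 0 (by omega)]
    have e : sig τ 1 (M.vt a) = M.vt (M.r 0 a) := by
      have := (h.act2 (i := 0) (k := 1) (by omega) (by omega)).vertex
      rw [vt_r (by omega) (by omega)] at this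
      exact this.symm
    show _ = ({M.vt a, sig τ 1 (M.vt a)} : Set V)
    rw [e]
    refine Set.ext fun Y => ⟨?_, ?_⟩
    · rintro ⟨b, hb, rfl⟩
      rcases Conn.of_single M.inv (k := 0) (fun i _ hi => by omega) hb with rfl | rfl
      · exact Or.inl rfl
      · exact Or.inr rfl
    · rintro (rfl | rfl)
      · exact ⟨a, Conn.refl a, rfl⟩
      · exact ⟨_, Conn.step a (by omega) le_rfl, rfl⟩
  | j + 2, hj => by
    rw [M.succ (j + 1) (by omega)]
    show _ = {Y | EqvGen _ (MP_d6da41_co.wyth (sig τ) (M.vt a) (j + 1)) Y}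
    rw [← Base.wyth h hn (j + 1) (by omega)]
    refine Set.ext fun Y => ?_
    rw [Set.mem_ofPred_eq, Set.mem_ofPred_eq, eqvGen_iff]
    constructor
    · rintro ⟨b, hb, rfl⟩
      obtain ⟨g, hg, hb' | ⟨k, hk, -, h2, hb'⟩⟩ := h.path (s := 0) (t := j + 2)
        (hb.mono fun i _ hi => ⟨Nat.zero_le i, by omega⟩)
      · exact ⟨g, hg, hb' _ (by omega)⟩
      · by_cases e : k = j + 1
        · subst e
          have e1 := h.act2 (i := j + 1) (k := 0) hk (by omega) (j + 1) (by omega)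
          rw [M.fix 0 (by omega) _ (by omega) (by omega)] at e1
          refine ⟨g * (τ (j + 1) * (τ 0)⁻¹), mul_mem hg
            (mem_GG (by omega) (by omega) (by omega) (by omega)), ?_⟩
          rw [hb' _ (by omega), e1, ← Img.map_mul]
        · refine ⟨g, hg, ?_⟩
          rw [hb' _ (by omega), M.fix k hk _ (by omega) (Ne.symm e)]
    · rintro ⟨g, hg, rfl⟩
      obtain ⟨b, hb, hb'⟩ := h.of_mem hj hg
      exact ⟨b, hb'.mono fun i _ hi => by omega, hb _ (by omega)⟩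

/-- A mirror contradicts chirality. -/
theorem Base.no_mirror (h : M.Base a τ) (hc : M.Chi) (hn : 2 ≤ n) (R : V ≃ᵢ V)
    (hv : R (M.vt a) = M.vt a) (hR : ∀ i, i + 1 < n → R * τ i * R⁻¹ = (τ i)⁻¹) : False := by
  have hR' : ∀ i, i < n → R * τ i * R⁻¹ = (τ i)⁻¹ := by
    intro i hi
    by_cases e : i = n - 1
    · rw [e, h.last]; simp
    · exact hR i (by omega)
  refine hc.adj a (n - 1) (by omega) R fun j hj => ?_
  rw [(h.swap (by omega)).wyth hn j hj, h.wyth hn j hj,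
    vt_r (by omega) (by omega),
    wyth_natural (S := sig τ) (S' := sig fun i => (τ i)⁻¹) (φ := R) (n := n)
      (fun i _ _ => (τ (i - 1) * (τ i)⁻¹).surjective)
      (fun i _ _ => ((τ (i - 1))⁻¹ * (τ i)⁻¹⁻¹).injective) ?_ hn _ j hj, hv]
  intro i h1 hi x
  have : R * (τ (i - 1) * (τ i)⁻¹) = ((τ (i - 1))⁻¹ * (τ i)⁻¹⁻¹) * R := by
    have e1 := hR' (i - 1) (by omega)
    have e2 := hR' i hi
    generalize τ (i - 1) = y at e1 ⊢
    generalize τ i = z at e2 ⊢
    have e3 : R * z⁻¹ * R⁻¹ = z := by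
      have := congrArg Inv.inv e2
      simpa [mul_assoc] using this
    calc R * (y * z⁻¹) = (R * y * R⁻¹) * (R * z⁻¹ * R⁻¹) * R := by group
      _ = _ := by rw [e1, e3, inv_inv]
  exact congrArg (fun g : V ≃ᵢ V => g x) this

end Man

end Pool.Agent.MP_d6da41_co

end MrgPart1

-- ======== part 2: formerly Pool.Agent.MP_d6da41_co.Bridge1
section MrgPart2

/-! From a chiral realization of an abstract polytope to a flag system. -/

namespace Pool.Agent.MP_d6da41_co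

open Relation

namespace IsPolytope

variable {F : Type} [PartialOrder F] {rk : F → ℤ} {n : ℕ} (hP : IsPolytope n F rk)
include hP

theorem rk_mem (x : F) : -1 ≤ rk x ∧ rk x ≤ n := by
  have : rk x ∈ Set.range rk := ⟨x, rfl⟩
  rwa [hP.range_eq] at this

theorem flag_le {Φ : Flag F} {x y : F} (hx : x ∈ Φ) (hy : y ∈ Φ) (h : rk x ≤ rk y) : x ≤ y := by
  rcases Φ.le_or_le hx hy with h' | h'
  · exact h'
  · rcases h'.eq_or_lt with rfl | h''
    · exact le_rfl
    · exact absurd (hP.strictMono h'') (not_lt.2 h)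

theorem flag_eq {Φ : Flag F} {x y : F} (hx : x ∈ Φ) (hy : y ∈ Φ) (h : rk x = rk y) : x = y :=
  le_antisymm (hP.flag_le hx hy h.le) (hP.flag_le hy hx h.ge)

theorem exists_face (Φ : Flag F) {j : ℤ} (h1 : -1 ≤ j) (h2 : j ≤ n) : ∃ x, x ∈ Φ ∧ rk x = j := by
  have hinj : Set.InjOn rk (Φ : Set F) := fun x hx y hy h => hP.flag_eq hx hy h
  have hsub : rk '' (Φ : Set F) ⊆ Set.Icc (-1) (n : ℤ) := by
    rintro _ ⟨x, -, rfl⟩; exact hP.rk_mem x
  have hc : (Set.Icc (-1) (n : ℤ)).ncard ≤ (rk '' (Φ : Set F)).ncard := by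
    rw [hinj.ncard_image, hP.flag_card, ← Finset.coe_Icc, Set.ncard_coe_finset, Int.card_Icc]
    omega
  have := Set.eq_of_subset_of_ncard_le hsub hc (Set.finite_Icc _ _)
  have hj : j ∈ rk '' (Φ : Set F) := by rw [this]; exact ⟨h1, h2⟩
  exact hj

omit hP in
open Classical in
/-- the face of rank `j` in a flag -/
noncomputable def face (hP : IsPolytope n F rk) (Φ : Flag F) (j : ℤ) : F :=
  if h : -1 ≤ j ∧ j ≤ n then (hP.exists_face Φ h.1 h.2).choose else hP.least.choose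

theorem face_spec (Φ : Flag F) {j : ℤ} (h1 : -1 ≤ j) (h2 : j ≤ n) :
    hP.face Φ j ∈ Φ ∧ rk (hP.face Φ j) = j := by
  rw [face, dif_pos ⟨h1, h2⟩]
  exact (hP.exists_face Φ h1 h2).choose_spec

theorem face_eq {Φ : Flag F} {x : F} (hx : x ∈ Φ) {j : ℤ} (hj : rk x = j) : hP.face Φ j = x := by
  have := hP.face_spec Φ (j := j) (hj ▸ (hP.rk_mem x).1) (hj ▸ (hP.rk_mem x).2)
  exact hP.flag_eq this.1 hx (this.2.trans hj.symm)

theorem face_le (Φ : Flag F) {j k : ℤ} (h1 : -1 ≤ j) (h : j ≤ k) (h2 : k ≤ n) :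
    hP.face Φ j ≤ hP.face Φ k := by
  have a := hP.face_spec Φ h1 (h.trans h2)
  have b := hP.face_spec Φ (h1.trans h) h2
  exact hP.flag_le a.1 b.1 (by rw [a.2, b.2]; exact h)

theorem face_lt (Φ : Flag F) {j k : ℤ} (h1 : -1 ≤ j) (h : j < k) (h2 : k ≤ n) :
    hP.face Φ j < hP.face Φ k := by
  refine lt_of_le_of_ne (hP.face_le Φ h1 h.le h2) fun e => ?_
  have a := hP.face_spec Φ h1 (h.le.trans h2)
  have b := hP.face_spec Φ (h1.trans h.le) h2
  rw [e, b.2] at a
  omega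

theorem flag_ext {Φ Ψ : Flag F} (h : ∀ j : ℤ, -1 ≤ j → j ≤ n → hP.face Φ j = hP.face Ψ j) :
    Φ = Ψ := by
  have key : ∀ Φ Ψ : Flag F, (∀ j : ℤ, -1 ≤ j → j ≤ n → hP.face Φ j = hP.face Ψ j) →
      ∀ x, x ∈ Φ → x ∈ Ψ := by
    intro Φ Ψ h x hx
    have := hP.rk_mem x
    rw [← hP.face_eq hx rfl, h _ this.1 this.2]
    exact (hP.face_spec Ψ this.1 this.2).1
  exact SetLike.ext fun x => ⟨key Φ Ψ h x, key Ψ Φ (fun j h1 h2 => (h j h1 h2).symm) x⟩

theorem eq_of_rk_bot {x y : F} (hx : rk x = -1) (hy : rk y = -1) : x = y := by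
  obtain ⟨b, hb⟩ := hP.least
  have key : ∀ x, rk x = -1 → b = x := fun x hx => by
    by_contra hne
    have := hP.strictMono (lt_of_le_of_ne (hb x) hne)
    have := (hP.rk_mem b).1
    omega
  rw [← key x hx, key y hy]

theorem eq_of_rk_top {x y : F} (hx : rk x = n) (hy : rk y = n) : x = y := by
  obtain ⟨b, hb⟩ := hP.greatest
  have key : ∀ x, rk x = n → x = b := fun x hx => by
    by_contra hne
    have := hP.strictMono (lt_of_le_of_ne (hb x) hne)
    have := (hP.rk_mem b).2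
    omega
  rw [key x hx, key y hy]

theorem build (Φ Ψ : Flag F) {a b : ℤ} (ha : -1 ≤ a) (hab : a ≤ b) (hb : b ≤ n) {y y' : F}
    (h1 : hP.face Ψ a ≤ y) (h2 : y ≤ y') (h3 : y' ≤ hP.face Φ b) :
    ∃ Θ : Flag F, y ∈ Θ ∧ y' ∈ Θ ∧ (∀ j : ℤ, -1 ≤ j → j ≤ a → hP.face Θ j = hP.face Ψ j) ∧
      ∀ j : ℤ, b ≤ j → j ≤ n → hP.face Θ j = hP.face Φ j := by
  have lo : ∀ x, x ∈ Ψ → rk x ≤ a → x ≤ y := fun x hx h => by
    rw [← hP.face_eq hx rfl]
    exact (hP.face_le Ψ (hP.rk_mem x).1 h (hab.trans hb)).trans h1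
  have hi : ∀ x, x ∈ Φ → b ≤ rk x → y' ≤ x := fun x hx h => by
    rw [← hP.face_eq hx rfl]
    exact h3.trans (hP.face_le Φ (ha.trans hab) h (hP.rk_mem x).2)
  have hc : IsChain (· ≤ ·)
      {x | (x ∈ Ψ ∧ rk x ≤ a) ∨ x = y ∨ x = y' ∨ (x ∈ Φ ∧ b ≤ rk x)} := by
    rintro u (hu | rfl | rfl | hu) w (hw | rfl | rfl | hw) -
    · exact Ψ.le_or_le hu.1 hw.1
    · exact Or.inl (lo u hu.1 hu.2)
    · exact Or.inl ((lo u hu.1 hu.2).trans h2)
    · exact Or.inl (((lo u hu.1 hu.2).trans h2).trans (hi w hw.1 hw.2))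
    · exact Or.inr (lo w hw.1 hw.2)
    · exact Or.inl le_rfl
    · exact Or.inl h2
    · exact Or.inl (h2.trans (hi w hw.1 hw.2))
    · exact Or.inr ((lo w hw.1 hw.2).trans h2)
    · exact Or.inr h2
    · exact Or.inl le_rfl
    · exact Or.inl (hi w hw.1 hw.2)
    · exact Or.inr (((lo w hw.1 hw.2).trans h2).trans (hi u hu.1 hu.2))
    · exact Or.inr (h2.trans (hi u hu.1 hu.2))
    · exact Or.inr (hi u hu.1 hu.2)
    · exact Φ.le_or_le hu.1 hw.1
  obtain ⟨Θ, hΘ⟩ := hc.exists_subset_flag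
  refine ⟨Θ, hΘ (Or.inr (Or.inl rfl)), hΘ (Or.inr (Or.inr (Or.inl rfl))), fun j h4 h5 => ?_,
    fun j h4 h5 => ?_⟩
  · have := hP.face_spec Ψ h4 (by omega)
    exact hP.face_eq (hΘ (Or.inl ⟨this.1, by omega⟩)) this.2
  · have := hP.face_spec Φ (j := j) (by omega) h5
    exact hP.face_eq (hΘ (Or.inr (Or.inr (Or.inr ⟨this.1, by omega⟩)))) this.2

/-- `Ψ` is `i`-adjacent to `Φ`. -/
def Adj (Φ : Flag F) (i : ℤ) (Ψ : Flag F) : Prop :=
  (∀ j : ℤ, -1 ≤ j → j ≤ n → j ≠ i → hP.face Ψ j = hP.face Φ j) ∧ hP.face Ψ i ≠ hP.face Φ i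

theorem face_mem_Ioo {Φ Ψ : Flag F} {a b c : ℤ} (ha : -1 ≤ a) (h1 : a < c) (h2 : c < b)
    (hb : b ≤ n) (e1 : hP.face Ψ a = hP.face Φ a) (e2 : hP.face Ψ b = hP.face Φ b) :
    hP.face Ψ c ∈ Set.Ioo (hP.face Φ a) (hP.face Φ b) := by
  rw [← e1, ← e2]
  exact ⟨hP.face_lt Ψ ha h1 (by omega), hP.face_lt Ψ (by omega) h2 hb⟩

theorem rk_Ioo {Φ : Flag F} {a b : ℤ} (ha : -1 ≤ a) (hab : a ≤ b) (hb : b ≤ n) {y : F}
    (hy : y ∈ Set.Ioo (hP.face Φ a) (hP.face Φ b)) : a < rk y ∧ rk y < b := by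
  have h1 := hP.strictMono hy.1
  have h2 := hP.strictMono hy.2
  rw [(hP.face_spec Φ ha (by omega)).2] at h1
  rw [(hP.face_spec Φ (by omega) hb).2] at h2
  exact ⟨h1, h2⟩

theorem existsUnique_adj (Φ : Flag F) {i : ℤ} (h0 : 0 ≤ i) (hi : i < n) :
    ∃! Ψ, hP.Adj Φ i Ψ := by
  have hd := hP.diamond (hP.face Φ (i - 1)) (hP.face Φ (i + 1))
    (hP.face_le Φ (by omega) (by omega) (by omega))
    (by rw [(hP.face_spec Φ (by omega) (by omega)).2, (hP.face_spec Φ (by omega) (by omega)).2]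
        omega)
  have hm : ∀ Ψ, hP.face Ψ (i - 1) = hP.face Φ (i - 1) → hP.face Ψ (i + 1) = hP.face Φ (i + 1) →
      hP.face Ψ i ∈ Set.Ioo (hP.face Φ (i - 1)) (hP.face Φ (i + 1)) := fun Ψ e1 e2 =>
    hP.face_mem_Ioo (by omega) (by omega) (by omega) (by omega) e1 e2
  obtain ⟨y, hy, hS⟩ : ∃ y, y ≠ hP.face Φ i ∧
      Set.Ioo (hP.face Φ (i - 1)) (hP.face Φ (i + 1)) = {hP.face Φ i, y} := by
    obtain ⟨u, w, huw, hS⟩ := Set.ncard_eq_two.1 hd
    have := hm Φ rfl rfl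
    rw [hS] at this
    rcases this with h | h
    · exact ⟨w, by rw [h]; exact huw.symm, by rw [h, hS]⟩
    · exact ⟨u, by rw [h]; exact huw, by rw [hS, Set.mem_singleton_iff.1 h, Set.pair_comm]⟩
  have hyI : y ∈ Set.Ioo (hP.face Φ (i - 1)) (hP.face Φ (i + 1)) := by
    rw [hS]; exact Or.inr rfl
  have hr := hP.rk_Ioo (by omega) (by omega) (by omega) hyI
  have key : ∀ Ψ, hP.Adj Φ i Ψ → hP.face Ψ i = y := by
    intro Ψ hΨ
    have := hm Ψ (hΨ.1 _ (by omega) (by omega) (by omega)) (hΨ.1 _ (by omega) (by omega) (by omega))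
    rw [hS] at this
    exact this.resolve_left hΨ.2
  obtain ⟨Θ, hΘ, -, h1, h2⟩ := hP.build Φ Φ (a := i - 1) (b := i + 1) (by omega) (by omega)
    (by omega) hyI.1.le le_rfl hyI.2.le
  have hA : hP.Adj Φ i Θ := by
    refine ⟨fun j h3 h4 h5 => ?_, ?_⟩
    · rcases lt_or_gt_of_ne h5 with h | h
      · exact h1 j h3 (by omega)
      · exact h2 j (by omega) h4
    · rw [hP.face_eq hΘ (by omega)]; exact hy
  refine ⟨Θ, hA, fun Ψ hΨ => hP.flag_ext fun j h3 h4 => ?_⟩
  by_cases e : j = i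
  · rw [e, key Ψ hΨ, key Θ hA]
  · rw [hΨ.1 j h3 h4 e, hA.1 j h3 h4 e]

omit hP in
open Classical in
/-- the `i`-adjacent flag -/
noncomputable def r (hP : IsPolytope n F rk) (i : ℕ) (Φ : Flag F) : Flag F :=
  if h : ∃ Ψ, hP.Adj Φ i Ψ then h.choose else Φ

theorem r_adj {i : ℕ} (hi : i < n) (Φ : Flag F) : hP.Adj Φ i (hP.r i Φ) := by
  have h := (hP.existsUnique_adj Φ (i := i) (by omega) (by omega)).exists
  rw [r, dif_pos h]
  exact h.choose_spec

theorem eq_r {i : ℕ} (hi : i < n) {Φ Ψ : Flag F} (h : hP.Adj Φ i Ψ) : Ψ = hP.r i Φ :=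
  (hP.existsUnique_adj Φ (i := i) (by omega) (by omega)).unique h (hP.r_adj hi Φ)

theorem r_r {i : ℕ} (hi : i < n) (Φ : Flag F) : hP.r i (hP.r i Φ) = Φ :=
  (hP.eq_r hi ⟨fun j h1 h2 h3 => ((hP.r_adj hi Φ).1 j h1 h2 h3).symm,
    (hP.r_adj hi Φ).2.symm⟩).symm

theorem sc_aux (m : ℕ) : ∀ a b : ℤ, -1 ≤ a → a < b → b ≤ n → b - a ≤ m → ∀ Φ Ψ : Flag F,
    (∀ j : ℤ, -1 ≤ j → j ≤ n → (j ≤ a ∨ b ≤ j) → hP.face Φ j = hP.face Ψ j) →
    Conn hP.r n (fun i => hP.face Φ i ≠ hP.face Ψ i) Φ Ψ := by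
  induction m with
  | zero => intro a b _ _ _ _; omega
  | succ m ih =>
    intro a b ha hab hb hm
    have split : ∀ Φ Ψ : Flag F,
        (∀ j : ℤ, -1 ≤ j → j ≤ n → (j ≤ a ∨ b ≤ j) → hP.face Φ j = hP.face Ψ j) →
        ∀ c, a < c → c < b → hP.face Φ c = hP.face Ψ c →
        Conn hP.r n (fun i => hP.face Φ i ≠ hP.face Ψ i) Φ Ψ := by
      intro Φ Ψ h c h1 h2 e
      obtain ⟨Θ, -, -, h3, h4⟩ := hP.build Φ Ψ (a := c) (b := c) (by omega) le_rfl (by omega)
        le_rfl le_rfl e.ge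
      have c1 := ih a c ha h1 (by omega) (by omega) Φ Θ (fun j h5 h6 h7 => by
        rcases h7 with h7 | h7
        · rw [h3 j h5 (by omega), h j h5 h6 (Or.inl h7)]
        · rw [h4 j h7 h6])
      have c2 := ih c b (by omega) h2 hb (by omega) Θ Ψ (fun j h5 h6 h7 => by
        rcases h7 with h7 | h7
        · rw [h3 j h5 h7]
        · rw [h4 j (by omega) h6, h j h5 h6 (Or.inr h7)])
      refine (c1.mono fun i hi hne e' => hne ?_).trans (c2.mono fun i hi hne e' => hne ?_)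
      · rcases le_total (i : ℤ) c with h | h
        · rw [h3 i (by omega) h, e']
        · rw [h4 i h (by omega)]
      · rcases le_total (i : ℤ) c with h | h
        · rw [h3 i (by omega) h]
        · rw [h4 i h (by omega), e']
    intro Φ Ψ h
    by_cases hc : ∃ c, a < c ∧ c < b ∧ hP.face Φ c = hP.face Ψ c
    · obtain ⟨c, h1, h2, e⟩ := hc
      exact split Φ Ψ h c h1 h2 e
    push Not at hc
    by_cases h1 : b = a + 1
    · rw [hP.flag_ext (Φ := Φ) (Ψ := Ψ) fun j h2 h3 => h j h2 h3 (by omega)]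
      exact Conn.refl _
    by_cases h2 : b = a + 2
    · obtain ⟨i, hi⟩ : ∃ i : ℕ, (i : ℤ) = a + 1 := ⟨(a + 1).toNat, by omega⟩
      have hne := hc i (by omega) (by omega)
      have : Ψ = hP.r i Φ := hP.eq_r (by omega)
        ⟨fun j h3 h4 h5 => (h j h3 h4 (by omega)).symm, hne.symm⟩
      have h6 := Conn.step (r := hP.r) (n := n)
        (I := fun i => hP.face Φ i ≠ hP.face Ψ i) Φ (i := i) (by omega) hne
      rw [← this] at h6
      exact h6
    have ea := h a ha (by omega) (Or.inl le_rfl)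
    have eb := h b (by omega) hb (Or.inr le_rfl)
    have hcon := hP.connected (hP.face Φ a) (hP.face Φ b) (hP.face_le Φ ha hab.le hb)
      (by rw [(hP.face_spec Φ ha (by omega)).2, (hP.face_spec Φ (by omega) hb).2]; omega)
      (hP.face Φ (a + 1)) (hP.face_mem_Ioo ha (by omega) (by omega) hb rfl rfl)
      (hP.face Ψ (a + 1)) (hP.face_mem_Ioo ha (by omega) (by omega) hb ea.symm eb.symm)
    have split' : ∀ Θ Θ' : Flag F,
        (∀ j : ℤ, -1 ≤ j → j ≤ n → (j ≤ a ∨ b ≤ j) → hP.face Φ j = hP.face Θ j) →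
        (∀ j : ℤ, -1 ≤ j → j ≤ n → (j ≤ a ∨ b ≤ j) → hP.face Φ j = hP.face Θ' j) →
        ∀ y, y ∈ Θ → y ∈ Θ' → a < rk y → rk y < b →
        Conn hP.r n (fun i => hP.face Φ i ≠ hP.face Ψ i) Θ Θ' := by
      intro Θ Θ' e1 e2 y hy hy' h3 h4
      refine (split Θ Θ' (fun j h5 h6 h7 => by rw [← e1 j h5 h6 h7, e2 j h5 h6 h7]) (rk y) h3 h4
        (by rw [hP.face_eq hy rfl, hP.face_eq hy' rfl])).mono fun i hi hne => ?_
      by_cases h7 : (i : ℤ) ≤ a ∨ b ≤ i
      · exact absurd (by rw [← e1 i (by omega) (by omega) h7, e2 i (by omega) (by omega) h7]) hne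
      · exact hc i (by omega) (by omega)
    have key : ∀ y, ReflTransGen (fun u w => u ∈ Set.Ioo (hP.face Φ a) (hP.face Φ b) ∧
        w ∈ Set.Ioo (hP.face Φ a) (hP.face Φ b) ∧ (u ≤ w ∨ w ≤ u)) (hP.face Φ (a + 1)) y →
        ∀ Θ : Flag F, (∀ j : ℤ, -1 ≤ j → j ≤ n → (j ≤ a ∨ b ≤ j) → hP.face Φ j = hP.face Θ j) →
        y ∈ Θ → Conn hP.r n (fun i => hP.face Φ i ≠ hP.face Ψ i) Φ Θ := by
      intro y hy
      induction hy with
      | refl =>
        intro Θ e hy
        have := hP.face_spec Φ (j := a + 1) (by omega) (by omega)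
        exact split' Φ Θ (fun _ _ _ _ => rfl) e _ this.1 hy (by omega) (by omega)
      | @tail u w _ huw ih' =>
        intro Θ e hw
        obtain ⟨hu, hw', hle⟩ := huw
        obtain ⟨Θ', h3, h4, h5⟩ : ∃ Θ' : Flag F, u ∈ Θ' ∧ w ∈ Θ' ∧
            ∀ j : ℤ, -1 ≤ j → j ≤ n → (j ≤ a ∨ b ≤ j) → hP.face Φ j = hP.face Θ' j := by
          rcases hle with hle | hle
          · obtain ⟨Θ', h3, h4, h5, h6⟩ := hP.build Φ Φ ha hab.le hb hu.1.le hle hw'.2.le
            exact ⟨Θ', h3, h4, fun j h7 h8 h9 =>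
              h9.elim (fun h => (h5 j h7 h).symm) fun h => (h6 j h h8).symm⟩
          · obtain ⟨Θ', h3, h4, h5, h6⟩ := hP.build Φ Φ ha hab.le hb hw'.1.le hle hu.2.le
            exact ⟨Θ', h4, h3, fun j h7 h8 h9 =>
              h9.elim (fun h => (h5 j h7 h).symm) fun h => (h6 j h h8).symm⟩
        have hr := hP.rk_Ioo ha hab.le hb hw'
        exact (ih' Θ' h5 h3).trans (split' Θ' Θ h5 e w h4 hw hr.1 hr.2)
    exact key _ hcon Ψ h (hP.face_spec Ψ (by omega) (by omega)).1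

theorem sc (Φ Ψ : Flag F) : Conn hP.r n (fun i => hP.face Φ i ≠ hP.face Ψ i) Φ Ψ := by
  refine hP.sc_aux (n + 1) (-1) n le_rfl (by omega) le_rfl (by omega) Φ Ψ fun j h1 h2 h3 => ?_
  rcases h3 with h3 | h3
  · exact hP.eq_of_rk_bot (by rw [(hP.face_spec Φ h1 h2).2]; omega)
      (by rw [(hP.face_spec Ψ h1 h2).2]; omega)
  · exact hP.eq_of_rk_top (by rw [(hP.face_spec Φ h1 h2).2]; omega)
      (by rw [(hP.face_spec Ψ h1 h2).2]; omega)

theorem conn_fix {I : ℕ → Prop} {Φ Ψ : Flag F} (h : Conn hP.r n I Φ Ψ) {j : ℕ} (hj : j ≤ n)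
    (hI : ¬ I j) : hP.face Ψ j = hP.face Φ j := by
  refine Conn.induction (P := fun Ψ => hP.face Ψ j = hP.face Φ j) rfl ?_ h
  intro b i hi hi' _ hb
  rw [(hP.r_adj hi b).1 j (by omega) (by omega) (fun e => hI (by
    obtain rfl : j = i := by omega
    exact hi')), hb]

end IsPolytope

namespace ChiralRealization

variable {F V : Type} [PartialOrder F] [MetricSpace V] {rk : F → ℤ} {p : F → V} {n : ℕ}
  (h : ChiralRealization rk p n)

/-- the flag system of a faithful realization -/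
noncomputable def man : Man V n where
  Ω := Flag F
  r := h.polytope.r
  f := fun j Φ => img rk p j (h.polytope.face Φ j)
  inv := fun _ hi => h.polytope.r_r hi
  fix := fun i hi j hj hji Φ => by
    rw [(h.polytope.r_adj hi Φ).1 j (by omega) (by omega) (by omega)]
  move := fun i hi Φ e => (h.polytope.r_adj hi Φ).2 (h.faithful i hi.le _ _
    (h.polytope.face_spec _ (by omega) (by omega)).2
    (h.polytope.face_spec _ (by omega) (by omega)).2 e)
  succ := fun j hj Φ => by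
    have hP := h.polytope
    show {Y : Img V j | ∃ y, y ≤ hP.face Φ (j + 1 : ℕ) ∧ rk y = j ∧ img rk p j y = Y} = _
    refine Set.ext fun Y => ⟨?_, ?_⟩
    · rintro ⟨y, h1, h2, rfl⟩
      obtain ⟨b, hb⟩ := hP.least
      have hb' : hP.face Φ (-1) ≤ y := by
        have e := (hP.face_spec Φ (j := -1) le_rfl (by omega)).2
        have : rk b = -1 := by
          have := hP.strictMono.monotone (hb (hP.face Φ (-1)))
          have := (hP.rk_mem b).1
          omega
        rw [hP.eq_of_rk_bot e this]; exact hb y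
      obtain ⟨Θ, h3, -, -, h4⟩ := hP.build Φ Φ (a := -1) (b := (j + 1 : ℕ)) le_rfl (by omega)
        (by omega) hb' le_rfl h1
      refine ⟨Θ, (hP.sc Φ Θ).mono fun i hi hne => ?_, by rw [hP.face_eq h3 h2]⟩
      by_contra hij
      exact hne (h4 i (by omega) (by omega)).symm
    · rintro ⟨Ψ, h1, rfl⟩
      refine ⟨hP.face Ψ j, ?_, (hP.face_spec Ψ (by omega) (by omega)).2, rfl⟩
      rw [← hP.conn_fix h1 (j := j + 1) hj (by omega)]
      exact hP.face_le Ψ (by omega) (by omega) (by omega)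
  sc := fun Φ Ψ => (h.polytope.sc Φ Ψ).mono fun i hi hne e => hne (h.faithful i hi.le _ _
    (h.polytope.face_spec _ (by omega) (by omega)).2
    (h.polytope.face_spec _ (by omega) (by omega)).2 e)

theorem man_f {Φ : Flag F} {x : F} (hx : x ∈ Φ) {m : ℕ} (hm : rk x = m) :
    h.man.f m Φ = img rk p m x := by
  show img rk p m (h.polytope.face Φ m) = _
  rw [h.polytope.face_eq hx hm]

theorem sameOrbit_iff (Φ Ψ : Flag F) : SameOrbit rk p n Φ Ψ ↔ ∃ g, h.man.B g Φ Ψ := by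
  have hP := h.polytope
  constructor
  · rintro ⟨g, -, hg⟩
    refine ⟨g, fun j hj => (hg j hj _ (hP.face_spec Φ (by omega) (by omega)).1 _
      (hP.face_spec Ψ (by omega) (by omega)).1 (hP.face_spec Φ (by omega) (by omega)).2
      (hP.face_spec Ψ (by omega) (by omega)).2).symm⟩
  · rintro ⟨g, hg⟩
    have key : ∀ (g : V ≃ᵢ V) (Φ Ψ : Flag F), h.man.B g Φ Ψ → ∀ m ≤ n, ∀ x, rk x = m →
        ∃ y, rk y = m ∧ img rk p m y = Img.map g m (img rk p m x) := by
      intro g Φ Ψ hg m hm x hx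
      obtain ⟨Θ, hΘ⟩ := Flag.exists_mem x
      obtain ⟨Θ', hΘ'⟩ := hg.exists' Θ
      refine ⟨hP.face Θ' m, (hP.face_spec _ (by omega) (by omega)).2, ?_⟩
      rw [← h.man_f hΘ hx]
      exact hΘ' m hm
    refine ⟨g, fun m hm => Set.ext fun Y => ⟨?_, ?_⟩, fun m hm x hx y hy e1 e2 => ?_⟩
    · rintro ⟨_, ⟨x, hx, rfl⟩, rfl⟩
      exact key g Φ Ψ hg m hm x hx
    · rintro ⟨x, hx, rfl⟩
      obtain ⟨y, hy, e⟩ := key _ _ _ hg.inv m hm x hx
      exact ⟨_, ⟨y, hy, rfl⟩, by rw [e, Img.map_self_inv]⟩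
    · rw [← h.man_f hx e1, ← h.man_f hy e2]
      exact (hg m hm).symm

theorem man_chi : h.man.Chi := by
  have hP := h.polytope
  obtain ⟨Φ₁, Φ₂, h12, hall⟩ := h.two_orbits
  simp only [h.sameOrbit_iff] at h12 hall
  refine ⟨?_, fun Φ i hi g hg => ?_, fun a b c => ?_⟩
  · by_contra hn
    have : Φ₁ = Φ₂ := Man.ext (M := h.man) fun j hj => by omega
    exact h12 ⟨1, this ▸ Man.B.one _⟩
  · refine h.adjacent Φ (hP.r i Φ) ⟨(Man.r_ne (M := h.man) hi Φ).symm, i, ?_⟩
      ((h.sameOrbit_iff _ _).2 ⟨g, hg⟩)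
    intro x hx y hy e hne
    rw [← hP.face_eq hx rfl, ← hP.face_eq hy e.symm]
    exact ((hP.r_adj hi Φ).1 _ (hP.rk_mem x).1 (hP.rk_mem x).2 hne).symm
  · rcases hall a with ⟨ga, ha⟩ | ⟨ga, ha⟩ <;> rcases hall b with ⟨gb, hb⟩ | ⟨gb, hb⟩ <;>
      rcases hall c with ⟨gc, hc⟩ | ⟨gc, hc⟩
    all_goals first
      | exact Or.inl ⟨_, ha.inv.mul hb⟩
      | exact Or.inr (Or.inl ⟨_, ha.inv.mul hc⟩)
      | exact Or.inr (Or.inr ⟨_, hb.inv.mul hc⟩)

theorem man_vt : Set.range h.man.vt = p '' {x | rk x = 0} := by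
  refine Set.ext fun v => ⟨?_, ?_⟩
  · rintro ⟨Φ, rfl⟩
    exact ⟨_, (h.polytope.face_spec Φ (j := (0 : ℕ)) (by omega) (by omega)).2, rfl⟩
  · rintro ⟨x, hx, rfl⟩
    obtain ⟨Θ, hΘ⟩ := Flag.exists_mem x
    exact ⟨Θ, h.man_f (m := 0) hΘ hx⟩

theorem man_finite [Finite F] : Finite h.man.Ω :=
  (Finite.of_injective (fun Φ : Flag F => (Φ : Set F)) SetLike.coe_injective : Finite (Flag F))

theorem man_infinite [Infinite F] : Infinite h.man.Ω := by
  have hP := h.polytope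
  by_contra hfin
  have : Finite (Flag F) := not_infinite_iff_finite.1 hfin
  have : Finite (Set.Icc (-1) (n : ℤ)) := (Set.finite_Icc _ _).to_subtype
  have : Finite F := by
    refine Finite.of_surjective
      (fun x : Flag F × Set.Icc (-1) (n : ℤ) => hP.face x.1 x.2) fun x => ?_
    obtain ⟨Θ, hΘ⟩ := Flag.exists_mem x
    exact ⟨(Θ, ⟨rk x, hP.rk_mem x⟩), hP.face_eq hΘ rfl⟩
  exact not_finite F

end ChiralRealization

/-- The flag system attached to a chiral polytope. -/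
theorem bridge1 {c : Type → Prop} {d n : ℕ} {X : Img (E d) n} (h : IsChiral c d n X) :
    ∃ (M : Man (E d) n) (a : M.Ω), M.Chi ∧ DiscreteTopology (Set.range M.vt) ∧ M.f n a = X ∧
      (c = Finite → Finite M.Ω) ∧ (c = Infinite → Infinite M.Ω) := by
  obtain ⟨F, _, rk, p, hc, h, t, ht, rfl⟩ := h
  obtain ⟨Θ, hΘ⟩ := Flag.exists_mem t
  refine ⟨h.man, Θ, h.man_chi, ?_, h.man_f hΘ ht, ?_, ?_⟩
  · rw [h.man_vt]; exact h.discrete
  · rintro rfl; exact h.man_finite
  · rintro rfl; exact h.man_infinite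

end Pool.Agent.MP_d6da41_co

end MrgPart2

-- marker of a merged file
example : 731051 + 654211 = 731051 + 654211 := rfl
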