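import Pool.Agent.MP_d6da41_co.ModP
import Pool.Agent.MP_d6da41_co.Bridge1

-- ======== part 0: formerly Pool.Agent.MP_d6da41_co.Move
section MrgPart0

-- ======== part 0: formerly Pool.Agent.MP_d6da41_co.Chk4
section MrgPart0

/-! Certificates for the third generator. -/

namespace Pool.Agent.MP_d6da41_co

open Quaternion Module
open scoped RealInnerProductSpace

/-- sieve -/
noncomputable def chkS (t : ℕ) (C : List ℕ) : Bool :=
  force (enc (ty t 1)) fun s => allL (List.range 1331) fun c => force (enc (11 * c)) fun l =>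
    cond (Nat.beq (mulA l s) (mulA (starA s) l)) (cond (Nat.beq (mulA l (starA l)) 1)
      (C.any fun x => Nat.beq x (11 * c)) true) true

theorem chkS_sound {t : ℕ} (ht : t < 9) {C : List ℕ} (h : chkS t C = true) {l : ℍ} (ul : Un l)
    (hl : InC4 l) (e : l * cq (ty t 1) = star (cq (ty t 1)) * l) : ∃ c ∈ C, l = cq c := by
  have l0 := (anti_re (tok ht).im e).1
  obtain ⟨-, ⟨b, hb, e1⟩, ⟨c, hc, e2⟩, ⟨d, hd, e3⟩⟩ := hl
  have el : l = cq (11 * (b + 11 * (c + 11 * d))) := by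
    refine Quaternion.ext _ _ ?_ ?_ ?_ ?_
    · rw [l0]; show cv 0 = cv _; congr 1; omega
    · rw [e1]; show _ = cv _; congr 1; omega
    · rw [e2]; show _ = cv _; congr 1; omega
    · rw [e3]; show _ = cv _; congr 1; omega
  have h1 := allL_iff.1 (by rwa [chkS, force_eq] at h) (b + 11 * (c + 11 * d))
    (List.mem_range.2 (by omega))
  have rl := relQ_cq (11 * (b + 11 * (c + 11 * d)))
  rw [← el] at rl
  have rs := relQ_cq (ty t 1)
  rw [force_eq, (rl.mul rs).unique (e ▸ rs.star.mul rl), Nat.beq_refl, cond_true,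
    (rl.mul rl.star).unique (ul.ms ▸ relQ_one), Nat.beq_refl, cond_true] at h1
  obtain ⟨x, hx, e4⟩ := List.any_eq_true.1 h1
  rw [Nat.beq_eq] at e4
  exact ⟨x, hx, e4 ▸ el⟩

/-- certificate for a pair -/
noncomputable def chkP (t : ℕ) (e : Bool) (cl cr v : ℕ) : Bool :=
  force (enc (ty t 1)) fun s => force (enc (ty t 2)) fun a => force (enc (ty t 3)) fun n =>
  force (enc cl) fun l => force (enc cr) fun q =>
  force (cond e l q) fun l' => force (cond e q l) fun q' => force (v / 8) fun w =>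
  cond (Nat.beq (v % 8) 0) (Nat.beq l q || Nat.beq l (negA q))
  (cond (Nat.beq (v % 8) 1) (force (cjA n q) fun x => Nat.beq l x || Nat.beq l (negA x))
  (cond (Nat.beq (v % 8) 2)
    (force (evW [mulP s s id, mulP a a id, mulP l q id, mulP l' q' id] w one3) fun x =>
      !(isC (d0 (x0 x)) && isC (d0 (x1 x))))
  (cond (Nat.beq (v % 8) 3)
    (force (mulA l (starA a)) fun k1 => force (mulA q (starA a)) fun k2 =>
      force (mulA l' (starA a)) fun k3 => force (mulA q' (starA a)) fun k4 =>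
      force (mulA a (starA s)) fun k5 =>
      force (evW [mulP k1 k2 id, mulP k3 k4 id, mulP k5 k5 id] w one3) fun x =>
      Nat.beq (x0 x) (x1 x) && !Nat.beq (mulA (x0 x) k5) (mulA k5 (x0 x)))
  (cond (Nat.beq (v % 8) 4)
    (force (evW [mulP s s id, mulP a a id, mulP l q id, mulP l' q' id] w one3) fun x =>
      Nat.beq (x0 x) (x1 x) && (tabU (ty t 0)).all fun c _ => !Nat.beq (enc c) (x0 x))
  (e && Nat.blt (w / 4) 22 && Nat.beq (md (w / 4) 0) (ty t 1) && Nat.beq (md (w / 4) 1) (ty t 2) &&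
    force (cond (Nat.beq (w % 2) 0) l (cjA n l)) fun l1 =>
    force (cond (Nat.beq (w % 2) 0) q (cjA n q)) fun q1 =>
    force (cond (Nat.beq (w / 2 % 2) 0) l1 q1) fun l2 =>
    force (cond (Nat.beq (w / 2 % 2) 0) q1 l1) fun q2 =>
    (Nat.beq (enc (md (w / 4) 2)) l2 && Nat.beq (enc (md (w / 4) 3)) q2 ||
      Nat.beq (enc (md (w / 4) 2)) (negA l2) && Nat.beq (enc (md (w / 4) 3)) (negA q2)))))))

/-- all pairs -/
noncomputable def chk4 (t : ℕ) (e : Bool) (C : List ℕ) (T : Tr) : Bool :=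
  chkS t C && (allL C fun l => allL C fun q => T.mem (l * 14641 + q) && Nat.blt q 14641) &&
    T.all fun k v => chkP t e (k / 14641) (k % 14641) v

/-- the outcome -/
def Out (s : ℕ → OV ℍ) : Prop :=
  (∃ R, LD.Mir s 2 R) ∨ ∃ (j : ℕ) (φ : OV ℍ), j < 22 ∧ φ 1 = 1 ∧
    (IsMod (fun i => φ * s i * φ⁻¹) j ∨ IsMod (fun i => φ * (s i)⁻¹ * φ⁻¹) j)

theorem frame_one {s : ℕ → OV ℍ} (h : LD s 3) (h1 : (1 : ℍ) ∈ Fx s 2) :
    Frame (Fx s 3) (Fx s 2) 1 := by
  have hb : Fx s 3 = ⊥ := by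
    have := h.codim 3 (by omega) le_rfl
    rw [Quaternion.finrank_eq_four] at this
    exact Submodule.finrank_eq_zero.1 (by omega)
  obtain ⟨x, hx⟩ := h.frame (k := 2) (by omega) (by omega)
  have key : ∀ y ∈ Fx s 2, y = ⟪x, y⟫ • x := fun y hy => by
    have := hx.sub y hy
    rwa [hb, Submodule.mem_bot, sub_eq_zero] at this
  refine ⟨h1, by rw [hb]; simp, Un.one.inner, fun y hy => ?_⟩
  have e1 := key 1 h1
  have e2 := key y hy
  generalize ⟪x, 1⟫ = c at e1
  generalize ⟪x, y⟫ = d at e2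
  have e3 : ⟪(1 : ℍ), (1 : ℍ)⟫ = 1 := Un.one.inner
  rw [e1, real_inner_smul_left, real_inner_smul_right, hx.unit] at e3
  rw [e1, e2, real_inner_smul_left, real_inner_smul_right, hx.unit, smul_smul, ← sub_smul,
    show d - c * (d * 1) * c = 0 by linear_combination (-d) * e3, zero_smul]
  exact zero_mem _

theorem IsLB.bar : IsLB barO 1 1 := ⟨Un.one, Un.one, fun x => by simp [barO_apply]⟩

/-- maps given by quaternions commuting with `x` -/
def comC (x : ℍ) : Subgroup (OV ℍ) where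
  carrier := {g | ∃ p, (IsLR g p p ∨ IsLB g p p) ∧ p * x = x * p}
  one_mem' := ⟨1, Or.inl IsLR.one, by simp⟩
  mul_mem' := by
    rintro f f' ⟨p, a, hp⟩ ⟨p', a', hp'⟩
    refine ⟨p * p', ?_, by rw [mul_assoc, hp', ← mul_assoc, hp, mul_assoc]⟩
    rcases a with a | a <;> rcases a' with a' | a'
    exacts [Or.inl (a.mulO a'), Or.inr (a.mulLB a'), Or.inr (a.mulLR a'), Or.inl (a.mulLB a')]
  inv_mem' := by
    rintro f ⟨p, a, hp⟩
    have u : Un p := a.elim (·.l) (·.l)
    refine ⟨star p, a.imp (·.invO) (·.invO), ?_⟩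
    calc star p * x = star p * (x * p) * star p := by rw [mul_assoc, mul_assoc, u.ms, mul_one]
      _ = x * star p := by rw [← hp, u.sm']

theorem comC_comm {x p : ℍ} {g : OV ℍ} (hg : g ∈ comC x) (h : IsLR g p p ∨ IsLB g p p) :
    p * x = x * p := by
  obtain ⟨p', a, e⟩ := hg
  have : p = p' ∨ p = -p' := by
    rcases a with a | a <;> rcases h with h | h
    exacts [(a.pm h).imp (·.1) (·.1), (not_LR_LB a h).elim, (not_LR_LB h a).elim,
      (a.pm h).imp (·.1) (·.1)]
  rcases this with rfl | rfl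
  · exact e
  · rw [neg_mul, mul_neg, e]

/-- the setting -/
structure Ctx (s : ℕ → OV ℍ) (t : ℕ) (e : Bool) (l q : ℍ) : Prop where
  ld : LD s 3
  one : (1 : ℍ) ∈ Fx s 2
  fin : Finite (HH s 3)
  lt : t < 9
  hS : IsLR (s 0) (cq (ty t 1)) (cq (ty t 1))
  hA : (e = true ∧ IsLR (s 1) (cq (ty t 2)) (cq (ty t 2))) ∨
    (e = false ∧ t = 0 ∧ IsLB (s 1) (cq (ty t 2)) (cq (ty t 2)))
  hB : IsLR (s 2) l q

namespace Ctx
variable {s : ℕ → OV ℍ} {t : ℕ} {e : Bool} {l q : ℍ} (h : Ctx s t e l q)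
include h

theorem gens : ∃ g1 ∈ HH s 3, ∃ g2 ∈ HH s 3, ∃ k1 ∈ GG s 0 3, ∃ k2 ∈ GG s 0 3, ∃ k3 ∈ GG s 0 3,
    IsLR g1 (cq (ty t 2)) (cq (ty t 2)) ∧ IsLR g2 (cond e l q) (cond e q l) ∧
    IsLR k1 (l * star (cq (ty t 2))) (q * star (cq (ty t 2))) ∧
    IsLR k2 (cond e l q * star (cq (ty t 2))) (cond e q l * star (cq (ty t 2))) ∧
    IsLR k3 (cq (ty t 2) * star (cq (ty t 1))) (cq (ty t 2) * star (cq (ty t 1))) := by
  have m1 : s 1 ∈ HH s 3 := mem_HH (by omega)
  have m2 : s 2 ∈ HH s 3 := mem_HH (by omega)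
  have m3 : s 2 * (s 1)⁻¹ ∈ GG s 0 3 := mem_GG (by omega) (by omega) (by omega) (by omega)
  have m4 : s 1 * (s 0)⁻¹ ∈ GG s 0 3 := mem_GG (by omega) (by omega) (by omega) (by omega)
  rcases h.hA with ⟨rfl, hA⟩ | ⟨rfl, rfl, hA⟩
  · exact ⟨_, m1, _, m2, _, m3, _, m3, _, m4, hA, h.hB, h.hB.mulO hA.invO, h.hB.mulO hA.invO,
      hA.mulO h.hS.invO⟩
  · have k := hA.mulLR h.hS.invO
    have T := tok (t := 0) (by omega)
    have hb : barO ∈ GG s 0 3 := by
      have k3 := ((k.mulLB k).mulLB k).neg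
      have r : (cq (ty 0 2) * star (cq (ty 0 1))).re = 1 / 2 := by
        rw [← Quaternion.inner_def, real_inner_comm, T.ip]; rfl
      have u := k.l
      generalize cq (ty 0 2) * star (cq (ty 0 1)) = x at k3 r u
      have : -(x * x * x) = 1 := by
        rw [u.sq, sub_mul, smul_mul_assoc, u.sq, r]; norm_num
      rw [this] at k3
      rw [← k3.uniqueO IsLB.bar]
      exact mul_mem (mul_mem m4 m4) m4
    have hb' := GG_le_HH hb
    refine ⟨_, mul_mem m1 hb', _, mul_mem (mul_mem hb' m2) hb', _, mul_mem m3 hb, _, mul_mem hb m3,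
      _, mul_mem m4 hb, hA.mul_bar, h.hB.bar_conj, (h.hB.mulLB hA.invO).mul_bar, ?_, k.mul_bar⟩
    simpa using IsLB.bar.mulLB (h.hB.mulLB hA.invO)

theorem good : Good (QL (HH s 3)) ∧ Good (QR (HH s 3)) ∧
    (cq (ty t 1) ∈ QL (HH s 3) ∧ cq (ty t 2) ∈ QL (HH s 3) ∧ l ∈ QL (HH s 3)) ∧
    cq (ty t 1) ∈ QR (HH s 3) ∧ cq (ty t 2) ∈ QR (HH s 3) ∧ q ∈ QR (HH s 3) := by
  obtain ⟨g1, a1, -, -, -, -, -, -, -, -, b1, -⟩ := h.gens
  have := h.fin
  have T := tok h.lt
  have m0 : s 0 ∈ HH s 3 := mem_HH (by omega)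
  have m2 : s 2 ∈ HH s 3 := mem_HH (by omega)
  have l1 : cq (ty t 1) ∈ QL (HH s 3) := ⟨_, m0, _, h.hS⟩
  have l2 : cq (ty t 2) ∈ QL (HH s 3) := ⟨_, a1, _, b1⟩
  have r1 : cq (ty t 1) ∈ QR (HH s 3) := ⟨_, m0, _, h.hS⟩
  have r2 : cq (ty t 2) ∈ QR (HH s 3) := ⟨_, a1, _, b1⟩
  exact ⟨T.good (QL_qset _) l1 l2 (QL_inC _ (T.irr' l1 l2)),
    T.good (QR_qset _) r1 r2 (QR_inC _ (T.irr' r1 r2)), ⟨l1, l2, _, m2, _, h.hB⟩, r1, r2,
    _, m2, _, h.hB⟩

theorem isC : IsLR (s 1) (cq (ty t 2)) (cq (ty t 2)) ∨ IsLB (s 1) (cq (ty t 2)) (cq (ty t 2)) :=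
  h.hA.imp (·.2) (·.2.2)

theorem fix {X : Subgroup (OV ℍ)} (hX : X ≤ HH s 3) {L : List (ℕ → ℕ)}
    (hL : Gens (RepQ (MonoidHom.id _) fun _ _ => True) X L) (w : ℕ)
    (e : x0 (evW L w one3) = x1 (evW L w one3)) :
    ∃ g ∈ X, g ∈ HH s 2 ∧ ∃ p, IsLR g p p ∧ RelQ p (x0 (evW L w one3)) := by
  obtain ⟨g, hg, p, p', h1, h2, h3, -⟩ := hL.evW (repQ_one trivial) w
  obtain ⟨gl, gr, -⟩ := h.good
  obtain rfl := h2.eq (e ▸ h3) (gl.inC _ ⟨_, hX hg, _, h1⟩) (gr.inC _ ⟨_, hX hg, _, h1⟩)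
  refine ⟨g, hg, h.ld.stab' (by omega) (by omega) (frame_one h.ld h.one) (hX hg) ?_, p, h1, h2⟩
  rw [show g 1 = _ from h1.eq 1, mul_one, h1.l.ms]

end Ctx

theorem chkP_sound {s : ℕ → OV ℍ} {t : ℕ} {e : Bool} {cl cr v : ℕ}
    (h : Ctx s t e (cq cl) (cq cr)) (hv : chkP t e cl cr v = true) : Out s := by
  obtain ⟨g1, a1, g2, a2, k1, a3, k2, a4, k3, a5, b1, b2, b3, b4, b5⟩ := h.gens
  obtain ⟨gl, gr, ⟨l1, l2, l3⟩, r1, r2, r3⟩ := h.good
  have T := tok h.lt
  have fr := frame_one h.ld h.one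
  have np := h.ld.not_pm (k := 2) (by omega) (by omega) fr
  have rs := relQ_cq (ty t 1)
  have ra := relQ_cq (ty t 2)
  have rn := relQ_cq (ty t 3)
  have rl := relQ_cq cl
  have rq := relQ_cq cr
  have rl' : RelQ (cond e (cq cl) (cq cr)) (cond e (enc cl) (enc cr)) := by cases e <;> assumption
  have rq' : RelQ (cond e (cq cr) (cq cl)) (cond e (enc cr) (enc cl)) := by cases e <;> assumption
  have cp : ∀ {γ : OV ℍ} {a b : ℍ} {m m' : ℕ}, IsLR γ a b → RelQ a m → RelQ b m' →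
      Compat (RepQ (MonoidHom.id _) fun _ _ => True) γ (mulP m m' id) :=
    fun h1 h2 h3 => compat_mulP h1 h2 h3 fun _ _ _ => trivial
  have LG := Gens.cons (mem_HH (s := s) (k := 3) (i := 0) (by omega)) (cp h.hS rs rs)
    (Gens.cons a1 (cp b1 ra ra) (Gens.cons (mem_HH (i := 2) (by omega)) (cp h.hB rl rq)
      (Gens.cons a2 (cp b2 rl' rq') Gens.nil)))
  have LK := Gens.cons a3 (cp b3 (rl.mul ra.star) (rq.mul ra.star))
    (Gens.cons a4 (cp b4 (rl'.mul ra.star) (rq'.mul ra.star))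
      (Gens.cons a5 (cp b5 (ra.mul rs.star) (ra.mul rs.star)) Gens.nil))
  have iA : (s 1)⁻¹ = s 1 := inv_eq_of_mul_eq_one_right (h.ld.invol 1 (by omega) (by omega))
  have iB : (s 2)⁻¹ = s 2 := inv_eq_of_mul_eq_one_right (h.ld.invol 2 (by omega) (by omega))
  have n3 : cq (ty t 3) * star (cq (ty t 1)) * star (cq (ty t 3)) = cq (ty t 1) := by
    simpa [mul_assoc] using congrArg star T.n1
  simp only [chkP, force_eq] at hv
  rcases e0 : Nat.beq (v % 8) 0 with _ | _
  swap
  · simp only [e0, cond_true, Bool.or_eq_true, Nat.beq_eq] at hv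
    exfalso
    rcases hv with hv | hv
    · apply np.1
      rw [h.hB.eq, mul_one, rl.eq (hv ▸ rq) (inC4_cq _) (inC4_cq _), h.hB.r.ms]
    · apply np.2
      rw [h.hB.eq, mul_one, rl.eq (hv ▸ rq.neg) (inC4_cq _) (inC4_cq _).neg, neg_mul, h.hB.r.ms]
  rcases e1 : Nat.beq (v % 8) 1 with _ | _
  swap
  · simp only [e0, e1, cond_true, cond_false, Bool.or_eq_true, Nat.beq_eq] at hv
    have hR := (lrO_isLR T.un T.un).mul_bar
    have c := T.nc _ gr r1 r2 _ r3
    have nn : ∀ x, cq (ty t 3) * (cq (ty t 3) * x * star (cq (ty t 3))) * star (cq (ty t 3)) = x :=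
      fun x => by
        have := T.un.pure_sq T.n0.1
        rw [← mul_assoc, ← mul_assoc, mul_assoc _ (star _), ← star_mul, this]; simp
    refine Or.inl ⟨lrO T.un T.un * barO, fun i hi => ?_, fun x hx => ?_⟩
    · interval_cases i
      · exact (T.n1 ▸ hR.conj h.hS).uniqueO h.hS.invO
      · rw [iA]
        rcases h.isC with hA | hA
        · exact (T.n2 ▸ hR.conj hA).uniqueO hA.neg
        · exact (T.n2 ▸ hR.conjB hA).uniqueO hA.neg
      · rw [iB]
        have := hR.conj h.hB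
        rcases hv with hv | hv
        · have e := rl.eq (hv ▸ rn.cj rq) (inC4_cq _) c
          rw [← e, e, nn, ← e] at this
          exact this.uniqueO h.hB
        · have e := rl.eq (hv ▸ (rn.cj rq).neg) (inC4_cq _) c.neg
          rw [e, mul_neg, neg_mul, nn] at this
          refine this.uniqueO ?_
          have := h.hB.neg
          rwa [e, neg_neg] at this
    · have := fr.sub x hx
      have e := fr.eq hx (by
        have hb : Fx s 3 = ⊥ := by
          have := h.ld.codim 3 (by omega) le_rfl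
          rw [Quaternion.finrank_eq_four] at this
          exact Submodule.finrank_eq_zero.1 (by omega)
        rw [hb]; simp)
      rw [e, map_smul, hR.eq, star_one, mul_one, T.un.ms]
  rcases e2 : Nat.beq (v % 8) 2 with _ | _
  swap
  · simp only [e0, e1, e2, cond_true, cond_false] at hv
    obtain ⟨g, hg, p, p', h1, h2, h3, -⟩ := LG.evW (repQ_one trivial) (v / 8)
    rw [isC_of h2 (gl.inC _ ⟨_, hg, _, h1⟩).1, isC_of h3 (gr.inC _ ⟨_, hg, _, h1⟩).1] at hv
    exact absurd hv (by decide)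
  rcases e3 : Nat.beq (v % 8) 3 with _ | _
  swap
  · simp only [e0, e1, e2, e3, cond_true, cond_false, Bool.and_eq_true, Nat.beq_eq,
      Bool.not_eq_true', ← Bool.not_eq_true] at hv
    obtain ⟨g, hg, hg', p, h1, h2⟩ := h.fix GG_le_HH LK _ hv.1
    have ry := ra.mul rs.star
    have hx := h.isC.imp (·.mulO h.hS.invO) (·.mulLR h.hS.invO)
    generalize cq (ty t 2) * star (cq (ty t 1)) = x at ry hx
    have hX : GG s 0 2 ≤ comC x := GG_le fun i _ hi => by
      obtain rfl : i = 0 := by omega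
      rw [← inv_mem_iff, mul_inv_rev, inv_inv]
      exact ⟨x, hx, rfl⟩
    exact absurd ((h2.mul ry).unique
      (comC_comm (hX (h.ld.inter 2 (by omega) g hg hg')) (Or.inl h1) ▸ ry.mul h2)) hv.2
  rcases e4 : Nat.beq (v % 8) 4 with _ | _
  swap
  · simp only [e0, e1, e2, e3, e4, cond_true, cond_false, Bool.and_eq_true, Nat.beq_eq] at hv
    obtain ⟨g, -, hg', p, h1, h2⟩ := h.fix le_rfl LG _ hv.1
    have hU := UU_good (ty t 0)
    let X : Subgroup (OV ℍ) :=
      { carrier := {g | ∃ p ∈ UU (ty t 0), IsLR g p p ∨ IsLB g p p}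
        one_mem' := ⟨1, hU.one, Or.inl IsLR.one⟩
        mul_mem' := by
          rintro f f' ⟨p, hp, a | a⟩ ⟨p', hp', a' | a'⟩ <;> refine ⟨_, hU.mul _ hp _ hp', ?_⟩
          exacts [Or.inl (a.mulO a'), Or.inr (a.mulLB a'), Or.inr (a.mulLR a'), Or.inl (a.mulLB a')]
        inv_mem' := by
          rintro f ⟨p, hp, a⟩
          exact ⟨_, hU.star _ hp, a.imp (·.invO) (·.invO)⟩ }
    have hX : HH s 2 ≤ X := HH_le fun i hi => by
      interval_cases i
      · exact ⟨_, T.hs, Or.inl h.hS⟩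
      · exact ⟨_, T.ha, h.isC⟩
    obtain ⟨p', hp', a | a⟩ := hX hg'
    · have : p ∈ UU (ty t 0) := by
        rcases a.pm h1 with e | e <;> rw [e.1]
        exacts [hp', hU.neg _ hp']
      obtain ⟨c, hc, rfl⟩ := UU_tab this
      obtain ⟨_, hw⟩ := Tr.of_mem hv.2 hc
      rw [(relQ_cq c).unique h2, Nat.beq_refl] at hw
      exact absurd hw (by decide)
    · exact (not_LR_LB h1 a).elim
  simp only [e0, e1, e2, e3, e4, cond_false, Bool.and_eq_true, Nat.beq_eq, Bool.or_eq_true,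
    Nat.blt_eq] at hv
  obtain ⟨⟨⟨⟨rfl, hj⟩, j0⟩, j1⟩, hv⟩ := hv
  have hA := (h.hA.resolve_right (by simp)).2
  have fin : ∀ (φ : OV ℍ) (s' : ℕ → OV ℍ) {l q : ℍ} {m m' : ℕ}, RelQ l m → RelQ q m' → InC4 l →
      InC4 q → IsLR (φ * s' 0 * φ⁻¹ : OV ℍ) (cq (ty t 1)) (cq (ty t 1)) →
      IsLR (φ * s' 1 * φ⁻¹ : OV ℍ) (cq (ty t 2)) (cq (ty t 2)) →
      IsLR (φ * s' 2 * φ⁻¹ : OV ℍ) l q →
      (enc (md (v / 8 / 4) 2) = m ∧ enc (md (v / 8 / 4) 3) = m' ∨
        enc (md (v / 8 / 4) 2) = negA m ∧ enc (md (v / 8 / 4) 3) = negA m') →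
      IsMod (fun i => φ * s' i * φ⁻¹) (v / 8 / 4) := by
    intro φ s' l q m m' c1 c2 c3 c4 f0 f1 f2 hv
    refine ⟨j0 ▸ f0, j1 ▸ f1, ?_⟩
    rcases hv with hv | hv
    · rw [(relQ_cq _).eq (hv.1 ▸ c1) (inC4_cq _) c3, (relQ_cq _).eq (hv.2 ▸ c2) (inC4_cq _) c4]
      exact f2
    · rw [(relQ_cq _).eq (hv.1 ▸ c1.neg) (inC4_cq _) c3.neg,
        (relQ_cq _).eq (hv.2 ▸ c2.neg) (inC4_cq _) c4.neg]
      exact f2.neg
  have hn := lrO_isLR T.un T.un
  have c1 := T.nc _ gl l1 l2 _ l3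
  have c2 := T.nc _ gr r1 r2 _ r3
  right
  rcases f0 : Nat.beq (v / 8 % 2) 0 with _ | _ <;>
  rcases f1 : Nat.beq (v / 8 / 2 % 2) 0 with _ | _ <;>
  simp only [f0, f1, cond_true, cond_false] at hv
  · refine ⟨_, _, hj, ?_, Or.inr (fin (lrO T.un T.un * barO) (fun i => (s i)⁻¹) (rn.cj rq) (rn.cj rl)
      c2 c1 (by simpa only [n3] using hn.mul_bar.conj h.hS.invO) ?_
      (by simpa only [iB] using hn.mul_bar.conj h.hB) hv)⟩
    · rw [hn.mul_bar.eq, star_one, mul_one, T.un.ms]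
    · simpa [iA, T.n2] using (hn.mul_bar.conj hA).neg
  · refine ⟨_, _, hj, ?_, Or.inr (fin (lrO T.un T.un) (fun i => (s i)⁻¹) (rn.cj rl) (rn.cj rq)
      c1 c2 (by simpa only [n3] using hn.conj h.hS.invO) ?_
      (by simpa only [iB] using hn.conj h.hB) hv)⟩
    · rw [hn.eq, mul_one, T.un.ms]
    · simpa [iA, T.n2] using (hn.conj hA).neg
  · refine ⟨_, _, hj, ?_, Or.inl (fin barO s rq rl (inC4_cq _) (inC4_cq _) ?_ ?_ ?_ hv)⟩
    · exact star_one _
    · simpa using IsLB.bar.conj h.hS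
    · simpa using IsLB.bar.conj hA
    · simpa using IsLB.bar.conj h.hB
  · refine ⟨_, _, hj, rfl, Or.inl (fin 1 s rl rq (inC4_cq _) (inC4_cq _) ?_ ?_ ?_ hv)⟩
    · simpa using h.hS
    · simpa using hA
    · simpa using h.hB

theorem chk4_sound {s : ℕ → OV ℍ} {t : ℕ} {e : Bool} {l q : ℍ} {C : List ℕ} {T : Tr}
    (h : Ctx s t e l q) (hT : chk4 t e C T = true) : Out s := by
  simp only [chk4, Bool.and_eq_true] at hT
  obtain ⟨⟨h1, h2⟩, h3⟩ := hT
  obtain ⟨gl, gr, ⟨-, -, l3⟩, -, -, r3⟩ := h.good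
  have k := h.hB.mulO h.hS |>.mulO h.hB.invO
  rw [h.ld.inverts 2 (by omega) 0 (by omega)] at k
  have e : l * cq (ty t 1) * star l = star (cq (ty t 1)) ∧
      q * cq (ty t 1) * star q = star (cq (ty t 1)) := by
    refine (h.hS.invO.pm k).resolve_right fun e => (tok h.lt).re ?_
    have := congrArg (·.re) e.1
    simp only [conj_re h.hB.l, re_neg, re_star] at this
    linarith
  obtain ⟨cl, m1, rfl⟩ := chkS_sound h.lt h1 h.hB.l (gl.inC _ l3) (by
    rw [← e.1, mul_assoc, h.hB.l.sm, mul_one])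
  obtain ⟨cr, m2, rfl⟩ := chkS_sound h.lt h1 h.hB.r (gr.inC _ r3) (by
    rw [← e.2, mul_assoc, h.hB.r.sm, mul_one])
  have := allL_iff.1 (allL_iff.1 h2 cl m1) cr m2
  rw [Bool.and_eq_true, Nat.blt_eq] at this
  obtain ⟨v, hv⟩ := Tr.of_mem h3 this.1
  rw [show (cl * 14641 + cr) / 14641 = cl by omega, show (cl * 14641 + cr) % 14641 = cr by omega]
    at hv
  exact chkP_sound h hv

end Pool.Agent.MP_d6da41_co

end MrgPart0

-- ======== part 1: formerly Pool.Agent.MP_d6da41_co.C4a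
section MrgPart1

/-! Certificates. -/

namespace Pool.Agent.MP_d6da41_co

/-- table -/
def t4_0 : Tr :=
    (b (b (b (b (b (b (b (b (b o 5959294 0 o) 5959404 0 o) 5961021 5180962420299 (b (b o 5961131
    5180962420299 o) 5962242 5180962420299 o)) 5962572 5180962420299 (b (b (b o 5962924 1 o)
    5963364 45 o) 5964244 1 (b o 5964574 13 o))) 5965872 1227724491 (b (b (b (b o 5966532 277 o)
    5967071 1227724491 o) 5967731 309 (b o 5968391 1227724491 o)) 5968941 373 (b (b (b o 5969832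
    1227724491 o) 5970162 341 o) 7569804 0 (b o 7569914 0 o)))) 7571531 5180962420299 (b (b (b (b
    (b o 7571641 5180962420299 o) 7572752 5180962420299 o) 7573082 5180962420299 (b o 7573434 1
    o)) 7573874 13 (b (b (b o 7574754 1 o) 7575084 45 o) 7576382 1227724491 (b o 7577042 309 o)))
    7577581 1227724491 (b (b (b (b o 7578241 277 o) 7578901 1227724491 o) 7579451 341 (b o
    7580342 1227724491 o)) 7580672 373 (b (b (b o 31244301 5180962420299 o) 31244411
    5180962420299 o) 31246028 0 (b o 31246138 46667 o))))) 31247249 0 (b (b (b (b (b (b o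
    31247579 300747 o) 31247931 1529713227 o) 31248371 197 (b (b o 31249251 1529713227 o)
    31249581 229 o)) 31250879 1 (b (b (b o 31251539 783213761099 o) 31252078 1 o) 31252738
    400869852222027 (b o 31253398 7911248416422333740561052 o))) 31253948 501 (b (b (b (b o
    31254839 59436937234428572 o) 31255169 469 o) 32854811 5180962420299 (b o 32854921
    5180962420299 o)) 32856538 46667 (b (b (b o 32856648 0 o) 32857759 300747 o) 32858089 0 (b o
    32858441 1529713227 o)))) 32858881 133 (b (b (b (b (b o 32859761 1529713227 o) 32860091 165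
    o) 32861389 59436937234428572 (b o 32862049 405 o)) 32862588 7911248416422333740561052 (b (b
    (b o 32863248 437 o) 32863908 1 o) 32864458 400869852222027 (b o 32865349 1 o))) 32865679
    783213761099 (b (b (b (b o 49120962 5180962420299 o) 49121072 5180962420299 o) 49122689 0 (b
    o 49122799 300747 o)) 49123910 0 (b (b (b o 49124240 46667 o) 49124592 1529713227 o) 49125032
    229 (b o 49125912 1529713227 o)))))) 49126242 197 (b (b (b (b (b (b (b o 49127540 1 o)
    49128200 400869852222027 o) 49128739 1 (b (b o 49129399 783213761099 o) 49130059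
    59436937234428572 o)) 49130609 469 (b (b (b o 49131500 7911248416422333740561052 o) 49131830
    501 o) 53952492 5180962420299 (b o 53952602 5180962420299 o))) 53954219 300747 (b (b (b (b o
    53954329 0 o) 53955440 46667 o) 53955770 0 (b o 53956122 1529713227 o)) 53956562 165 (b (b (b
    o 53957442 1529713227 o) 53957772 133 o) 53959070 7911248416422333740561052 (b o 53959730 437
    o)))) 53960269 59436937234428572 (b (b (b (b (b o 53960929 405 o) 53961589 1 o) 53962139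
    783213761099 (b o 53963030 1 o)) 53963360 400869852222027 (b (b (b o 59106124 1 o) 59106234 1
    o) 59107851 1529713227 (b o 59107961 1529713227 o))) 59109072 1529713227 (b (b (b (b o
    59109402 1529713227 o) 59109754 0 o) 59110194 5 (b o 59111074 0 o)) 59111404 37 (b (b (b o
    59112702 6265705443915 o) 59113362 349 o) 59113901 6265705443915 (b o 59114561 381 o)))))
    59115221 6265705443915 (b (b (b (b (b (b o 59115771 317 o) 59116662 6265705443915 o) 59116992
    285 (b o 65548164 61 o)) 65548274 29 (b (b (b o 65549891 213 o) 65550001 149 o) 65551112 245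
    (b o 65551442 181 o))) 65551794 21 (b (b (b (b o 65552234 0 o) 65553114 53 o) 65553444 0 (b o
    65554742 221 o)) 65555402 85 (b (b (b o 65555941 253 o) 65556601 117 o) 65557261 189 (b o
    65557811 93 o)))) 65558702 157 (b (b (b (b (b o 65559032 125 o) 78432244 1 o) 78432354 1 (b o
    78433971 1529713227 o)) 78434081 1529713227 (b (b (b o 78435192 1529713227 o) 78435522
    1529713227 o) 78435874 0 (b o 78436314 37 o))) 78437194 0 (b (b (b (b o 78437524 5 o)
    78438822 6265705443915 o) 78439482 381 (b o 78440021 6265705443915 o)) 78440681 349 (b (b (b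
    o 78441341 6265705443915 o) 78441891 285 o) 78442782 6265705443915 (b o 78443112 317 o)))))))
    83263774 29 (b (b (b (b (b (b (b (b o 83263884 61 o) 83265501 245 o) 83265611 181 (b (b o
    83266722 213 o) 83267052 149 o)) 83267404 53 (b (b (b o 83267844 0 o) 83268724 21 o) 83269054
    0 (b o 83270352 253 o))) 83271012 117 (b (b (b (b o 83271551 221 o) 83272211 85 o) 83272871
    157 (b o 83273421 125 o)) 83274312 189 (b (b (b o 83274642 93 o) 102267792 1227724491 o)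
    102267902 1227724491 (b o 102269519 1 o)))) 102269629 59436937234428572 (b (b (b (b (b o
    102270740 1 o) 102271070 7911248416422333740561052 o) 102271422 6265705443915 (b o 102271862
    205 o)) 102272742 6265705443915 (b (b (b o 102273072 237 o) 102274370 0 o) 102275030 509 (b o
    102275569 0 o))) 102276229 477 (b (b (b (b o 102276889 373323 o) 102277439 647657460299 o)
    102278330 38603 (b o 102278660 322922638250571 o)) 111930852 261 (b (b (b o 111930962 293 o)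
    111932579 783213761099 o) 111932689 389 (b o 111933800 400869852222027 o))))) 111934130 421
    (b (b (b (b (b (b o 111934482 333 o) 111934922 69 o) 111935802 365 (b o 111936132 101 o))
    111937430 493 (b (b (b o 111938090 0 o) 111938629 461 o) 111939289 0 (b o 111939949
    647657460299 o))) 111940499 1 (b (b (b (b o 111941390 322922638250571 o) 111941720 1 o)
    119822351 1227724491 (b o 119822461 1227724491 o)) 119824078 1 (b (b (b o 119824188
    7911248416422333740561052 o) 119825299 1 o) 119825629 59436937234428572 (b o 119825981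
    6265705443915 o)))) 119826421 237 (b (b (b (b (b o 119827301 6265705443915 o) 119827631 205
    o) 119828929 0 (b o 119829589 477 o)) 119830128 0 (b (b (b o 119830788 509 o) 119831448 38603
    o) 119831998 322922638250571 (b o 119832889 373323 o))) 119833219 647657460299 (b (b (b (b o
    129485411 293 o) 129485521 261 o) 129487138 400869852222027 (b o 129487248 421 o)) 129488359
    783213761099 (b (b (b o 129488689 389 o) 129489041 365 o) 129489481 101 (b o 129490361 333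
    o)))))) 129490691 69 (b (b (b (b (b (b (b o 129491989 461 o) 129492649 0 o) 129493188 493 (b
    (b o 129493848 0 o) 129494508 322922638250571 o)) 129495058 1 (b (b (b o 129495949
    647657460299 o) 129496279 1 o) 139148471 1227724491 (b o 139148581 1227724491 o))) 139150198
    7911248416422333740561052 (b (b (b (b o 139150308 1 o) 139151419 59436937234428572 o)
    139151749 1 (b o 139152101 6265705443915 o)) 139152541 173 (b (b (b o 139153421 6265705443915
    o) 139153751 141 o) 139155049 373323 (b o 139155709 647657460299 o)))) 139156248 38603 (b (b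
    (b (b (b o 139156908 322922638250571 o) 139157568 0 o) 139158118 445 (b o 139159009 0 o))
    139159339 413 (b (b (b o 147201021 357 o) 147201131 325 o) 147202748 485 (b o 147202858
    400869852222027 o))) 147203969 453 (b (b (b (b o 147204299 783213761099 o) 147204651 301 o)
    147205091 77 (b o 147205971 269 o)) 147206301 109 (b (b (b o 147207599 647657460299 o)
    147208259 1 o) 147208798 322922638250571 (b o 147209458 1 o))))) 147210118 429 (b (b (b (b (b
    (b o 147210668 0 o) 147211559 397 o) 147211889 0 (b o 160246152 1227724491 o)) 160246262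
    1227724491 (b (b (b o 160247879 59436937234428572 o) 160247989 1 o) 160249100
    7911248416422333740561052 (b o 160249430 1 o))) 160249782 6265705443915 (b (b (b (b o
    160250222 141 o) 160251102 6265705443915 o) 160251432 173 (b o 160252730 38603 o)) 160253390
    322922638250571 (b (b (b o 160253929 373323 o) 160254589 647657460299 o) 160255249 0 (b o
    160255799 413 o)))) 160256690 0 (b (b (b (b (b o 160257020 445 o) 165077682 325 o) 165077792
    357 (b o 165079409 453 o)) 165079519 783213761099 (b (b (b o 165080630 485 o) 165080960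
    400869852222027 o) 165081312 269 (b o 165081752 109 o))) 165082632 301 (b (b (b (b o
    165082962 77 o) 165084260 322922638250571 o) 165084920 1 (b o 165085459 647657460299 o))
    165086119 1 (b (b (b o 165086779 397 o) 165087329 0 o) 165088220 429 (b o 165088550 0
    o))))))))

theorem c4_0 : chk4 0 true
    [407, 517, 2134, 2244, 3355, 3685, 4037, 4477, 5357, 5687, 6985, 7645, 8184, 8844, 9504,
    10054, 10945, 11275] t4_0 = true := by
  decide +kernel

/-- table -/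
def t4_2 : Tr :=
    (b (b (b (b (b (b (b o 15945138 0 o) 15945259 0 o) 15948405 373323 (b o 15948526 300747 o))
    15949736 300747 (b (b o 15949857 373323 o) 15956028 46667 (b o 15957359 38603 o))) 17716699 0
    (b (b (b o 17716820 0 o) 17719966 373323 (b o 17720087 300747 o)) 17721297 300747 (b (b o
    17721418 373323 o) 17727589 38603 (b o 17728920 46667 o)))) 63777285 373323 (b (b (b (b o
    63777406 373323 o) 63780552 0 (b o 63780673 1 o)) 63781883 1 (b (b o 63782004 0 o) 63788175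
    517 (b o 63789506 549 o))) 65548846 300747 (b (b (b o 65548967 300747 o) 65552113 1 (b o
    65552234 0 o)) 65553444 0 (b (b o 65553565 1 o) 65559736 525 (b o 65561067 557 o)))))
    83264456 300747 (b (b (b (b (b o 83264577 300747 o) 83267723 1 (b o 83267844 0 o)) 83269054 0
    (b (b o 83269175 1 o) 83275346 557 (b o 83276677 525 o))) 85036017 373323 (b (b (b o 85036138
    373323 o) 85039284 0 (b o 85039405 1 o)) 85040615 1 (b (b o 85040736 0 o) 85046907 549 (b o
    85048238 517 o)))) 175385628 46667 (b (b (b (b o 175385749 38603 o) 175388895 533 (b o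
    175389016 541 o)) 175390226 573 (b (b o 175390347 565 o) 175396518 0 (b o 175397849 0 o)))
    194872799 38603 (b (b (b o 194872920 46667 o) 194876066 565 (b o 194876187 573 o)) 194877397
    541 (b (b o 194877518 533 o) 194883689 0 (b o 194885020 0 o))))))

theorem c4_2 : chk4 2 true
    [1089, 1210, 4356, 4477, 5687, 5808, 11979, 13310] t4_2 = true := by
  decide +kernel

/-- table -/
def t4_3 : Tr :=
    (b (b (b (b (b (b (b o 100502688 0 o) 100502798 1 (b o 100504019 1 o)) 100504129 0 (b (b o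
    100505768 46667 o) 100505878 78839124555 o)) 100507099 78839124555 (b (b (b o 100507209
    1529132619 o) 100507803 191149643 o) 100509134 40365631771211 (b (b o 102113198 1 o)
    102113308 0 o))) 102114529 0 (b (b (b (b o 102114639 1 o) 102116278 78574367307 (b o
    102116388 38603 o)) 102117609 1264883403 (b (b o 102117719 78574367307 o) 102118313 158111435
    o)) 102119644 41450077459019 (b (b (b o 119989859 1 o) 119989969 0 o) 119991190 0 (b (b o
    119991300 1 o) 119992939 78574367307 o)))) 119993049 1264883403 (b (b (b (b (b o 119994270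
    38603 o) 119994380 78574367307 (b o 119994974 41450077459019 o)) 119996305 158111435 (b (b o
    121600369 0 o) 121600479 1 o)) 121601700 1 (b (b (b o 121601810 0 o) 121603449 1529132619 o)
    121603559 78839124555 (b (b o 121604780 78839124555 o) 121604890 46667 o))) 121605484
    40365631771211 (b (b (b (b o 121606815 191149643 o) 145596968 46667 o) 145597078 78574367307
    (b (b o 145598299 78574367307 o) 145598409 1529132619 o)) 145600048 0 (b (b (b o 145600158 1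
    o) 145601379 1 o) 145601489 0 (b (b o 145602083 613 o) 145603414 581 o))))) 147207478
    78839124555 (b (b (b (b (b (b o 147207588 38603 o) 147208809 1264883403 (b o 147208919
    78839124555 o)) 147210558 1 (b (b o 147210668 0 o) 147211889 0 o)) 147211999 1 (b (b (b o
    147212593 621 o) 147213924 589 o) 165084139 78839124555 (b (b o 165084249 1264883403 o)
    165085470 38603 o))) 165085580 78839124555 (b (b (b (b o 165087219 1 o) 165087329 0 o)
    165088550 0 (b (b o 165088660 1 o) 165089254 589 o)) 165090585 621 (b (b (b o 166694649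
    1529132619 o) 166694759 78574367307 o) 166695980 78574367307 (b (b o 166696090 46667 o)
    166697729 0 o)))) 166697839 1 (b (b (b (b (b o 166699060 1 o) 166699170 0 (b o 166699764 581
    o)) 166701095 613 (b (b o 175391403 191149643 o) 175391513 158111435 o)) 175392734
    41450077459019 (b (b (b o 175392844 40365631771211 o) 175394483 629 o) 175394593 637 (b (b o
    175395814 605 o) 175395924 597 o))) 175396518 0 (b (b (b (b o 175397849 0 o) 194878574
    40365631771211 o) 194878684 41450077459019 (b (b o 194879905 158111435 o) 194880015 191149643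
    o)) 194881654 597 (b (b (b o 194881764 605 o) 194882985 637 o) 194883095 629 (b (b o
    194883689 0 o) 194885020 0 o))))))

theorem c4_3 : chk4 3 true
    [6864, 6974, 8195, 8305, 9944, 10054, 11275, 11385, 11979, 13310] t4_3 = true := by
  decide +kernel

/-- table -/
def t4_4 : Tr :=
    (b (b (b (b (b (b (b o 110005346 0 o) 110005478 1 (b o 110006677 1 o)) 110006809 0 (b (b o
    110007326 78574367307 o) 110007458 46667 o)) 110008657 1529132619 (b (b (b o 110008789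
    78574367307 o) 110009812 645 o) 110011143 677 (b (b o 111937958 1 o) 111938090 0 o)))
    111939289 0 (b (b (b (b o 111939421 1 o) 111939938 38603 (b o 111940070 78839124555 o))
    111941269 78839124555 (b (b o 111941401 1264883403 o) 111942424 653 o)) 111943755 685 (b (b
    (b o 129492517 1 o) 129492649 0 o) 129493848 0 (b (b o 129493980 1 o) 129494497 1264883403
    o)))) 129494629 78839124555 (b (b (b (b (b o 129495828 78839124555 o) 129495960 38603 (b o
    129496983 685 o)) 129498314 653 (b (b o 131425129 0 o) 131425261 1 o)) 131426460 1 (b (b (b o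
    131426592 0 o) 131427109 78574367307 o) 131427241 1529132619 (b (b o 131428440 46667 o)
    131428572 78574367307 o))) 131429595 677 (b (b (b (b o 131430926 645 o) 138994526 78574367307
    o) 138994658 38603 (b (b o 138995857 1264883403 o) 138995989 78574367307 o)) 138996506 0 (b
    (b (b o 138996638 1 o) 138997837 1 o) 138997969 0 (b (b o 138998992 41450077459019 o)
    139000323 158111435 o))))) 140927138 46667 (b (b (b (b (b (b o 140927270 78839124555 o)
    140928469 78839124555 (b o 140928601 1529132619 o)) 140929118 1 (b (b o 140929250 0 o)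
    140930449 0 o)) 140930581 1 (b (b (b o 140931604 40365631771211 o) 140932935 191149643 o)
    158481697 1529132619 (b (b o 158481829 78839124555 o) 158483028 78839124555 o))) 158483160
    46667 (b (b (b (b o 158483677 1 o) 158483809 0 o) 158485008 0 (b (b o 158485140 1 o)
    158486163 191149643 o)) 158487494 40365631771211 (b (b (b o 160414309 78574367307 o)
    160414441 1264883403 o) 160415640 38603 (b (b o 160415772 78574367307 o) 160416289 0 o))))
    160416421 1 (b (b (b (b (b o 160417620 1 o) 160417752 0 (b o 160418775 158111435 o))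
    160420106 41450077459019 (b (b o 175392052 661 o) 175392184 669 o)) 175393383 701 (b (b (b o
    175393515 693 o) 175394032 41450077459019 o) 175394164 40365631771211 (b (b o 175395363
    191149643 o) 175395495 158111435 o))) 175396518 0 (b (b (b (b o 175397849 0 o) 194879223 693
    o) 194879355 701 (b (b o 194880554 669 o) 194880686 661 o)) 194881203 158111435 (b (b (b o
    194881335 191149643 o) 194882534 40365631771211 o) 194882666 41450077459019 (b (b o 194883689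
    0 o) 194885020 0 o))))))

theorem c4_4 : chk4 4 true
    [7513, 7645, 8844, 8976, 9493, 9625, 10824, 10956, 11979, 13310] t4_4 = true := by
  decide +kernel

end Pool.Agent.MP_d6da41_co

end MrgPart1

-- ======== part 2: formerly Pool.Agent.MP_d6da41_co.Build
section MrgPart2

/-! Construction of a flag system from a group with distinguished generators. -/

namespace Pool.Agent.MP_d6da41_co

open Relation

/-- Combinatorial conditions on moves and a vertex map. -/
structure Pre {Ω V : Type} (n : ℕ) (r : ℕ → Ω → Ω) (φ : Ω → V) : Prop where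
  inv : ∀ i, i < n → ∀ a, r i (r i a) = a
  comm : ∀ i k, i + 2 ≤ k → k < n → ∀ a, r i (r k a) = r k (r i a)
  ne : ∀ i, i < n → ∀ a, r i a ≠ a
  fix0 : ∀ i, 1 ≤ i → i < n → ∀ a, φ (r i a) = φ a
  all : ∀ a b, Conn r n (fun _ => True) a b
  f3 : ∀ a b, φ a = φ b → Conn r n (fun i => 1 ≤ i) a b
  f4 : ∀ j, j < n → ∀ a b, Conn r n (fun i => j < i) a b →
    Conn r n (fun i => j < i) (r j a) (r j b) → Conn r n (fun i => j + 1 < i) a b
  f5 : ∀ s t, s < t → t ≤ n → ∀ a b, Conn r n (fun i => s ≤ i ∧ i < t) a b →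
    Conn r n (fun i => s < i) a b → Conn r n (fun i => s < i ∧ i < t) a b

/-- images of faces -/
def ff {Ω V : Type} (n : ℕ) (r : ℕ → Ω → Ω) (φ : Ω → V) : (j : ℕ) → Ω → Img V j
  | 0, a => φ a
  | j + 1, a => {Y : Img V j | ∃ b, Conn r n (· ≤ j) a b ∧ ff n r φ j b = Y}

namespace Pre

variable {Ω V : Type} {n : ℕ} {r : ℕ → Ω → Ω} {φ : Ω → V} (h : Pre n r φ)
include h

theorem split {j : ℕ} {a b : Ω} (hab : Conn r n (fun i => i ≠ j) a b) :
    ∃ c, Conn r n (fun i => i < j) a c ∧ Conn r n (fun i => j < i) c b := by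
  refine Conn.induction (P := fun b => ∃ c, Conn r n (fun i => i < j) a c ∧
    Conn r n (fun i => j < i) c b) ⟨a, Conn.refl a, Conn.refl a⟩ ?_ hab
  rintro b i hi hI - ⟨c, h1, h2⟩
  rcases lt_or_gt_of_ne hI with e | e
  · exact ⟨r i c, h1.tail hi e,
      Conn.map_comm (t := r i) (fun k hk hk' x => h.comm i k (by omega) hk x) h2⟩
  · exact ⟨c, h1, h2.tail hi e⟩

theorem inter1 {s t : ℕ} (ht : t ≤ n) {a b : Ω} (h1 : Conn r n (fun i => i < t) a b)
    (h2 : Conn r n (fun i => s < i) a b) : Conn r n (fun i => s < i ∧ i < t) a b := by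
  have key : ∀ s', s' ≤ s + 1 → Conn r n (fun i => s' ≤ i ∧ i < t) a b := by
    intro s'
    induction s' with
    | zero => exact fun _ => h1.mono fun i _ hi => ⟨Nat.zero_le i, hi⟩
    | succ s' ih =>
      intro hs
      by_cases e : s' < t
      · exact h.f5 s' t e ht a b (ih (by omega)) (h2.mono fun i _ hi => by omega)
      · exact (ih (by omega)).mono fun i _ hi => by omega
  exact key (s + 1) le_rfl

theorem inter (J : ℕ → Prop) {a b : Ω} (hJ : ∀ j, j < n → J j → Conn r n (fun i => i ≠ j) a b) :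
    Conn r n (fun i => ¬ J i) a b := by
  have key : ∀ m t, m ≤ t → t ≤ n → (∀ j, m ≤ j → j < t → ¬ J j) → ∀ a b,
      Conn r n (fun i => i < t) a b → (∀ j, j < m → J j → Conn r n (fun i => i ≠ j) a b) →
      Conn r n (fun i => ¬ J i) a b := by
    intro m
    induction m with
    | zero => exact fun t _ _ h1 a b h2 _ => h2.mono fun i _ hi => h1 i (Nat.zero_le i) hi
    | succ m ih =>
      intro t hm ht h1 a b h2 h3
      by_cases e : J m
      · obtain ⟨c, c1, c2⟩ := h.split (h3 m (by omega) e)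
        have c3 : Conn r n (fun i => i < t) c b :=
          ((c1.symm h.inv).mono fun i _ hi => by omega).trans h2
        refine (ih m le_rfl (by omega) (fun j _ _ => by omega) a c c1 fun j hj hJ => ?_).trans
          ((h.inter1 ht c3 c2).mono fun i _ hi => h1 i (by omega) hi.2)
        exact (h3 j (by omega) hJ).trans ((c2.symm h.inv).mono fun i _ hi => by omega)
      · refine ih t (by omega) ht (fun j h4 h5 => ?_) a b h2 fun j hj => h3 j (by omega)
        rcases h4.eq_or_lt with rfl | h4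
        · exact e
        · exact h1 j h4 h5
  exact key n n le_rfl le_rfl (fun j _ _ => by omega) a b ((h.all a b).mono fun i hi _ => hi) hJ

theorem fix : ∀ j, j ≤ n → ∀ i, i < n → j ≠ i → ∀ a, ff n r φ j (r i a) = ff n r φ j a
  | 0, _, i, hi, e, a => h.fix0 i (by omega) hi a
  | j + 1, hj, i, hi, e, a => by
    have sub : ∀ a, (show Set (Img V j) from ff n r φ (j + 1) a) ⊆
        (show Set (Img V j) from ff n r φ (j + 1) (r i a)) := by
      rintro a _ ⟨b, hb, rfl⟩
      by_cases e' : i ≤ j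
      · exact ⟨b, ((Conn.step a hi e').symm h.inv).trans hb, rfl⟩
      · exact ⟨r i b, Conn.map_comm (t := r i)
          (fun k _ hk x => (h.comm k i (by omega) hi x).symm) hb,
          fix j (by omega) i hi (by omega) b⟩
    refine Set.Subset.antisymm ?_ (sub a)
    have := sub (r i a)
    rwa [h.inv i hi] at this

theorem cfix {I : ℕ → Prop} {a b : Ω} (hab : Conn r n I a b) {j : ℕ} (hj : j ≤ n) (hI : ¬ I j) :
    ff n r φ j b = ff n r φ j a := by
  refine Conn.induction (P := fun b => ff n r φ j b = ff n r φ j a) rfl ?_ hab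
  intro b i hi hi' _ hb
  rw [h.fix j hj i hi (fun e => hI (e ▸ hi')), hb]

theorem not_conn {i : ℕ} (hi : i < n) (a : Ω) : ¬ Conn r n (fun k => k ≠ i) a (r i a) := by
  intro hc
  refine h.ne i hi a (Conn.eq_of_empty (I := fun _ => ¬ True) (fun _ _ h => h trivial)
    (h.inter (fun _ => True) fun j _ _ => ?_))
  by_cases e : j = i
  · rw [e]; exact hc
  · exact Conn.step a hi (Ne.symm e)

theorem faithful (j : ℕ) : j ≤ n → ∀ a b, ff n r φ j a = ff n r φ j b →
    Conn r n (fun i => i ≠ j) a b := by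
  induction j using Nat.strong_induction_on with
  | _ j ih =>
  intro hj a b hab
  rcases j with _ | j
  · exact (h.f3 a b hab).mono fun i _ hi => by omega
  have self : ∀ j a, ff n r φ j a ∈ (show Set (Img V j) from ff n r φ (j + 1) a) :=
    fun j a => ⟨a, Conn.refl a, rfl⟩
  have h1 := self j a
  rw [hab] at h1
  obtain ⟨b1, hb1, e1⟩ := h1
  obtain ⟨c, c1, c2⟩ := h.split ((ih j (by omega) (by omega) a b1 e1.symm).symm h.inv)
  have c3 := c2.symm h.inv
  have e2 : ff n r φ (j + 1) c = ff n r φ (j + 1) a := by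
    rw [h.cfix c1 hj (by omega), h.cfix hb1 hj (by omega), hab]
  have h2 := self j (r j c)
  rw [h.fix _ hj j (by omega) (by omega), e2] at h2
  obtain ⟨w, hw, e3⟩ := h2
  obtain ⟨w2, e4, hw2⟩ : ∃ w2, ff n r φ j w2 = ff n r φ j (r j c) ∧
      Conn r n (fun i => i + 1 < j ∨ i = j) a w2 := by
    rcases j with _ | j
    · exact ⟨w, e3, hw.mono fun i _ hi => by omega⟩
    · have h3 := self j (r (j + 1) c)
      rw [← e3, h.fix j (by omega) _ (by omega) (by omega), h.cfix c3 (by omega) (by omega)] at h3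
      obtain ⟨w2, h4, e5⟩ := h3
      refine ⟨w2, by rw [h.cfix h4 (by omega) (by omega), e3], ?_⟩
      refine (h.inter (fun k => k = j ∨ j + 1 < k) fun k _ hk => ?_).mono fun i _ hi => by omega
      rcases hk with rfl | hk
      · exact ih k (by omega) (by omega) a w2 e5.symm
      · exact (hw.mono fun i _ hi => by omega).trans (h4.mono fun i _ hi => by omega)
  have Q : Conn r n (fun i => i + 1 < j) a w2 ∨ Conn r n (fun i => i + 1 < j) (r j a) w2 := by
    refine Conn.induction (P := fun w2 => Conn r n (fun i => i + 1 < j) a w2 ∨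
      Conn r n (fun i => i + 1 < j) (r j a) w2) (Or.inl (Conn.refl a)) ?_ hw2
    rintro x i hi (hI | rfl) - hx
    · exact hx.imp (fun hx => hx.tail hi hI) fun hx => hx.tail hi hI
    · have hc : ∀ k, k < n → k + 1 < i → ∀ x, r i (r k x) = r k (r i x) :=
        fun k _ hk x => (h.comm k i (by omega) hi x).symm
      rcases hx with hx | hx
      · exact Or.inr (Conn.map_comm hc hx)
      · have := Conn.map_comm hc hx
        rw [h.inv i hi] at this
        exact Or.inl this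
  have e6 : ff n r φ j (r j a) = ff n r φ j (r j c) := by
    rcases Q with Q | Q
    · exfalso
      refine h.not_conn (i := j) (by omega) c (ih j (by omega) (by omega) _ _ ?_)
      rw [← e4, h.cfix Q (by omega) (by omega), h.cfix c3 (by omega) (by omega)]
    · rw [← e4, h.cfix Q (by omega) (by omega)]
  have h5 : Conn r n (fun i => j < i) (r j a) (r j c) := by
    refine (h.inter (fun k => k ≤ j) fun k _ hk => ?_).mono fun i _ hi => by omega
    rcases hk.eq_or_lt with rfl | hk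
    · exact ih k (by omega) (by omega) _ _ e6
    · exact (((Conn.step a (by omega) (by omega)).symm h.inv).trans
        (c3.mono fun i _ hi => by omega)).tail (by omega) (by omega)
  have h6 := h.f4 j (by omega) a c c3 h5
  exact ((h6.mono fun i _ hi => by omega).trans
    ((c1.symm h.inv).mono fun i _ hi => by omega)).trans
    ((hb1.symm h.inv).mono fun i _ hi => by omega)

omit h in
/-- the flag system -/
def man (h : Pre n r φ) : Man V n where
  Ω := Ω
  r := r
  f := ff n r φ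
  inv := h.inv
  fix := fun i hi j hj e => h.fix j hj i hi e
  move := fun i hi a e => h.not_conn hi a (h.faithful i hi.le _ _ e.symm)
  succ := fun _ _ _ => rfl
  sc := fun a b => h.inter (fun i => ff n r φ i a = ff n r φ i b)
    fun j hj e => h.faithful j hj.le a b e

end Pre

/-- Relations between generators and points. -/
structure GD0 {V : Type} [MetricSpace V] (n : ℕ) (τ : ℕ → V ≃ᵢ V) (v : ℕ → V) : Prop where
  two_le : 2 ≤ n
  last : τ (n - 1) = 1
  g1 : ∀ i, 1 ≤ i → i < n → τ i (v 0) = v 0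
  vs : ∀ k, k + 2 < n → v (k + 1) = τ k (v k)
  g2 : ∀ i k, i + 2 ≤ k → k < n → τ i * (τ k)⁻¹ * (τ i * (τ k)⁻¹) = 1

/-- Sufficient conditions on generators and points. -/
structure GD {V : Type} [MetricSpace V] (n : ℕ) (τ : ℕ → V ≃ᵢ V) (v : ℕ → V) : Prop
    extends GD0 n τ v where
  sq : τ (n - 2) * τ (n - 2) ≠ 1
  mv : ∀ k, k + 2 < n → τ k (v k) ≠ v k
  st : ∀ k b, k + 2 ≤ b → b ≤ n → ∀ g ∈ GG τ k b, g (v k) = v k → g ∈ GG τ (k + 1) b

namespace GD0

variable {V : Type} [MetricSpace V] {n : ℕ} {τ : ℕ → V ≃ᵢ V} {v : ℕ → V} (h : GD0 n τ v)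
include h

theorem invol {k : ℕ} (hk : k + 2 < n) : τ k * τ k = 1 := by
  have := h.g2 k (n - 1) (by omega) (by omega)
  rwa [h.last, inv_one, mul_one] at this

theorem fixv : ∀ k, k + 1 < n → ∀ i, k < i → i < n → τ i (v k) = v k
  | 0, _, i, h1, h2 => h.g1 i h1 h2
  | k + 1, hk, i, h1, h2 => by
    have e1 := h.g2 k i (by omega) h2
    have e2 := h.invol (k := k) hk
    have e3 : τ i * τ k = τ k * (τ i)⁻¹ := by
      rw [← mul_inv_eq_one, mul_inv_rev, inv_inv, ← inv_eq_one, mul_inv_rev, mul_inv_rev,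
        mul_inv_rev, inv_inv, inv_eq_of_mul_eq_one_right e2]
      exact e1
    have e4 := fixv k (by omega) i (by omega) h2
    have e5 : (τ i)⁻¹ (v k) = v k := by
      conv_lhs => rw [← e4]
      exact (τ i).symm_apply_apply _
    rw [h.vs k hk]
    have := congrArg (fun g : V ≃ᵢ V => g (v k)) e3
    simp only [IsometryEquiv.mul_apply] at this
    rw [this, e5]

theorem fixG {k : ℕ} (hk : k + 1 < n) {g : V ≃ᵢ V} (hg : g ∈ GG τ (k + 1) n) : g (v k) = v k :=
  GG_le_of_tau (X := stabI (v k))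
    (fun i h1 h2 => h.fixv k hk i h1 h2) hg

end GD0

namespace GD

variable {V : Type} [MetricSpace V] {n : ℕ} {τ : ℕ → V ≃ᵢ V} {v : ℕ → V} (h : GD n τ v)
include h

omit h in
/-- moves -/
def mvs (n : ℕ) (τ : ℕ → V ≃ᵢ V) (hl : τ (n - 1) = 1) (i : ℕ) (x : GG τ 0 n × Bool) :
    GG τ 0 n × Bool :=
  if hi : i < n then
    (x.1 * (if x.2 then ⟨τ i, tau_mem_GG hl (Nat.zero_le i) hi⟩⁻¹
      else ⟨τ i, tau_mem_GG hl (Nat.zero_le i) hi⟩), !x.2)
  else x

omit h in
theorem mvs_f {hl : τ (n - 1) = 1} {i : ℕ} (hi : i < n) (g : GG τ 0 n) :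
    mvs n τ hl i (g, false) = (g * ⟨τ i, tau_mem_GG hl (Nat.zero_le i) hi⟩, true) := by
  simp [mvs, hi]

omit h in
theorem mvs_t {hl : τ (n - 1) = 1} {i : ℕ} (hi : i < n) (g : GG τ 0 n) :
    mvs n τ hl i (g, true) = (g * ⟨τ i, tau_mem_GG hl (Nat.zero_le i) hi⟩⁻¹, false) := by
  simp [mvs, hi]

theorem inv' (i : ℕ) (hi : i < n) (a : GG τ 0 n × Bool) :
    mvs n τ h.last i (mvs n τ h.last i a) = a := by
  obtain ⟨g, _ | _⟩ := a
  · rw [mvs_f hi, mvs_t hi, mul_inv_cancel_right]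
  · rw [mvs_t hi, mvs_f hi, inv_mul_cancel_right]

theorem conn_iff {s t : ℕ} (ht : t ≤ n) (g g' : GG τ 0 n) :
    Conn (mvs n τ h.last) n (fun i => s ≤ i ∧ i < t) (g, false) (g', false) ↔
      ((g⁻¹ * g' : GG τ 0 n) : V ≃ᵢ V) ∈ GG τ s t := by
  constructor
  · intro hc
    have := Conn.induction (P := fun x : GG τ 0 n × Bool =>
      (x.2 = false ∧ ((g⁻¹ * x.1 : GG τ 0 n) : V ≃ᵢ V) ∈ GG τ s t) ∨
      (x.2 = true ∧ ∃ k, s ≤ k ∧ k < t ∧
        ((g⁻¹ * x.1 : GG τ 0 n) : V ≃ᵢ V) * (τ k)⁻¹ ∈ GG τ s t))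
      (Or.inl ⟨rfl, by simp⟩) ?_ hc
    · rcases this with h1 | h1
      · exact h1.2
      · exact absurd h1.1 (by simp)
    rintro ⟨x, _ | _⟩ i hi hI - (⟨e, hx⟩ | ⟨e, k, h1, h2, hx⟩)
    · rw [mvs_f hi]
      exact Or.inr ⟨rfl, i, hI.1, hI.2, by simpa [mul_assoc] using hx⟩
    · exact absurd e (by simp)
    · exact absurd e (by simp)
    · rw [mvs_t hi]
      refine Or.inl ⟨rfl, ?_⟩
      have := mul_mem hx (mem_GG (τ := τ) h1 h2 hI.1 hI.2)
      simpa [mul_assoc] using this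
  · intro hg
    let Z : Subgroup (V ≃ᵢ V) :=
      { carrier := {y | ∃ hy : y ∈ GG τ 0 n, ∀ g : GG τ 0 n,
          Conn (mvs n τ h.last) n (fun i => s ≤ i ∧ i < t) (g, false) (g * ⟨y, hy⟩, false)}
        one_mem' := ⟨one_mem _, fun g => by
          have : g * ⟨1, one_mem _⟩ = g := mul_one g
          rw [this]; exact Conn.refl _⟩
        mul_mem' := by
          rintro y z ⟨hy, h1⟩ ⟨hz, h2⟩
          refine ⟨mul_mem hy hz, fun g => ?_⟩
          have := (h1 g).trans (h2 _)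
          rwa [mul_assoc] at this
        inv_mem' := by
          rintro y ⟨hy, h1⟩
          refine ⟨inv_mem hy, fun g => ?_⟩
          have := h1 (g * ⟨y, hy⟩⁻¹)
          rw [inv_mul_cancel_right] at this
          exact this.symm h.inv' }
    have hZ : GG τ s t ≤ Z := GG_le fun i h1 h2 => by
      refine ⟨mem_GG (by omega) (by omega) (by omega) (by omega), fun g => ?_⟩
      have := ((Conn.refl (r := mvs n τ h.last) (n := n) (I := fun i => s ≤ i ∧ i < t)
        (g, false)).tail (i := i) (by omega) (by omega)).tail (i := i + 1) (by omega) (by omega)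
      rw [mvs_f (by omega), mvs_t (by omega), mul_assoc] at this
      exact this
    obtain ⟨hy, h1⟩ := hZ hg
    have := h1 g
    have e : g * ⟨_, hy⟩ = g' := mul_inv_cancel_left g g'
    rwa [e] at this

theorem to_even {k : ℕ} (hk : k < n) (x : GG τ 0 n × Bool) :
    ∃ g, x = (g, false) ∨ (x = mvs n τ h.last k (g, false)) := by
  obtain ⟨g, _ | _⟩ := x
  · exact ⟨g, Or.inl rfl⟩
  · exact ⟨_, Or.inr (by rw [← mvs_t (hl := h.last) hk, h.inv' k hk])⟩

theorem conn_even {k : ℕ} (hk : k < n) (x : GG τ 0 n × Bool) :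
    ∃ g, ∀ J : ℕ → Prop, J k → Conn (mvs n τ h.last) n J x (g, false) := by
  obtain ⟨g, rfl | rfl⟩ := h.to_even hk x
  · exact ⟨g, fun _ _ => Conn.refl _⟩
  · exact ⟨g, fun J hJ => (Conn.step _ hk hJ).symm h.inv'⟩

theorem mvs_last (g : GG τ 0 n) (b : Bool) : mvs n τ h.last (n - 1) (g, b) = (g, !b) := by
  have hn := h.two_le
  have e : (⟨τ (n - 1), tau_mem_GG h.last (Nat.zero_le _) (by omega)⟩ : GG τ 0 n) = 1 :=
    Subtype.ext h.last
  rcases b with _ | _
  · rw [mvs_f (by omega), e, mul_one]; rfl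
  · rw [mvs_t (by omega), e, inv_one, mul_one]; rfl

theorem conn_last {J : ℕ → Prop} (hJ : J (n - 1)) (g : GG τ 0 n) (b : Bool) :
    Conn (mvs n τ h.last) n J (g, b) (g, false) := by
  have hn := h.two_le
  rcases b with _ | _
  · exact Conn.refl _
  · have := Conn.step (r := mvs n τ h.last) (n := n) (I := J) (g, true) (i := n - 1)
      (by omega) hJ
    rwa [h.mvs_last] at this

theorem conn_iff' {s : ℕ} (hs : s < n) (x y : GG τ 0 n × Bool) :
    Conn (mvs n τ h.last) n (fun i => s ≤ i) x y ↔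
      ((x.1⁻¹ * y.1 : GG τ 0 n) : V ≃ᵢ V) ∈ GG τ s n := by
  obtain ⟨g, b⟩ := x
  obtain ⟨g', b'⟩ := y
  rw [← h.conn_iff le_rfl]
  constructor
  · intro hc
    exact ((((h.conn_last (by omega) g b).symm h.inv').trans hc).trans
      (h.conn_last (by omega) g' b')).mono fun i hi hi' => ⟨hi', hi⟩
  · intro hc
    exact ((h.conn_last (by omega) g b).trans (hc.mono fun i _ hi => hi.1)).trans
      ((h.conn_last (by omega) g' b').symm h.inv')

theorem not_mem {a : ℕ} (ha : a + 1 < n) : τ a ∉ GG τ (a + 1) n := by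
  intro hm
  by_cases e : a + 2 < n
  · exact h.mv a e (h.fixG ha hm)
  · apply h.sq
    obtain rfl : a = n - 2 := by omega
    rw [GG_trivial (by omega) hm, one_mul]

theorem pre : Pre n (mvs n τ h.last) (fun x => (x.1 : V ≃ᵢ V) (v 0)) := by
  have hn := h.two_le
  have hne : ∀ i, i < n → ∀ a, mvs n τ h.last i a ≠ a := by
    rintro i hi ⟨g, _ | _⟩
    · rw [mvs_f hi]; simp
    · rw [mvs_t hi]; simp
  have hcomm : ∀ i k, i + 2 ≤ k → k < n → ∀ a,
      mvs n τ h.last i (mvs n τ h.last k a) = mvs n τ h.last k (mvs n τ h.last i a) := by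
    rintro i k hik hk ⟨g, _ | _⟩
    · rw [mvs_f hk, mvs_t (by omega), mvs_f (by omega), mvs_t hk, mul_assoc, mul_assoc]
      congr 2
      refine Subtype.ext ?_
      have := h.g2 i k hik hk
      show τ k * (τ i)⁻¹ = τ i * (τ k)⁻¹
      rw [eq_inv_of_mul_eq_one_left this, mul_inv_rev, inv_inv]
    · rw [mvs_t hk, mvs_f (by omega), mvs_t (by omega), mvs_f hk, mul_assoc, mul_assoc]
      congr 2
      refine Subtype.ext ?_
      have := h.g2 i k hik hk
      show (τ k)⁻¹ * τ i = (τ i)⁻¹ * τ k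
      calc (τ k)⁻¹ * τ i = (τ i)⁻¹ * (τ i * (τ k)⁻¹ * (τ i * (τ k)⁻¹)) * τ k := by group
        _ = _ := by rw [this, mul_one]
  refine ⟨h.inv', hcomm, hne, ?_, ?_, ?_, ?_, ?_⟩
  · rintro i h1 hi ⟨g, _ | _⟩
    · rw [mvs_f hi]
      exact congrArg (g : V ≃ᵢ V) (h.g1 i h1 hi)
    · rw [mvs_t hi]
      exact congrArg (g : V ≃ᵢ V) (h.fixG (k := 0) (by omega)
        (inv_mem (tau_mem_GG h.last h1 hi)))
  · intro a b
    exact ((h.conn_iff' (s := 0) (by omega) a b).2 (a.1⁻¹ * b.1).2).mono fun _ _ _ => trivial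
  · intro a b e
    refine (h.conn_iff' (s := 1) (by omega) a b).2
      (h.st 0 n hn le_rfl _ (a.1⁻¹ * b.1).2 ?_)
    show (a.1 : V ≃ᵢ V)⁻¹ ((b.1 : V ≃ᵢ V) (v 0)) = v 0
    rw [← e]
    exact (a.1 : V ≃ᵢ V).symm_apply_apply _
  · intro j hj a b h1 h2
    by_cases e1 : j + 1 = n
    · exact h1.mono fun i _ _ => by omega
    by_cases e2 : j + 2 = n
    · rcases Conn.of_single h.inv' (k := n - 1) (fun i _ _ => by omega) h1 with rfl | rfl
      · exact Conn.refl _
      · exfalso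
        apply h.sq
        obtain rfl : j = n - 2 := by omega
        obtain ⟨g, b⟩ := a
        have h3 := (h.conn_iff' (s := n - 2 + 1) (by omega) _ _).1 h2
        have h4 := GG_trivial (by omega) h3
        rw [h.mvs_last] at h4
        rcases b with _ | _
        · rw [mvs_f hj, Bool.not_false, mvs_t hj] at h4
          rw [← inv_eq_one]
          simpa [mul_assoc] using h4
        · rw [mvs_t hj, Bool.not_true, mvs_f hj] at h4
          simpa [mul_assoc] using h4
    · obtain ⟨g, c⟩ := a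
      obtain ⟨g', c'⟩ := b
      have h3 := (h.conn_iff' (s := j + 1) (by omega) _ _).1 h1
      have h4 := (h.conn_iff' (s := j + 1) (by omega) _ _).1 h2
      refine (h.conn_iff' (s := j + 2) (by omega) _ _).2 (h.st (j + 1) n (by omega) le_rfl _ h3 ?_)
      have h5 := h.fixG (by omega) h4
      have e3 := h.invol (k := j) (by omega)
      have e4 : (τ j)⁻¹ = τ j := inv_eq_of_mul_eq_one_right e3
      have e5 : ∀ g b, ((mvs n τ h.last j (g, b)).1 : V ≃ᵢ V) = g * τ j := by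
        rintro g (_ | _)
        · rw [mvs_f hj]; rfl
        · rw [mvs_t hj]; show (g : V ≃ᵢ V) * (τ j)⁻¹ = _; rw [e4]
      rw [h.vs j (by omega)]
      simp only [Subgroup.coe_mul, Subgroup.coe_inv, e5, mul_inv_rev, IsometryEquiv.mul_apply]
        at h5 ⊢
      have := congrArg (τ j) h5
      rwa [← IsometryEquiv.mul_apply, mul_inv_cancel] at this
  · intro s t hst ht a b h1 h2
    by_cases e : t = s + 1
    · rcases Conn.of_single h.inv' (k := s) (fun i _ _ => by omega) h1 with rfl | rfl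
      · exact Conn.refl _
      · exfalso
        by_cases e' : s + 1 = n
        · exact hne s (by omega) a (Conn.eq_of_empty (fun i _ _ => by omega) h2)
        · have h3 := (h.conn_iff' (s := s + 1) (by omega) _ _).1 h2
          apply h.not_mem (a := s) (by omega)
          obtain ⟨g, _ | _⟩ := a
          · rw [mvs_f (by omega)] at h3
            simpa using h3
          · rw [mvs_t (by omega)] at h3
            simpa using h3
    · obtain ⟨g, hg⟩ := h.conn_even (k := t - 1) (by omega) a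
      obtain ⟨g', hg'⟩ := h.conn_even (k := t - 1) (by omega) b
      have h3 := (h.conn_iff ht g g').1
        ((((hg _ (by omega)).symm h.inv').trans h1).trans (hg' _ (by omega)))
      have h4 := (h.conn_iff' (s := s + 1) (by omega) (g, false) (g', false)).1
        ((((hg _ (by omega)).symm h.inv').trans h2).trans (hg' _ (by omega)))
      have h5 := (h.conn_iff ht g g').2 (h.st s t (by omega) ht _ h3 (h.fixG (by omega) h4))
      exact ((hg _ (by omega)).trans h5).trans ((hg' _ (by omega)).symm h.inv')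

/-- The flag system of the group data, with its base flag. -/
theorem exists_man : ∃ (M : Man V n) (a : M.Ω), M.Base a τ ∧ M.vt a = v 0 ∧
    (Finite (GG τ 0 n) → Finite M.Ω) := by
  have hn := h.two_le
  have key : ∀ (g : GG τ 0 n) (x : GG τ 0 n × Bool),
      h.pre.man.B g x ((g * x.1, x.2) : GG τ 0 n × Bool) := by
    intro g x j hj
    have hc : ∀ i, i < n → ∀ x : GG τ 0 n × Bool,
        ((g * (mvs n τ h.last i x).1, (mvs n τ h.last i x).2) : GG τ 0 n × Bool)
          = mvs n τ h.last i (g * x.1, x.2) := by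
      rintro i hi ⟨y, _ | _⟩
      · rw [mvs_f hi, mvs_f hi, mul_assoc]
      · rw [mvs_t hi, mvs_t hi, mul_assoc]
    induction j generalizing g x with
    | zero => rfl
    | succ j ih =>
      refine Set.ext fun Y => ⟨?_, ?_⟩
      · rintro ⟨b, hb, rfl⟩
        have hc' : ∀ i, i < n → ∀ x : GG τ 0 n × Bool,
            ((g⁻¹ * (mvs n τ h.last i x).1, (mvs n τ h.last i x).2) : GG τ 0 n × Bool)
              = mvs n τ h.last i (g⁻¹ * x.1, x.2) := by
          rintro i hi ⟨y, _ | _⟩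
          · rw [mvs_f hi, mvs_f hi, mul_assoc]
          · rw [mvs_t hi, mvs_t hi, mul_assoc]
        have := Conn.map_comm (t := fun x : GG τ 0 n × Bool => (g⁻¹ * x.1, x.2))
          (fun i hi _ x => hc' i hi x) hb
        simp only [inv_mul_cancel_left] at this
        refine ⟨_, ⟨_, this, rfl⟩, ?_⟩
        have := ih g (g⁻¹ * b.1, b.2) (by omega) hc
        simp only [mul_inv_cancel_left] at this
        exact this.symm
      · rintro ⟨_, ⟨b, hb, rfl⟩, rfl⟩
        exact ⟨_, Conn.map_comm (t := fun x : GG τ 0 n × Bool => (g * x.1, x.2))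
          (fun i hi _ x => hc i hi x) hb, ih g b (by omega) hc⟩
  refine ⟨h.pre.man, (1, false), ⟨fun i hi => ?_, h.last⟩, rfl, fun _ => ?_⟩
  · have := key ⟨τ i, tau_mem_GG h.last (Nat.zero_le i) hi⟩ (1, false)
    have e : h.pre.man.r (n - 1) (h.pre.man.r i (1, false))
        = ((⟨τ i, tau_mem_GG h.last (Nat.zero_le i) hi⟩ * 1, false) : GG τ 0 n × Bool) := by
      show mvs n τ h.last (n - 1) (mvs n τ h.last i (1, false)) = _
      rw [mvs_f hi, h.mvs_last, one_mul, mul_one]; rfl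
    rw [e]
    exact this
  · exact (inferInstance : Finite (GG τ 0 n × Bool))

end GD

end Pool.Agent.MP_d6da41_co

end MrgPart2

-- ======== part 3: formerly Pool.Agent.MP_d6da41_co.Move
section MrgPart3

/-! Transport of group data, words and chirality. -/

namespace Pool.Agent.MP_d6da41_co

section
variable {V W : Type} [MetricSpace V] [MetricSpace W] {n : ℕ}

/-- `g'` is the restriction of `g` along `ψ` -/
def Rl (ψ : W → V) (g : V ≃ᵢ V) (g' : W ≃ᵢ W) : Prop := ∀ x, ψ (g' x) = g (ψ x)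

variable {ψ : W → V}

theorem Rl.one : Rl ψ 1 1 := fun _ => rfl

theorem Rl.mul {g h : V ≃ᵢ V} {g' h' : W ≃ᵢ W} (a : Rl ψ g g') (b : Rl ψ h h') :
    Rl ψ (g * h) (g' * h') := fun x => by
  rw [IsometryEquiv.mul_apply, IsometryEquiv.mul_apply, a, b]

theorem Rl.inv {g : V ≃ᵢ V} {g' : W ≃ᵢ W} (a : Rl ψ g g') : Rl ψ g⁻¹ g'⁻¹ := fun x => by
  apply g.injective
  rw [← a]
  exact (congrArg ψ (g'.apply_symm_apply x)).trans (g.apply_symm_apply _).symm

theorem Rl.unique (hψ : Function.Injective ψ) {g : V ≃ᵢ V} {g' g'' : W ≃ᵢ W} (a : Rl ψ g g')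
    (b : Rl ψ g g'') : g' = g'' := by
  ext x; exact hψ ((a x).trans (b x).symm)

theorem GG_rl {τ : ℕ → V ≃ᵢ V} {τ' : ℕ → W ≃ᵢ W} (h : ∀ i, i < n → Rl ψ (τ i) (τ' i)) {a b : ℕ}
    (hb : b ≤ n) : (∀ g ∈ GG τ a b, ∃ g' ∈ GG τ' a b, Rl ψ g g') ∧
      ∀ g' ∈ GG τ' a b, ∃ g ∈ GG τ a b, Rl ψ g g' := by
  constructor
  · let X : Subgroup (V ≃ᵢ V) :=
      { carrier := {g | ∃ g' ∈ GG τ' a b, Rl ψ g g'}
        one_mem' := ⟨1, one_mem _, Rl.one⟩
        mul_mem' := fun ⟨_, a, b⟩ ⟨_, a', b'⟩ => ⟨_, mul_mem a a', b.mul b'⟩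
        inv_mem' := fun ⟨_, a, b⟩ => ⟨_, inv_mem a, b.inv⟩ }
    exact fun g hg => GG_le (X := X) (fun i h1 h2 => ⟨_, mem_GG h1 (by omega) (by omega) h2,
      (h i (by omega)).mul (h _ (by omega)).inv⟩) hg
  · let X : Subgroup (W ≃ᵢ W) :=
      { carrier := {g' | ∃ g ∈ GG τ a b, Rl ψ g g'}
        one_mem' := ⟨1, one_mem _, Rl.one⟩
        mul_mem' := fun ⟨_, a, b⟩ ⟨_, a', b'⟩ => ⟨_, mul_mem a a', b.mul b'⟩
        inv_mem' := fun ⟨_, a, b⟩ => ⟨_, inv_mem a, b.inv⟩ }
    exact fun g hg => GG_le (X := X) (fun i h1 h2 => ⟨_, mem_GG h1 (by omega) (by omega) h2,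
      (h i (by omega)).mul (h _ (by omega)).inv⟩) hg

theorem inj_of_scale {c : ℝ} (hc : 0 < c) (hψ : ∀ x y, dist (ψ x) (ψ y) = c * dist x y) :
    Function.Injective ψ := fun x y e => by
  have := hψ x y
  rw [e, dist_self] at this
  exact dist_eq_zero.1 ((mul_eq_zero.1 this.symm).resolve_left hc.ne')

theorem exists_rl {c : ℝ} (hc : 0 < c) (hψ : ∀ x y, dist (ψ x) (ψ y) = c * dist x y)
    {g : V ≃ᵢ V} (h : ∀ y, g y ∈ Set.range ψ ↔ y ∈ Set.range ψ) : ∃ g', Rl ψ g g' := by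
  have inj := inj_of_scale hc hψ
  choose f hf using fun x => (h (ψ x)).2 ⟨x, rfl⟩
  choose f' hf' using fun x => (h (g.symm (ψ x))).1 ⟨x, (g.apply_symm_apply _).symm⟩
  refine ⟨⟨⟨f, f', fun x => inj ?_, fun x => inj ?_⟩, Isometry.of_dist_eq fun x y => ?_⟩, hf⟩
  · rw [hf', hf, g.symm_apply_apply]
  · rw [hf, hf', g.apply_symm_apply]
  · apply mul_left_cancel₀ hc.ne'
    rw [← hψ, ← hψ]
    show dist (ψ (f x)) (ψ (f y)) = _
    rw [hf, hf, g.dist_eq]

theorem GD.transport {τ : ℕ → V ≃ᵢ V} {v : ℕ → V} (h : GD n τ v) {c : ℝ} (hc : 0 < c)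
    (hψ : ∀ x y, dist (ψ x) (ψ y) = c * dist x y)
    (hU : ∀ i, i < n → ∀ y, τ i y ∈ Set.range ψ ↔ y ∈ Set.range ψ) (hv : v 0 ∈ Set.range ψ)
    (hsq : τ (n - 2) (τ (n - 2) (v (n - 2))) ≠ v (n - 2)) :
    ∃ τ' v', GD n τ' v' ∧ ψ (v' 0) = v 0 ∧ ∀ i, i < n → Rl ψ (τ i) (τ' i) := by
  have inj := inj_of_scale hc hψ
  have hn := h.two_le
  have : ∀ i, ∃ g', i < n → Rl ψ (τ i) g' := fun i => by
    by_cases hi : i < n
    · obtain ⟨g, hg⟩ := exists_rl hc hψ (hU i hi)
      exact ⟨g, fun _ => hg⟩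
    · exact ⟨1, fun h => absurd h hi⟩
  choose τ' hτ using this
  have : ∀ k, ∃ x, k + 1 < n → ψ x = v k := fun k => by
    induction k with
    | zero => obtain ⟨x, e⟩ := hv; exact ⟨x, fun _ => e⟩
    | succ k ih =>
      obtain ⟨x, e⟩ := ih
      exact ⟨τ' k x, fun hk => by rw [hτ k (by omega), e (by omega), h.vs k hk]⟩
  choose v' hv' using this
  refine ⟨τ', v', ⟨⟨hn, (hτ _ (by omega)).unique inj (by rw [h.last]; exact Rl.one),
    fun i h1 h2 => inj ?_, fun k hk => inj ?_, fun i k h1 h2 => ?_⟩, fun e => hsq ?_,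
    fun k hk e => h.mv k hk ?_, fun k b h1 h2 g' hg' e => ?_⟩, hv' 0 (by omega), hτ⟩
  · rw [hτ i h2, hv' 0 (by omega), h.g1 i h1 h2]
  · rw [hτ k (by omega), hv' _ hk, hv' k (by omega), h.vs k hk]
  · have a := (hτ i (by omega)).mul (hτ k h2).inv
    have := a.mul a
    rw [h.g2 i k h1 h2] at this
    exact this.unique inj Rl.one
  · rw [← hv' _ (by omega), ← hτ _ (by omega), ← hτ _ (by omega), ← IsometryEquiv.mul_apply, e]
    rfl
  · rw [← hv' k (by omega), ← hτ k (by omega), e]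
  · obtain ⟨g, hg, r⟩ := (GG_rl hτ h2).2 g' hg'
    obtain ⟨g'', hg'', r'⟩ := (GG_rl hτ h2).1 g (h.st k b h1 h2 g hg (by
      rw [← hv' k (by omega), ← r, e]))
    rwa [r.unique inj r']

theorem rl_word {τ : ℕ → V ≃ᵢ V} {τ' : ℕ → W ≃ᵢ W} (h : ∀ i, i < n → Rl ψ (τ i) (τ' i)) :
    ∀ w : List ℕ, (∀ i ∈ w, i < n) → Rl ψ (w.map τ).prod (w.map τ').prod
  | [], _ => Rl.one
  | i :: w, hw => by
    rw [List.map_cons, List.map_cons, List.prod_cons, List.prod_cons]
    exact (h i (hw i (by simp))).mul (rl_word h w fun j hj => hw j (by simp [hj]))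

theorem word_transfer {M : Man V n} {M' : Man W n} {a : M.Ω} {a' : M'.Ω} {τ : ℕ → V ≃ᵢ V}
    {τ' : ℕ → W ≃ᵢ W} (hb : M.Base a τ) (hb' : M'.Base a' τ') {F : V → W}
    (hF : Function.Injective F) (hA : Man.A M M' F a a') (w : List ℕ) (hw : ∀ i ∈ w, i < n) :
    F ((w.map τ).prod (M.vt a)) = (w.map τ').prod (M'.vt a') := by
  have key : ∀ (w : List ℕ), (∀ i ∈ w, i < n) → ∀ g g' b b', M.B g a b → M'.B g' a' b' →
      Man.A M M' F b b' → F ((g * (w.map τ).prod) (M.vt a)) = (g' * (w.map τ').prod) (M'.vt a') := by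
    intro w
    induction w with
    | nil =>
      intro _ g g' b b' h1 h2 h3
      simp only [List.map_nil, List.prod_nil, mul_one]
      rw [← h1.vertex, ← h2.vertex]
      exact (h3 0 (Nat.zero_le n)).symm
    | cons i w ih =>
      intro hw g g' b b' h1 h2 h3
      have hi := hw i (by simp)
      rw [List.map_cons, List.map_cons, List.prod_cons, List.prod_cons, ← mul_assoc, ← mul_assoc]
      exact ih (fun j hj => hw j (by simp [hj])) _ _ _ _
        ((hb.act i hi).mul ((h1.r' hi).r' (by omega)))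
        ((hb'.act i hi).mul ((h2.r' hi).r' (by omega))) ((h3.r hF hi).r hF (by omega))
  simpa only [one_mul] using key w hw 1 1 a a' (Man.B.one a) (Man.B.one a') hA

theorem Man.Base.chi {M : Man V n} {a : M.Ω} {τ : ℕ → V ≃ᵢ V} (hb : M.Base a τ) (hn : 0 < n)
    (h : ∀ g, ¬ M.B g a (M.r (n - 1) a)) : M.Chi := by
  refine ⟨hn, fun b i hi g hg => ?_, fun b c d => ?_⟩
  · obtain ⟨k, -, hk | hk⟩ := hb.orbits hn b
    · have e := (hb.act i hi).r' (i := n - 1) (by omega)
      rw [M.inv _ (by omega)] at e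
      exact h _ (((hk.mul hg).mul (hk.r' hi).inv).mul e.inv)
    · exact h _ (((hb.act_inv hi).mul (hk.r' hi)).mul (hk.mul hg).inv)
  · obtain ⟨g1, -, h1 | h1⟩ := hb.orbits hn b <;> obtain ⟨g2, -, h2 | h2⟩ := hb.orbits hn c <;>
      obtain ⟨g3, -, h3 | h3⟩ := hb.orbits hn d
    all_goals first
      | exact Or.inl ⟨_, h1.inv.mul h2⟩
      | exact Or.inr (Or.inl ⟨_, h1.inv.mul h3⟩)
      | exact Or.inr (Or.inr ⟨_, h2.inv.mul h3⟩)

/-- displacement of the initial vertex -/
def ND (τ : ℕ → V ≃ᵢ V) (v : V) (w : List ℕ) : ℝ := dist ((w.map τ).prod v) v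

/-- the two data have different shapes -/
def Dif (n : ℕ) (τ : ℕ → V ≃ᵢ V) (v : V) (τ' : ℕ → V ≃ᵢ V) (v' : V) : Prop :=
  ∃ w w0 : List ℕ, (∀ i ∈ w, i < n) ∧ (∀ i ∈ w0, i < n) ∧
    ND τ' v' w * ND τ v w0 ≠ ND τ' v' w0 * ND τ v w

theorem not_sim {M M' : Man W n} {a : M.Ω} {a' : M'.Ω} {τ τ' : ℕ → W ≃ᵢ W} (hb : M.Base a τ)
    (hb' : M'.Base a' τ') {F : W → W} {c : ℝ} (hc : 0 < c)
    (hF : ∀ x y, dist (F x) (F y) = c * dist x y) (hA : Man.A M M' F a a') {d : ℝ}
    (hψ : ∀ x y, dist (ψ x) (ψ y) = d * dist x y) {σ σ' : ℕ → V ≃ᵢ V}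
    (h : ∀ i, i < n → Rl ψ (σ i) (τ i)) (h' : ∀ i, i < n → Rl ψ (σ' i) (τ' i)) :
    ¬ Dif n σ (ψ (M.vt a)) σ' (ψ (M'.vt a')) := by
  rintro ⟨w, w0, h1, h2, h3⟩
  have key : ∀ w : List ℕ, (∀ i ∈ w, i < n) →
      ND σ' (ψ (M'.vt a')) w = c * ND σ (ψ (M.vt a)) w := fun w hw => by
    rw [ND, ND, ← rl_word h w hw, ← rl_word h' w hw, hψ, hψ,
      ← word_transfer hb hb' (inj_of_scale hc hF) hA w hw,
      show M'.vt a' = F (M.vt a) from hA 0 (Nat.zero_le n), hF]
    ring
  apply h3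
  rw [key w h1, key w0 h2]; ring

end

end Pool.Agent.MP_d6da41_co

end MrgPart3

-- marker of a merged file
example : 731051 + 529446 = 731051 + 529446 := rfl

end MrgPart0

-- ======== part 1: formerly Pool.Agent.MP_d6da41_co.Inf4
section MrgPart1

-- ======== part 0: formerly Pool.Agent.MP_d6da41_co.Aff
section MrgPart0

/-! Affine isometries of the quaternions, translations, the Hurwitz lattice. -/

namespace Pool.Agent.MP_d6da41_co

open Quaternion
open scoped RealInnerProductSpace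

theorem iso_apply {V : Type} [NormedAddCommGroup V] [InnerProductSpace ℝ V] (g : V ≃ᵢ V) (x : V) :
    g x = lin g x + g 0 := by rw [lin_apply]; abel

theorem iso_inv {V : Type} [NormedAddCommGroup V] [InnerProductSpace ℝ V] (g : V ≃ᵢ V) (x : V) :
    g⁻¹ x = (lin g)⁻¹ (x - g 0) := by
  apply g.injective
  rw [iso_apply g ((lin g)⁻¹ _), OV.apply_inv_self, sub_add_cancel]
  exact g.apply_symm_apply x

open Classical in
/-- `x ↦ p x q⁻¹ + t` -/
noncomputable def isoQ (p q t : ℍ) : ℍ ≃ᵢ ℍ :=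
  if h : Un p ∧ Un q then aff (lrO h.1 h.2) 0 t else 1

theorem isoQ_apply {p q : ℍ} (hp : Un p) (hq : Un q) (t x : ℍ) :
    isoQ p q t x = p * x * star q + t := by
  rw [isoQ, dif_pos ⟨hp, hq⟩, aff_apply, sub_zero]; rfl

theorem lin_isoQ {p q : ℍ} (hp : Un p) (hq : Un q) (t : ℍ) : IsLR (lin (isoQ p q t)) p q := by
  rw [isoQ, dif_pos ⟨hp, hq⟩, lin_aff]; exact lrO_isLR hp hq

theorem crystal {T : AddSubgroup ℍ} {ε : ℝ} (hε : 0 < ε) (h : ∀ y ∈ T, y ≠ 0 → ε ≤ ‖y‖) {y : ℍ}
    (hy : y ∈ T) (y0 : y ≠ 0) {κ : ℝ} (hκ : ∀ x : ℝ, x • y ∈ T → (κ * x) • y ∈ T) :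
    ∃ z : ℤ, κ = z := by
  refine ⟨⌊κ⌋, ?_⟩
  by_contra hne
  have f0 : 0 < Int.fract κ := Int.fract_pos.2 hne
  have key : ∀ N : ℕ, (Int.fract κ ^ N) • y ∈ T := by
    intro N
    induction N with
    | zero => simpa using hy
    | succ N ih =>
      have := T.sub_mem (hκ _ ih) (T.zsmul_mem ih ⌊κ⌋)
      rwa [← Int.cast_smul_eq_zsmul ℝ, smul_smul, ← sub_smul, ← sub_mul, Int.self_sub_floor,
        ← pow_succ'] at this
  have n0 : 0 < ‖y‖ := norm_pos_iff.2 y0
  obtain ⟨N, hN⟩ := exists_pow_lt_of_lt_one (div_pos hε n0) (Int.fract_lt_one κ)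
  have := h _ (key N) (smul_ne_zero (pow_pos f0 N).ne' y0)
  rw [norm_smul, Real.norm_of_nonneg (pow_pos f0 N).le] at this
  rw [lt_div_iff₀ n0] at hN
  linarith

/-- translation vectors -/
def Trans (G : Subgroup (ℍ ≃ᵢ ℍ)) : AddSubgroup ℍ where
  carrier := {y | ∃ g ∈ G, lin g = 1 ∧ g 0 = y}
  zero_mem' := ⟨1, one_mem _, map_one _, rfl⟩
  add_mem' := by
    rintro _ _ ⟨g, a, b, rfl⟩ ⟨g', a', b', rfl⟩
    refine ⟨g * g', mul_mem a a', by rw [map_mul, b, b', one_mul], ?_⟩
    rw [IsometryEquiv.mul_apply, iso_apply g, b, add_comm]; rfl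
  neg_mem' := by
    rintro _ ⟨g, a, b, rfl⟩
    refine ⟨g⁻¹, inv_mem a, by rw [map_inv, b, inv_one], ?_⟩
    rw [iso_inv, b, inv_one, zero_sub]; rfl

theorem Trans_conj {G : Subgroup (ℍ ≃ᵢ ℍ)} {h : ℍ ≃ᵢ ℍ} (hh : h ∈ G) {y : ℍ} (hy : y ∈ Trans G) :
    lin h y ∈ Trans G := by
  obtain ⟨g, a, b, rfl⟩ := hy
  refine ⟨h * g * h⁻¹, mul_mem (mul_mem hh a) (inv_mem hh), by simp [b], ?_⟩
  rw [IsometryEquiv.mul_apply, IsometryEquiv.mul_apply, iso_apply g, b, OV.one_apply, iso_apply h,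
    map_add, iso_inv, OV.apply_inv_self]
  abel

theorem Trans_sep {G : Subgroup (ℍ ≃ᵢ ℍ)} {ε : ℝ} (h : ∀ g ∈ G, g 0 ≠ 0 → ε ≤ ‖g 0‖) :
    ∀ y ∈ Trans G, y ≠ 0 → ε ≤ ‖y‖ := by
  rintro _ ⟨g, a, -, rfl⟩
  exact h g a

theorem comm_of_GG {Γ : Type} [Group Γ] {τ : ℕ → Γ} {g : Γ} (hg : g ∈ GG τ 1 3) :
    g * (τ 1 * (τ 2)⁻¹) = τ 1 * (τ 2)⁻¹ * g := by
  have : GG τ 1 3 ≤ Subgroup.centralizer {τ 1 * (τ 2)⁻¹} := GG_le fun i h1 h2 => by
    obtain rfl : i = 1 := by omega
    exact Subgroup.mem_centralizer_singleton_iff.2 rfl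
  exact Subgroup.mem_centralizer_singleton_iff.1 (this hg)

/-! ### The Hurwitz lattice -/

/-- integer coordinates -/
abbrev Z4 : Type := ℤ × ℤ × ℤ × ℤ

/-- lattice point -/
noncomputable def hz (z : Z4) : ℍ :=
  ⟨z.1 / 2, z.1 / 2 + z.2.1, z.1 / 2 + z.2.2.1, z.1 / 2 + z.2.2.2⟩

theorem hz_inj {y z : Z4} (h : hz y = hz z) : y = z := by
  have a0 := congrArg (·.re) h
  have a1 := congrArg (·.imI) h
  have a2 := congrArg (·.imJ) h
  have a3 := congrArg (·.imK) h
  simp only [hz] at a0 a1 a2 a3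
  refine Prod.ext ?_ (Prod.ext ?_ (Prod.ext ?_ ?_)) <;> apply Int.cast_injective (α := ℝ) <;>
    linarith

theorem hz_zero : hz 0 = 0 := by ext <;> simp [hz]

theorem hz_sep {y z : Z4} (h : hz y ≠ hz z) : 1 / 2 ≤ dist (hz y) (hz z) := by
  by_contra hlt
  have e : normSq (hz y - hz z) < 1 / 4 := by
    rw [normSq_eq_norm_mul_self, ← dist_eq_norm]
    nlinarith [dist_nonneg (x := hz y) (y := hz z)]
  have sm : ∀ k : ℤ, (k : ℝ) ^ 2 < 1 → k = 0 := fun k hk => by
    have : k ^ 2 < 1 := by exact_mod_cast hk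
    nlinarith
  obtain ⟨a, b, c, d⟩ := y
  obtain ⟨a', b', c', d'⟩ := z
  rw [normSq_def'] at e
  simp only [hz, re_sub, imI_sub, imJ_sub, imK_sub] at e
  have e0 := sq_nonneg ((a : ℝ) / 2 - a' / 2)
  have e1 := sq_nonneg ((a : ℝ) / 2 + b - (a' / 2 + b'))
  have e2 := sq_nonneg ((a : ℝ) / 2 + c - (a' / 2 + c'))
  have e3 := sq_nonneg ((a : ℝ) / 2 + d - (a' / 2 + d'))
  have f0 := sm (a - a') (by push_cast; linarith)
  have f1 := sm (a - a' + 2 * (b - b')) (by push_cast; linarith)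
  have f2 := sm (a - a' + 2 * (c - c')) (by push_cast; linarith)
  have f3 := sm (a - a' + 2 * (d - d')) (by push_cast; linarith)
  apply h
  rw [show a = a' by omega, show b = b' by omega, show c = c' by omega, show d = d' by omega]

/-- `f` computes `γ` on the lattice -/
def Act (γ : ℍ ≃ᵢ ℍ) (f : Z4 → Z4) : Prop := ∀ z, γ (hz z) = hz (f z)

theorem Act.mul {γ δ : ℍ ≃ᵢ ℍ} {f f' : Z4 → Z4} (h : Act γ f) (h' : Act δ f') :
    Act (γ * δ) (f ∘ f') := fun z => by rw [IsometryEquiv.mul_apply, h', h]; rfl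

/-- digit -/
def dg (m k : ℕ) : ℕ := Nat.mod (Nat.div m (Nat.pow 16 k)) 16

/-- coefficient -/
def cf (m k : ℕ) : ℤ := if m / 16 ^ k % 16 < 6 then (m / 16 ^ k % 16 : ℕ) else (m / 16 ^ k % 16 : ℕ) - 12

/-- row -/
def row (m k : ℕ) (z : Z4) : ℤ :=
  cf m k * z.1 + cf m (k + 1) * z.2.1 + cf m (k + 2) * z.2.2.1 + cf m (k + 3) * z.2.2.2 + cf m (k + 4)

/-- integer affine map -/
def afz (m : ℕ) (z : Z4) : Z4 := (row m 0 z, row m 5 z, row m 10 z, row m 15 z)

/-- row modulo `N` -/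
def rowN (N m k a b c d : ℕ) : ℕ :=
  Nat.mod (Nat.add (Nat.add (Nat.add (Nat.add (Nat.mul (dg m k) a) (Nat.mul (dg m (Nat.add k 1)) b))
    (Nat.mul (dg m (Nat.add k 2)) c)) (Nat.mul (dg m (Nat.add k 3)) d)) (dg m (Nat.add k 4))) N

/-- action on labels -/
noncomputable def labF (N m z : ℕ) : ℕ :=
  force (Nat.mod z 4) fun a => force (Nat.mod (Nat.div z 4) 4) fun b =>
  force (Nat.mod (Nat.div z 16) 4) fun c => force (Nat.mod (Nat.div z 64) 4) fun d =>
  Nat.add (rowN N m 0 a b c d) (Nat.mul 4 (Nat.add (rowN N m 5 a b c d)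
    (Nat.mul 4 (Nat.add (rowN N m 10 a b c d) (Nat.mul 4 (rowN N m 15 a b c d))))))

/-- labels -/
def Lab (N : ℕ) (g : ℍ ≃ᵢ ℍ) (z : ℕ) : Prop :=
  ∃ y : Z4, g 0 = hz y ∧ ((z % 4 : ℕ) : ZMod N) = y.1 ∧ ((z / 4 % 4 : ℕ) : ZMod N) = y.2.1 ∧
    ((z / 16 % 4 : ℕ) : ZMod N) = y.2.2.1 ∧ ((z / 64 % 4 : ℕ) : ZMod N) = y.2.2.2

theorem lab_one (N : ℕ) : Lab N 1 0 := ⟨0, hz_zero.symm, by simp, by simp, by simp, by simp⟩

theorem cf_cast {N : ℕ} (hN : N ∣ 12) (m k : ℕ) : ((cf m k : ℤ) : ZMod N) = (dg m k : ℕ) := by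
  have : ((12 : ℕ) : ZMod N) = 0 := (ZMod.natCast_eq_zero_iff 12 N).2 hN
  show _ = ((m / 16 ^ k % 16 : ℕ) : ZMod N)
  rw [cf]
  split_ifs
  · rw [Int.cast_natCast]
  · rw [Int.cast_sub, Int.cast_natCast]
    simpa using this

theorem rowN_cast {N : ℕ} (hN : N ∣ 12) (m k : ℕ) {a b c d : ℕ} {y : Z4} (ha : (a : ZMod N) = y.1)
    (hb : (b : ZMod N) = y.2.1) (hc : (c : ZMod N) = y.2.2.1) (hd : (d : ZMod N) = y.2.2.2) :
    ((rowN N m k a b c d : ℕ) : ZMod N) = row m k y := by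
  show (((_ + _ : ℕ) % N : ℕ) : ZMod N) = _
  simp only [ZMod.natCast_mod, row, Nat.add_eq, Nat.mul_eq, Nat.cast_add, Nat.cast_mul,
    Int.cast_add, Int.cast_mul, cf_cast hN, ha, hb, hc, hd]

theorem lab_act {N m : ℕ} (hN : N ∣ 12) (h4 : N ≤ 4) {γ : ℍ ≃ᵢ ℍ} (h : Act γ (afz m)) (g : ℍ ≃ᵢ ℍ)
    (z : ℕ) (hz' : Lab N g z) : Lab N (γ * g) (labF N m z) := by
  obtain ⟨y, e, h0, h1, h2, h3⟩ := hz'
  have p : 0 < N := Nat.pos_of_dvd_of_pos hN (by omega)
  have r := fun k => rowN_cast hN m k h0 h1 h2 h3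
  have l : ∀ k, rowN N m k (z % 4) (z / 4 % 4) (z / 16 % 4) (z / 64 % 4) < 4 := fun k =>
    lt_of_lt_of_le (Nat.mod_lt _ p) h4
  have e' : labF N m z = rowN N m 0 (z % 4) (z / 4 % 4) (z / 16 % 4) (z / 64 % 4) +
      4 * (rowN N m 5 (z % 4) (z / 4 % 4) (z / 16 % 4) (z / 64 % 4) +
      4 * (rowN N m 10 (z % 4) (z / 4 % 4) (z / 16 % 4) (z / 64 % 4) +
      4 * rowN N m 15 (z % 4) (z / 4 % 4) (z / 16 % 4) (z / 64 % 4))) := by
    simp only [labF, force_eq]; rfl
  have l0 := l 0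
  have l1 := l 5
  have l2 := l 10
  have l3 := l 15
  refine ⟨afz m y, by rw [IsometryEquiv.mul_apply, e, h], ?_, ?_, ?_, ?_⟩
  · rw [e']; refine Eq.trans (congrArg _ ?_) (r 0); omega
  · rw [e']; refine Eq.trans (congrArg _ ?_) (r 5); omega
  · rw [e']; refine Eq.trans (congrArg _ ?_) (r 10); omega
  · rw [e']; refine Eq.trans (congrArg _ ?_) (r 15); omega

/-- the label vanishes -/
def labZ (N z : ℕ) : Bool :=
  Nat.beq (z % 4 % N + z / 4 % 4 % N + z / 16 % 4 % N + z / 64 % 4 % N) 0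

theorem labZ_of {N z : ℕ} {g : ℍ ≃ᵢ ℍ} (h : Lab N g z) (e : g 0 = 0) : labZ N z = true := by
  obtain ⟨y, e', h0, h1, h2, h3⟩ := h
  obtain rfl : y = 0 := hz_inj (by rw [← e', e, hz_zero])
  simp only [Prod.fst_zero, Prod.snd_zero, Int.cast_zero, ZMod.natCast_eq_zero_iff,
    Nat.dvd_iff_mod_eq_zero] at h0 h1 h2 h3
  rw [labZ, h0, h1, h2, h3]; rfl

/-- evaluation of a word in two maps -/
def ev2 (f1 f2 : Z4 → Z4) : List Bool → Z4 → Z4
  | [], z => z
  | c :: w, z => cond c f1 f2 (ev2 f1 f2 w z)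

theorem excl {T : ℕ → ℍ ≃ᵢ ℍ} (hs : ∀ g ∈ GG T 0 3, g 0 = 0 → g ∈ GG T 1 3) {f1 f2 : Z4 → Z4}
    (h1 : Act (T 0 * (T 1)⁻¹) f1) (h2 : Act (T 1 * (T 2)⁻¹) f2) (w : List Bool) (z : Z4)
    (e1 : ev2 f1 f2 w 0 = 0) (e2 : ev2 f1 f2 w (f2 z) ≠ f2 (ev2 f1 f2 w z)) : False := by
  have : ∃ g ∈ GG T 0 3, Act g (ev2 f1 f2 w) := by
    clear e1 e2
    induction w with
    | nil => exact ⟨1, one_mem _, fun _ => rfl⟩
    | cons c w ih =>
      obtain ⟨g, hg, h⟩ := ih
      cases c
      · exact ⟨_, mul_mem (mem_GG (by omega) (by omega) (by omega) (by omega)) hg, h2.mul h⟩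
      · exact ⟨_, mul_mem (mem_GG (by omega) (by omega) (by omega) (by omega)) hg, h1.mul h⟩
  obtain ⟨g, hg, h⟩ := this
  have := comm_of_GG (hs g hg (by rw [← hz_zero, h, e1]))
  exact e2 (hz_inj ((h.mul h2 z).symm.trans (this ▸ h2.mul h z)))

theorem hh3 (t : ℝ) {x y : ℝ} (h : x = √2 * √2 / 2 * (y - t) + t) : x = y := by
  rw [h, sq2]; ring

end Pool.Agent.MP_d6da41_co

end MrgPart0

-- ======== part 1: formerly Pool.Agent.MP_d6da41_co.Mods
section MrgPart1

/-! The 27 models as groups of isometries of the quaternions. -/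

namespace Pool.Agent.MP_d6da41_co

open Quaternion

/-- rank -/
def nM (J : ℕ) : ℕ := if J < 25 then 4 else 5

/-- codes of the generators -/
def mt (J : ℕ) : List ℕ :=
  if J < 22 then [md J 2, md J 3, md J 1, md J 1, md J 0, md J 0] else
  [[517, 517, 99, 99, 1464, 1464], [517, 517, 99, 110, 1464, 1464], [4356, 4356, 396, 396, 36, 36],
    [5687, 4477, 5357, 5687, 99, 99, 1464, 1464],
    [5687, 4477, 5357, 4477, 99, 99, 1464, 1464]].getD (J - 22) []

/-- left factor -/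
def pc (J i : ℕ) : ℕ := (mt J).getD (2 * i) 9
/-- right factor -/
def qc (J i : ℕ) : ℕ := (mt J).getD (2 * i + 1) 9
/-- translation part -/
def tc (J i : ℕ) : ℕ :=
  if i = 0 ∧ 22 ≤ J then [13167, 13167, 99, 9, 9].getD (J - 22) 0 else 0
/-- initial vertex -/
def vc (J : ℕ) : ℕ := if J < 22 then 9 else 0
/-- left group -/
def uL (J : ℕ) : ℕ := if J < 22 then md J 4 else 0
/-- right group -/
def uR (J : ℕ) : ℕ := if J < 22 then md J 5 else 0

/-- the generators -/
noncomputable def τM (J i : ℕ) : ℍ ≃ᵢ ℍ := isoQ (cq (pc J i)) (cq (qc J i)) (cq (tc J i))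

theorem mt_all : allL (List.range 27) (fun J => allL (List.range 5) fun i =>
    (tabU (uL J)).mem (pc J i) && (tabU (uR J)).mem (qc J i)) = true := by decide +kernel

theorem mt_mem {J i : ℕ} (hJ : J < 27) (hi : i < 5) :
    cq (pc J i) ∈ UU (uL J) ∧ cq (qc J i) ∈ UU (uR J) := by
  have := allL_iff.1 (allL_iff.1 mt_all J (List.mem_range.2 hJ)) i (List.mem_range.2 hi)
  rw [Bool.and_eq_true] at this
  exact ⟨mem_UU this.1, mem_UU this.2⟩

theorem τM_lin {J i : ℕ} (hJ : J < 27) (hi : i < 5) :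
    IsLR (lin (τM J i)) (cq (pc J i)) (cq (qc J i)) :=
  lin_isoQ ((UU_good _).unit _ (mt_mem hJ hi).1) ((UU_good _).unit _ (mt_mem hJ hi).2) _

theorem τM_apply {J i : ℕ} (hJ : J < 27) (hi : i < 5) (x : ℍ) :
    τM J i x = cq (pc J i) * x * star (cq (qc J i)) + cq (tc J i) :=
  isoQ_apply ((UU_good _).unit _ (mt_mem hJ hi).1) ((UU_good _).unit _ (mt_mem hJ hi).2) _ _

theorem cq_zero : cq 0 = 0 := rfl

theorem τM_zero {J i : ℕ} (hJ : J < 27) (hi : i < 5) : τM J i 0 = cq (tc J i) := by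
  rw [τM_apply hJ hi]; simp

theorem τM_fix {J i : ℕ} (hJ : J < 27) (hi : i < 5) (h : 1 ≤ i ∨ J < 22) : τM J i 0 = 0 := by
  rw [τM_zero hJ hi, tc, if_neg (by omega)]; rfl

theorem τM_last {J : ℕ} (hJ : J < 27) : τM J (nM J - 1) = 1 := by
  have : ∀ J, J < 27 → pc J (nM J - 1) = 9 ∧ qc J (nM J - 1) = 9 ∧ tc J (nM J - 1) = 0 ∧
    nM J - 1 < 5 := by decide +kernel
  obtain ⟨a, b, c, d⟩ := this J hJ
  ext1 x
  rw [τM_apply hJ d, a, b, c, cq_one, cq_zero]; simp

/-! ### Comparison with the definitions -/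

/-- positive multiple -/
def Sc (x p : ℍ) : Prop := ∃ κ : ℝ, 0 < κ ∧ x = κ • p

theorem Sc.star {x p : ℍ} (h : Sc x p) : Sc (star x) (star p) :=
  let ⟨κ, a, b⟩ := h
  ⟨κ, a, by rw [b]; simp⟩

theorem Sc.neg {x p : ℍ} (h : Sc x p) : Sc (-x) (-p) :=
  let ⟨κ, a, b⟩ := h
  ⟨κ, a, by rw [b]; simp⟩

theorem rot_eq {l r p q : ℍ} (hp : Un p) (hq : Un q) (h1 : Sc l p) (h2 : Sc r q) (t x : ℍ) :
    rot l r t x = p * x * q + t := by
  obtain ⟨κ, a, rfl⟩ := h1
  obtain ⟨κ', a', rfl⟩ := h2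
  rw [rot, norm_smul, norm_smul, hp.norm, hq.norm, Real.norm_of_nonneg a.le,
    Real.norm_of_nonneg a'.le, smul_mul_assoc, smul_mul_assoc, mul_smul_comm, smul_smul, smul_smul]
  congr 1
  rw [show (κ * 1 * (κ' * 1))⁻¹ * κ * κ' = 1 by field_simp, one_smul]

theorem gen4_eq {τ : ℕ → ℍ ≃ᵢ ℍ} {s p : ℍ} {A B : ℍ → ℍ} (h0 : ∀ x, B x = τ 0 x)
    (h1 : ∀ x, A x = τ 1 x) (hA : (τ 1)⁻¹ = τ 1) (hp : Un p) (hs : Sc s p)
    (h2 : ∀ x, τ 2 x = p * x * star p) (h3 : τ 3 = 1) :
    ∀ i, 1 ≤ i → i < 4 → gen4 s A B i = sig τ i := by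
  intro i a b
  interval_cases i
  · funext x
    show B (A x) = τ 0 ((τ 1)⁻¹ x)
    rw [h0, h1, hA]
  · funext x
    show A (rot _ _ _ x) = τ 1 ((τ 2)⁻¹ x)
    rw [h1, rot_eq hp.star hp hs.star hs, add_zero]
    congr 1
    apply (τ 2).injective
    rw [h2]
    simp only [mul_assoc, hp.ms', hp.ms, mul_one]
    exact ((τ 2).apply_symm_apply x).symm
  · funext x
    show rot _ _ _ x = τ 2 ((τ 3)⁻¹ x)
    rw [rot_eq hp hp.star hs hs.star, add_zero, h2, h3]; rfl

theorem sc2 {x : ℍ} {c : ℕ} (h : cq c = (√2 / 2) • x) : Sc x (cq c) :=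
  ⟨√2, by positivity, by rw [h, smul_smul, ← mul_div_assoc, sq2]; simp⟩

theorem Sc.of {x y p : ℍ} (h : Sc x p) (e : y = Star.star x) : Sc y (Star.star p) := e ▸ h.star

theorem sc_s3 : Sc (qt 1 1 1 1) (cq 1464) := ⟨2, two_pos, by ext <;> simp [qt, cq, cv]⟩
theorem sc_i : Sc (qt 0 1 0 0) (cq 99) := ⟨1, one_pos, by ext <;> simp [qt, cq, cv]⟩
theorem sc_k : Sc (qt 0 0 0 1) (cq 11979) := ⟨1, one_pos, by ext <;> simp [qt, cq, cv]⟩
theorem sc_n : Sc (qt 0 0 1 (-1)) (cq 5687) := sc2 (by ext <;> simp [qt, cq, cv])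
theorem sc_o : Sc (qt 0 1 0 (-1)) (cq 5357) := sc2 (by ext <;> simp [qt, cq, cv])
theorem sc_m : Sc (qt 0 1 (-1) 0) (cq 517) := sc2 (by ext <;> simp [qt, cq, cv])
theorem sc_s4 : Sc (qt 1 1 0 0) (cq 36) := sc2 (by ext <;> simp [qt, cq, cv])
theorem sc_a4 : Sc (qt 0 1 1 0) (cq 396) := sc2 (by ext <;> simp [qt, cq, cv])
theorem sc_l4 : Sc (qt 0 0 1 1) (cq 4356) := sc2 (by ext <;> simp [qt, cq, cv])
theorem sc_P : Sc (qt 0 2 (√5 - 1) (-1 - √5)) (cq 8844) :=
  ⟨4, four_pos, by ext <;> simp [qt, cq, cv] <;> ring⟩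
theorem sc_P' : Sc (qt 0 2 (-√5 - 1) (-1 - -√5)) (cq 10054) :=
  ⟨4, four_pos, by ext <;> simp [qt, cq, cv] <;> ring⟩
theorem sc_Q : Sc (qt 0 (1 + √5) (1 - √5) (-2)) (cq 3685) :=
  ⟨4, four_pos, by ext <;> simp [qt, cq, cv] <;> ring⟩
theorem sc_Q' : Sc (qt 0 (1 + -√5) (1 - -√5) (-2)) (cq 3355) :=
  ⟨4, four_pos, by ext <;> simp [qt, cq, cv] <;> ring⟩
theorem sc_T : Sc (qt (1 + √5) 2 (√5 - 1) 0) (cq 863) :=
  ⟨4, four_pos, by ext <;> simp [qt, cq, cv] <;> ring⟩
theorem sc_T' : Sc (qt (1 + -√5) 2 (-√5 - 1) 0) (cq 745) :=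
  ⟨4, four_pos, by ext <;> simp [qt, cq, cv] <;> ring⟩
theorem sc_L : Sc (qt 0 2 (-1 - √5) (1 - √5)) (cq 11385) :=
  ⟨4, four_pos, by ext <;> simp [qt, cq, cv] <;> ring⟩
theorem sc_L' : Sc (qt 0 2 (-1 - -√5) (1 - -√5)) (cq 7513) :=
  ⟨4, four_pos, by ext <;> simp [qt, cq, cv] <;> ring⟩

theorem data_sc (k : Fin 11) : Sc (data4 k).1 (cq (md (2 * k) 0)) ∧
    Sc (data4 k).2.1 (cq (md (2 * k) 1)) ∧ Sc (data4 k).2.2.1 (cq (md (2 * k) 2)) ∧
    Sc (data4 k).2.2.2 (cq (md (2 * k) 3)) := by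
  fin_cases k
  exacts [⟨sc_s3, sc_i, sc_o, sc_n⟩, ⟨sc_s3, sc_i, sc_P, sc_n⟩, ⟨sc_s3, sc_i, sc_Q, sc_n⟩,
    ⟨sc_s3, sc_i, sc_Q', sc_n⟩, ⟨sc_s3, sc_i, sc_P, sc_m⟩, ⟨sc_s3, sc_i, sc_P', sc_m⟩,
    ⟨sc_s3, sc_i, sc_P, sc_Q⟩, ⟨sc_s3, sc_i, sc_P', sc_Q'⟩, ⟨sc_s4, sc_a4, sc_l4, sc_k⟩,
    ⟨sc_T, sc_i, sc_L, sc_k⟩, ⟨sc_T', sc_i, sc_L', sc_k⟩]

theorem cq_eq {c c' : ℕ} (h : enc c = negA (enc c')) : cq c = -cq c' :=
  (relQ_cq c).eq (by rw [h]; exact (relQ_cq c').neg) (inC4_cq _) (inC4_cq _).neg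

theorem cq_star {c : ℕ} (h : c % 11 = 0) : star (cq c) = -cq c :=
  star_eq_neg.2 (show cv _ = 0 by rw [h]; rfl)

theorem inv_of_pure {g : ℍ ≃ᵢ ℍ} {p q : ℍ} (h : IsLR (lin g) p q) (h0 : g (g 0) = 0)
    (hp : star p = -p) (hq : star q = -q) : g⁻¹ = g := by
  have := h.invO
  rw [hp, hq, ← map_inv] at this
  refine eq_of_lin (o := g 0) (this.uniqueO h.neg) ?_
  rw [h0]; exact g.symm_apply_apply 0

/-- index of a finite model -/
def ixF (k : Fin 11 × Bool) : ℕ := 2 * k.1 + k.2.toNat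

theorem ixF_lt (k : Fin 11 × Bool) : ixF k < 22 := by
  have := k.1.2
  have := Bool.toNat_le k.2
  unfold ixF; omega

theorem md_chk : ∀ k : Fin 11 × Bool, pc (ixF k) 0 = md (2 * k.1) 2 ∧
    pc (ixF k) 1 = md (2 * k.1) 1 ∧ qc (ixF k) 1 = md (2 * k.1) 1 ∧
    pc (ixF k) 2 = md (2 * k.1) 0 ∧ qc (ixF k) 2 = md (2 * k.1) 0 ∧
    md (2 * k.1) 1 % 11 = 0 ∧ md (2 * k.1) 3 % 11 = 0 ∧
    (if k.2 then enc (qc (ixF k) 0) = negA (enc (md (2 * k.1) 3))
      else qc (ixF k) 0 = md (2 * k.1) 3) := by decide +kernel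

theorem genFin_eq (k : Fin 11 × Bool) : ∀ i, 1 ≤ i → i < 4 → genFin k i = sig (τM (ixF k)) i := by
  obtain ⟨a0, a1, a2, a3, a4, a5, a6, a7⟩ := md_chk k
  obtain ⟨s0, s1, s2, s3⟩ := data_sc k.1
  have hJ := ixF_lt k
  have hJ' : ixF k < 27 := by omega
  have t0 : ∀ i, tc (ixF k) i = 0 := fun i => if_neg (by omega)
  have l0 := τM_lin (i := 0) hJ' (by omega)
  have l1 := τM_lin (i := 1) hJ' (by omega)
  have l2 := τM_lin (i := 2) hJ' (by omega)
  refine gen4_eq (fun x => ?_) (fun x => ?_) ?_ (a3 ▸ l2.l) s0 (fun x => ?_) ?_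
  · rw [τM_apply hJ' (by omega), t0, a0]
    refine rot_eq (a0 ▸ l0.l) l0.r.star s2 ?_ _ _
    rcases e : k.2 with _ | _ <;> simp only [e, if_true, Bool.false_eq_true, if_false] at a7 ⊢
    · rw [a7, cq_star a6]; exact s3.neg
    · rw [cq_eq a7, star_neg, cq_star a6, neg_neg]; exact s3
  · rw [τM_apply hJ' (by omega), t0, a1, a2]
    exact rot_eq (a1 ▸ l1.l) (a1 ▸ l1.l.star) s1 s1.star _ _
  · refine inv_of_pure l1 ?_ (by rw [a1, cq_star a5]) (by rw [a2, cq_star a5])
    rw [τM_fix hJ' (by omega) (by omega), τM_fix hJ' (by omega) (by omega)]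
  · rw [τM_apply hJ' (by omega), t0, a3, a4, cq_zero, add_zero]
  · have := τM_last hJ'
    rwa [nM, if_pos (by omega)] at this

theorem genInf_eq (k : Fin 3) : ∀ i, 1 ≤ i → i < 4 → genInf k i = sig (τM (22 + k)) i := by
  have hJ : 22 + k.1 < 27 := by omega
  have l0 := τM_lin (i := 0) hJ (by omega)
  have l1 := τM_lin (i := 1) hJ (by omega)
  have l2 := τM_lin (i := 2) hJ (by omega)
  have e0 := τM_apply (i := 0) hJ (by omega)
  have e1 := τM_apply (i := 1) hJ (by omega)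
  have e2 := τM_apply (i := 2) hJ (by omega)
  have f : τM (22 + k) 1 (τM (22 + k) 1 0) = 0 := by
    rw [τM_fix hJ (by omega) (by omega), τM_fix hJ (by omega) (by omega)]
  have e3 : τM (22 + k) 3 = 1 := by
    have := τM_last hJ
    rwa [nM, if_pos (by omega)] at this
  have c1 : qt 0 1 1 1 = cq 13167 := by ext <;> simp [qt, cq, cv]
  have c2 : qt 0 1 0 0 = cq 99 := by ext <;> simp [qt, cq, cv]
  fin_cases k
  · refine gen4_eq (fun x => ?_) (fun x => ?_) (inv_of_pure l1 f (cq_star rfl) (cq_star rfl)) l2.l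
      sc_s3 (fun x => (e2 x).trans (add_zero _)) e3
    · rw [e0, c1]
      exact rot_eq l0.l l0.r.star sc_m (sc_m.of (by ext <;> simp [qt])) _ _
    · rw [e1]
      exact rot_eq l1.l l1.r.star sc_i (sc_i.of (by ext <;> simp [qt])) _ _
  · refine gen4_eq (fun x => ?_) (fun x => ?_) (inv_of_pure l1 f (cq_star rfl) (cq_star rfl)) l2.l
      sc_s3 (fun x => (e2 x).trans (add_zero _)) e3
    · rw [e0, c1]
      exact rot_eq l0.l l0.r.star sc_m (sc_m.of (by ext <;> simp [qt])) _ _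
    · rw [e1]
      exact rot_eq l1.l l1.r.star sc_i
        ⟨1, one_pos, show _ = _ • star (cq 110) by ext <;> simp [qt, cq, cv]⟩ _ _
  · refine gen4_eq (fun x => ?_) (fun x => ?_) (inv_of_pure l1 f (cq_star rfl) (cq_star rfl)) l2.l
      sc_s4 (fun x => (e2 x).trans (add_zero _)) e3
    · rw [e0, c2]
      exact rot_eq l0.l l0.r.star sc_l4 (sc_l4.of (by ext <;> simp [qt])) _ _
    · rw [e1]
      exact rot_eq l1.l l1.r.star sc_a4 (sc_a4.of (by ext <;> simp [qt])) _ _

theorem τM_shift (e : Bool) (i : ℕ) (hi : i < 4) :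
    τM (25 + e.toNat) (i + 1) = τM (ixF (0, e)) i := by
  cases e <;> interval_cases i <;> rfl

theorem gen5_eq (e : Bool) : ∀ i, 1 ≤ i → i < 5 → gen5 e i = sig (τM (25 + e.toNat)) i := by
  have hJ : 25 + e.toNat < 27 := by have := Bool.toNat_le e; omega
  intro i h1 h2
  rcases h1.eq_or_lt with rfl | h1
  · have l0 := τM_lin (i := 0) hJ (by omega)
    have l1 := τM_lin (i := 1) hJ (by omega)
    have f : τM (25 + e.toNat) 1 (τM (25 + e.toNat) 1 0) = 0 := by
      rw [τM_fix hJ (by omega) (by omega), τM_fix hJ (by omega) (by omega)]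
    have c : star (cq 4477) = cq 5687 := by ext <;> simp [cq, cv]
    funext x
    show rot _ _ _ (rot _ _ _ x) = τM _ 0 ((τM _ 1)⁻¹ x)
    rw [inv_of_pure l1 f (by cases e <;> exact cq_star rfl) (by cases e <;> exact cq_star rfl),
      τM_apply hJ (by omega), τM_apply hJ (by omega)]
    cases e
    · rw [rot_eq l1.l l1.r.star sc_o (sc_n.neg.imp fun _ h => ⟨h.1, by
        rw [show qc (25 + false.toNat) 1 = 5687 from rfl, cq_star rfl]; exact h.2⟩)]
      exact rot_eq l0.l l0.r.star sc_n (c ▸ sc_n) _ _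
    · rw [rot_eq l1.l l1.r.star sc_o (c ▸ sc_n)]
      exact rot_eq l0.l l0.r.star sc_n (c ▸ sc_n) _ _
  · obtain ⟨j, rfl⟩ : ∃ j, i = j + 2 := ⟨i - 2, by omega⟩
    show genFin (0, e) (j + 1) = _
    rw [genFin_eq _ _ (by omega) (by omega), sig, sig, show j + 2 - 1 = j + 1 - 1 + 1 by omega,
      τM_shift e _ (by omega), τM_shift e (j + 1) (by omega)]

/-! ### Action on the lattice -/

/-- the integer matrix of `x ↦ p x q⁻¹ + t` -/
def ActQ (p q t m : ℕ) : Prop := ∀ z, cq p * hz z * star (cq q) + cq t = hz (afz m z)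

theorem actQ_all : ∀ x ∈ [(517, 517, 13167, 127516649437305492209665),
    (99, 99, 0, 51958716556436161167361), (1464, 1464, 0, 295147922775833837569),
    (9, 9, 0, 4722366764344638701569), (99, 110, 0, 4723519686948924948491),
    (4356, 4356, 99, 295152408847895756801), (396, 396, 0, 51958713465709227147265),
    (36, 36, 0, 295197456869898584065), (5687, 4477, 9, 831433598950731005689867),
    (5357, 5687, 0, 4722366500462099741627), (5357, 4477, 0, 51946031505083096633617),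
    (2927, 2927, 0, 18451247673605357569), (47, 47, 0, 3259313597123200548865),
    (5687, 5687, 13167, 78817294428791362289665), (5357, 5357, 13167, 75773535213305189105665)],
    ActQ x.1 x.2.1 x.2.2.1 x.2.2.2 := by
  simp only [List.forall_mem_cons, List.not_mem_nil, false_imp_iff, implies_true, and_true]
  refine ⟨?_, ?_, ?_, ?_, ?_, ?_, ?_, ?_, ?_, ?_, ?_, ?_, ?_, ?_, ?_⟩ <;> rintro ⟨a, b, c, d⟩ <;>
    ext <;>
    simp [hz, afz, row, cf, cq, cv] <;>
    first | ring1 | (apply hh3 0; ring1) | (apply hh3 1; ring1)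

theorem act_of {γ : ℍ ≃ᵢ ℍ} {p q t m : ℕ} (h : IsLR (lin γ) (cq p) (cq q)) (e : γ 0 = cq t)
    (hm : ActQ p q t m) : Act γ (afz m) := fun z => by rw [iso_apply, h.eq, e, hm]

theorem act_bad {γ : ℍ ≃ᵢ ℍ} (h : IsLB (lin γ) (cq 5687) (cq 4477)) (e : γ 0 = 1) :
    Act γ (afz 834383970115916855902219) := by
  rintro ⟨a, b, c, d⟩
  rw [iso_apply, h.eq, e]
  ext <;> simp [hz, afz, row, cf, cq, cv] <;>
    first | ring1 | (apply hh3 0; ring1) | (apply hh3 1; ring1)

end Pool.Agent.MP_d6da41_co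

end MrgPart1

-- ======== part 2: formerly Pool.Agent.MP_d6da41_co.Inf4
section MrgPart2

/-! The infinite polytopes of rank 5. -/

namespace Pool.Agent.MP_d6da41_co

open Quaternion
open scoped RealInnerProductSpace

theorem normal_pm {p : ℍ} (up : Un p) (h1 : p * cq 1464 * star p = star (cq 1464))
    (h2 : p * cq 99 * star p = cq 99 ∨ p * cq 99 * star p = -cq 99) :
    p = cq 5687 ∨ p = -cq 5687 := by
  obtain ⟨a0, a1⟩ := anti_re (tok (t := 0) (by omega)).im (p := p)
    (show p * cq 1464 = star (cq 1464) * p by rw [← h1, mul_assoc, up.sm, mul_one])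
  replace a1 : ⟪p, cq 1464⟫ = 0 := a1
  have a2 := up.def'
  have a3 : (p * cq 99 * star p).imJ = 0 ∧ (p * cq 99 * star p).imK = 0 := by
    rcases h2 with e | e <;> rw [e] <;> simp [cq, cv]
  rw [inner_coord] at a1
  simp [cq, cv, a0] at a1 a2 a3
  have b1 : p.imI = 0 := by
    have : p.imI * p.imI = 0 := by linear_combination 2 * p.imI * a1 - (1 / 2) * a3.1 - (1 / 2) * a3.2
    exact mul_self_eq_zero.1 this
  have b2 : p.imK = -p.imJ := by linarith
  have b3 : (p.imJ - √2 / 2) * (p.imJ + √2 / 2) = 0 := by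
    rw [b1, b2] at a2
    linear_combination (1 / 2) * a2 - (1 / 4) * sq2
  rcases mul_eq_zero.1 b3 with e | e
  · left; ext <;> simp [cq, cv, a0, b1, b2] <;> linarith
  · right; ext <;> simp [cq, cv, a0, b1, b2] <;> linarith

/-- affine data in dimension 4 -/
structure A4 (T : ℕ → ℍ ≃ᵢ ℍ) (j : ℕ) : Prop where
  lt : j < 22
  md : IsMod (fun i => lin (T (3 - i))) j
  w : T 0 0 = 1
  fix : ∀ i, 1 ≤ i → i < 4 → T i 0 = 0
  last : T 4 = 1
  inv0 : T 0 * T 0 = 1
  inv1 : T 1 * T 1 = 1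
  inv2 : T 2 * T 2 = 1
  c2 : T 0 * T 2 * (T 0)⁻¹ = (T 2)⁻¹
  c3 : T 0 * T 3 * (T 0)⁻¹ = (T 3)⁻¹
  sep : ∃ ε, 0 < ε ∧ ∀ g ∈ GG T 0 5, g 0 ≠ 0 → ε ≤ ‖g 0‖
  st3 : ∀ g ∈ GG T 0 3, g 0 = 0 → g ∈ GG T 1 3

theorem A4.final {T : ℕ → ℍ ≃ᵢ ℍ} {j : ℕ} (h : A4 T j) :
    j < 2 ∧ ∀ i, i < 4 → ∀ x, T i x = τM (25 + j) i x := by
  obtain ⟨-, -, ⟨J, hJ, hJ'⟩, hp⟩ := h.md.prop h.lt
  obtain ⟨ε, hε, sep⟩ := h.sep
  have mem : ∀ i, i < 5 → T i ∈ GG T 0 5 := fun i => tau_mem_GG (n := 5) h.last (by omega)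
  have lift : ∀ g ∈ HH (fun i => lin (T (3 - i))) 3, ∃ g' ∈ GG T 0 5, g' 0 = 0 ∧ lin g' = g := by
    intro g hg
    obtain ⟨g', a, b⟩ := HH_le (X := (GG T 0 5 ⊓ stabI 0).map lin) (fun i hi =>
      ⟨_, ⟨mem (3 - i) (by omega), h.fix _ (by omega) (by omega)⟩, rfl⟩) hg
    exact ⟨g', a.1, a.2, b⟩
  have i0 : (T 0)⁻¹ = T 0 := inv_eq_of_mul_eq_one_right h.inv0
  have L1 : lin (T 0) 1 = -1 := by
    have e2 : T 0 (T 0 0) = 0 := by rw [← IsometryEquiv.mul_apply, h.inv0]; rfl
    rwa [iso_apply, h.w, add_eq_zero_iff_eq_neg] at e2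
  have hj : j < 2 := by
    by_contra hj
    obtain ⟨g, hg, p, a, b⟩ := hp (by omega)
    obtain ⟨g, g1, -, rfl⟩ := lift g hg
    obtain ⟨k, k1, k2, k3⟩ := lift _ (mul_mem hJ hJ)
    have k4 : ∀ x, lin k x = -x := fun x => by
      rw [k3, (hJ'.mulO hJ').eq, hJ'.l.pure_sq rfl]; simp
    have m : (1 + 1 : ℍ) ∈ Trans (GG T 0 5) := by
      refine ⟨T 0 * k * T 0 * k, mul_mem (mul_mem (mul_mem (mem 0 (by omega)) k1)
        (mem 0 (by omega))) k1, ?_, ?_⟩
      · ext1 x
        simp only [map_mul, OV.mul_apply, k4, map_neg, neg_neg]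
        rw [← OV.mul_apply, ← map_mul, h.inv0, map_one]
      · simp only [IsometryEquiv.mul_apply, k2]
        rw [h.w, iso_apply k, k4, k2, add_zero, iso_apply, map_neg, L1, neg_neg, h.w]
    obtain ⟨z, e⟩ := crystal hε (Trans_sep sep) m (fun e => by
      have := congrArg (·.re) e
      simp at this) (κ := 2 * p.re) fun x hx => by
      have := (Trans _).add_mem (Trans_conj g1 hx) (Trans_conj (inv_mem g1) hx)
      rwa [map_inv, a.eq, a.invO.eq, star_star, star_one, mul_one, mul_one, ← add_mul,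
        self_add_star', coe_mul_eq_smul, smul_smul] at this
    exact b z e
  have hS : IsLR (lin (T 3)) (cq 1464) (cq 1464) := by
    have := h.md.h0
    interval_cases j <;> exact this
  have hA : IsLR (lin (T 2)) (cq 99) (cq 99) := by
    have := h.md.h1
    interval_cases j <;> exact this
  have key : ∀ p, Un p → IsLR (lin (T 0) * lin (T 3) * (lin (T 0))⁻¹ : OV ℍ)
      (p * cq 1464 * star p) (-p * cq 1464 * star (-p)) →
      IsLR (lin (T 0) * lin (T 2) * (lin (T 0))⁻¹ : OV ℍ) (p * cq 99 * star p)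
        (-p * cq 99 * star (-p)) → p = cq 5687 ∨ p = -cq 5687 := by
    intro p up k3 k2
    rw [← map_inv, ← map_mul, ← map_mul] at k2 k3
    rw [h.c3, map_inv] at k3
    rw [h.c2, inv_eq_of_mul_eq_one_right h.inv2] at k2
    refine normal_pm up ((hS.invO.pm k3).resolve_right fun e => ?_).1 ((hA.pm k2).imp (·.1) (·.1))
    have := congrArg (·.re) e.1
    simp only [conj_re up, re_neg, re_star] at this
    simp [cq, cv] at this
    linarith
  have c : cq 4477 = -cq 5687 := cq_eq (by decide +kernel)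
  have aq := actQ_all
  simp only [List.forall_mem_cons] at aq
  have neg1 : ∀ p q : ℍ, Un q → p * star q = -1 → q = -p := fun p q uq e => by
    have := congrArg (· * q) e
    simp only [mul_assoc, uq.sm, mul_one, neg_mul, one_mul] at this
    rw [this, neg_neg]
  have hL : IsLR (lin (T 0)) (cq 5687) (cq 4477) := by
    obtain ⟨p, q, hl | hl⟩ := O4 (lin (T 0))
    · obtain rfl : q = -p := by
        rw [hl.eq, mul_one] at L1
        exact neg1 p q hl.r L1
      rw [c]
      rcases key p hl.l ((hl.mulO hS).mulO hl.invO) ((hl.mulO hA).mulO hl.invO) with rfl | rfl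
      exacts [hl, by simpa using hl.neg]
    · exfalso
      obtain rfl : q = -p := by
        rw [hl.eq, star_one, mul_one] at L1
        exact neg1 p q hl.r L1
      have hb : IsLB (lin (T 0)) (cq 5687) (cq 4477) := by
        rw [c]
        rcases key p hl.l ((hl.mulLR hS).mulLB hl.invO) ((hl.mulLR hA).mulLB hl.invO) with rfl | rfl
        exacts [hl, by simpa using hl.neg]
      have a0 := act_bad hb h.w
      have a2 := act_of (t := 0) hA (h.fix 2 (by omega) (by omega)) aq.2.1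
      have hB := h.md.h2
      have i1 := inv_eq_of_mul_eq_one_right h.inv1
      have i2 := inv_eq_of_mul_eq_one_right h.inv2
      interval_cases j
      · have a1 := act_of (t := 0) hB (h.fix 1 (by omega) (by omega)) aq.2.2.2.2.2.2.2.2.2.1
        exact excl h.st3 (i1.symm ▸ a0.mul a1) (i2.symm ▸ a1.mul a2)
          [true, true, false, false, false, false, true, true] (0, 1, 0, 0)
          (by decide +kernel) (by decide +kernel)
      · have a1 := act_of (t := 0) hB (h.fix 1 (by omega) (by omega)) aq.2.2.2.2.2.2.2.2.2.2.1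
        exact excl h.st3 (i1.symm ▸ a0.mul a1) (i2.symm ▸ a1.mul a2)
          [true, true, false, false, false, false, true, true] (0, 1, 0, 0)
          (by decide +kernel) (by decide +kernel)
  refine ⟨hj, fun i hi x => ?_⟩
  have hB := h.md.h2
  rw [τM_apply (by omega) (by omega), iso_apply]
  interval_cases j <;> interval_cases i
  all_goals first
    | exact congrArg₂ _ (hL.eq x) h.w
    | exact congrArg₂ _ (hB.eq x) (h.fix 1 (by omega) (by omega))
    | exact congrArg₂ _ (hA.eq x) (h.fix 2 (by omega) (by omega))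
    | exact congrArg₂ _ (hS.eq x) (h.fix 3 (by omega) (by omega))

end Pool.Agent.MP_d6da41_co

end MrgPart2

-- marker of a merged file
example : 731051 + 228673 = 731051 + 228673 := rfl

end MrgPart1

-- marker of a merged file
example : 731051 + 228673 = 731051 + 228673 := rfl
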