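import Pool.Agent.MP_d6da41_co.ModP
import Pool.Agent.MP_d6da41_co.Inf4

-- ======== part 0: formerly Pool.Agent.MP_d6da41_co.LD3
section MrgPart0

/-! Normal form of the first two generators. -/

namespace Pool.Agent.MP_d6da41_co

open Quaternion
open scoped RealInnerProductSpace

theorem pos_cv {i : ℕ} (hi : i < 11) (h : 0 < cv i) : i = 1 ∨ i = 3 ∨ i = 5 ∨ i = 7 ∨ i = 9 := by
  have := s2_bd
  have := s5_bd
  interval_cases i <;> first | decide | (exfalso; simp only [cv] at h; linarith)

theorem pairs {i j : ℕ} (hi : i < 11) (hj : j < 11) (h1 : 0 < cv i) (h2 : 0 < cv j)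
    (h3 : cv j ^ 2 < 1 - cv i ^ 2) (h4 : InC (2 * cv i * cv j)) :
    (i, j) ∈ [(1, 1), (1, 3), (3, 1), (5, 1), (7, 1), (1, 5), (1, 7), (5, 7), (7, 5)] := by
  have hk : ∃ k, k < 11 ∧ ((cm k : ℕ) : ZP) = 2 * (cm i : ℕ) * (cm j : ℕ) := by
    obtain ⟨k, hk, e⟩ := h4
    refine ⟨k, hk, (relZ_cv k).unique ?_⟩
    rw [← e]
    exact (((RelZ.int 2).of_eq (by simp) (by simp)).mul (relZ_cv i)).mul (relZ_cv j)
  have := s2_bd
  have := s5_bd
  have := sq2
  have := sq5
  rcases pos_cv hi h1 with rfl | rfl | rfl | rfl | rfl <;>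
  rcases pos_cv hj h2 with rfl | rfl | rfl | rfl | rfl <;>
  first | decide | (exfalso; revert hk; decide) | (exfalso; simp only [cv] at h3; nlinarith)

/-- `g` is `x ↦ p x p⁻¹` or `x ↦ p x̄ p⁻¹` -/
def IsC (g : OV ℍ) (p : ℍ) : Prop := IsLR g p p ∨ IsLB g p p

theorem IsC.un {g : OV ℍ} {p : ℍ} (h : IsC g p) : Un p := h.elim (·.l) (·.l)

theorem IsC.neg {g : OV ℍ} {p : ℍ} (h : IsC g p) : IsC g (-p) := h.imp (·.neg) (·.neg)

theorem IsC.mul {g g' : OV ℍ} {p p' : ℍ} (h : IsC g p) (h' : IsC g' p') : IsC (g * g') (p * p') := by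
  rcases h with h | h <;> rcases h' with h' | h'
  exacts [Or.inl (h.mulO h'), Or.inr (h.mulLB h'), Or.inr (h.mulLR h'), Or.inl (h.mulLB h')]

theorem IsC.inv {g : OV ℍ} {p : ℍ} (h : IsC g p) : IsC g⁻¹ (star p) := h.imp (·.invO) (·.invO)

theorem IsC.pm {g : OV ℍ} {p p' : ℍ} (h : IsC g p) (h' : IsC g p') : p'.re ^ 2 = p.re ^ 2 := by
  have : p' = p ∨ p' = -p := by
    rcases h with h | h <;> rcases h' with h' | h'
    exacts [(h.pm h').imp (·.1) (·.1), (not_LR_LB h h').elim, (not_LR_LB h' h).elim,
      (h.pm h').imp (·.1) (·.1)]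
  rcases this with rfl | rfl <;> simp

theorem IsC.pure {g : OV ℍ} {p u : ℍ} (h : IsC g p) (hu : u.re = 0) :
    g u = p * u * star p ∨ g u = -(p * u * star p) := by
  rcases h with h | h
  · exact Or.inl (h.eq u)
  · right; rw [h.eq, star_eq_neg.2 hu]; simp

theorem QC_inC (G : Subgroup (OV ℍ)) [Finite G] {s a : ℍ} (hs : ∃ g ∈ G, IsC g s)
    (ha : ∃ g ∈ G, IsC g a) (h0 : s.re ≠ 0) (h2 : a * s * star a * s ≠ s * (a * s * star a)) :
    InC s.re ∧ InC (s * star a).re ∧ InC (s * (s * star a)).re := by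
  classical
  have hQ : QSet {p | ∃ g ∈ G, IsC g p} :=
    ⟨fun _ ⟨_, _, h⟩ => h.un, ⟨1, one_mem _, Or.inl IsLR.one⟩,
      fun _ ⟨_, a, h⟩ _ ⟨_, b, h'⟩ => ⟨_, mul_mem a b, h.mul h'⟩,
      fun _ ⟨_, a, h⟩ => ⟨_, inv_mem a, h.inv⟩, fun _ ⟨_, a, h⟩ => ⟨_, a, h.neg⟩⟩
  obtain ⟨δ, h1, h3⟩ := discrete_of_finite hQ (by
    refine (Set.finite_range fun g : G =>
      if h : ∃ p, IsC g.1 p then h.choose.re ^ 2 else 0).subset ?_
    rintro _ ⟨p, ⟨g, hg, h⟩, rfl⟩
    refine ⟨⟨g, hg⟩, ?_⟩
    have e : ∃ p, IsC g p := ⟨p, h⟩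
    simp only [e, dif_pos]
    exact h.pm e.choose_spec)
  have := lemmaR hQ (irr_of' hs ha (hQ.unit _ hs) (hQ.unit _ ha) h0 h2) h1 h3
  have m := hQ.mul _ hs _ (hQ.star _ ha)
  exact ⟨this _ hs, this _ m, this _ (hQ.mul _ hs _ m)⟩

theorem LD.not_odd {s : ℕ → OV ℍ} {m : ℕ} (h : LD s m) (hm : 2 ≤ m) {t : ℕ} {p a n : ℍ}
    (T : TOK t p a n) (h0 : IsLR (s 0) p p) (h1 : IsLB (s 1) a a) : t = 0 := by
  by_contra ht
  have hQ : QSet {p | ∃ g ∈ HH s 2, IsLR g p p} :=
    ⟨fun _ ⟨_, _, h⟩ => h.l, ⟨1, one_mem _, IsLR.one⟩,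
      fun _ ⟨_, a, h⟩ _ ⟨_, b, h'⟩ => ⟨_, mul_mem a b, h.mulO h'⟩,
      fun _ ⟨_, a, h⟩ => ⟨_, inv_mem a, h.invO⟩, fun _ ⟨_, a, h⟩ => ⟨_, a, h.neg⟩⟩
  have m0 : s 0 ∈ HH s 2 := mem_HH (by omega)
  have m1 : s 1 ∈ HH s 2 := mem_HH (by omega)
  obtain ⟨x, ⟨g, hg, hx⟩, e⟩ := T.odd ht _ hQ ⟨_, m0, h0⟩
    ⟨_, mul_mem (mul_mem m1 m0) (inv_mem m1), h1.conj h0⟩
  have hB := h1.mulLR hx
  have := h.stab 1 le_rfl (by omega) _ (HH_mono hm (mul_mem m1 hg)) fun y hy => by
    have e1 := hy 0 (by omega)
    rw [h0.eq] at e1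
    have e2 : p * y = y * p := by
      conv_rhs => rw [← e1]
      rw [mul_assoc, h0.l.sm, mul_one]
    rw [hB.eq, anti_trans T.im e e2, mul_assoc, hB.l.ms, mul_one]
  obtain ⟨_, _, h'⟩ := HH_le (X := LRs) (fun i hi => by
    obtain rfl : i = 0 := by omega
    exact ⟨_, _, h0⟩) this
  exact not_LR_LB h' hB

theorem ld3 {s : ℕ → OV ℍ} {m : ℕ} (h : LD s m) (hm : 2 ≤ m) (h1 : (1 : ℍ) ∈ Fx s 2)
    [Finite (HH s 2)] : ∃ (φ : OV ℍ) (t : ℕ), φ 1 = 1 ∧ t < 9 ∧
      IsLR (φ * s 0 * φ⁻¹ : OV ℍ) (cq (ty t 1)) (cq (ty t 1)) ∧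
      (IsLR (φ * s 1 * φ⁻¹ : OV ℍ) (cq (ty t 2)) (cq (ty t 2)) ∨
        (t = 0 ∧ IsLB (φ * s 1 * φ⁻¹ : OV ℍ) (cq (ty t 2)) (cq (ty t 2)))) := by
  obtain ⟨u, hu⟩ := h.frame (k := 1) le_rfl hm
  have np := h.not_pm le_rfl hm hu
  have u0 : u.re = 0 := by
    have := hu.orth 1 h1
    rw [inner_coord] at this
    simpa using this
  have uim : u.im = u := by ext <;> simp [u0]
  have hsu : s 0 u = u := hu.mem 0 (by omega)
  have sq : ∀ p, IsC (s 0) p → p.re ≠ 0 := fun p hp e => h.sq (by
    rcases hp with hp | hp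
    · have := (hp.mulO hp).neg
      rw [hp.l.pure_sq e, neg_neg] at this
      exact this.uniqueO IsLR.one
    · have := (hp.mulLB hp).neg
      rw [hp.l.pure_sq e, neg_neg] at this
      exact this.uniqueO IsLR.one)
  obtain ⟨p, hp, p0⟩ : ∃ p, IsLR (s 0) p p ∧ 0 < p.re := by
    obtain ⟨p, hp | hp⟩ := O3 (h1 0 (by omega))
    · rcases lt_or_gt_of_ne (sq p (Or.inl hp)) with e | e
      · exact ⟨-p, hp.neg, by simpa using e⟩
      · exact ⟨p, hp, e⟩
    · refine absurd (anti_re (s := u) (by rw [uim]; exact hu.ne) ?_).1 (sq p (Or.inr hp))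
      rw [hp.eq] at hsu
      have := congrArg star hsu
      rw [star_mul, star_mul, star_star, star_star, ← mul_assoc] at this
      rw [← this, mul_assoc _ _ p, hp.l.sm, mul_one]
  have pu : u * p = p * u := by
    conv_lhs => rw [← hsu, hp.eq, mul_assoc, hp.l.sm, mul_one]
  have pim : p.im ≠ 0 := fun e => h.sq (by
    have := hp.l.normSq_im
    rw [e, map_zero] at this
    rcases hp.l.eq_pm (by linarith) with rfl | rfl
    · rw [hp.uniqueO IsLR.one, one_mul]
    · rw [hp.uniqueO IsLR.one.neg, one_mul])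
  have key : ∀ a, IsC (s 1) a → a.re = 0 ∧ a * p * star a * p ≠ p * (a * p * star a) := by
    intro a ha
    have ua := ha.un
    have nc : a * u * star a * u ≠ u * (a * u * star a) := fun e => by
      rcases pm_of_comm u0 ((conj_re ua u).trans u0) (conj_normSq ua u) e with e | e <;>
      rcases ha.pure u0 with e' | e' <;> rw [e] at e'
      exacts [np.1 e', np.2 e', np.2 e', np.1 (by rw [e', neg_neg])]
    constructor
    · have : IsLR (s 1 * s 1 : OV ℍ) (a * a) (a * a) := ha.elim (fun h => h.mulO h) fun h => h.mulLB h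
      rw [h.invol 1 le_rfl hm] at this
      have r := congrArg (·.re) ua.sq
      rcases IsLR.one.pm this with e | e
      · refine absurd ?_ nc
        rw [e.1] at r
        simp at r
        rcases ua.eq_pm (by linarith) with rfl | rfl <;> simp
      · rw [e.1] at r
        simp at r
        exact mul_self_eq_zero.1 (by linarith)
    · intro e
      rw [← comm_im_iff, eq_comm, ← comm_im_iff, conj_im ua] at e
      have y0 : a * p.im * star a ≠ 0 := mul_ne_zero (mul_ne_zero ua.ne pim) ua.star.ne
      have e1 : u * p.im = p.im * u := (comm_im_iff p u).2 pu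
      have e2 : a * u * star a * (a * p.im * star a) = a * p.im * star a * (a * u * star a) := by
        simp only [mul_assoc, ua.sm']
        rw [← mul_assoc u, e1, mul_assoc]
      exact nc (comm_trans (y := p.im) rfl pim (comm_trans (conj_re ua _) y0 e2 e) e1)
  obtain ⟨a, ha, t0⟩ : ∃ a, IsC (s 1) a ∧ 0 < ⟪p, a⟫ := by
    obtain ⟨a, ha⟩ := O3 (h1 1 (by omega))
    have : ⟪p, a⟫ ≠ 0 := fun e => (key a ha).2 (by
      rw [conj_perp (IsC.un ha) (key a ha).1 e, hp.l.sm, hp.l.ms])
    rcases lt_or_gt_of_ne this with e | e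
    · exact ⟨-a, IsC.neg ha, by simpa using e⟩
    · exact ⟨a, ha, e⟩
  obtain ⟨a0, nc⟩ := key a ha
  have ua := ha.un
  have lt : ⟪p, a⟫ ^ 2 < 1 - p.re ^ 2 := by
    by_contra hle
    have e : p.im = ⟪p, a⟫ • a := by
      rw [← sub_eq_zero, ← normSq_eq_zero]
      refine le_antisymm ?_ normSq_nonneg
      have b1 := ua.def'
      have b2 := hp.l.def'
      have b3 := inner_coord p a
      generalize ⟪p, a⟫ = t at hle b3 ⊢
      rw [a0] at b1 b3
      rw [normSq_def']
      simp [a0]
      have : (p.imI - t * a.imI) ^ 2 + (p.imJ - t * a.imJ) ^ 2 + (p.imK - t * a.imK) ^ 2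
          = 1 - p.re ^ 2 - t ^ 2 := by
        linear_combination b2 + t ^ 2 * b1 + 2 * t * b3
      linarith
    have e2 : a * p = p * a := by rw [← comm_im_iff, e, mul_smul_comm, smul_mul_assoc]
    apply nc
    rw [e2, mul_assoc p a, ua.ms, mul_one]
  obtain ⟨⟨i, hi, ei⟩, ⟨j, hj, ej⟩, c3⟩ := QC_inC (HH s 2) ⟨_, mem_HH (by omega), Or.inl hp⟩
    ⟨_, mem_HH (i := 1) (by omega), ha⟩ p0.ne' nc
  rw [← mul_assoc, hp.l.sq, sub_mul, one_mul, smul_mul_assoc, re_sub, re_smul, re_star, a0,
    sub_zero, smul_eq_mul, ei, ej] at c3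
  rw [← Quaternion.inner_def] at ej
  have fin : ∀ t, t < 9 → ∀ p a, IsLR (s 0) p p → IsC (s 1) a → a.re = 0 →
      p.re = (cq (ty t 1)).re → ⟪p, a⟫ = cv (ty t 4) → ∃ (φ : OV ℍ) (t : ℕ), φ 1 = 1 ∧ t < 9 ∧
      IsLR (φ * s 0 * φ⁻¹ : OV ℍ) (cq (ty t 1)) (cq (ty t 1)) ∧
      (IsLR (φ * s 1 * φ⁻¹ : OV ℍ) (cq (ty t 2)) (cq (ty t 2)) ∨
        (t = 0 ∧ IsLB (φ * s 1 * φ⁻¹ : OV ℍ) (cq (ty t 2)) (cq (ty t 2)))) := by
    intro t ht p a hp ha a0 e1 e2
    have T := tok ht
    obtain ⟨q, uq, f1, f2⟩ := exists_conj_pair hp.l ha.un T.us T.ua T.un a0 T.a0 e1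
      (e2.trans T.ip.symm) T.n1 T.n2
    have hφ := lrO_isLR uq uq
    have g0 := hφ.conj hp
    rw [f1] at g0
    refine ⟨_, t, by rw [hφ.eq, mul_one, uq.ms], ht, g0, ?_⟩
    rcases ha with ha | ha
    · exact Or.inl (f2 ▸ hφ.conj ha)
    · have g1 := hφ.conjB ha
      rw [f2] at g1
      exact Or.inr ⟨(LD_cj _ h).not_odd hm T g0 g1, g1⟩
  have := pairs hi hj (ei ▸ p0) (ej ▸ t0) (by rw [← ei, ← ej]; exact lt) c3
  simp only [List.mem_cons, Prod.mk.injEq, List.not_mem_nil, or_false] at this
  rcases this with ⟨rfl, rfl⟩ | ⟨rfl, rfl⟩ | ⟨rfl, rfl⟩ | ⟨rfl, rfl⟩ | ⟨rfl, rfl⟩ | ⟨rfl, rfl⟩ |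
    ⟨rfl, rfl⟩ | ⟨rfl, rfl⟩ | ⟨rfl, rfl⟩
  · exact fin 0 (by omega) p a hp ha a0 ei ej
  · exact fin 1 (by omega) p a hp ha a0 ei ej
  · exact fin 2 (by omega) p a hp ha a0 ei ej
  · exact fin 3 (by omega) p a hp ha a0 ei ej
  · exact fin 4 (by omega) (-p) (-a) hp.neg ha.neg (by simp [a0])
      (by rw [re_neg, ei]; rfl) (by rw [inner_neg_neg]; exact ej)
  · exact fin 5 (by omega) p a hp ha a0 ei ej
  · exact fin 6 (by omega) p a hp ha a0 ei ej
  · exact fin 7 (by omega) p a hp ha a0 ei ej
  · exact fin 8 (by omega) p a hp ha a0 ei ej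

end Pool.Agent.MP_d6da41_co

end MrgPart0

-- ======== part 1: formerly Pool.Agent.MP_d6da41_co.C4b
section MrgPart1

/-! Certificates. -/

namespace Pool.Agent.MP_d6da41_co

/-- table -/
def t4_0m : Tr :=
    (b (b (b (b (b (b (b (b (b o 5959294 0 o) 5959404 0 o) 5961021 282 (b (b o 5961131 282 o)
    5962242 282 o)) 5962572 282 (b (b (b o 5962924 1 o) 5963364 9291 o) 5964244 1 (b o 5964574
    9291 o))) 5965872 282 (b (b (b (b o 5966532 282 o) 5967071 282 o) 5967731 282 (b o 5968391
    282 o)) 5968941 282 (b (b (b o 5969832 282 o) 5970162 282 o) 7569804 0 (b o 7569914 0 o))))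
    7571531 282 (b (b (b (b (b o 7571641 282 o) 7572752 282 o) 7573082 282 (b o 7573434 1 o))
    7573874 9291 (b (b (b o 7574754 1 o) 7575084 9291 o) 7576382 282 (b o 7577042 282 o)))
    7577581 282 (b (b (b (b o 7578241 282 o) 7578901 282 o) 7579451 282 (b o 7580342 282 o))
    7580672 282 (b (b (b o 31244301 282 o) 31244411 282 o) 31246028 0 (b o 31246138 282 o)))))
    31247249 0 (b (b (b (b (b (b o 31247579 282 o) 31247931 282 o) 31248371 282 (b (b o 31249251
    282 o) 31249581 282 o)) 31250879 1 (b (b (b o 31251539 598603 o) 31252078 1 o) 31252738 46283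
    (b o 31253398 37963 o))) 31253948 282 (b (b (b (b o 31254839 74315 o) 31255169 282 o)
    32854811 282 (b o 32854921 282 o)) 32856538 282 (b (b (b o 32856648 0 o) 32857759 282 o)
    32858089 0 (b o 32858441 282 o)))) 32858881 282 (b (b (b (b (b o 32859761 282 o) 32860091 282
    o) 32861389 74315 (b o 32862049 282 o)) 32862588 37963 (b (b (b o 32863248 282 o) 32863908 1
    o) 32864458 46283 (b o 32865349 1 o))) 32865679 598603 (b (b (b (b o 49120962 282 o) 49121072
    282 o) 49122689 0 (b o 49122799 282 o)) 49123910 0 (b (b (b o 49124240 282 o) 49124592 282 o)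
    49125032 282 (b o 49125912 282 o)))))) 49126242 282 (b (b (b (b (b (b (b o 49127540 1 o)
    49128200 46283 o) 49128739 1 (b (b o 49129399 598603 o) 49130059 74315 o)) 49130609 282 (b (b
    (b o 49131500 37963 o) 49131830 282 o) 53952492 282 (b o 53952602 282 o))) 53954219 282 (b (b
    (b (b o 53954329 0 o) 53955440 282 o) 53955770 0 (b o 53956122 282 o)) 53956562 282 (b (b (b
    o 53957442 282 o) 53957772 282 o) 53959070 37963 (b o 53959730 282 o)))) 53960269 74315 (b (b
    (b (b (b o 53960929 282 o) 53961589 1 o) 53962139 598603 (b o 53963030 1 o)) 53963360 46283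
    (b (b (b o 59106124 1 o) 59106234 1 o) 59107851 282 (b o 59107961 282 o))) 59109072 282 (b (b
    (b (b o 59109402 282 o) 59109754 0 o) 59110194 9291 (b o 59111074 0 o)) 59111404 9291 (b (b
    (b o 59112702 282 o) 59113362 282 o) 59113901 282 (b o 59114561 282 o))))) 59115221 282 (b (b
    (b (b (b (b o 59115771 282 o) 59116662 282 o) 59116992 282 (b o 65548164 9291 o)) 65548274
    9291 (b (b (b o 65549891 282 o) 65550001 282 o) 65551112 282 (b o 65551442 282 o))) 65551794
    9291 (b (b (b (b o 65552234 0 o) 65553114 9291 o) 65553444 0 (b o 65554742 282 o)) 65555402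
    282 (b (b (b o 65555941 282 o) 65556601 282 o) 65557261 282 (b o 65557811 282 o)))) 65558702
    282 (b (b (b (b (b o 65559032 282 o) 78432244 1 o) 78432354 1 (b o 78433971 282 o)) 78434081
    282 (b (b (b o 78435192 282 o) 78435522 282 o) 78435874 0 (b o 78436314 9291 o))) 78437194 0
    (b (b (b (b o 78437524 9291 o) 78438822 282 o) 78439482 282 (b o 78440021 282 o)) 78440681
    282 (b (b (b o 78441341 282 o) 78441891 282 o) 78442782 282 (b o 78443112 282 o)))))))
    83263774 9291 (b (b (b (b (b (b (b (b o 83263884 9291 o) 83265501 282 o) 83265611 282 (b (b o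
    83266722 282 o) 83267052 282 o)) 83267404 9291 (b (b (b o 83267844 0 o) 83268724 9291 o)
    83269054 0 (b o 83270352 282 o))) 83271012 282 (b (b (b (b o 83271551 282 o) 83272211 282 o)
    83272871 282 (b o 83273421 282 o)) 83274312 282 (b (b (b o 83274642 282 o) 102267792 282 o)
    102267902 282 (b o 102269519 1 o)))) 102269629 74315 (b (b (b (b (b o 102270740 1 o)
    102271070 37963 o) 102271422 282 (b o 102271862 282 o)) 102272742 282 (b (b (b o 102273072
    282 o) 102274370 0 o) 102275030 282 (b o 102275569 0 o))) 102276229 282 (b (b (b (b o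
    102276889 282 o) 102277439 598603 o) 102278330 282 (b o 102278660 46283 o)) 111930852 282 (b
    (b (b o 111930962 282 o) 111932579 598603 o) 111932689 282 (b o 111933800 46283 o)))))
    111934130 282 (b (b (b (b (b (b o 111934482 282 o) 111934922 282 o) 111935802 282 (b o
    111936132 282 o)) 111937430 282 (b (b (b o 111938090 0 o) 111938629 282 o) 111939289 0 (b o
    111939949 598603 o))) 111940499 1 (b (b (b (b o 111941390 46283 o) 111941720 1 o) 119822351
    282 (b o 119822461 282 o)) 119824078 1 (b (b (b o 119824188 37963 o) 119825299 1 o) 119825629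
    74315 (b o 119825981 282 o)))) 119826421 282 (b (b (b (b (b o 119827301 282 o) 119827631 282
    o) 119828929 0 (b o 119829589 282 o)) 119830128 0 (b (b (b o 119830788 282 o) 119831448 282
    o) 119831998 46283 (b o 119832889 282 o))) 119833219 598603 (b (b (b (b o 129485411 282 o)
    129485521 282 o) 129487138 46283 (b o 129487248 282 o)) 129488359 598603 (b (b (b o 129488689
    282 o) 129489041 282 o) 129489481 282 (b o 129490361 282 o)))))) 129490691 282 (b (b (b (b (b
    (b (b o 129491989 282 o) 129492649 0 o) 129493188 282 (b (b o 129493848 0 o) 129494508 46283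
    o)) 129495058 1 (b (b (b o 129495949 598603 o) 129496279 1 o) 139148471 282 (b o 139148581
    282 o))) 139150198 37963 (b (b (b (b o 139150308 1 o) 139151419 74315 o) 139151749 1 (b o
    139152101 282 o)) 139152541 282 (b (b (b o 139153421 282 o) 139153751 282 o) 139155049 282 (b
    o 139155709 598603 o)))) 139156248 282 (b (b (b (b (b o 139156908 46283 o) 139157568 0 o)
    139158118 282 (b o 139159009 0 o)) 139159339 282 (b (b (b o 147201021 282 o) 147201131 282 o)
    147202748 282 (b o 147202858 46283 o))) 147203969 282 (b (b (b (b o 147204299 598603 o)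
    147204651 282 o) 147205091 282 (b o 147205971 282 o)) 147206301 282 (b (b (b o 147207599
    598603 o) 147208259 1 o) 147208798 46283 (b o 147209458 1 o))))) 147210118 282 (b (b (b (b (b
    (b o 147210668 0 o) 147211559 282 o) 147211889 0 (b o 160246152 282 o)) 160246262 282 (b (b
    (b o 160247879 74315 o) 160247989 1 o) 160249100 37963 (b o 160249430 1 o))) 160249782 282 (b
    (b (b (b o 160250222 282 o) 160251102 282 o) 160251432 282 (b o 160252730 282 o)) 160253390
    46283 (b (b (b o 160253929 282 o) 160254589 598603 o) 160255249 0 (b o 160255799 282 o))))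
    160256690 0 (b (b (b (b (b o 160257020 282 o) 165077682 282 o) 165077792 282 (b o 165079409
    282 o)) 165079519 598603 (b (b (b o 165080630 282 o) 165080960 46283 o) 165081312 282 (b o
    165081752 282 o))) 165082632 282 (b (b (b (b o 165082962 282 o) 165084260 46283 o) 165084920
    1 (b o 165085459 598603 o)) 165086119 1 (b (b (b o 165086779 282 o) 165087329 0 o) 165088220
    282 (b o 165088550 0 o))))))))

theorem c4_0m : chk4 0 false
    [407, 517, 2134, 2244, 3355, 3685, 4037, 4477, 5357, 5687, 6985, 7645, 8184, 8844, 9504,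
    10054, 10945, 11275] t4_0m = true := by
  decide +kernel

/-- table -/
def t4_1 : Tr :=
    (b (b (b (b (b (b (b (b (b o 5959294 0 o) 5959404 0 o) 5961021 210 (b (b o 5961131 210 o)
    5962242 210 o)) 5962572 210 (b (b (b o 5962924 38603 o) 5963364 19174987 o) 5964244 19698251
    (b o 5964574 46667 o))) 5965872 210 (b (b (b (b o 5966532 210 o) 5967071 210 o) 5967731 210
    (b o 5968391 210 o)) 5968941 210 (b (b (b o 5969832 210 o) 5970162 210 o) 7569804 0 (b o
    7569914 0 o)))) 7571531 210 (b (b (b (b (b o 7571641 210 o) 7572752 210 o) 7573082 210 (b o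
    7573434 19698251 o)) 7573874 46667 (b (b (b o 7574754 38603 o) 7575084 19174987 o) 7576382
    210 (b o 7577042 210 o))) 7577581 210 (b (b (b (b o 7578241 210 o) 7578901 210 o) 7579451 210
    (b o 7580342 210 o)) 7580672 210 (b (b (b o 31244301 210 o) 31244411 210 o) 31246028 0 (b o
    31246138 1 o))))) 31247249 0 (b (b (b (b (b (b o 31247579 1 o) 31247931 210 o) 31248371 210
    (b (b o 31249251 210 o) 31249581 210 o)) 31250879 210 (b (b (b o 31251539 210 o) 31252078 210
    o) 31252738 210 (b o 31253398 210 o))) 31253948 210 (b (b (b (b o 31254839 210 o) 31255169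
    210 o) 32854811 210 (b o 32854921 210 o)) 32856538 1 (b (b (b o 32856648 0 o) 32857759 1 o)
    32858089 0 (b o 32858441 210 o)))) 32858881 210 (b (b (b (b (b o 32859761 210 o) 32860091 210
    o) 32861389 210 (b o 32862049 210 o)) 32862588 210 (b (b (b o 32863248 210 o) 32863908 210 o)
    32864458 210 (b o 32865349 210 o))) 32865679 210 (b (b (b (b o 49120962 210 o) 49121072 210
    o) 49122689 0 (b o 49122799 1 o)) 49123910 0 (b (b (b o 49124240 1 o) 49124592 210 o)
    49125032 210 (b o 49125912 210 o)))))) 49126242 210 (b (b (b (b (b (b (b o 49127540 210 o)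
    49128200 210 o) 49128739 210 (b (b o 49129399 210 o) 49130059 210 o)) 49130609 210 (b (b (b o
    49131500 210 o) 49131830 210 o) 53952492 210 (b o 53952602 210 o))) 53954219 1 (b (b (b (b o
    53954329 0 o) 53955440 1 o) 53955770 0 (b o 53956122 210 o)) 53956562 210 (b (b (b o 53957442
    210 o) 53957772 210 o) 53959070 210 (b o 53959730 210 o)))) 53960269 210 (b (b (b (b (b o
    53960929 210 o) 53961589 210 o) 53962139 210 (b o 53963030 210 o)) 53963360 210 (b (b (b o
    59106124 38603 o) 59106234 19698251 o) 59107851 210 (b o 59107961 210 o))) 59109072 210 (b (b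
    (b (b o 59109402 210 o) 59109754 0 o) 59110194 1 (b o 59111074 0 o)) 59111404 1 (b (b (b o
    59112702 210 o) 59113362 210 o) 59113901 210 (b o 59114561 210 o))))) 59115221 210 (b (b (b
    (b (b (b o 59115771 210 o) 59116662 210 o) 59116992 210 (b o 65548164 19174987 o)) 65548274
    46667 (b (b (b o 65549891 210 o) 65550001 210 o) 65551112 210 (b o 65551442 210 o))) 65551794
    1 (b (b (b (b o 65552234 0 o) 65553114 1 o) 65553444 0 (b o 65554742 210 o)) 65555402 210 (b
    (b (b o 65555941 210 o) 65556601 210 o) 65557261 210 (b o 65557811 210 o)))) 65558702 210 (b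
    (b (b (b (b o 65559032 210 o) 78432244 19698251 o) 78432354 38603 (b o 78433971 210 o))
    78434081 210 (b (b (b o 78435192 210 o) 78435522 210 o) 78435874 0 (b o 78436314 1 o)))
    78437194 0 (b (b (b (b o 78437524 1 o) 78438822 210 o) 78439482 210 (b o 78440021 210 o))
    78440681 210 (b (b (b o 78441341 210 o) 78441891 210 o) 78442782 210 (b o 78443112 210
    o))))))) 83263774 46667 (b (b (b (b (b (b (b (b o 83263884 19174987 o) 83265501 210 o)
    83265611 210 (b (b o 83266722 210 o) 83267052 210 o)) 83267404 1 (b (b (b o 83267844 0 o)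
    83268724 1 o) 83269054 0 (b o 83270352 210 o))) 83271012 210 (b (b (b (b o 83271551 210 o)
    83272211 210 o) 83272871 210 (b o 83273421 210 o)) 83274312 210 (b (b (b o 83274642 210 o)
    102267792 210 o) 102267902 210 (b o 102269519 210 o)))) 102269629 210 (b (b (b (b (b o
    102270740 210 o) 102271070 210 o) 102271422 210 (b o 102271862 210 o)) 102272742 210 (b (b (b
    o 102273072 210 o) 102274370 0 o) 102275030 1 (b o 102275569 0 o))) 102276229 1 (b (b (b (b o
    102276889 210 o) 102277439 210 o) 102278330 210 (b o 102278660 210 o)) 111930852 210 (b (b (b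
    o 111930962 210 o) 111932579 210 o) 111932689 210 (b o 111933800 210 o))))) 111934130 210 (b
    (b (b (b (b (b o 111934482 210 o) 111934922 210 o) 111935802 210 (b o 111936132 210 o))
    111937430 1 (b (b (b o 111938090 0 o) 111938629 1 o) 111939289 0 (b o 111939949 210 o)))
    111940499 210 (b (b (b (b o 111941390 210 o) 111941720 210 o) 119822351 210 (b o 119822461
    210 o)) 119824078 210 (b (b (b o 119824188 210 o) 119825299 210 o) 119825629 210 (b o
    119825981 210 o)))) 119826421 210 (b (b (b (b (b o 119827301 210 o) 119827631 210 o)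
    119828929 0 (b o 119829589 1 o)) 119830128 0 (b (b (b o 119830788 1 o) 119831448 210 o)
    119831998 210 (b o 119832889 210 o))) 119833219 210 (b (b (b (b o 129485411 210 o) 129485521
    210 o) 129487138 210 (b o 129487248 210 o)) 129488359 210 (b (b (b o 129488689 210 o)
    129489041 210 o) 129489481 210 (b o 129490361 210 o)))))) 129490691 210 (b (b (b (b (b (b (b
    o 129491989 1 o) 129492649 0 o) 129493188 1 (b (b o 129493848 0 o) 129494508 210 o))
    129495058 210 (b (b (b o 129495949 210 o) 129496279 210 o) 139148471 210 (b o 139148581 210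
    o))) 139150198 210 (b (b (b (b o 139150308 210 o) 139151419 210 o) 139151749 210 (b o
    139152101 210 o)) 139152541 210 (b (b (b o 139153421 210 o) 139153751 210 o) 139155049 210 (b
    o 139155709 210 o)))) 139156248 210 (b (b (b (b (b o 139156908 210 o) 139157568 0 o)
    139158118 1 (b o 139159009 0 o)) 139159339 1 (b (b (b o 147201021 210 o) 147201131 210 o)
    147202748 210 (b o 147202858 210 o))) 147203969 210 (b (b (b (b o 147204299 210 o) 147204651
    210 o) 147205091 210 (b o 147205971 210 o)) 147206301 210 (b (b (b o 147207599 210 o)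
    147208259 210 o) 147208798 210 (b o 147209458 210 o))))) 147210118 1 (b (b (b (b (b (b o
    147210668 0 o) 147211559 1 o) 147211889 0 (b o 160246152 210 o)) 160246262 210 (b (b (b o
    160247879 210 o) 160247989 210 o) 160249100 210 (b o 160249430 210 o))) 160249782 210 (b (b
    (b (b o 160250222 210 o) 160251102 210 o) 160251432 210 (b o 160252730 210 o)) 160253390 210
    (b (b (b o 160253929 210 o) 160254589 210 o) 160255249 0 (b o 160255799 1 o)))) 160256690 0
    (b (b (b (b (b o 160257020 1 o) 165077682 210 o) 165077792 210 (b o 165079409 210 o))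
    165079519 210 (b (b (b o 165080630 210 o) 165080960 210 o) 165081312 210 (b o 165081752 210
    o))) 165082632 210 (b (b (b (b o 165082962 210 o) 165084260 210 o) 165084920 210 (b o
    165085459 210 o)) 165086119 210 (b (b (b o 165086779 1 o) 165087329 0 o) 165088220 1 (b o
    165088550 0 o))))))))

theorem c4_1 : chk4 1 true
    [407, 517, 2134, 2244, 3355, 3685, 4037, 4477, 5357, 5687, 6985, 7645, 8184, 8844, 9504,
    10054, 10945, 11275] t4_1 = true := by
  decide +kernel

/-- table -/
def t4_7 : Tr :=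
    (b (b (b (b (b (b (b o 100502688 0 o) 100502798 1 (b o 100504019 1 o)) 100504129 0 (b (b o
    100505768 1260697291 o) 100505878 373323 o)) 100507099 373323 (b (b (b o 100507209 153392843
    o) 100507803 157595339 o) 100509134 80688747083 (b (b o 102113198 1 o) 102113308 0 o)))
    102114529 0 (b (b (b (b o 102114639 1 o) 102116278 300747 (b o 102116388 1533318731 o))
    102117609 191140427 (b (b o 102117719 300747 o) 102118313 191665739 o)) 102119644 78541264459
    (b (b (b o 119989859 1 o) 119989969 0 o) 119991190 0 (b (b o 119991300 1 o) 119992939 300747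
    o)))) 119993049 191140427 (b (b (b (b (b o 119994270 1533318731 o) 119994380 300747 (b o
    119994974 78541264459 o)) 119996305 191665739 (b (b o 121600369 0 o) 121600479 1 o))
    121601700 1 (b (b (b o 121601810 0 o) 121603449 153392843 o) 121603559 373323 (b (b o
    121604780 373323 o) 121604890 1260697291 o))) 121605484 80688747083 (b (b (b (b o 121606815
    157595339 o) 145596968 1260697291 o) 145597078 300747 (b (b o 145598299 300747 o) 145598409
    153392843 o)) 145600048 0 (b (b (b o 145600158 1 o) 145601379 1 o) 145601489 0 (b (b o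
    145602083 80684028491 o) 145603414 38603 o))))) 147207478 373323 (b (b (b (b (b (b o
    147207588 1533318731 o) 147208809 191140427 (b o 147208919 373323 o)) 147210558 1 (b (b o
    147210668 0 o) 147211889 0 o)) 147211999 1 (b (b (b o 147212593 78536545867 o) 147213924
    46667 o) 165084139 373323 (b (b o 165084249 191140427 o) 165085470 1533318731 o))) 165085580
    373323 (b (b (b (b o 165087219 1 o) 165087329 0 o) 165088550 0 (b (b o 165088660 1 o)
    165089254 46667 o)) 165090585 78536545867 (b (b (b o 166694649 153392843 o) 166694759 300747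
    o) 166695980 300747 (b (b o 166696090 1260697291 o) 166697729 0 o)))) 166697839 1 (b (b (b (b
    (b o 166699060 1 o) 166699170 0 (b o 166699764 38603 o)) 166701095 80684028491 (b (b o
    175391403 157595339 o) 175391513 191665739 o)) 175392734 78541264459 (b (b (b o 175392844
    80688747083 o) 175394483 80684028491 o) 175394593 78536545867 (b (b o 175395814 46667 o)
    175395924 38603 o))) 175396518 0 (b (b (b (b o 175397849 0 o) 194878574 80688747083 o)
    194878684 78541264459 (b (b o 194879905 191665739 o) 194880015 157595339 o)) 194881654 38603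
    (b (b (b o 194881764 46667 o) 194882985 78536545867 o) 194883095 80684028491 (b (b o
    194883689 0 o) 194885020 0 o))))))

theorem c4_7 : chk4 7 true
    [6864, 6974, 8195, 8305, 9944, 10054, 11275, 11385, 11979, 13310] t4_7 = true := by
  decide +kernel

end Pool.Agent.MP_d6da41_co

end MrgPart1

-- ======== part 2: formerly Pool.Agent.MP_d6da41_co.C4c
section MrgPart2

/-! Certificates. -/

namespace Pool.Agent.MP_d6da41_co

/-- table -/
def t4_5 : Tr :=
    (b (b (b (b (b (b (b (b (b o 5959294 0 o) 5959404 0 o) 5961021 210 (b (b o 5961131 210 o)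
    5962242 210 o)) 5962572 210 (b (b (b o 5962924 210 o) 5963364 210 o) 5964244 210 (b o 5964574
    210 o))) 5965872 210 (b (b (b (b o 5966532 210 o) 5967071 210 o) 5967731 210 (b o 5968391 210
    o)) 5968941 210 (b (b (b o 5969832 210 o) 5970162 210 o) 7569804 0 (b o 7569914 0 o))))
    7571531 210 (b (b (b (b (b o 7571641 210 o) 7572752 210 o) 7573082 210 (b o 7573434 210 o))
    7573874 210 (b (b (b o 7574754 210 o) 7575084 210 o) 7576382 210 (b o 7577042 210 o)))
    7577581 210 (b (b (b (b o 7578241 210 o) 7578901 210 o) 7579451 210 (b o 7580342 210 o))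
    7580672 210 (b (b (b o 31244301 210 o) 31244411 210 o) 31246028 0 (b o 31246138 210 o)))))
    31247249 0 (b (b (b (b (b (b o 31247579 210 o) 31247931 210 o) 31248371 210 (b (b o 31249251
    210 o) 31249581 210 o)) 31250879 210 (b (b (b o 31251539 210 o) 31252078 210 o) 31252738 210
    (b o 31253398 210 o))) 31253948 210 (b (b (b (b o 31254839 210 o) 31255169 210 o) 32854811
    210 (b o 32854921 210 o)) 32856538 210 (b (b (b o 32856648 0 o) 32857759 210 o) 32858089 0 (b
    o 32858441 210 o)))) 32858881 210 (b (b (b (b (b o 32859761 210 o) 32860091 210 o) 32861389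
    1227731531 (b o 32862049 210 o)) 32862588 78570099275 (b (b (b o 32863248 210 o) 32863908 210
    o) 32864458 78536610379 (b o 32865349 210 o))) 32865679 1231917643 (b (b (b (b o 49120962 210
    o) 49121072 210 o) 49122689 0 (b o 49122799 210 o)) 49123910 0 (b (b (b o 49124240 210 o)
    49124592 210 o) 49125032 210 (b o 49125912 210 o)))))) 49126242 210 (b (b (b (b (b (b (b o
    49127540 210 o) 49128200 210 o) 49128739 210 (b (b o 49129399 210 o) 49130059 210 o))
    49130609 210 (b (b (b o 49131500 210 o) 49131830 210 o) 53952492 210 (b o 53952602 210 o)))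
    53954219 210 (b (b (b (b o 53954329 0 o) 53955440 210 o) 53955770 0 (b o 53956122 210 o))
    53956562 210 (b (b (b o 53957442 210 o) 53957772 210 o) 53959070 78570099275 (b o 53959730
    210 o)))) 53960269 1227731531 (b (b (b (b (b o 53960929 210 o) 53961589 210 o) 53962139
    1231917643 (b o 53963030 210 o)) 53963360 78536610379 (b (b (b o 59106124 210 o) 59106234 210
    o) 59107851 210 (b o 59107961 210 o))) 59109072 210 (b (b (b (b o 59109402 210 o) 59109754 0
    o) 59110194 210 (b o 59111074 0 o)) 59111404 210 (b (b (b o 59112702 210 o) 59113362 210 o)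
    59113901 210 (b o 59114561 210 o))))) 59115221 210 (b (b (b (b (b (b o 59115771 210 o)
    59116662 210 o) 59116992 210 (b o 65548164 210 o)) 65548274 210 (b (b (b o 65549891 210 o)
    65550001 210 o) 65551112 210 (b o 65551442 210 o))) 65551794 210 (b (b (b (b o 65552234 0 o)
    65553114 210 o) 65553444 0 (b o 65554742 210 o)) 65555402 210 (b (b (b o 65555941 210 o)
    65556601 210 o) 65557261 210 (b o 65557811 210 o)))) 65558702 210 (b (b (b (b (b o 65559032
    210 o) 78432244 210 o) 78432354 210 (b o 78433971 210 o)) 78434081 210 (b (b (b o 78435192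
    210 o) 78435522 210 o) 78435874 0 (b o 78436314 210 o))) 78437194 0 (b (b (b (b o 78437524
    210 o) 78438822 210 o) 78439482 210 (b o 78440021 210 o)) 78440681 210 (b (b (b o 78441341
    210 o) 78441891 210 o) 78442782 210 (b o 78443112 210 o))))))) 83263774 210 (b (b (b (b (b (b
    (b (b o 83263884 210 o) 83265501 210 o) 83265611 210 (b (b o 83266722 210 o) 83267052 210 o))
    83267404 210 (b (b (b o 83267844 0 o) 83268724 210 o) 83269054 0 (b o 83270352 210 o)))
    83271012 210 (b (b (b (b o 83271551 210 o) 83272211 210 o) 83272871 210 (b o 83273421 210 o))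
    83274312 210 (b (b (b o 83274642 210 o) 102267792 210 o) 102267902 210 (b o 102269519 210
    o)))) 102269629 1227731531 (b (b (b (b (b o 102270740 210 o) 102271070 78570099275 o)
    102271422 210 (b o 102271862 210 o)) 102272742 210 (b (b (b o 102273072 210 o) 102274370 0 o)
    102275030 210 (b o 102275569 0 o))) 102276229 210 (b (b (b (b o 102276889 210 o) 102277439 1
    o) 102278330 210 (b o 102278660 1 o)) 111930852 210 (b (b (b o 111930962 210 o) 111932579 210
    o) 111932689 210 (b o 111933800 210 o))))) 111934130 210 (b (b (b (b (b (b o 111934482 210 o)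
    111934922 210 o) 111935802 210 (b o 111936132 210 o)) 111937430 210 (b (b (b o 111938090 0 o)
    111938629 210 o) 111939289 0 (b o 111939949 210 o))) 111940499 210 (b (b (b (b o 111941390
    210 o) 111941720 210 o) 119822351 210 (b o 119822461 210 o)) 119824078 210 (b (b (b o
    119824188 78570099275 o) 119825299 210 o) 119825629 1227731531 (b o 119825981 210 o))))
    119826421 210 (b (b (b (b (b o 119827301 210 o) 119827631 210 o) 119828929 0 (b o 119829589
    210 o)) 119830128 0 (b (b (b o 119830788 210 o) 119831448 210 o) 119831998 1 (b o 119832889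
    210 o))) 119833219 1 (b (b (b (b o 129485411 210 o) 129485521 210 o) 129487138 210 (b o
    129487248 210 o)) 129488359 210 (b (b (b o 129488689 210 o) 129489041 210 o) 129489481 210 (b
    o 129490361 210 o)))))) 129490691 210 (b (b (b (b (b (b (b o 129491989 210 o) 129492649 0 o)
    129493188 210 (b (b o 129493848 0 o) 129494508 210 o)) 129495058 210 (b (b (b o 129495949 210
    o) 129496279 210 o) 139148471 210 (b o 139148581 210 o))) 139150198 210 (b (b (b (b o
    139150308 210 o) 139151419 210 o) 139151749 210 (b o 139152101 210 o)) 139152541 210 (b (b (b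
    o 139153421 210 o) 139153751 210 o) 139155049 210 (b o 139155709 210 o)))) 139156248 210 (b
    (b (b (b (b o 139156908 210 o) 139157568 0 o) 139158118 210 (b o 139159009 0 o)) 139159339
    210 (b (b (b o 147201021 210 o) 147201131 210 o) 147202748 210 (b o 147202858 78536610379
    o))) 147203969 210 (b (b (b (b o 147204299 1231917643 o) 147204651 210 o) 147205091 210 (b o
    147205971 210 o)) 147206301 210 (b (b (b o 147207599 1 o) 147208259 210 o) 147208798 1 (b o
    147209458 210 o))))) 147210118 210 (b (b (b (b (b (b o 147210668 0 o) 147211559 210 o)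
    147211889 0 (b o 160246152 210 o)) 160246262 210 (b (b (b o 160247879 210 o) 160247989 210 o)
    160249100 210 (b o 160249430 210 o))) 160249782 210 (b (b (b (b o 160250222 210 o) 160251102
    210 o) 160251432 210 (b o 160252730 210 o)) 160253390 210 (b (b (b o 160253929 210 o)
    160254589 210 o) 160255249 0 (b o 160255799 210 o)))) 160256690 0 (b (b (b (b (b o 160257020
    210 o) 165077682 210 o) 165077792 210 (b o 165079409 210 o)) 165079519 1231917643 (b (b (b o
    165080630 210 o) 165080960 78536610379 o) 165081312 210 (b o 165081752 210 o))) 165082632 210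
    (b (b (b (b o 165082962 210 o) 165084260 1 o) 165084920 210 (b o 165085459 1 o)) 165086119
    210 (b (b (b o 165086779 210 o) 165087329 0 o) 165088220 210 (b o 165088550 0 o))))))))

theorem c4_5 : chk4 5 true
    [407, 517, 2134, 2244, 3355, 3685, 4037, 4477, 5357, 5687, 6985, 7645, 8184, 8844, 9504,
    10054, 10945, 11275] t4_5 = true := by
  decide +kernel

/-- table -/
def t4_6 : Tr :=
    (b (b (b (b (b (b (b (b (b o 5959294 0 o) 5959404 0 o) 5961021 210 (b (b o 5961131 210 o)
    5962242 210 o)) 5962572 210 (b (b (b o 5962924 210 o) 5963364 210 o) 5964244 210 (b o 5964574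
    210 o))) 5965872 210 (b (b (b (b o 5966532 210 o) 5967071 210 o) 5967731 210 (b o 5968391 210
    o)) 5968941 210 (b (b (b o 5969832 210 o) 5970162 210 o) 7569804 0 (b o 7569914 0 o))))
    7571531 210 (b (b (b (b (b o 7571641 210 o) 7572752 210 o) 7573082 210 (b o 7573434 210 o))
    7573874 210 (b (b (b o 7574754 210 o) 7575084 210 o) 7576382 210 (b o 7577042 210 o)))
    7577581 210 (b (b (b (b o 7578241 210 o) 7578901 210 o) 7579451 210 (b o 7580342 210 o))
    7580672 210 (b (b (b o 31244301 210 o) 31244411 210 o) 31246028 0 (b o 31246138 210 o)))))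
    31247249 0 (b (b (b (b (b (b o 31247579 210 o) 31247931 210 o) 31248371 210 (b (b o 31249251
    210 o) 31249581 210 o)) 31250879 210 (b (b (b o 31251539 210 o) 31252078 210 o) 31252738 210
    (b o 31253398 210 o))) 31253948 210 (b (b (b (b o 31254839 210 o) 31255169 210 o) 32854811
    210 (b o 32854921 210 o)) 32856538 210 (b (b (b o 32856648 0 o) 32857759 210 o) 32858089 0 (b
    o 32858441 210 o)))) 32858881 210 (b (b (b (b (b o 32859761 210 o) 32860091 210 o) 32861389 1
    (b o 32862049 210 o)) 32862588 1 (b (b (b o 32863248 210 o) 32863908 210 o) 32864458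
    78570099275 (b o 32865349 210 o))) 32865679 1227731531 (b (b (b (b o 49120962 210 o) 49121072
    210 o) 49122689 0 (b o 49122799 210 o)) 49123910 0 (b (b (b o 49124240 210 o) 49124592 210 o)
    49125032 210 (b o 49125912 210 o)))))) 49126242 210 (b (b (b (b (b (b (b o 49127540 210 o)
    49128200 210 o) 49128739 210 (b (b o 49129399 210 o) 49130059 210 o)) 49130609 210 (b (b (b o
    49131500 210 o) 49131830 210 o) 53952492 210 (b o 53952602 210 o))) 53954219 210 (b (b (b (b
    o 53954329 0 o) 53955440 210 o) 53955770 0 (b o 53956122 210 o)) 53956562 210 (b (b (b o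
    53957442 210 o) 53957772 210 o) 53959070 1 (b o 53959730 210 o)))) 53960269 1 (b (b (b (b (b
    o 53960929 210 o) 53961589 210 o) 53962139 1227731531 (b o 53963030 210 o)) 53963360
    78570099275 (b (b (b o 59106124 210 o) 59106234 210 o) 59107851 210 (b o 59107961 210 o)))
    59109072 210 (b (b (b (b o 59109402 210 o) 59109754 0 o) 59110194 210 (b o 59111074 0 o))
    59111404 210 (b (b (b o 59112702 210 o) 59113362 210 o) 59113901 210 (b o 59114561 210 o)))))
    59115221 210 (b (b (b (b (b (b o 59115771 210 o) 59116662 210 o) 59116992 210 (b o 65548164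
    210 o)) 65548274 210 (b (b (b o 65549891 210 o) 65550001 210 o) 65551112 210 (b o 65551442
    210 o))) 65551794 210 (b (b (b (b o 65552234 0 o) 65553114 210 o) 65553444 0 (b o 65554742
    210 o)) 65555402 210 (b (b (b o 65555941 210 o) 65556601 210 o) 65557261 210 (b o 65557811
    210 o)))) 65558702 210 (b (b (b (b (b o 65559032 210 o) 78432244 210 o) 78432354 210 (b o
    78433971 210 o)) 78434081 210 (b (b (b o 78435192 210 o) 78435522 210 o) 78435874 0 (b o
    78436314 210 o))) 78437194 0 (b (b (b (b o 78437524 210 o) 78438822 210 o) 78439482 210 (b o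
    78440021 210 o)) 78440681 210 (b (b (b o 78441341 210 o) 78441891 210 o) 78442782 210 (b o
    78443112 210 o))))))) 83263774 210 (b (b (b (b (b (b (b (b o 83263884 210 o) 83265501 210 o)
    83265611 210 (b (b o 83266722 210 o) 83267052 210 o)) 83267404 210 (b (b (b o 83267844 0 o)
    83268724 210 o) 83269054 0 (b o 83270352 210 o))) 83271012 210 (b (b (b (b o 83271551 210 o)
    83272211 210 o) 83272871 210 (b o 83273421 210 o)) 83274312 210 (b (b (b o 83274642 210 o)
    102267792 210 o) 102267902 210 (b o 102269519 210 o)))) 102269629 1 (b (b (b (b (b o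
    102270740 210 o) 102271070 1 o) 102271422 210 (b o 102271862 210 o)) 102272742 210 (b (b (b o
    102273072 210 o) 102274370 0 o) 102275030 210 (b o 102275569 0 o))) 102276229 210 (b (b (b (b
    o 102276889 210 o) 102277439 1231917643 o) 102278330 210 (b o 102278660 78536610379 o))
    111930852 210 (b (b (b o 111930962 210 o) 111932579 210 o) 111932689 210 (b o 111933800 210
    o))))) 111934130 210 (b (b (b (b (b (b o 111934482 210 o) 111934922 210 o) 111935802 210 (b o
    111936132 210 o)) 111937430 210 (b (b (b o 111938090 0 o) 111938629 210 o) 111939289 0 (b o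
    111939949 210 o))) 111940499 210 (b (b (b (b o 111941390 210 o) 111941720 210 o) 119822351
    210 (b o 119822461 210 o)) 119824078 210 (b (b (b o 119824188 1 o) 119825299 210 o) 119825629
    1 (b o 119825981 210 o)))) 119826421 210 (b (b (b (b (b o 119827301 210 o) 119827631 210 o)
    119828929 0 (b o 119829589 210 o)) 119830128 0 (b (b (b o 119830788 210 o) 119831448 210 o)
    119831998 78536610379 (b o 119832889 210 o))) 119833219 1231917643 (b (b (b (b o 129485411
    210 o) 129485521 210 o) 129487138 210 (b o 129487248 210 o)) 129488359 210 (b (b (b o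
    129488689 210 o) 129489041 210 o) 129489481 210 (b o 129490361 210 o)))))) 129490691 210 (b
    (b (b (b (b (b (b o 129491989 210 o) 129492649 0 o) 129493188 210 (b (b o 129493848 0 o)
    129494508 210 o)) 129495058 210 (b (b (b o 129495949 210 o) 129496279 210 o) 139148471 210 (b
    o 139148581 210 o))) 139150198 210 (b (b (b (b o 139150308 210 o) 139151419 210 o) 139151749
    210 (b o 139152101 210 o)) 139152541 210 (b (b (b o 139153421 210 o) 139153751 210 o)
    139155049 210 (b o 139155709 210 o)))) 139156248 210 (b (b (b (b (b o 139156908 210 o)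
    139157568 0 o) 139158118 210 (b o 139159009 0 o)) 139159339 210 (b (b (b o 147201021 210 o)
    147201131 210 o) 147202748 210 (b o 147202858 78570099275 o))) 147203969 210 (b (b (b (b o
    147204299 1227731531 o) 147204651 210 o) 147205091 210 (b o 147205971 210 o)) 147206301 210
    (b (b (b o 147207599 1231917643 o) 147208259 210 o) 147208798 78536610379 (b o 147209458 210
    o))))) 147210118 210 (b (b (b (b (b (b o 147210668 0 o) 147211559 210 o) 147211889 0 (b o
    160246152 210 o)) 160246262 210 (b (b (b o 160247879 210 o) 160247989 210 o) 160249100 210 (b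
    o 160249430 210 o))) 160249782 210 (b (b (b (b o 160250222 210 o) 160251102 210 o) 160251432
    210 (b o 160252730 210 o)) 160253390 210 (b (b (b o 160253929 210 o) 160254589 210 o)
    160255249 0 (b o 160255799 210 o)))) 160256690 0 (b (b (b (b (b o 160257020 210 o) 165077682
    210 o) 165077792 210 (b o 165079409 210 o)) 165079519 1227731531 (b (b (b o 165080630 210 o)
    165080960 78570099275 o) 165081312 210 (b o 165081752 210 o))) 165082632 210 (b (b (b (b o
    165082962 210 o) 165084260 78536610379 o) 165084920 210 (b o 165085459 1231917643 o))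
    165086119 210 (b (b (b o 165086779 210 o) 165087329 0 o) 165088220 210 (b o 165088550 0
    o))))))))

theorem c4_6 : chk4 6 true
    [407, 517, 2134, 2244, 3355, 3685, 4037, 4477, 5357, 5687, 6985, 7645, 8184, 8844, 9504,
    10054, 10945, 11275] t4_6 = true := by
  decide +kernel

/-- table -/
def t4_8 : Tr :=
    (b (b (b (b (b (b (b o 15945138 0 o) 15945259 0 (b o 15946293 78541264459 o)) 15946414
    157595339 (b (b o 15947613 80688747083 o) 15947734 191665739 o)) 15953993 38603 (b (b (b o
    15954114 78536545867 o) 15955313 46667 o) 15955434 80684028491 (b (b o 17716699 0 o) 17716820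
    0 o))) 17717854 191665739 (b (b (b (b o 17717975 80688747083 o) 17719174 157595339 (b o
    17719295 78541264459 o)) 17725554 80684028491 (b (b o 17725675 46667 o) 17726874 78536545867
    o)) 17726995 38603 (b (b (b o 32855493 78541264459 o) 32855614 191665739 o) 32856648 0 (b (b
    o 32856769 1 o) 32857968 1 o)))) 32858089 0 (b (b (b (b (b o 32864348 300747 o) 32864469
    191140427 (b o 32865668 1533318731 o)) 32865789 300747 (b (b o 34627054 157595339 o) 34627175
    80688747083 o)) 34628209 1 (b (b (b o 34628330 0 o) 34629529 0 o) 34629650 1 (b (b o 34635909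
    153392843 o) 34636030 373323 o))) 34637229 373323 (b (b (b (b o 34637350 1260697291 o)
    52181613 80688747083 o) 52181734 157595339 (b (b o 52182768 1 o) 52182889 0 o)) 52184088 0 (b
    (b (b o 52184209 1 o) 52190468 1260697291 o) 52190589 373323 (b (b o 52191788 373323 o)
    52191909 153392843 o))))) 53953174 191665739 (b (b (b (b (b (b o 53953295 78541264459 o)
    53954329 0 (b o 53954450 1 o)) 53955649 1 (b (b o 53955770 0 o) 53962029 300747 o)) 53962150
    1533318731 (b (b (b o 53963349 191140427 o) 53963470 300747 o) 145591193 38603 (b (b o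
    145591314 80684028491 o) 145592348 300747 o))) 145592469 153392843 (b (b (b (b o 145593668
    1260697291 o) 145593789 300747 o) 145600048 0 (b (b o 145600169 1 o) 145601368 1 o))
    145601489 0 (b (b (b o 147362754 78536545867 o) 147362875 46667 o) 147363909 191140427 (b (b
    o 147364030 373323 o) 147365229 373323 o)))) 147365350 1533318731 (b (b (b (b (b o 147371609
    1 o) 147371730 0 (b o 147372929 0 o)) 147373050 1 (b (b o 164917313 46667 o) 164917434
    78536545867 o)) 164918468 1533318731 (b (b (b o 164918589 373323 o) 164919788 373323 o)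
    164919909 191140427 (b (b o 164926168 1 o) 164926289 0 o))) 164927488 0 (b (b (b (b o
    164927609 1 o) 166688874 80684028491 o) 166688995 38603 (b (b o 166690029 300747 o) 166690150
    1260697291 o)) 166691349 153392843 (b (b (b o 166691470 300747 o) 166697729 0 o) 166697850 1
    (b (b o 166699049 1 o) 166699170 0 o))))))

theorem c4_8 : chk4 8 true
    [1089, 1210, 2244, 2365, 3564, 3685, 9944, 10065, 11264, 11385] t4_8 = true := by
  decide +kernel

end Pool.Agent.MP_d6da41_co

end MrgPart2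

-- ======== part 3: formerly Pool.Agent.MP_d6da41_co.LD4
section MrgPart3

/-! Classification of the linear data. -/

set_option linter.unusedSectionVars false

namespace Pool.Agent.MP_d6da41_co

open Quaternion Module
open scoped RealInnerProductSpace

theorem finite_mono {Γ : Type} [Group Γ] {X Y : Subgroup Γ} (h : X ≤ Y) (hY : Finite Y) :
    Finite X := Finite.of_injective _ (Subgroup.inclusion_injective h)

theorem Ctx.out {s : ℕ → OV ℍ} {t : ℕ} {e : Bool} {l q : ℍ} (h : Ctx s t e l q) : Out s := by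
  rcases h.hA with ⟨rfl, -⟩ | ⟨rfl, rfl, -⟩
  · have := h.lt
    interval_cases t
    exacts [chk4_sound h c4_0, chk4_sound h c4_1, chk4_sound h c4_2, chk4_sound h c4_3,
      chk4_sound h c4_4, chk4_sound h c4_5, chk4_sound h c4_6, chk4_sound h c4_7,
      chk4_sound h c4_8]
  · exact chk4_sound h c4_0m

theorem ld4H {s : ℕ → OV ℍ} (h : LD s 3) (h1 : (1 : ℍ) ∈ Fx s 2) (hf : Finite (HH s 3)) :
    Out s := by
  have := finite_mono (HH_mono (s := s) (show 2 ≤ 3 by omega)) hf
  obtain ⟨φ, t, e1, ht, hS, hA⟩ := ld3 h (by omega) h1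
  have h' := LD_cj φ h
  have h1' : (1 : ℍ) ∈ Fx (fun i => φ * s i * φ⁻¹) 2 := fun i hi => by
    rw [OV.mul_apply, OV.mul_apply, OV.inv_fix e1, h1 i hi, e1]
  have np := h'.not_pm (k := 2) (by omega) (by omega) (frame_one h' h1')
  have key : Out fun i => φ * s i * φ⁻¹ := by
    obtain ⟨l, q, hB | hB⟩ := O4 (φ * s 2 * φ⁻¹)
    · rcases hA with hA | hA
      · exact Ctx.out (e := true) ⟨h', h1', finite_cj φ hf, ht, hS, Or.inl ⟨rfl, hA⟩, hB⟩
      · exact Ctx.out (e := false) ⟨h', h1', finite_cj φ hf, ht, hS, Or.inr ⟨rfl, hA⟩, hB⟩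
    · exfalso
      have k := (hB.mulLR hS).mulLB hB.invO
      rw [h'.inverts 2 (by omega) 0 (by omega)] at k
      have e : q * cq (ty t 1) * star q = star (cq (ty t 1)) := by
        refine ((hS.invO.pm k).resolve_right fun e => (tok ht).re ?_).2
        have := congrArg (·.re) e.1
        simp only [conj_re hB.l, re_neg, re_star] at this
        linarith
      have q0 := (anti_re (p := q) (tok ht).im (by rw [← e, mul_assoc, hB.r.sm, mul_one])).1
      have k2 := hB.mulLB hB
      rw [h'.invol 2 (by omega) (by omega)] at k2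
      have e2 := hB.eq 1
      rw [star_one, mul_one, star_eq_neg.2 q0, mul_neg] at e2
      rcases IsLR.one.pm k2 with e3 | e3 <;> rw [e3.1] at e2
      · exact np.2 e2
      · exact np.1 (by rw [e2, neg_neg])
  rcases key with ⟨R, hR⟩ | ⟨j, ψ, hj, e2, hm⟩
  · exact Or.inl ⟨_, Mir_cj φ hR⟩
  · refine Or.inr ⟨j, ψ * φ, hj, by rw [OV.mul_apply, e1, e2], ?_⟩
    simpa only [mul_inv_rev, inv_inv, mul_assoc] using hm

variable {V : Type} [NormedAddCommGroup V] [InnerProductSpace ℝ V] [FiniteDimensional ℝ V]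

theorem HH_congr {Γ : Type} [Group Γ] {s s' : ℕ → Γ} {m : ℕ} (e : ∀ i, i < m → s i = s' i) :
    HH s m = HH s' m := le_antisymm
  (HH_le fun i hi => by rw [e i hi]; exact mem_HH hi)
  (HH_le fun i hi => by rw [← e i hi]; exact mem_HH hi)

/-- the linear data is that of the model `j` -/
structure Emb (s : ℕ → OV V) (ι : ℍ →ₗᵢ[ℝ] V) (s' : ℕ → OV ℍ) (j : ℕ) : Prop where
  lt : j < 22
  md : IsMod s' j
  eq : (∀ i, i < 3 → s i = extO ι (s' i)) ∨ ∀ i, i < 3 → (s i)⁻¹ = extO ι (s' i)
  mem : ∀ y, ι y ∈ (Fx s 3)ᗮ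
  sur : ∀ x ∈ (Fx s 3)ᗮ, ∃ y, ι y = x
  fr : Frame (Fx s 3) (Fx s 2) (ι 1)

theorem ld4 {s : ℕ → OV V} {m : ℕ} (h : LD s m) (hm : 3 ≤ m) (hf : Finite (HH s 3)) :
    (∃ R, LD.Mir s 2 R) ∨ ∃ ι s' j, Emb s ι s' j := by
  obtain ⟨x, hx⟩ := h.frame (k := 2) (by omega) hm
  obtain ⟨ι, e1, e2, e3⟩ := exists_emb (U := ℍ) (W := (Fx s 3)ᗮ) (by
    rw [Quaternion.finrank_eq_four,
      Submodule.finrank_add_finrank_orthogonal' (h.codim 3 (by omega) hm)]) (u := 1) hx.orth
    (by rw [norm_one, hx.norm])
  have : ∀ i, ∃ g, i < 3 → s i = extO ι g := fun i => by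
    by_cases hi : i < 3
    · obtain ⟨g, hg⟩ := exists_extO ι (s := s i) fun y hy => by
        have : y ∈ (Fx s 3)ᗮᗮ := fun z hz => by
          obtain ⟨w, rfl⟩ := e3 z hz
          exact hy w
        rw [Submodule.orthogonal_orthogonal] at this
        exact this i hi
      exact ⟨g, fun _ => hg⟩
    · exact ⟨1, fun h => absurd h hi⟩
  choose s0 hs using this
  have h0 : LD s0 3 := (LD_extO ι s0 3).1 (LD_congr hs (h.mono (by omega) hm))
  have h1 : (1 : ℍ) ∈ Fx s0 2 := fun i hi => ι.injective (by
    rw [← extO_emb, ← hs i (by omega), e1, hx.mem i hi])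
  rcases ld4H h0 h1 ((finite_extO ι s0 3).1 (by rwa [← HH_congr hs])) with
    ⟨R, hR⟩ | ⟨j, φ, hj, e4, hm⟩
  · rw [← Mir_extO ι] at hR
    refine Or.inl ⟨extO ι R, fun i hi => ?_, fun y hy => hR.2 y fun i hi => ?_⟩
    · rw [hs i hi]; exact hR.1 i hi
    · show extO ι (s0 i) y = y
      rw [← hs i (by omega)]; exact hy i hi
  · have a1 : ∀ g, extO (ι.comp (φ⁻¹).toLinearIsometry) (φ * g * φ⁻¹) = extO ι g := fun g => by
      rw [extO_equiv]; congr 1; group
    have a2 : ∀ x ∈ (Fx s 3)ᗮ, ∃ y, (ι.comp (φ⁻¹).toLinearIsometry) y = x := fun x hx => by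
      obtain ⟨y, rfl⟩ := e3 x hx
      exact ⟨φ y, congrArg ι (φ.inv_apply_self y)⟩
    have a3 : Frame (Fx s 3) (Fx s 2) ((ι.comp (φ⁻¹).toLinearIsometry) 1) := by
      show Frame _ _ (ι (φ⁻¹ 1))
      rwa [OV.inv_fix e4, e1]
    right
    rcases hm with hm | hm
    · exact ⟨ι.comp (φ⁻¹).toLinearIsometry, _, j, hj, hm, Or.inl fun i hi => by rw [a1, hs i hi],
        fun _ => e2 _, a2, a3⟩
    · exact ⟨ι.comp (φ⁻¹).toLinearIsometry, _, j, hj, hm,
        Or.inr fun i hi => by rw [a1, hs i hi, map_inv], fun _ => e2 _, a2, a3⟩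

theorem Emb.ext_mem {s : ℕ → OV V} {ι : ℍ →ₗᵢ[ℝ] V} {s' : ℕ → OV ℍ} {j : ℕ} (h : Emb s ι s' j)
    {g : OV ℍ} (hg : g ∈ HH s' 3) : extO ι g ∈ HH s 3 := by
  refine HH_le (X := (HH s 3).comap (extO ι)) (fun i hi => ?_) hg
  rcases h.eq with e | e <;> rw [Subgroup.mem_comap, ← e i hi]
  exacts [mem_HH hi, inv_mem (mem_HH hi)]

theorem sq_closed {S : Set ℝ} (hf : S.Finite) (h : ∀ c ∈ S, c ^ 2 ∈ S) {c : ℝ} (hc : c ∈ S)
    (h0 : c ≠ 0) : 1 ≤ c ^ 2 := by
  obtain ⟨d, ⟨h1, h2⟩, h3⟩ := Set.exists_min_image (S \ {0}) (fun x => x ^ 2) hf.sdiff ⟨c, hc, h0⟩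
  have a1 : 0 < d ^ 2 := by have : d ≠ 0 := h2; positivity
  have a2 := h3 _ ⟨h d h1, a1.ne'⟩
  have a3 := h3 c ⟨hc, h0⟩
  nlinarith

theorem t5 {s : ℕ → OV V} {m : ℕ} (h : LD s m) (hm : 4 ≤ m) (hf : Finite (HH s 4))
    {ι : ℍ →ₗᵢ[ℝ] V} {s' : ℕ → OV ℍ} {j : ℕ} (he : Emb s ι s' j) : False := by
  obtain ⟨v, hv⟩ := h.frame (k := 3) (by omega) hm
  obtain ⟨b1, b2, ⟨J, hJ, hJ'⟩, -⟩ := he.md.prop he.lt
  have le : HH s 3 ≤ HH s 4 := HH_mono (by omega)
  have vo : ∀ y, ⟪v, ι y⟫ = 0 := fun y => he.mem y v hv.mem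
  have conj : ∀ g ∈ HH s 4, ∀ k ∈ HH s 4, ⟪g v, k (g v)⟫ ∈ Set.range fun g : HH s 4 => ⟪v, g.1 v⟫ :=
    fun g hg k hk => ⟨⟨_, mul_mem (inv_mem hg) (mul_mem hk hg)⟩, (OV.inner_left g _ _).symm⟩
  have key : ∀ c ∈ Set.range fun g : HH s 4 => ⟪v, g.1 v⟫, c ≠ 0 → 1 ≤ c ^ 2 := by
    refine fun c => sq_closed (Set.finite_range _) ?_
    rintro _ ⟨⟨g, hg⟩, rfl⟩
    obtain ⟨z, hz⟩ := he.sur _ (hv.sub_orth (HH_orth hg hv.orth))
    have := conj g hg _ (le (he.ext_mem hJ))
    show ⟪v, g v⟫ ^ 2 ∈ _
    generalize ⟪v, g v⟫ = c at hz ⊢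
    rw [← sub_add_cancel (g v) (c • v), ← hz, map_add, map_smul, extO_emb,
      HH_fix (he.ext_mem hJ) hv.mem] at this
    simp only [inner_add_left, inner_add_right, real_inner_smul_left, real_inner_smul_right, vo,
      real_inner_comm v (ι z), hv.unit, ι.inner_map_map] at this
    rw [hJ'.eq, inner_coord] at this
    convert this using 1
    simp [cq, cv]
    ring
  have np := h.not_pm (k := 3) (by omega) hm hv
  have m3 : s 3 ∈ HH s 4 := mem_HH (by omega)
  have v2 : v ∈ Fx s 2 := Fx_anti (by omega) hv.mem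
  have e := he.fr.eq (Submodule.sub_mem _ ((h.inverts 3 hm).fx v2) (Submodule.smul_mem _ _ v2))
    (hv.sub_orth (HH_orth m3 hv.orth))
  have k1 := key _ ⟨⟨_, m3⟩, rfl⟩
  generalize ⟪ι 1, s 3 v - ⟪v, s 3 v⟫ • v⟫ = β at e
  replace k1 : ⟪v, s 3 v⟫ ≠ 0 → 1 ≤ ⟪v, s 3 v⟫ ^ 2 := k1
  generalize ⟪v, s 3 v⟫ = α at e k1
  rw [sub_eq_iff_eq_add] at e
  have n1 := (s 3).inner_map_map v v
  rw [e] at n1
  simp only [inner_add_left, inner_add_right, real_inner_smul_left, real_inner_smul_right, vo,
    real_inner_comm v (ι 1), hv.unit, he.fr.unit] at n1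
  have a0 : α = 0 := by
    by_contra a0
    have : β = 0 := by nlinarith [k1 a0]
    rw [this, zero_smul, zero_add] at e
    rcases pm_of_map hv.ne e with e | e
    exacts [np.1 e, np.2 e]
  rw [a0, zero_smul, add_zero] at e
  have := key _ (conj _ m3 _ (le (he.ext_mem (mem_HH (i := 2) (by omega)))))
  rw [e, map_smul, extO_emb, real_inner_smul_left, real_inner_smul_right, ι.inner_map_map,
    inner_coord, ← mul_assoc, show β * β = 1 by rw [a0] at n1; linarith] at this
  simp at this
  have := this b1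
  nlinarith [abs_nonneg (s' 2 1).re, sq_abs (s' 2 1).re]

theorem ld_big {s : ℕ → OV V} {m : ℕ} (h : LD s m) (hm : 4 ≤ m) (hf : Finite (HH s m)) :
    ∃ R, LD.Mir s (m - 1) R := by
  rcases ld4 h (by omega) (finite_mono (HH_mono (by omega)) hf) with ⟨R, hR⟩ | ⟨ι, s', j, he⟩
  · exact ⟨R, h.mir_le le_rfl hR (by omega) (by omega)⟩
  · exact (t5 h hm (finite_mono (HH_mono hm) hf) he).elim

end Pool.Agent.MP_d6da41_co

end MrgPart3

-- ======== part 4: formerly Pool.Agent.MP_d6da41_co.Inf3
section MrgPart4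

/-! The infinite polytopes of rank 4. -/

namespace Pool.Agent.MP_d6da41_co

open Quaternion
open scoped RealInnerProductSpace

theorem bar_cube {k : OV ℍ} {x : ℍ} (h : IsLB k x x) (r : x.re = 1 / 2) : k * k * k = barO := by
  have k3 := ((h.mulLB h).mulLB h).neg
  have : -(x * x * x) = 1 := by
    rw [h.l.sq, sub_mul, smul_mul_assoc, h.l.sq, r]; norm_num
  rw [this] at k3
  exact k3.uniqueO IsLB.bar

theorem conj_est {r : ℍ} (hr : Un r) (h : 1 - r.re ^ 2 ≤ 1 / 64) (y : ℍ) :
    ‖y - r * y * star r‖ ≤ ‖y‖ / 4 := by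
  have e : y - r * y * star r = (y * r.im - r.im * y) * star r := by
    rw [← neg_sub (r.im * y), comm_im, neg_sub, sub_mul, mul_assoc y, hr.ms, mul_one]
  have n1 : ‖r.im‖ ≤ 1 / 8 := by
    have := hr.normSq_im
    rw [normSq_eq_norm_mul_self] at this
    nlinarith [norm_nonneg r.im]
  rw [e, norm_mul, hr.star.norm, mul_one]
  refine (norm_sub_le _ _).trans ?_
  rw [norm_mul, norm_mul]
  nlinarith [norm_nonneg y]

theorem inC_far {x : ℝ} (h : InC x) : x ^ 2 = 1 ∨ 1 / 64 < 1 - x ^ 2 := by
  obtain ⟨k, hk, rfl⟩ := h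
  have := s2_bd
  have := s5_bd
  have := sq2
  have := sq5
  interval_cases k <;> simp only [cv] <;> first | (left; norm_num; done) | (right; nlinarith)

theorem discrete3 {G : Subgroup (ℍ ≃ᵢ ℍ)} {ε : ℝ} (hε : 0 < ε) (sep : ∀ g ∈ G, g 0 ≠ 0 → ε ≤ ‖g 0‖)
    (hI : Irr {p | ∃ g ∈ G, g 0 = 0 ∧ IsLR (lin g) p p})
    (hC : ∀ g ∈ G, g 0 = 0 → ∀ p, IsLR (lin g) p p → InC p.re) :
    ∀ g ∈ G, ∀ p, IsLR (lin g) p p → p.re ^ 2 = 1 ∨ 1 / 64 ≤ 1 - p.re ^ 2 := by
  have hK : QSet {p | ∃ g ∈ G, g 0 = 0 ∧ IsLR (lin g) p p} :=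
    ⟨fun _ ⟨_, _, _, h⟩ => h.l, ⟨1, one_mem _, rfl, by rw [map_one]; exact IsLR.one⟩,
      fun _ ⟨_, a, a', h⟩ _ ⟨_, b, b', h'⟩ => ⟨_, mul_mem a b,
        by rw [IsometryEquiv.mul_apply, b', a'], by rw [map_mul]; exact h.mulO h'⟩,
      fun _ ⟨_, a, a', h⟩ => ⟨_, inv_mem a, mem_stabI.1 (inv_mem (mem_stabI.2 a')),
        by rw [map_inv]; exact h.invO⟩, fun _ ⟨_, a, a', h⟩ => ⟨_, a, a', h.neg⟩⟩
  have step : ∀ g ∈ G, ∀ p, IsLR (lin g) p p → p.re ^ 2 ≠ 1 → 1 - p.re ^ 2 ≤ 1 / 64 →
      ∃ c ∈ G, ∃ r, IsLR (lin c) r r ∧ r.re ^ 2 ≠ 1 ∧ 1 - r.re ^ 2 ≤ 1 / 64 ∧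
        ‖c 0‖ ≤ ‖g 0‖ / 2 := by
    intro g hg p hp h1 h2
    obtain ⟨k, ⟨h, hh, h0, hk⟩, hne⟩ := hI.exists_conj hK hp.l h1
    obtain ⟨g', hg', hp', n'⟩ : ∃ g' ∈ G, IsLR (lin g') (k * p * star k) (k * p * star k) ∧
        ‖g' 0‖ = ‖g 0‖ := by
      refine ⟨h * g * h⁻¹, mul_mem (mul_mem hh hg) (inv_mem hh), ?_, ?_⟩
      · rw [map_mul, map_mul, map_inv]; exact hk.conj hp
      · rw [IsometryEquiv.mul_apply, IsometryEquiv.mul_apply,
          show h⁻¹ 0 = 0 from mem_stabI.1 (inv_mem (mem_stabI.2 h0)), iso_apply h, h0, add_zero,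
          LinearIsometryEquiv.norm_map]
    have r' := conj_re hk.l p
    generalize k * p * star k = p' at hne hp' r'
    obtain ⟨a1, a2⟩ := commutator_est hp.l hp'.l r' hne
    have c1 := hp.conj hp'
    have c2 := hp'.conj hp.invO
    refine ⟨g * g' * g⁻¹ * g'⁻¹, mul_mem (mul_mem (mul_mem hg hg') (inv_mem hg)) (inv_mem hg'), _,
      by rw [map_mul, map_mul, map_mul, map_inv, map_inv]; exact c1.mulO hp'.invO, ?_⟩
    generalize (p * p' * star p * star p').re = c at a1 a2
    have := hp.l.re_sq_le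
    have a3 : 1 - c ≤ 1 / 2048 := by nlinarith
    refine ⟨fun e => by nlinarith, by nlinarith, ?_⟩
    have e : (g * g' * g⁻¹ * g'⁻¹) 0 = (g 0 - (lin g * lin g' * (lin g)⁻¹) (g 0)) +
        lin g (g' 0 - (lin g' * (lin g)⁻¹ * (lin g')⁻¹) (g' 0)) := by
      simp only [IsometryEquiv.mul_apply, OV.mul_apply]
      rw [iso_apply g, iso_apply g', iso_inv g, iso_inv g']
      simp only [map_add, map_sub, map_zero]
      abel
    rw [e]
    refine (norm_add_le _ _).trans ?_
    rw [LinearIsometryEquiv.norm_map, c1.eq, c2.eq]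
    have b1 := conj_est c1.l (by rw [conj_re hp.l, r']; exact h2) (g 0)
    have b2 := conj_est c2.l (by rw [conj_re hp'.l, re_star]; exact h2) (g' 0)
    linarith
  intro g hg p hp
  by_contra hne
  push Not at hne
  have key : ∀ N : ℕ, ∃ c ∈ G, ∃ r, IsLR (lin c) r r ∧ r.re ^ 2 ≠ 1 ∧ 1 - r.re ^ 2 ≤ 1 / 64 ∧
      ‖c 0‖ ≤ ‖g 0‖ * (1 / 2) ^ N := by
    intro N
    induction N with
    | zero => exact ⟨g, hg, p, hp, hne.1, hne.2.le, by simp⟩
    | succ N ih =>
      obtain ⟨c, a1, r, a2, a3, a4, a5⟩ := ih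
      obtain ⟨d, b1, r', b2, b3, b4, b5⟩ := step c a1 r a2 a3 a4
      exact ⟨d, b1, r', b2, b3, b4, by rw [pow_succ (1 / 2 : ℝ)]; linarith⟩
  obtain ⟨N, hN⟩ := exists_pow_lt_of_lt_one (div_pos hε (show 0 < ‖g 0‖ + 1 by positivity))
    (show (1 / 2 : ℝ) < 1 by norm_num)
  obtain ⟨c, a1, r, a2, a3, a4, a5⟩ := key N
  rw [lt_div_iff₀ (by positivity)] at hN
  have c0 : c 0 = 0 := by
    by_contra c0
    have := sep c a1 c0
    have : (0 : ℝ) < (1 / 2) ^ N := by positivity
    nlinarith
  rcases inC_far (hC c a1 c0 r a2) with e | e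
  · exact a3 e
  · linarith

theorem rot_sum {p y : ℍ} (hp : Un p) (hy : y.re = 0) (h : ⟪p, y⟫ = 0) :
    p * y * star p + star p * y * p = (4 * p.re ^ 2 - 2) • y := by
  have := hp.def'
  rw [inner_coord, hy] at h
  ext <;> simp [hy]
  · ring
  · linear_combination (-2 * y.imI) * this + 4 * p.imI * h
  · linear_combination (-2 * y.imJ) * this + 4 * p.imJ * h
  · linear_combination (-2 * y.imK) * this + 4 * p.imK * h

theorem crystal3 {T : AddSubgroup ℍ} {Q : Set ℍ} (hQ : QSet Q) (hI : Irr Q) {ε : ℝ} (hε : 0 < ε)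
    (sep : ∀ y ∈ T, y ≠ 0 → ε ≤ ‖y‖) (hT : ∀ p ∈ Q, ∀ y ∈ T, p * y * star p ∈ T) {y : ℍ}
    (hy : y ∈ T) (y0 : y ≠ 0) (yr : y.re = 0) {p : ℍ} (hp : p ∈ Q) :
    ∃ z : ℤ, 4 * p.re ^ 2 - 2 = z := by
  have up := hQ.unit p hp
  by_cases e : p.im = 0
  · have := up.normSq_im
    rw [e, map_zero] at this
    exact ⟨2, by push_cast; linarith⟩
  obtain ⟨x, hx, xr, hne⟩ : ∃ x ∈ T, x.re = 0 ∧ x * p ≠ p * x := by
    obtain ⟨k, hk, h⟩ := hI y yr y0
    by_contra hc
    push Not at hc
    exact h (comm_trans (y := p.im) rfl e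
      ((comm_im_iff _ _).2 (hc _ (hT k hk y hy) ((conj_re (hQ.unit k hk) y).trans yr)))
      ((comm_im_iff _ _).2 (hc y hy yr)))
  have r : (x - p * x * star p).re = 0 := by rw [re_sub, conj_re up, sub_self]
  have ip : ⟪p, x - p * x * star p⟫ = 0 := by
    have h := lrO_isLR up up
    have := (lrO up up).inner_map_map p x
    rw [h.eq, h.eq, mul_assoc p p, up.ms, mul_one] at this
    rw [inner_sub_right, this, sub_self]
  refine crystal hε sep (T.sub_mem hx (hT p hp x hx)) (fun e => hne ?_) fun c hc => ?_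
  · conv_lhs => rw [sub_eq_zero.1 e, mul_assoc, up.sm, mul_one]
  · have := T.add_mem (hT p hp _ hc) (hT _ (hQ.star p hp) _ hc)
    rwa [star_star, rot_sum up (by rw [re_smul, r, smul_zero])
      (by rw [real_inner_smul_right, ip, mul_zero]), smul_smul] at this

/-- crystallographic values -/
def isD (m : ℕ) : Bool := [0, 1, 2, 3, 4, 9, 10].any fun k => Nat.beq (cm k) m

theorem isD_of {x : ℍ} {m : ℕ} (h : RelQ x m) (hx : InC x.re) (e : ∃ z : ℤ, 4 * x.re ^ 2 - 2 = z) :
    isD (d0 m) = true := by
  obtain ⟨k, hk, ek⟩ := hx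
  obtain ⟨z, e⟩ := e
  rw [d0_eq h.h0 hk ek]
  have := s5_bd
  have := sq5
  rw [ek] at e
  interval_cases k <;> first | decide | exfalso
  all_goals simp only [cv] at e
  · exact not_int (n := 0) (by push_cast; nlinarith) (by push_cast; nlinarith) z e
  · exact not_int (n := 0) (by push_cast; nlinarith) (by push_cast; nlinarith) z e
  · exact not_int (n := -2) (by push_cast; nlinarith) (by push_cast; nlinarith) z e
  · exact not_int (n := -2) (by push_cast; nlinarith) (by push_cast; nlinarith) z e

/-- affine data in dimension 3 -/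
structure A3 (T : ℕ → ℍ ≃ᵢ ℍ) (t : ℕ) : Prop where
  lt : t < 9
  hS : IsLR (lin (T 2)) (cq (ty t 1)) (cq (ty t 1))
  hA : IsLR (lin (T 1)) (cq (ty t 2)) (cq (ty t 2)) ∨
    (t = 0 ∧ IsLB (lin (T 1)) (cq (ty t 2)) (cq (ty t 2)))
  one : lin (T 0) 1 = 1
  pure : (T 0 0).re = 0
  f1 : T 1 0 = 0
  f2 : T 2 0 = 0
  last : T 3 = 1
  inv0 : T 0 * T 0 = 1
  inv1 : T 1 * T 1 = 1
  inv2 : T 0 * T 2 * (T 0)⁻¹ = (T 2)⁻¹
  mv : T 0 0 ≠ 0
  sep : ∃ ε, 0 < ε ∧ ∀ g ∈ GG T 0 4, g 0 ≠ 0 → ε ≤ ‖g 0‖
  st4 : ∀ g ∈ GG T 0 4, g 0 = 0 → g ∈ GG T 1 4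
  st3 : ∀ g ∈ GG T 0 3, g 0 = 0 → g ∈ GG T 1 3
  inf : {y | ∃ g ∈ GG T 0 4, g 0 = y}.Infinite
  nomir : ∀ R : OV ℍ, R 1 = 1 → R (T 0 0) = T 0 0 →
    (∀ i, i < 3 → R * lin (T i) * R⁻¹ = (lin (T i))⁻¹) → False

namespace A3
variable {T : ℕ → ℍ ≃ᵢ ℍ} {t : ℕ} (h : A3 T t)
include h

theorem comm : cq (ty t 1) * T 0 0 = T 0 0 * cq (ty t 1) := by
  have e : T 2 * T 0 = T 0 * (T 2)⁻¹ := by
    rw [← h.inv2, ← mul_assoc, ← mul_assoc, h.inv0, one_mul,
      inv_eq_of_mul_eq_one_right h.inv0]
  have := congrArg (fun g : ℍ ≃ᵢ ℍ => g 0) e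
  simp only [IsometryEquiv.mul_apply] at this
  rw [show (T 2)⁻¹ 0 = 0 from mem_stabI.1 (inv_mem (mem_stabI.2 h.f2)), iso_apply (T 2), h.f2,
    add_zero, h.hS.eq] at this
  conv_rhs => rw [← this, mul_assoc, h.hS.l.sm, mul_one]

theorem exists_l : ∃ l, IsLR (lin (T 0)) l l ∧ l * cq (ty t 1) = star (cq (ty t 1)) * l := by
  have e := congrArg lin h.inv2
  rw [map_mul, map_mul, map_inv, map_inv] at e
  have key : ∀ l, IsLR (lin (T 0) * lin (T 2) * (lin (T 0))⁻¹ : OV ℍ) (l * cq (ty t 1) * star l)
      (l * cq (ty t 1) * star l) → Un l → l * cq (ty t 1) = star (cq (ty t 1)) * l := by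
    intro l k ul
    rw [e] at k
    have := ((h.hS.invO.pm k).resolve_right fun e => (tok h.lt).re (by
      have := congrArg (·.re) e.1
      simp only [conj_re ul, re_neg, re_star] at this
      linarith)).1
    rw [← this, mul_assoc, ul.sm, mul_one]
  obtain ⟨l, hl | hl⟩ := O3 h.one
  · exact ⟨l, hl, key l (hl.conj h.hS) hl.l⟩
  · exfalso
    have e1 := anti_trans (tok h.lt).im (key l (hl.conj h.hS) hl.l) h.comm
    have e2 : T 0 (T 0 0) = 0 := by rw [← IsometryEquiv.mul_apply, h.inv0]; rfl
    rw [iso_apply, hl.eq, e1, mul_assoc, hl.l.ms, mul_one, ← two_smul ℝ] at e2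
    exact h.mv ((smul_eq_zero_iff_right two_ne_zero).1 e2)

theorem mem (i : ℕ) (hi : i < 4) : T i ∈ GG T 0 4 := tau_mem_GG (n := 4) h.last (by omega) hi

theorem exists_a : ∃ g ∈ GG T 0 4, g 0 = 0 ∧ IsLR (lin g) (cq (ty t 2)) (cq (ty t 2)) := by
  rcases h.hA with hA | ⟨rfl, hA⟩
  · exact ⟨_, h.mem 1 (by omega), h.f1, hA⟩
  · have m : T 1 * (T 2)⁻¹ ∈ GG T 0 4 := mem_GG (by omega) (by omega) (by omega) (by omega)
    have m' : T 1 * (T 2)⁻¹ ∈ stabI (0 : ℍ) := mul_mem h.f1 (inv_mem h.f2)
    refine ⟨_, mul_mem (h.mem 1 (by omega)) (mul_mem (mul_mem m m) m),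
      mul_mem (mem_stabI.2 h.f1) (mul_mem (mul_mem m' m') m'), ?_⟩
    simp only [map_mul, map_inv]
    rw [bar_cube (hA.mulLR h.hS.invO) (by
      rw [← Quaternion.inner_def, real_inner_comm, (tok (t := 0) (by omega)).ip]; rfl)]
    exact hA.mul_bar

theorem cry : Good {p | ∃ g ∈ GG T 0 4, IsLR (lin g) p p} ∧
    ∀ p ∈ {p | ∃ g ∈ GG T 0 4, IsLR (lin g) p p}, ∃ z : ℤ, 4 * p.re ^ 2 - 2 = z := by
  obtain ⟨ε, hε, sep⟩ := h.sep
  obtain ⟨l, hl, -⟩ := h.exists_l
  obtain ⟨ga, a1, a2, a3⟩ := h.exists_a
  have K := tok h.lt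
  have hU := UU_good (ty t 0)
  have hQ : QSet {p | ∃ g ∈ GG T 0 4, IsLR (lin g) p p} :=
    ⟨fun _ ⟨_, _, h⟩ => h.l, ⟨1, one_mem _, by rw [map_one]; exact IsLR.one⟩,
      fun _ ⟨_, a, h⟩ _ ⟨_, b, h'⟩ => ⟨_, mul_mem a b, by rw [map_mul]; exact h.mulO h'⟩,
      fun _ ⟨_, a, h⟩ => ⟨_, inv_mem a, by rw [map_inv]; exact h.invO⟩,
      fun _ ⟨_, a, h⟩ => ⟨_, a, h.neg⟩⟩
  have ms : cq (ty t 1) ∈ {p | ∃ g ∈ GG T 0 4, IsLR (lin g) p p} := ⟨_, h.mem 2 (by omega), h.hS⟩
  have ma : cq (ty t 2) ∈ {p | ∃ g ∈ GG T 0 4, IsLR (lin g) p p} := ⟨_, a1, a3⟩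
  have hC : ∀ g ∈ GG T 0 4, g 0 = 0 → ∀ p, IsLR (lin g) p p → InC p.re := by
    intro g hg g0 p hp
    let X : Subgroup (OV ℍ) :=
      { carrier := {g | ∃ p ∈ UU (ty t 0), IsC g p}
        one_mem' := ⟨1, hU.one, Or.inl IsLR.one⟩
        mul_mem' := fun ⟨_, a, b⟩ ⟨_, a', b'⟩ => ⟨_, hU.mul _ a _ a', b.mul b'⟩
        inv_mem' := fun ⟨_, a, b⟩ => ⟨_, hU.star _ a, b.inv⟩ }
    have : GG T 1 4 ≤ X.comap lin := GG_le_of_tau fun i h1 h2 => by
      interval_cases i
      · exact ⟨_, K.ha, h.hA.imp id (·.2)⟩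
      · exact ⟨_, K.hs, Or.inl h.hS⟩
      · rw [h.last]; exact one_mem _
    obtain ⟨p', a, b | b⟩ := this (h.st4 g hg g0)
    · rcases b.pm hp with e | e <;> rw [e.1]
      exacts [(hU.inC _ a).1, (hU.inC _ (hU.neg _ a)).1]
    · exact (not_LR_LB hp b).elim
  have hG := K.good hQ ms ma (lemmaR hQ (K.irr' ms ma) (δ := 1 / 64) (by norm_num)
    fun p ⟨g, hg, hp⟩ => discrete3 hε sep
      (K.irr' ⟨_, h.mem 2 (by omega), h.f2, h.hS⟩ ⟨_, a1, a2, a3⟩) hC g hg p hp)
  refine ⟨hG, ?_⟩
  let Y : Subgroup (ℍ ≃ᵢ ℍ) :=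
    { carrier := {g | lin g 1 = 1 ∧ (g 0).re = 0}
      one_mem' := ⟨by rw [map_one lin]; rfl, rfl⟩
      mul_mem' := fun {f g} a b => ⟨by rw [map_mul, OV.mul_apply, b.1, a.1], by
        have := (lin f).inner_map_map 1 (g 0)
        rw [a.1, inner_coord, inner_coord, b.2] at this
        rw [IsometryEquiv.mul_apply, iso_apply, re_add, a.2]
        simpa using this⟩
      inv_mem' := fun {f} a => ⟨by rw [map_inv, OV.inv_fix a.1], by
        have := ((lin f)⁻¹).inner_map_map 1 (0 - f 0)
        rw [OV.inv_fix a.1, inner_coord, inner_coord, re_sub, a.2] at this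
        rw [iso_inv]
        simpa using this⟩ }
  have hY : GG T 0 4 ≤ Y := GG_le_of_tau fun i _ h2 => by
    interval_cases i
    · exact ⟨h.one, h.pure⟩
    · refine ⟨?_, by rw [h.f1]; rfl⟩
      rcases h.hA with hA | ⟨-, hA⟩ <;> simp [hA.eq, hA.l.ms]
    · exact ⟨by simp [h.hS.eq, h.hS.l.ms], by rw [h.f2]; rfl⟩
    · rw [h.last]; exact one_mem _
  have hLR : ∀ y ∈ {y | ∃ g ∈ GG T 0 4, g 0 = y}, ∃ p, ∃ g ∈ GG T 0 4, g 0 = y ∧
      IsLR (lin g) p p := by
    rintro _ ⟨g, hg, rfl⟩
    obtain ⟨p, hp | hp⟩ := O3 (hY hg).1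
    · exact ⟨p, g, hg, rfl, hp⟩
    · rcases h.hA with hA | ⟨-, hA⟩
      · obtain ⟨_, _, e⟩ := GG_le_of_tau (X := LRs.comap lin) (fun i _ h2 => by
          interval_cases i
          exacts [⟨_, _, hl⟩, ⟨_, _, hA⟩, ⟨_, _, h.hS⟩, h.last ▸ one_mem _]) hg
        exact (not_LR_LB e hp).elim
      · exact ⟨_, _, mul_mem hg (h.mem 1 (by omega)), by rw [IsometryEquiv.mul_apply, h.f1],
          by rw [map_mul]; exact hp.mulLB hA⟩
  choose! f hf using hLR
  obtain ⟨y, hy, y', hy', hne, e⟩ := h.inf.exists_ne_map_eq_of_mapsTo (f := f)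
    (fun y hy => let ⟨g, a, _, c⟩ := hf y hy; hG.inC _ ⟨g, a, c⟩) inC4_finite
  obtain ⟨g, b1, rfl, b2⟩ := hf y hy
  obtain ⟨g', b3, rfl, b4⟩ := hf y' hy'
  have e' : lin g = lin g' := b2.uniqueO (e ▸ b4)
  have m := mul_mem b1 (inv_mem b3)
  intro p hp
  refine crystal3 (T := Trans (GG T 0 4)) hQ (K.irr' ms ma) hε (Trans_sep sep) ?_
    ⟨_, m, by rw [map_mul, map_inv, e', mul_inv_cancel], rfl⟩ (fun e => hne ?_) (hY m).2 hp
  · rintro p ⟨g, a, b⟩ y hy
    rw [← b.eq]; exact Trans_conj a hy
  · rw [IsometryEquiv.mul_apply, iso_apply, iso_inv, e', OV.apply_inv_self] at e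
    rwa [zero_sub, neg_add_eq_zero, eq_comm] at e

theorem cases : ∃ c, IsLR (lin (T 0)) (cq c) (cq c) ∧
    ((t = 0 ∨ t = 1) ∧ (c = 517 ∨ c = 5687 ∨ c = 5357) ∨
      t = 2 ∧ (c = 1089 ∨ c = 11979 ∨ c = 4356 ∨ c = 5687)) := by
  obtain ⟨hG, hc⟩ := h.cry
  obtain ⟨l, hl, e⟩ := h.exists_l
  obtain ⟨ga, a1, -, a3⟩ := h.exists_a
  have ms : cq (ty t 1) ∈ {p | ∃ g ∈ GG T 0 4, IsLR (lin g) p p} := ⟨_, h.mem 2 (by omega), h.hS⟩
  have ma : cq (ty t 2) ∈ {p | ∃ g ∈ GG T 0 4, IsLR (lin g) p p} := ⟨_, a1, a3⟩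
  have ml : l ∈ {p | ∃ g ∈ GG T 0 4, IsLR (lin g) p p} := ⟨_, h.mem 0 (by omega), hl⟩
  have D : ∀ {p m}, p ∈ {p | ∃ g ∈ GG T 0 4, IsLR (lin g) p p} → RelQ p m → isD (d0 m) = true :=
    fun hp r => isD_of r (hG.inC _ hp).1 (hc _ hp)
  have d1 := D ms (relQ_cq _)
  have d2 := D (hG.mul _ ms _ (hG.star _ ma)) ((relQ_cq _).mul (relQ_cq _).star)
  have ht : t < 3 := (by decide +kernel : ∀ t, t < 9 → isD (d0 (enc (ty t 1))) = true →
    isD (d0 (mulA (enc (ty t 1)) (starA (enc (ty t 2))))) = true → t < 3) t h.lt d1 d2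
  have fin : ∀ (C R : List ℕ), chkS t C = true → (∀ c ∈ C, isD (d0 (mulA (enc c) (enc 99))) = true →
      isD (d0 (mulA (enc c) (enc 1089))) = true →
      ∃ c' ∈ R, enc c = enc c' ∨ enc c = negA (enc c')) →
      ∃ c ∈ R, IsLR (lin (T 0)) (cq c) (cq c) := by
    intro C R h1 h2
    obtain ⟨c, hc, rfl⟩ := chkS_sound h.lt h1 hl.l (hG.inC _ ml) e
    obtain ⟨mi, mj⟩ := (tok h.lt).ij _ hG.toQSet ms ma
    obtain ⟨c', m, e | e⟩ := h2 c hc (D (hG.mul _ ml _ mi) ((relQ_cq _).mul (relQ_cq _)))
      (D (hG.mul _ ml _ mj) ((relQ_cq _).mul (relQ_cq _)))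
    · rw [(relQ_cq c).eq (by rw [e]; exact relQ_cq c') (inC4_cq _) (inC4_cq _)] at hl
      exact ⟨c', m, hl⟩
    · rw [cq_eq e] at hl
      exact ⟨c', m, by simpa using hl.neg⟩
  have S : ∀ {t e C T}, chk4 t e C T = true → chkS t C = true := fun h => by
    simp only [chk4, Bool.and_eq_true] at h
    exact h.1.1
  interval_cases t
  · obtain ⟨c, m, k⟩ := fin _ [517, 5687, 5357] (S c4_0) (by decide +kernel)
    exact ⟨c, k, Or.inl ⟨Or.inl rfl, by simpa using m⟩⟩
  · obtain ⟨c, m, k⟩ := fin _ [517, 5687, 5357] (S c4_1) (by decide +kernel)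
    exact ⟨c, k, Or.inl ⟨Or.inr rfl, by simpa using m⟩⟩
  · obtain ⟨c, m, k⟩ := fin _ [1089, 11979, 4356, 5687] (S c4_2) (by decide +kernel)
    exact ⟨c, k, Or.inr ⟨rfl, by simpa using m⟩⟩

theorem final (hw : T 0 0 = cq (if t = 2 then 99 else 13167)) :
    ∃ (k : ℕ) (φ : OV ℍ), k < 3 ∧ φ 1 = 1 ∧
      ((∀ i, i < 3 → ∀ x : ℍ, x.re = 0 → φ (T i x) = τM (22 + k) i (φ x)) ∨
        ∀ i, i < 3 → ∀ x : ℍ, x.re = 0 → φ ((T i)⁻¹ x) = τM (22 + k) i (φ x)) := by
  obtain ⟨c, hl, hc⟩ := h.cases
  have K := tok h.lt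
  have hR := (lrO_isLR K.un K.un).mul_bar
  generalize lrO K.un K.un * barO = R at hR
  have R1 : R 1 = 1 := by rw [hR.eq, star_one, mul_one, K.un.ms]
  have Rw : R (T 0 0) = T 0 0 := by
    rw [hR.eq, anti_trans K.im (by rw [← K.n1, mul_assoc, K.un.sm, mul_one]) h.comm, mul_assoc,
      K.un.ms, mul_one]
  have i0 : (T 0)⁻¹ = T 0 := inv_eq_of_mul_eq_one_right h.inv0
  have i1 : (T 1)⁻¹ = T 1 := inv_eq_of_mul_eq_one_right h.inv1
  have n3 : cq (ty t 3) * star (cq (ty t 1)) * star (cq (ty t 3)) = cq (ty t 1) := by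
    simpa [mul_assoc] using congrArg star K.n1
  have cj : ∀ c', cq c ∈ UU (ty t 0) → (cjA (enc (ty t 3)) (enc c) = enc c' ∨
      cjA (enc (ty t 3)) (enc c) = negA (enc c')) →
      IsLR (R * lin (T 0) * R⁻¹ : OV ℍ) (cq c') (cq c') := by
    intro c' m e
    have k := hR.conj hl
    have r := (relQ_cq (ty t 3)).cj (relQ_cq c)
    have u := (UU_good _).inC _ ((UU_good _).cj K.hn m)
    rcases e with e | e
    · rwa [r.eq (by rw [e]; exact relQ_cq c') u (inC4_cq _)] at k
    · rw [r.eq (by rw [e]; exact (relQ_cq c').neg) u (inC4_cq _).neg] at k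
      simpa using k.neg
  have mir : ¬ IsLR (R * lin (T 0) * R⁻¹ : OV ℍ) (cq c) (cq c) := fun k =>
    h.nomir R R1 Rw fun i hi => by
      interval_cases i
      · rw [← map_inv, i0]; exact k.uniqueO hl
      · rw [← map_inv, i1]
        rcases h.hA with hA | ⟨-, hA⟩
        · exact (K.n2 ▸ hR.conj hA).uniqueO hA.neg
        · exact (K.n2 ▸ hR.conjB hA).uniqueO hA.neg
      · exact (K.n1 ▸ hR.conj h.hS).uniqueO h.hS.invO
  have lr : ∀ (φ : OV ℍ) (g : ℍ ≃ᵢ ℍ) (J i : ℕ), J < 27 → i < 5 →
      IsLR (φ * lin g * φ⁻¹ : OV ℍ) (cq (pc J i)) (cq (qc J i)) → φ (g 0) = cq (tc J i) →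
      ∀ x, φ (g x) = τM J i (φ x) := fun φ g J i hJ hi k e x => by
    rw [τM_apply hJ hi, ← k.eq, iso_apply g, map_add, e, OV.mul_apply, OV.mul_apply,
      OV.inv_apply_self]
  have lb : ∀ (φ : OV ℍ), φ 1 = 1 → IsLB (φ * lin (T 1) * φ⁻¹ : OV ℍ) (cq 99) (cq 99) →
      ∀ x : ℍ, x.re = 0 → φ (T 1 x) = τM 23 1 (φ x) := fun φ e k x hx => by
    have r : (φ x).re = 0 := by
      have := φ.inner_map_map 1 x
      rw [e, inner_coord, inner_coord, hx] at this
      simpa using this
    have := k.eq (φ x)
    rw [OV.mul_apply, OV.mul_apply, OV.inv_apply_self] at this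
    rw [τM_apply (by omega) (by omega), iso_apply (T 1), h.f1, add_zero, this, star_eq_neg.2 r,
      show qc 23 1 = 110 from rfl, cq_eq (c := 110) (c' := 99) (by decide +kernel)]
    simp [show tc 23 1 = 0 from rfl, show pc 23 1 = 99 from rfl, cq_zero]
  have f2 : (T 2)⁻¹ 0 = 0 := mem_stabI.1 (inv_mem (mem_stabI.2 h.f2))
  have o1 : ∀ g : OV ℍ, 1 * g * 1⁻¹ = g := fun g => by simp
  have RA : IsLR (lin (T 1)) (cq (ty t 2)) (cq (ty t 2)) →
      IsLR (R * lin (T 1) * R⁻¹ : OV ℍ) (cq (ty t 2)) (cq (ty t 2)) := fun hA => by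
    simpa only [K.n2, neg_neg] using (hR.conj hA).neg
  have RB : IsLB (lin (T 1)) (cq (ty t 2)) (cq (ty t 2)) →
      IsLB (R * lin (T 1) * R⁻¹ : OV ℍ) (cq (ty t 2)) (cq (ty t 2)) := fun hA => by
    simpa only [K.n2, neg_neg] using (hR.conjB hA).neg
  have t2 : ∀ k, cq (tc (22 + k) 2) = 0 := fun k => by rw [tc, if_neg (by omega)]; rfl
  have direct : ∀ k, k < 3 → IsLR (lin (T 0)) (cq (pc (22 + k) 0)) (cq (qc (22 + k) 0)) →
      T 0 0 = cq (tc (22 + k) 0) → (∀ x : ℍ, x.re = 0 → T 1 x = τM (22 + k) 1 x) →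
      IsLR (lin (T 2)) (cq (pc (22 + k) 2)) (cq (qc (22 + k) 2)) →
      ∀ i, i < 3 → ∀ x : ℍ, x.re = 0 → (1 : OV ℍ) (T i x) = τM (22 + k) i ((1 : OV ℍ) x) := by
    intro k hk a0 a1 a2 a3 i hi x hx
    interval_cases i
    · exact lr 1 _ _ _ (by omega) (by omega) (by simpa using a0) a1 x
    · exact a2 x hx
    · exact lr 1 _ _ _ (by omega) (by omega) (by simpa using a3) (h.f2.trans (t2 k).symm) x
  have refl : ∀ k, k < 3 →
      IsLR (R * lin (T 0) * R⁻¹ : OV ℍ) (cq (pc (22 + k) 0)) (cq (qc (22 + k) 0)) →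
      T 0 0 = cq (tc (22 + k) 0) → (∀ x : ℍ, x.re = 0 → R (T 1 x) = τM (22 + k) 1 (R x)) →
      cq (ty t 1) = cq (pc (22 + k) 2) → cq (ty t 1) = cq (qc (22 + k) 2) →
      ∀ i, i < 3 → ∀ x : ℍ, x.re = 0 → R ((T i)⁻¹ x) = τM (22 + k) i (R x) := by
    intro k hk a0 a1 a2 a3 a4 i hi x hx
    interval_cases i
    · rw [i0]; exact lr R _ _ _ (by omega) (by omega) a0 (Rw.trans a1) x
    · rw [i1]; exact a2 x hx
    · refine lr R _ _ _ (by omega) (by omega) ?_ (by rw [f2, map_zero, t2]) x
      rw [← a3, ← a4, map_inv]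
      simpa only [n3] using hR.conj h.hS.invO
  have aq := actQ_all
  simp only [List.forall_mem_cons] at aq
  have bad : ∀ m, t = 1 → ActQ c c 13167 m → Act (T 0 * (T 1)⁻¹)
      (afz m ∘ afz 51958713465709227147265) ∧ Act (T 1 * (T 2)⁻¹)
      (afz 51958713465709227147265 ∘ afz 18451247673605357569) := by
    rintro m rfl q
    have a1 := act_of (t := 0) (h.hA.resolve_right (by simp)) h.f1 aq.2.2.2.2.2.2.1
    have a2 : IsLR (lin (T 2)⁻¹) (cq 2927) (cq 2927) := by
      rw [map_inv, show cq 2927 = star (cq 1464) by ext <;> simp [cq, cv]]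
      exact h.hS.invO
    exact ⟨i1.symm ▸ (act_of hl hw q).mul a1, a1.mul (act_of (t := 0) a2 f2 aq.2.2.2.2.2.2.2.2.2.2.2.1)⟩
  rcases hc with ⟨rfl | rfl, rfl | rfl | rfl⟩ | ⟨rfl, rfl | rfl | rfl | rfl⟩
  · rcases h.hA with hA | ⟨-, hA⟩
    · exact ⟨0, 1, by omega, rfl, Or.inl (direct 0 (by omega) hl hw
        (fun x _ => lr 1 _ 22 1 (by omega) (by omega) ((o1 _).symm ▸ hA) h.f1 x) h.hS)⟩
    · exact ⟨1, 1, by omega, rfl, Or.inl (direct 1 (by omega) hl hw
        (lb 1 rfl ((o1 _).symm ▸ hA)) h.hS)⟩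
  · exact (mir (cj _ (mem_UU (by decide +kernel)) (by decide +kernel))).elim
  · have k := cj 517 (mem_UU (by decide +kernel)) (by decide +kernel)
    rcases h.hA with hA | ⟨-, hA⟩
    · exact ⟨0, R, by omega, R1, Or.inr (refl 0 (by omega) k hw (fun x _ => lr R _ 22 1 (by omega)
        (by omega) (RA hA) (by rw [h.f1, map_zero]; rfl) x)
        rfl rfl)⟩
    · exact ⟨1, R, by omega, R1, Or.inr (refl 1 (by omega) k hw
        (lb R R1 (RB hA)) rfl rfl)⟩
  · exact (mir (cj _ (mem_UU (by decide +kernel)) (by decide +kernel))).elim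
  · obtain ⟨a1, a2⟩ := bad _ rfl aq.2.2.2.2.2.2.2.2.2.2.2.2.2.1
    exact (excl h.st3 a1 a2 [true, false, false, true, true, true] (0, 1, 0, 0)
      (by decide +kernel) (by decide +kernel)).elim
  · obtain ⟨a1, a2⟩ := bad _ rfl aq.2.2.2.2.2.2.2.2.2.2.2.2.2.2.1
    exact (excl h.st3 a1 a2 [true, true, true, false, false, true] (0, 1, 0, 0)
      (by decide +kernel) (by decide +kernel)).elim
  · exact (mir (cj _ (mem_UU (by decide +kernel)) (by decide +kernel))).elim
  · exact (mir (cj _ (mem_UU (by decide +kernel)) (by decide +kernel))).elim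
  · exact ⟨2, 1, by omega, rfl, Or.inl (direct 2 (by omega) hl hw (fun x _ => lr 1 _ 24 1
      (by omega) (by omega) ((o1 _).symm ▸ h.hA.resolve_right (by simp)) h.f1 x) h.hS)⟩
  · exact ⟨2, R, by omega, R1, Or.inr (refl 2 (by omega)
      (cj 4356 (mem_UU (by decide +kernel)) (by decide +kernel)) hw (fun x _ => lr R _ 24 1
      (by omega) (by omega) (RA (h.hA.resolve_right (by simp)))
      (by rw [h.f1, map_zero]; rfl) x) rfl rfl)⟩

end A3

end Pool.Agent.MP_d6da41_co

end MrgPart4

-- ======== part 5: formerly Pool.Agent.MP_d6da41_co.ChkE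
section MrgPart5

/-! Checkers for the existence of the models. -/

namespace Pool.Agent.MP_d6da41_co

open Quaternion

theorem nM_le (J : ℕ) : 4 ≤ nM J ∧ nM J ≤ 5 := by unfold nM; split_ifs <;> omega

/-- evaluate a list first -/
noncomputable def forceL {α : Type} (L : List ℕ) (k : List ℕ → α) : α :=
  (List.rec (fun k => k []) (fun a _ ih k => force a fun a => ih fun t => k (a :: t)) L :
    (List ℕ → α) → α) k

theorem forceL_eq {α : Type} (L : List ℕ) (k : List ℕ → α) : forceL L k = k L := by
  induction L generalizing k with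
  | nil => rfl
  | cons a L ih =>
    show force a (fun a => forceL L fun t => k (a :: t)) = _
    rw [force_eq, ih]

/-- tabulate -/
def tb (f : ℕ → ℕ) : List ℕ := [f 0, f 1, f 2, f 3, f 4]

theorem tb_getD (f : ℕ → ℕ) {i : ℕ} (hi : i < 5) : (tb f).getD i 0 = f i := by
  interval_cases i <;> rfl

/-- the points -/
noncomputable def vM (J : ℕ) : ℕ → ℍ
  | 0 => cq (vc J)
  | k + 1 => τM J k (vM J k)

/-- action on points -/
noncomputable def ptF (J i m : ℕ) : ℕ :=
  force (mulA (enc (pc J i)) m) fun x => force (mulA x (starA (enc (qc J i)))) fun y =>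
    addA y (enc (tc J i))

/-- inverse action on points -/
noncomputable def ptG (J i m : ℕ) : ℕ :=
  force (addA m (negA (enc (tc J i)))) fun x => force (mulA (starA (enc (pc J i))) x) fun y =>
    mulA y (enc (qc J i))

theorem relQ_ptF {J i m : ℕ} (hJ : J < 27) (hi : i < 5) {x : ℍ} (h : RelQ x m) :
    RelQ (τM J i x) (ptF J i m) := by
  rw [τM_apply hJ hi, ptF, force_eq, force_eq]
  exact (((relQ_cq _).mul h).mul (relQ_cq _).star).add (relQ_cq _)

theorem relQ_ptG {J i m : ℕ} (hJ : J < 27) (hi : i < 5) {x : ℍ} (h : RelQ x m) :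
    RelQ ((τM J i)⁻¹ x) (ptG J i m) := by
  rw [iso_inv, (τM_lin hJ hi).invO.eq, τM_zero hJ hi, star_star, sub_eq_add_neg, ptG, force_eq,
    force_eq]
  exact ((relQ_cq _).star.mul (h.add (relQ_cq _).neg)).mul (relQ_cq _)

/-- codes of the points -/
noncomputable def vcode (J k : ℕ) : ℕ := Nat.rec (enc (vc J)) (fun k ih => force ih (ptF J k)) k

theorem relQ_vM {J : ℕ} (hJ : J < 27) : ∀ k, k ≤ 5 → RelQ (vM J k) (vcode J k)
  | 0, _ => relQ_cq _
  | k + 1, hk => by
    show RelQ _ (force (vcode J k) (ptF J k))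
    rw [force_eq]
    exact relQ_ptF hJ (by omega) (relQ_vM hJ k (by omega))

/-- matrices -/
def am (J i : ℕ) : ℕ :=
  ([[127516649437305492209665, 51958716556436161167361, 295147922775833837569],
    [127516649437305492209665, 4723519686948924948491, 295147922775833837569],
    [295152408847895756801, 51958713465709227147265, 295197456869898584065],
    [831433598950731005689867, 4722366500462099741627, 51958716556436161167361,
      295147922775833837569],
    [831433598950731005689867, 51946031505083096633617, 51958716556436161167361,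
      295147922775833837569]].getD (J - 22) []).getD i 4722366764344638701569

/-- matrices of the inverses -/
def am' (J i : ℕ) : ℕ :=
  if am J i = 295147922775833837569 then 18451247673605357569 else
  if am J i = 295197456869898584065 then 3259313597123200548865 else am J i

/-- the verified matrices -/
def aql : List (ℕ × ℕ × ℕ × ℕ) := [(517, 517, 13167, 127516649437305492209665),
    (99, 99, 0, 51958716556436161167361), (1464, 1464, 0, 295147922775833837569),
    (9, 9, 0, 4722366764344638701569), (99, 110, 0, 4723519686948924948491),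
    (4356, 4356, 99, 295152408847895756801), (396, 396, 0, 51958713465709227147265),
    (36, 36, 0, 295197456869898584065), (5687, 4477, 9, 831433598950731005689867),
    (5357, 5687, 0, 4722366500462099741627), (5357, 4477, 0, 51946031505083096633617),
    (2927, 2927, 0, 18451247673605357569), (47, 47, 0, 3259313597123200548865),
    (5687, 5687, 13167, 78817294428791362289665), (5357, 5357, 13167, 75773535213305189105665)]

theorem aql_act {p q t m : ℕ} (h : (p, q, t, m) ∈ aql) : ActQ p q t m := by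
  unfold aql at h
  have := actQ_all _ h
  exact this

/-- the condition on the matrices -/
def AmC (p q t m m' : ℕ) : Prop :=
  (p, q, t, m) ∈ aql ∧ ((p % 11 = 0 ∧ q % 11 = 0 ∧ afz m (afz m 0) = 0 ∧ m' = m) ∨
    (t = 0 ∧ ∃ e ∈ aql, e.2.2.1 = 0 ∧ e.2.2.2 = m' ∧ enc e.1 = starA (enc p) ∧
      enc e.2.1 = starA (enc q)))

instance (p q t m m' : ℕ) : Decidable (AmC p q t m m') := by
  unfold AmC
  refine @instDecidableAnd _ _ inferInstance inferInstance

theorem am_chk : ∀ J, J < 27 → 22 ≤ J → ∀ i, i < 5 →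
    AmC (pc J i) (qc J i) (tc J i) (am J i) (am' J i) := by decide +kernel

theorem AmC.act {γ : ℍ ≃ᵢ ℍ} {p q t m m' : ℕ} (l : IsLR (lin γ) (cq p) (cq q)) (e : γ 0 = cq t)
    (h : AmC p q t m m') : Act γ (afz m) ∧ Act γ⁻¹ (afz m') := by
  obtain ⟨a, b⟩ := h
  have a1 : Act γ (afz m) := act_of l e (aql_act a)
  refine ⟨a1, ?_⟩
  rcases b with ⟨b1, b2, b3, b4⟩ | ⟨b1, ⟨p', q', t', m''⟩, b2, rfl, rfl, b3, b4⟩
  · rw [b4, inv_of_pure l (by rw [← hz_zero, a1, a1, b3]) (cq_star b1) (cq_star b2)]
    exact a1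
  · refine act_of ?_ ?_ (aql_act b2)
    · rw [map_inv, (relQ_cq p').eq (by
          rw [show enc p' = _ from b3]; exact (relQ_cq _).star) (inC4_cq _) (inC4_cq _).star,
        (relQ_cq q').eq (by
          rw [show enc q' = _ from b4]; exact (relQ_cq _).star) (inC4_cq _) (inC4_cq _).star]
      exact l.invO
    · exact mem_stabI.1 (inv_mem (mem_stabI.2 (by rw [e, b1]; rfl)))

theorem τM_act {J i : ℕ} (hJ : J < 27) (h : 22 ≤ J) (hi : i < 5) :
    Act (τM J i) (afz (am J i)) ∧ Act (τM J i)⁻¹ (afz (am' J i)) :=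
  (am_chk J hJ h i hi).act (τM_lin hJ hi) (τM_zero hJ hi)

theorem τM_UG {J : ℕ} (hJ : J < 27) {a b : ℕ} (hb : b ≤ 5) {g : ℍ ≃ᵢ ℍ} (hg : g ∈ GG (τM J) a b)
    {p q : ℍ} (h : IsLR (lin g) p q) : InC4 p ∧ InC4 q := by
  have := UG_mem (h := UU_good (uL J)) (h' := UU_good (uR J)) (GG_le_of_tau (X := (UG (UU_good (uL J)) (UU_good (uR J))).comap lin)
    (fun i _ h2 => ⟨_, (mt_mem hJ (by omega)).1, _, (mt_mem hJ (by omega)).2,
      τM_lin hJ (by omega)⟩) hg) h
  exact ⟨(UU_good _).inC _ this.1, (UU_good _).inC _ this.2⟩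

/-- check of the relations -/
noncomputable def chkR (J : ℕ) : Bool :=
  allL (List.range 5) fun i => allL (List.range 5) fun k =>
    (!(Nat.ble (i + 2) k && Nat.blt k (nM J)) ||
      (force (mulA (enc (pc J i)) (starA (enc (pc J k)))) fun p =>
        force (mulA (enc (qc J i)) (starA (enc (qc J k)))) fun q =>
        (Nat.beq (mulA p p) 1 && Nat.beq (mulA q q) 1 ||
          Nat.beq (mulA p p) 32718 && Nat.beq (mulA q q) 32718) &&
        (Nat.blt J 22 ||
          decide (afz (am J i) (afz (am' J k) (afz (am J i) (afz (am' J k) 0))) = 0)))) &&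
    (!(Nat.blt J 22 && Nat.ble 1 i) || Nat.beq (pc J i) (qc J i)) &&
    (!Nat.blt (i + 2) (nM J) || !Nat.beq (vcode J (i + 1)) (vcode J i)) &&
    !Nat.beq (ptF J (nM J - 2) (vcode J (nM J - 2 + 1))) (vcode J (nM J - 2))

theorem chkR_all : allL (List.range 27) chkR = true := by decide +kernel

theorem τM_gd0 {J : ℕ} (hJ : J < 27) : GD0 (nM J) (τM J) (vM J) ∧
    (∀ k, k + 2 < nM J → τM J k (vM J k) ≠ vM J k) ∧
    τM J (nM J - 2) (τM J (nM J - 2) (vM J (nM J - 2))) ≠ vM J (nM J - 2) := by
  have hn := nM_le J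
  have h : ∀ i, i < 5 → ∀ k, k < 5 → _ := fun i hi k hk => allL_iff.1 (allL_iff.1
    (allL_iff.1 chkR_all J (List.mem_range.2 hJ)) i (List.mem_range.2 hi)) k (List.mem_range.2 hk)
  simp only [force_eq, Bool.and_eq_true, Bool.or_eq_true, Bool.not_eq_true', Nat.beq_eq,
    Nat.blt_eq, Nat.ble_eq, decide_eq_true_eq, ← Bool.not_eq_true] at h
  refine ⟨⟨by omega, τM_last hJ, fun i h1 h2 => ?_, fun _ _ => rfl, fun i k h1 h2 => ?_⟩,
    fun k hk e => ?_, fun e => ?_⟩
  · show τM J i (cq (vc J)) = cq (vc J)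
    by_cases e : J < 22
    · have := (h i (by omega) 0 (by omega)).1.1.2.resolve_left (fun h => h ⟨e, h1⟩)
      rw [τM_apply hJ (by omega), vc, if_pos e, tc, if_neg (by omega), cq_one, cq_zero, mul_one,
        ← this, (τM_lin hJ (by omega)).l.ms, add_zero]
    · rw [vc, if_neg e]; exact τM_fix hJ (by omega) (Or.inl h1)
  · obtain ⟨a, b⟩ := (h i (by omega) k (by omega)).1.1.1.resolve_left (fun h => h ⟨h1, h2⟩)
    have m := mem_GG (τ := τM J) (a := 0) (b := 5) (i := i) (k := k) (by omega) (by omega)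
      (by omega) (by omega)
    have l : IsLR (lin (τM J i * (τM J k)⁻¹)) (cq (pc J i) * star (cq (pc J k)))
        (cq (qc J i) * star (cq (qc J k))) := by
      rw [map_mul, map_inv]
      exact (τM_lin hJ (by omega)).mulO (τM_lin hJ (by omega)).invO
    have l2 := l.mulO l
    rw [← map_mul] at l2
    obtain ⟨c1, c2⟩ := τM_UG hJ le_rfl (mul_mem m m) l2
    have r1 := (relQ_cq (pc J i)).mul (relQ_cq (pc J k)).star
    have r2 := (relQ_cq (qc J i)).mul (relQ_cq (qc J k)).star
    refine eq_of_lin (o := 0) ?_ ?_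
    · rw [map_one]
      rcases a with a | a
      · rw [(r1.mul r1).eq (by rw [a.1]; exact relQ_one) c1 (inC4_cq 9),
          (r2.mul r2).eq (by rw [a.2]; exact relQ_one) c2 (inC4_cq 9)] at l2
        exact l2.uniqueO IsLR.one
      · have u : InC4 (-1 : ℍ) := InC4.neg (inC4_cq 9)
        rw [(r1.mul r1).eq (by rw [a.1]; exact relQ_one.neg) c1 u,
          (r2.mul r2).eq (by rw [a.2]; exact relQ_one.neg) c2 u] at l2
        exact l2.uniqueO IsLR.one.neg
    · simp only [IsometryEquiv.mul_apply]
      by_cases e : J < 22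
      · have f1 := τM_fix (i := i) hJ (by omega) (Or.inr e)
        have f2 : (τM J k)⁻¹ 0 = 0 :=
          mem_stabI.1 (inv_mem (mem_stabI.2 (τM_fix (i := k) hJ (by omega) (Or.inr e))))
        rw [f2, f1, f2, f1]; rfl
      · have f1 := (τM_act (i := i) hJ (by omega) (by omega)).1
        have f2 := (τM_act (i := k) hJ (by omega) (by omega)).2
        rw [← hz_zero, f2, f1, f2, f1, b.resolve_left e]; rfl
  · exact (h k (by omega) 0 (by omega)).1.2.resolve_left (fun h => h hk)
      ((relQ_vM hJ (k + 1) (by omega)).unique (by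
        rw [show vM J (k + 1) = vM J k from e]; exact relQ_vM hJ k (by omega)))
  · exact (h 0 (by omega) 0 (by omega)).2
      ((relQ_ptF hJ (by omega) (relQ_vM hJ (nM J - 2 + 1) (by omega))).unique (by
        rw [show τM J (nM J - 2) (vM J (nM J - 2 + 1)) = _ from e]
        exact relQ_vM hJ _ (by omega)))

/-! ### Stabilizers -/

/-- the stabilizer condition -/
def St (J k r : ℕ) : Prop :=
  ∀ g ∈ GG (τM J) k (k + (r + 1) + 1), g (vM J k) = vM J k → g ∈ GG (τM J) (k + 1) (k + 1 + r + 1)

/-- pair table -/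
noncomputable def chkA (J k r : ℕ) (f f' : ℕ → ℕ → ℕ) (test : ℕ → Bool) (T : Tr) : Bool :=
  forceL (tb fun i => enc (pc J i)) fun P => forceL (tb fun i => enc (qc J i)) fun Q =>
  forceL (tb fun i => starA (enc (pc J i))) fun P' =>
  forceL (tb fun i => starA (enc (qc J i))) fun Q' =>
  chkQ T (gensGG (fun i => mulP (P.getD i 0) (Q.getD i 0) (f i))
      (fun i => mulP (P'.getD i 0) (Q'.getD i 0) (f' i)) k (r + 1))
    (gensGG (fun i => mulP (P.getD i 0) (Q.getD i 0) (f i))
      (fun i => mulP (P'.getD i 0) (Q'.getD i 0) (f' i)) (k + 1) r) one3 test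

theorem compat_pair {J : ℕ} (hJ : J < 27) {Lab : (ℍ ≃ᵢ ℍ) → ℕ → Prop} {f f' : ℕ → ℕ → ℕ}
    (hf : ∀ i, i < 5 → ∀ g z, Lab g z → Lab (τM J i * g) (f i z) ∧ Lab ((τM J i)⁻¹ * g) (f' i z))
    {i : ℕ} (hi : i < 5) :
    Compat (RepQ lin Lab) (τM J i) (mulP ((tb fun i => enc (pc J i)).getD i 0)
      ((tb fun i => enc (qc J i)).getD i 0) (f i)) ∧
    Compat (RepQ lin Lab) (τM J i)⁻¹ (mulP ((tb fun i => starA (enc (pc J i))).getD i 0)
      ((tb fun i => starA (enc (qc J i))).getD i 0) (f' i)) := by
  simp only [tb_getD _ hi]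
  exact ⟨compat_mulP (τM_lin hJ hi) (relQ_cq _) (relQ_cq _) fun g z h => (hf i hi g z h).1,
    compat_mulP (by rw [map_inv]; exact (τM_lin hJ hi).invO) (relQ_cq _).star (relQ_cq _).star
      fun g z h => (hf i hi g z h).2⟩

theorem chkA_sound {J k r : ℕ} (hJ : J < 27) (hk : k + r + 2 ≤ nM J) {f f' : ℕ → ℕ → ℕ}
    {test : ℕ → Bool} {T : Tr} (h : chkA J k r f f' test T = true) {Lab : (ℍ ≃ᵢ ℍ) → ℕ → Prop}
    (h1 : Lab 1 0)
    (hf : ∀ i, i < 5 → ∀ g z, Lab g z → Lab (τM J i * g) (f i z) ∧ Lab ((τM J i)⁻¹ * g) (f' i z))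
    (ht : ∀ g ∈ GG (τM J) k (nM J), ∀ x, RepQ lin Lab g x → g (vM J k) = vM J k → test x = true) :
    St J k r := by
  have hn := nM_le J
  simp only [chkA, forceL_eq] at h
  intro g hg e
  refine chkQ_sound (P := fun g => g ∈ GG (τM J) k (k + (r + 1) + 1) ∧ g (vM J k) = vM J k) h
    (cover_GG (repQ_one h1) fun i _ _ => compat_pair hJ hf (by omega))
    (gens_GG fun i _ _ => compat_pair hJ hf (by omega)) (repQ_one h1)
    (fun g x a b => ht g (GG_mono le_rfl (by omega) b.1) x a b.2) ?_ g hg ⟨hg, e⟩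
  rintro g g' hg' x ⟨p, q, a1, a2, a3, -⟩ ⟨p', q', b1, b2, b3, -⟩ ⟨c1, c2⟩
  obtain ⟨d1, d2⟩ := τM_UG hJ (by omega) c1 a1
  obtain ⟨d3, d4⟩ := τM_UG hJ (by omega) hg' b1
  obtain rfl := a2.eq b2 d1 d3
  obtain rfl := a3.eq b3 d2 d4
  exact eq_of_lin (a1.uniqueO b1)
    (c2.trans ((τM_gd0 hJ).1.fixG (by omega) (GG_mono le_rfl (by omega) hg')).symm)

theorem fix0 {J k : ℕ} (hJ : J < 27) (h : 1 ≤ k ∨ J < 22) {g : ℍ ≃ᵢ ℍ}
    (hg : g ∈ GG (τM J) k (nM J)) : g 0 = 0 :=
  GG_le_of_tau (X := stabI 0)
    (fun _ _ _ => τM_fix hJ (by have := nM_le J; omega) (by omega)) hg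

/-- one factor -/
def RepS (sw : Bool) (g : ℍ ≃ᵢ ℍ) (x : ℕ) : Prop :=
  ∃ p q, IsLR (lin g) p q ∧ RelQ (cond sw p q) x

/-- product up to sign -/
noncomputable def mulN (m x : ℕ) : ℕ :=
  force (mulA m x) fun p => force (negA p) fun p' => cond (Nat.blt p p') p p'

theorem compat_mulN {sw : Bool} {γ : ℍ ≃ᵢ ℍ} {a b : ℍ} {m : ℕ} (h : IsLR (lin γ) a b)
    (ha : RelQ (cond sw a b) m) : Compat (RepS sw) γ (mulN m) := by
  rintro g x ⟨p, q, h1, h2⟩
  have e : IsLR (lin (γ * g)) (a * p) (b * q) := by rw [map_mul]; exact h.mulO h1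
  simp only [mulN, force_eq]
  cases Nat.blt _ _
  · exact ⟨_, _, e.neg, by cases sw <;> exact (ha.mul h2).neg⟩
  · exact ⟨_, _, e, by cases sw <;> exact ha.mul h2⟩

theorem repS_one (sw : Bool) : RepS sw 1 1 :=
  ⟨1, 1, by rw [map_one]; exact IsLR.one, by cases sw <;> exact relQ_one⟩

/-- product tables -/
noncomputable def chkPP (J r : ℕ) (T T' : Tr) : Bool :=
  forceL (tb fun i => enc (pc J i)) fun P => forceL (tb fun i => enc (qc J i)) fun Q =>
  forceL (tb fun i => starA (enc (pc J i))) fun P' =>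
  forceL (tb fun i => starA (enc (qc J i))) fun Q' =>
  chkQ T (gensGG (fun i => mulN (P.getD i 0)) (fun i => mulN (P'.getD i 0)) 0 (r + 1))
    (gensGG (fun i => mulN (P.getD i 0)) (fun i => mulN (P'.getD i 0)) (0 + 1) r) 1
    (fun x => T'.mem x || force (negA x) T'.mem) &&
  chkQ T' (gensGG (fun i => mulN (Q.getD i 0)) (fun i => mulN (Q'.getD i 0)) 0 (r + 1)) [] 1
    fun _ => false

theorem chkQ_cover {Γ : Type} [Group Γ] {Rep : Γ → ℕ → Prop} {T : Tr} {L L' : List (ℕ → ℕ)}
    {one : ℕ} {test : ℕ → Bool} {Y : Subgroup Γ} (h : chkQ T L L' one test = true)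
    (hY : Cover Rep Y L one) : ∀ g ∈ Y, ∃ x, Rep g x ∧ T.mem x = true := by
  unfold chkQ at h
  rcases e : T.mem one with _ | _
  · simp [e] at h
  rw [e, cond_true] at h
  exact hY (fun x => T.mem x = true) (fun F hF x hx => by
    obtain ⟨v, hv⟩ := Tr.of_mem h hx
    rcases e' : allL L fun F => force (F x) T.mem with _ | _
    · simp [e'] at hv
    · have := allL_iff.1 e' F hF
      rwa [force_eq] at this) e

theorem chkPP_sound {J r : ℕ} (hJ' : J < 22) (hk : r + 2 ≤ nM J) {T T' : Tr}
    (h : chkPP J r T T' = true) : St J 0 r := by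
  have hn := nM_le J
  have hJ : J < 27 := by omega
  simp only [chkPP, forceL_eq, Bool.and_eq_true] at h
  have cL : ∀ i, i < 5 → Compat (RepS true) (τM J i) (mulN ((tb fun i => enc (pc J i)).getD i 0)) ∧
      Compat (RepS true) (τM J i)⁻¹ (mulN ((tb fun i => starA (enc (pc J i))).getD i 0)) :=
    fun i hi => by
      simp only [tb_getD _ hi]
      exact ⟨compat_mulN (τM_lin hJ hi) (relQ_cq _),
        compat_mulN (by rw [map_inv]; exact (τM_lin hJ hi).invO) (relQ_cq _).star⟩
  have cR : ∀ i, i < 5 → Compat (RepS false) (τM J i) (mulN ((tb fun i => enc (qc J i)).getD i 0)) ∧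
      Compat (RepS false) (τM J i)⁻¹ (mulN ((tb fun i => starA (enc (qc J i))).getD i 0)) :=
    fun i hi => by
      simp only [tb_getD _ hi]
      exact ⟨compat_mulN (τM_lin hJ hi) (relQ_cq _),
        compat_mulN (by rw [map_inv]; exact (τM_lin hJ hi).invO) (relQ_cq _).star⟩
  have v1 : vM J 0 = 1 := by rw [vM, vc, if_pos hJ']; rfl
  have key : ∀ g ∈ GG (τM J) 0 (nM J), g (vM J 0) = vM J 0 → ∀ p q, IsLR (lin g) p q → q = p :=
    fun g hg e p q l => l.fix_one (by
      rw [lin_apply, fix0 hJ (Or.inr hJ') hg, sub_zero, ← v1, e])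
  intro g hg e
  refine chkQ_sound (P := fun g => g ∈ GG (τM J) 0 (0 + (r + 1) + 1) ∧ g (vM J 0) = vM J 0) h.1
    (cover_GG (repS_one _) fun i _ _ => cL i (by omega))
    (gens_GG fun i _ _ => cL i (by omega)) (repS_one _) ?_ ?_ g hg ⟨hg, e⟩
  · rintro g x ⟨p, q, a1, a2⟩ ⟨c1, c2⟩
    obtain ⟨y, ⟨p', q', b1, b2⟩, b3⟩ :=
      chkQ_cover h.2 (cover_GG (repS_one _) fun i _ _ => cR i (by omega)) g c1
    obtain rfl := key g (GG_mono le_rfl (by omega) c1) c2 _ _ b1
    rw [force_eq, Bool.or_eq_true]
    rcases a1.pm b1 with e | e <;> rw [e.1] at b2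
    · exact Or.inl (by rwa [RelQ.unique a2 b2])
    · exact Or.inr (by rwa [RelQ.unique (RelQ.neg a2) b2])
  · rintro g g' hg' x ⟨p, q, a1, a2⟩ ⟨p', q', b1, b2⟩ ⟨c1, c2⟩
    have f := (τM_gd0 hJ).1.fixG (k := 0) (by omega) (GG_mono le_rfl (by omega) hg')
    obtain rfl := key g (GG_mono le_rfl (by omega) c1) c2 _ _ a1
    obtain rfl := key g' (GG_mono (by omega) (by omega) hg') f _ _ b1
    obtain rfl := RelQ.eq a2 b2 (τM_UG hJ (by omega) c1 a1).1 (τM_UG hJ (by omega) hg' b1).1
    exact eq_of_lin (a1.uniqueO b1) (c2.trans f.symm)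

theorem lab_τM {J N : ℕ} (hJ : J < 27) (h : 22 ≤ J) (h1 : N ∣ 12) (h2 : N ≤ 4) :
    ∀ i, i < 5 → ∀ g z, Lab N g z → Lab N (τM J i * g) (labF N ((tb (am J)).getD i 0) z) ∧
      Lab N ((τM J i)⁻¹ * g) (labF N ((tb (am' J)).getD i 0) z) := fun i hi g z a => by
  simp only [tb_getD _ hi]
  exact ⟨lab_act h1 h2 (τM_act hJ h hi).1 g z a, lab_act h1 h2 (τM_act hJ h hi).2 g z a⟩

/-- one stabilizer check -/
noncomputable def chk1 (J k r N : ℕ) (T T' : Tr) : Bool :=
  cond (Nat.beq N 0) ((Nat.ble 1 k || Nat.blt J 22) && force (vcode J k) fun m =>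
    chkA J k r (fun _ => id) (fun _ => id)
      (fun x => Nat.beq (mulA (x0 x) m) (mulA m (x1 x))) T)
  (cond (Nat.beq N 5) (Nat.blt J 22 && Nat.beq k 0 && chkPP J r T T')
    (Nat.ble 22 J && Nat.beq k 0 && Nat.beq (12 % N) 0 && Nat.ble N 4 &&
      forceL (tb (am J)) fun A => forceL (tb (am' J)) fun A' =>
      chkA J k r (fun i => labF N (A.getD i 0)) (fun i => labF N (A'.getD i 0))
        (fun x => force (x2 x) (labZ N)) T))

theorem chk1_sound {J k r N : ℕ} {T T' : Tr} (hJ : J < 27) (hk : k + r + 2 ≤ nM J)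
    (h : chk1 J k r N T T' = true) : St J k r := by
  have hn := nM_le J
  unfold chk1 at h
  rcases e0 : Nat.beq N 0 with _ | _
  · rcases e1 : Nat.beq N 5 with _ | _
    · simp only [e0, e1, cond_false, Bool.and_eq_true, Nat.beq_eq, Nat.ble_eq, forceL_eq] at h
      obtain ⟨⟨⟨⟨a1, rfl⟩, a2⟩, a3⟩, h⟩ := h
      refine chkA_sound hJ hk h (lab_one N) (lab_τM hJ a1 (Nat.dvd_of_mod_eq_zero a2) a3) ?_
      rintro g - x ⟨p, q, -, -, -, l⟩ e
      rw [force_eq]
      rw [vM, vc, if_neg (by omega)] at e
      exact labZ_of l e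
    · simp only [e0, e1, cond_false, cond_true, Bool.and_eq_true, Nat.beq_eq, Nat.blt_eq] at h
      obtain ⟨⟨a1, rfl⟩, h⟩ := h
      exact chkPP_sound a1 (by omega) h
  · simp only [e0, cond_true, Bool.and_eq_true, Bool.or_eq_true, Nat.ble_eq, Nat.blt_eq,
      force_eq] at h
    refine chkA_sound (Lab := fun _ _ => True) hJ hk h.2 trivial
      (fun _ _ _ _ _ => ⟨trivial, trivial⟩) ?_
    rintro g hg x ⟨p, q, a1, a2, a3, -⟩ e
    have r := relQ_vM hJ k (by omega)
    rw [iso_apply, fix0 hJ h.1 hg, add_zero, a1.eq] at e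
    rw [Nat.beq_eq]
    refine (a2.mul r).unique ?_
    rw [show p * vM J k = vM J k * q by
      conv_rhs => rw [← e, mul_assoc, a1.r.sm, mul_one]]
    exact r.mul a3

/-- all stabilizer checks -/
noncomputable def chkSt (J : ℕ) (C : List (ℕ × Tr × Tr)) : Bool :=
  allL (List.range 4) fun k => allL (List.range 4) fun r => Nat.blt (nM J) (k + r + 2) ||
    chk1 J k r (C.getD (4 * k + r) (0, o, o)).1 (C.getD (4 * k + r) (0, o, o)).2.1
      (C.getD (4 * k + r) (0, o, o)).2.2

/-- all stabilizer conditions -/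
def ST (J : ℕ) : Prop := J < 27 → ∀ k r, k + r + 2 ≤ nM J → St J k r

theorem chkSt_sound {J : ℕ} {C : List (ℕ × Tr × Tr)} (h : chkSt J C = true) : ST J := by
  intro hJ k r hk
  have hn := nM_le J
  have := allL_iff.1 (allL_iff.1 h k (List.mem_range.2 (by omega))) r (List.mem_range.2 (by omega))
  rw [Bool.or_eq_true, Nat.blt_eq] at this
  exact chk1_sound hJ hk (this.resolve_left (by omega))

theorem ST.gd {J : ℕ} (hJ : J < 27) (h : ST J) : GD (nM J) (τM J) (vM J) := by
  obtain ⟨a, b, c⟩ := τM_gd0 hJ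
  refine ⟨a, fun e => c (by rw [← IsometryEquiv.mul_apply, e]; rfl), b, fun k b h1 h2 => ?_⟩
  obtain ⟨r, rfl⟩ : ∃ r, b = k + r + 2 := ⟨b - k - 2, by omega⟩
  have := h hJ k r h2
  rwa [St, show k + (r + 1) + 1 = k + r + 2 by omega, show k + 1 + r + 1 = k + r + 2 by omega]
    at this

end Pool.Agent.MP_d6da41_co

end MrgPart5

-- ======== part 6: formerly Pool.Agent.MP_d6da41_co.StA
section MrgPart6

/-! Certificates for the stabilizers. -/

namespace Pool.Agent.MP_d6da41_co

/-- table -/
noncomputable def sta_0 : Tr :=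
    (b (b (b o 1 0 o) 1070532961 0 o) 9988072535460 0 (b o 9988072549519 0 o))

/-- table -/
noncomputable def sta_1 : Tr :=
    (b (b o 1 0 o) 326809733054973600 0 o)

/-- table -/
noncomputable def sta_2 : Tr :=
    (b (b (b (b (b (b o 1146040820587427522 0 o) 1146040820587460240 0 (b o 1146040821657960482 0
    o)) 1146075847355378480 0 (b (b o 37496163567979453632079 0 o) 37496163567979453664797 0 o))
    37496163567980524165039 0 (b (b (b o 37496163603006221583037 0 o)
    11447615858507205534353401862341 0 o) 11447615858507205534353401876400 0 (b (b o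
    11447615858507532344086151558341 0 o) 11447615858507532359136774457040 0 o)))
    28695716901008344406644732655179 0 (b (b (b (b o 28695716901008344406644732669238 0 o)
    28695716901008671216377482351179 0 o) 28695716901008671231428105249878 0 (b (b o
    374525848257296046834311077278674940 0 o) 374525848257296046834311077738671361 0 o))
    374525848257296047161100833883337340 0 (b (b (b o 374525848257296047161100833883351399 0 o)
    374537294646280080949516886640981060 0 o) 374537294646280080949516886640995119 0 (b (b o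
    374537294646280081276306643856161340 0 o) 374537294646280081276306644316157761 0 o))))
    656704782453264088429880109684182000 0 (b (b (b (b (b o 656704782453264088429880109684214720
    0 o) 656704782453264088429880110754714962 0 o) 656704782453264088429880110754747680 2 (b (b o
    656704782453264089575920930271609522 0 o) 656704782453264089575920930271642240 0 o))
    656704782453264089575920931342142482 0 (b (b (b o 656704782453264089575920931342175202 1 o)
    656744923332237160489555220309045360 0 o) 656744923332237160489555220309078078 0 (b (b o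
    656744923332237160489555221379578320 0 o) 656744923332237160489555221379611040 0 o)))
    656744923332237161635596040896472880 0 (b (b (b (b o 656744923332237161635596040896505600 0
    o) 656744923332237161635596041967005842 0 o) 656744923332237161635596041967038560 0 (b (b o
    938883715422282662315922975334138982 0 o) 938883715422282662315922975794135403 0 o))
    938883715422282662642712731938801382 0 (b (b (b o 938883715422282662642712731938815441 0 o)
    938912409912309197570001076027237940 0 o) 938912409912309197570001076027251999 0 (b (b o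
    938912409912309197896790833242418220 0 o) 938912409912309197896790833702414641 0 o)))))

/-- table -/
noncomputable def sta_3 : Tr :=
    (b (b (b (b (b (b (b (b o 1146040820587427522 0 o) 1146040820587460240 0 (b o
    1146040821657960482 0 o)) 1146075847355378480 0 (b (b o 37496163567979453632079 0 o)
    37496163567979453664797 0 o)) 37496163567980524165039 0 (b (b (b o 37496163603006221583037 0
    o) 37497309608800041059600 0 o) 37497309608800041092318 25 (b (b o 37497309608801111592560 0
    o) 37497309643826809010558 0 o))) 349860591210970451857365060 0 (b (b (b (b o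
    349860591210970451857379119 0 o) 349860591537760209072545340 0 o) 349860591537760209532541761
    0 (b (b o 349876703398867090500882799 0 o) 349876703398867090500896858 0 o))
    349876703725656847716063079 0 (b (b (b o 349876703725656848176059500 0 o)
    877035267001090229114267401 0 o) 877035267001090229114281460 0 (b (b o
    877035267327879986329447681 0 o) 877035267327879986789444102 0 o))))
    877051379188986867757785140 0 (b (b (b (b (b o 877051379188986867757799199 0 o)
    877051379515776624972965420 0 o) 877051379515776625432961841 0 (b (b o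
    1226836975780719743387960083 0 o) 1226836975780719743387992801 0 o))
    1226836975780719744458493043 0 (b (b (b o 1226836975780754770155911041 0 o)
    1226874473090328543429019682 0 o) 1226874473090328543429052400 0 (b (b o
    1226874473090328544499552642 34 o) 1226874473090363570196970640 0 o)))
    11446738844625326176261830189060 0 (b (b (b (b o 11446738844625326176262290185481 0 o)
    11446738844625652966018434851460 0 o) 11446738844625652966018434865519 0 (b (b o
    11446738860737514072900473706799 0 o) 11446738860737514072900933703220 0 o))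
    11446738860737840862657078369199 0 (b (b (b o 11446738860737840862657078383258 0 o)
    11447088683831415414576144960000 0 o) 11447088683831415414576144974059 0 (b (b o
    11447088683831742224308894656000 0 o) 11447088683831742239359517554699 0 o)))))
    11447615858507205534353401862341 0 (b (b (b (b (b (b o 11447615858507205534353401876400 0 o)
    11447615858507532344086151558341 0 o) 11447615858507532359136774457040 0 (b (b o
    28695367061802255168330417884239 0 o) 28695367061802255168330877880660 0 o))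
    28695367061802581958087022546639 0 (b (b (b o 28695367061802581958087022560698 0 o)
    28695367077914443064969061401978 0 o) 28695367077914443064969521398399 0 (b (b o
    28695367077914769854725666064378 0 o) 28695367077914769854725666078437 0 o)))
    28695716901008344406644732655179 0 (b (b (b (b o 28695716901008344406644732669238 0 o)
    28695716901008671216377482351179 0 o) 28695716901008671231428105249878 0 (b (b o
    28696244075684134526421989557520 0 o) 28696244075684134526421989571579 0 o))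
    28696244075684461336154739253520 0 (b (b (b o 28696244075684461351205362152219 0 o)
    40140879010569369283910665922959 0 o) 40140879010569369283910665955677 0 (b (b o
    40140879010569369283911736455919 0 o) 40140879010569369318937433873917 0 o))))
    40142105885042459612454094942640 0 (b (b (b (b (b o 40142105885042459612454094975358 0 o)
    40142105885042459612455165475600 0 o) 40142105885042459647480862893598 97 (b (b o
    374525847907456840745052786818870400 0 o) 374525847907456840745052786818884459 0 o))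
    374525847907456841071862519568566400 0 (b (b (b o 374525847907456841071877570191465099 0 o)
    374525847907472952932949425462388139 0 o) 374525847907472952932949425462402198 0 (b (b o
    374525847907472953259759158212084139 0 o) 374525847907472953259774208834982838 0 o)))
    374525848257296046834311077278674940 0 (b (b (b (b o 374525848257296046834311077738671361 0
    o) 374525848257296047161100833883337340 0 o) 374525848257296047161100833883351399 0 (b (b o
    374525848784470722624430854535577281 0 o) 374525848784470722624430854995573702 0 o))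
    374525848784470722951220611140239681 0 (b (b (b o 374525848784470722951220611140253740 0 o)
    374537294646280080949516886640981060 0 o) 374537294646280080949516886640995119 0 (b (b o
    374537294646280081276306643856161340 0 o) 374537294646280081276306644316157761 0 o))))))
    374554543274497257878508955228676239 0 (b (b (b (b (b (b (b o
    374554543274497257878508955228690298 0 o) 374554543274497258205298712443856519 0 o)
    374554543274497258205298712903852940 0 (b (b o 656704781226352118029942766214102720 1 o)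
    656704781226352118029942766214135440 0 o)) 656704781226352118029942767284635682 0 (b (b (b o
    656704781226352118029942767284668400 0 o) 656704781226352119175983586801530242 2 o)
    656704781226352119175983586801562960 0 (b (b o 656704781226352119175983587872063202 0 o)
    656704781226352119175983587872095922 0 o))) 656704781226389615339551566255162320 0 (b (b (b
    (b o 656704781226389615339551566255195038 33 o) 656704781226389615339551567325695280 0 o)
    656704781226389615339551567325728000 0 (b (b o 656704781226389616485592386842589840 0 o)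
    656704781226389616485592386842622560 19 o)) 656704781226389616485592387913122802 0 (b (b (b o
    656704781226389616485592387913155520 0 o) 656704782453226591120271309643122402 0 o)
    656704782453226591120271309643155120 0 (b (b o 656704782453226591120271310713655362 12 o)
    656704782453226591120271310713688082 0 o)))) 656704782453226592266312130230549922 0 (b (b (b
    (b (b o 656704782453226592266312130230582642 0 o) 656704782453226592266312131301082884 26 o)
    656704782453226592266312131301115602 0 (b (b o 656704782453264088429880109684182000 0 o)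
    656704782453264088429880109684214720 0 o)) 656704782453264088429880110754714962 0 (b (b (b o
    656704782453264088429880110754747680 4 o) 656704782453264089575920930271609522 0 o)
    656704782453264089575920930271642240 0 (b (b o 656704782453264089575920931342142482 0 o)
    656704782453264089575920931342175202 3 o))) 656744923332237160489555220309045360 0 (b (b (b
    (b o 656744923332237160489555220309078078 0 o) 656744923332237160489555221379578320 0 o)
    656744923332237160489555221379611040 0 (b (b o 656744923332237161635596040896472880 0 o)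
    656744923332237161635596040896505600 0 o)) 656744923332237161635596041967005842 0 (b (b (b o
    656744923332237161635596041967038560 0 o) 656744923332274657799164020350104958 0 o)
    656744923332274657799164020350137678 0 (b (b o 656744923332274657799164021420637920 0 o)
    656744923332274657799164021420670638 0 o))))) 656744923332274658945204840937532480 0 (b (b (b
    (b (b (b o 656744923332274658945204840937565198 0 o) 656744923332274658945204842008065440 0
    o) 656744923332274658945204842008098160 0 (b (b o 656744924559111633579883763738065040 0 o)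
    656744924559111633579883763738097760 0 o)) 656744924559111633579883764808598002 0 (b (b (b o
    656744924559111633579883764808630720 0 o) 656744924559111634725924584325492562 0 o)
    656744924559111634725924584325525280 0 (b (b o 656744924559111634725924585396025522 0 o)
    656744924559111634725924585396058242 0 o))) 656744924559149130889492563779124640 0 (b (b (b
    (b o 656744924559149130889492563779157358 0 o) 656744924559149130889492564849657600 0 o)
    656744924559149130889492564849690320 0 (b (b o 656744924559149132035533384366552160 0 o)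
    656744924559149132035533384366584880 0 o)) 656744924559149132035533385437085122 0 (b (b (b o
    656744924559149132035533385437117840 0 o) 938883714545268780436544907617432101 0 o)
    938883714545268780436544907617446160 0 (b (b o 938883714545268780763354640367128101 0 o)
    938883714545268780763369690990026800 0 o)))) 938883714545284892624441546260949840 0 (b (b (b
    (b (b o 938883714545284892624441546260963899 0 o) 938883714545284892951251279010645840 0 o)
    938883714545284892951266329633544539 0 (b (b o 938883714895107986525803198077236641 0 o)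
    938883714895107986525803198537233062 0 o)) 938883714895107986852592954681899041 0 (b (b (b o
    938883714895107986852592954681913100 0 o) 938883715422282662315922975334138982 0 o)
    938883715422282662315922975794135403 0 (b (b o 938883715422282662642712731938801382 0 o)
    938883715422282662642712731938815441 0 o))) 938895161284092020641009007439542761 0 (b (b (b
    (b o 938895161284092020641009007439556820 0 o) 938895161284092020967798764654723041 0 o)
    938895161284092020967798765114719462 0 (b (b o 938912409912309197570001076027237940 0 o)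
    938912409912309197570001076027251999 0 o)) 938912409912309197896790833242418220 0 (b (b (b o
    938912409912309197896790833702414641 0 o) 1313369420346819193600273078333262803 0 o)
    1313369420346819193600273078333295521 0 (b (b o 1313369420346819193600273079403795763 0 o)
    1313369420346819193600308105101213761 0 o)))))))

/-- table -/
noncomputable def sta_4 : Tr :=
    (b (b o 1146040820587427522 0 o) 656704782453264088429880110754747680 0 (b o
    656704782453264089575920931342175202 0 o))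

/-- table -/
noncomputable def sta_5 : Tr :=
    (b (b (b (b o 1146040820587427522 0 o) 37497309608800041092318 0 (b o
    1226874473090328544499552642 0 o)) 40142105885042459647480862893598 0 (b (b o
    656704781226352118029942766214102720 1 o) 656704781226352119175983586801530242 2 o))
    656704781226389615339551566255195038 0 (b (b (b o 656704781226389616485592386842622560 0 o)
    656704782453226591120271310713655362 0 o) 656704782453226592266312131301082884 0 (b (b o
    656704782453264088429880110754747680 0 o) 656704782453264089575920931342175202 0 o)))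

/-- table -/
noncomputable def sta_6 : Tr :=
    (b (b o 1146040820587427522 0 o) 656704781226352118029942766214102720 0 (b o
    656704781226352119175983586801530242 0 o))

theorem st_0 : ST 0 := chkSt_sound (C :=
    [(5, sta_0, sta_1), (0, sta_2, o), (0, sta_3, o), (0, o, o), (0, sta_4, o), (0, sta_5, o),
    (0, o, o), (0, o, o), (0, sta_6, o)])
  (by decide +kernel)

theorem st_1 : ST 1 := chkSt_sound (C :=
    [(5, sta_0, sta_1), (0, sta_2, o), (0, sta_3, o), (0, o, o), (0, sta_4, o), (0, sta_5, o),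
    (0, o, o), (0, o, o), (0, sta_6, o)])
  (by decide +kernel)

/-- table -/
noncomputable def sta_7 : Tr :=
    (b (b o 1 0 o) 414046564799192719 0 (b o 414046564799192720 0 o))

/-- table -/
noncomputable def sta_8 : Tr :=
    (b (b (b (b o 1 0 o) 12653848126920 0 (b o 12653848126921 0 o)) 158986500413213641 0 (b (b o
    158986500413213642 0 o) 159008873333037680 0 o)) 414033912021598760 0 (b (b (b o
    414046564799192719 0 o) 414046564799192720 0 o) 573020411364279440 2 (b (b o
    573020411364279441 1 o) 573033065212373642 0 o)))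

/-- table -/
noncomputable def sta_9 : Tr :=
    (b (b (b o 1 0 o) 9988837790821 0 (b o 326799745287715740 0 o)) 326809733054973600 0 (b (b o
    573020411364279440 0 o) 573020411364279441 0 o))

/-- table -/
noncomputable def sta_10 : Tr :=
    (b (b (b (b (b (b o 1 0 o) 32719 25 (b o 1070532961 34 o)) 4859684371920 0 (b (b o
    4859684380999 0 o) 4859684404639 0 (b o 4859684413718 0 o))) 12653848126920 0 (b (b (b o
    12653848126921 0 o) 12654621636799 0 (b o 12654621636800 0 o)) 17513235452118 0 (b (b o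
    17513235475759 0 o) 17513532507919 0 (b o 17513532531560 0 o)))) 35026767950959 97 (b (b (b
    (b o 158986500116157840 0 o) 158986500116157841 0 (b o 158986500413213641 0 o))
    158986500413213642 0 (b (b o 158999153964252042 0 o) 158999153964284761 0 (b o
    159004012578123720 0 o))) 159004012578132799 0 (b (b (b o 159004013648656681 0 o)
    159004013648665760 0 (b o 159008873333004961 0 o)) 159008873333037680 0 (b (b o
    414016397715590040 0 o) 414016397715613681 0 o)))) 414016397715622759 0 (b (b (b (b (b o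
    414016397715646400 0 o) 414021256329461718 0 (b o 414021256329461719 0 o)) 414033910177555920
    0 (b (b o 414033910951065799 0 o) 414033911248088881 0 (b o 414033912021598760 0 o)))
    414046564799192719 0 (b (b (b o 414046564799192720 0 o) 573002897058261642 0 (b o
    573002897058270721 0 o)) 573002897831771521 0 (b (b o 573002897831780600 0 o)
    573007756445586840 0 o))) 573007756742642641 0 (b (b (b (b o 573015550609341840 0 o)
    573015550609365481 0 (b o 573020410293713760 1 o)) 573020410293713761 2 (b (b o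
    573020410293746479 33 o) 573020410293746480 19 (b o 573020411364246721 12 o)))
    573020411364246722 26 (b (b (b o 573020411364279440 4 o) 573020411364279441 3 (b o
    573025269978094759 0 o)) 573025269978118400 0 (b (b o 573033064915317841 0 o)
    573033065212373642 0 o)))))

/-- table -/
noncomputable def sta_11 : Tr :=
    (b (b (b (b (b o 1 0 o) 32719 0 (b o 305277600 0 o)) 305291659 0 (b (b o 1070532961 0 o)
    9988072535460 0 o)) 9988072549519 0 (b (b (b o 9988377794400 0 o) 9988837790821 0 o)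
    35026767950959 0 (b (b o 326799744982456800 0 o) 326799744982470859 0 o))) 326799745287715740
    0 (b (b (b (b o 326799745747712161 0 o) 326809733054973600 0 o) 326824783677872299 0 (b (b o
    573020410293713760 0 o) 573020410293713761 0 o)) 573020410293746479 0 (b (b (b o
    573020410293746480 0 o) 573020411364246721 0 o) 573020411364246722 0 (b (b o
    573020411364279440 0 o) 573020411364279441 0 o))))

theorem st_2 : ST 2 := chkSt_sound (C :=
    [(5, sta_7, sta_1), (5, sta_8, sta_9), (5, sta_10, sta_11), (0, o, o), (0, sta_4, o), (0,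
    sta_5, o), (0, o, o), (0, o, o), (0, sta_6, o)])
  (by decide +kernel)

theorem st_3 : ST 3 := chkSt_sound (C :=
    [(5, sta_7, sta_1), (5, sta_8, sta_9), (5, sta_10, sta_11), (0, o, o), (0, sta_4, o), (0,
    sta_5, o), (0, o, o), (0, o, o), (0, sta_6, o)])
  (by decide +kernel)

/-- table -/
noncomputable def sta_12 : Tr :=
    (b (b (b o 1 0 o) 414033910029048918 0 o) 414033910029072559 0 (b (b o 573033064528591081 0
    o) 573033064528600160 0 o))

/-- table -/
noncomputable def sta_13 : Tr :=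
    (b (b (b (b (b (b o 1 0 o) 32719 0 (b o 1070532961 0 o)) 4859535864918 0 (b (b o
    4859535864919 0 o) 4859832920719 0 (b o 4859832920720 0 o))) 12654234853680 0 (b (b (b o
    12654234877321 0 o) 12654234886399 0 (b o 12654234910040 0 o)) 17512997232360 0 (b (b o
    17512997241439 0 o) 17513770742239 0 (b o 17513770751318 0 o)))) 35026767950959 0 (b (b (b (b
    o 158986500264664842 0 o) 158986500264673921 0 (b o 158986500264697561 0 o))
    158986500264706640 0 (b (b o 158999153429018280 0 o) 158999153429018281 0 (b o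
    159004012964850480 0 o))) 159004013261906281 0 (b (b (b o 159004014035383441 0 o)
    159004014332439242 0 (b o 159008872797771199 0 o)) 159008872797771200 0 (b (b o
    414016397328863280 0 o) 414016397328863281 0 o)))) 414016398102373159 0 (b (b (b (b (b o
    414016398102373160 0 o) 414021256864695480 0 (b o 414021256864728199 0 o)) 414033910029048918
    0 (b (b o 414033910029072559 0 o) 414033911099581879 0 (b o 414033911099605520 0 o)))
    414046565334426481 0 (b (b (b o 414046565334459200 0 o) 573002897296481400 0 (b o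
    573002897296505041 0 o)) 573002897593537201 0 (b (b o 573002897593560842 0 o)
    573007756058860080 0 o))) 573007756058869159 0 (b (b (b (b o 573015550757848842 0 o)
    573015551531358721 0 (b o 573020410293713760 0 o)) 573020410293713761 0 (b (b o
    573020410293746479 0 o) 573020410293746480 0 (b o 573020411364246721 0 o)))
    573020411364246722 0 (b (b (b o 573020411364279440 2 o) 573020411364279441 1 (b o
    573025270126601761 0 o)) 573025270900111640 0 (b (b o 573033064528591081 0 o)
    573033064528600160 0 o)))))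

/-- table -/
noncomputable def sta_14 : Tr :=
    (b (b (b (b (b (b o 1 0 o) 32719 25 (b o 1070532961 34 o)) 4859535864918 0 (b (b o
    4859535864919 0 o) 4859832920719 0 (b o 4859832920720 0 o))) 12654234853680 0 (b (b (b o
    12654234877321 0 o) 12654234886399 0 (b o 12654234910040 0 o)) 17512997232360 0 (b (b o
    17512997241439 0 o) 17513770742239 0 (b o 17513770751318 0 o)))) 35026767950959 97 (b (b (b
    (b o 158986500264664842 0 o) 158986500264673921 0 (b o 158986500264697561 0 o))
    158986500264706640 0 (b (b o 158999153429018280 0 o) 158999153429018281 0 (b o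
    159004012964850480 0 o))) 159004013261906281 0 (b (b (b o 159004014035383441 0 o)
    159004014332439242 0 (b o 159008872797771199 0 o)) 159008872797771200 0 (b (b o
    414016397328863280 0 o) 414016397328863281 0 o)))) 414016398102373159 0 (b (b (b (b (b o
    414016398102373160 0 o) 414021256864695480 0 (b o 414021256864728199 0 o)) 414033910029048918
    0 (b (b o 414033910029072559 0 o) 414033911099581879 0 (b o 414033911099605520 0 o)))
    414046565334426481 0 (b (b (b o 414046565334459200 0 o) 573002897296481400 0 (b o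
    573002897296505041 0 o)) 573002897593537201 0 (b (b o 573002897593560842 0 o)
    573007756058860080 0 o))) 573007756058869159 0 (b (b (b (b o 573015550757848842 0 o)
    573015551531358721 0 (b o 573020410293713760 1 o)) 573020410293713761 2 (b (b o
    573020410293746479 33 o) 573020410293746480 19 (b o 573020411364246721 12 o)))
    573020411364246722 26 (b (b (b o 573020411364279440 4 o) 573020411364279441 3 (b o
    573025270126601761 0 o)) 573025270900111640 0 (b (b o 573033064528591081 0 o)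
    573033064528600160 0 o)))))

theorem st_4 : ST 4 := chkSt_sound (C :=
    [(5, sta_12, sta_1), (5, sta_13, sta_9), (5, sta_14, sta_11), (0, o, o), (0, sta_4, o), (0,
    sta_5, o), (0, o, o), (0, o, o), (0, sta_6, o)])
  (by decide +kernel)

theorem st_5 : ST 5 := chkSt_sound (C :=
    [(5, sta_12, sta_1), (5, sta_13, sta_9), (5, sta_14, sta_11), (0, o, o), (0, sta_4, o), (0,
    sta_5, o), (0, o, o), (0, o, o), (0, sta_6, o)])
  (by decide +kernel)

/-- table -/
noncomputable def sta_15 : Tr :=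
    (b (b (b o 1 0 o) 159004012578123720 0 o) 159004012578132799 0 (b (b o 573025269978094759 0
    o) 573025269978118400 0 o))

/-- table -/
noncomputable def sta_16 : Tr :=
    (b (b (b (b (b (b o 1 0 o) 32719 0 (b o 1070532961 0 o)) 4859684371920 0 (b (b o
    4859684380999 0 o) 4859684404639 0 (b o 4859684413718 0 o))) 12653848126920 0 (b (b (b o
    12653848126921 0 o) 12654621636799 0 (b o 12654621636800 0 o)) 17513235452118 0 (b (b o
    17513235475759 0 o) 17513532507919 0 (b o 17513532531560 0 o)))) 35026767950959 0 (b (b (b (b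
    o 158986500116157840 0 o) 158986500116157841 0 (b o 158986500413213641 0 o))
    158986500413213642 0 (b (b o 158999153964252042 0 o) 158999153964284761 0 (b o
    159004012578123720 0 o))) 159004012578132799 0 (b (b (b o 159004013648656681 0 o)
    159004013648665760 0 (b o 159008873333004961 0 o)) 159008873333037680 0 (b (b o
    414016397715590040 0 o) 414016397715613681 0 o)))) 414016397715622759 0 (b (b (b (b (b o
    414016397715646400 0 o) 414021256329461718 0 (b o 414021256329461719 0 o)) 414033910177555920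
    0 (b (b o 414033910951065799 0 o) 414033911248088881 0 (b o 414033912021598760 0 o)))
    414046564799192719 0 (b (b (b o 414046564799192720 0 o) 573002897058261642 0 (b o
    573002897058270721 0 o)) 573002897831771521 0 (b (b o 573002897831780600 0 o)
    573007756445586840 0 o))) 573007756742642641 0 (b (b (b (b o 573015550609341840 0 o)
    573015550609365481 0 (b o 573020410293713760 0 o)) 573020410293713761 0 (b (b o
    573020410293746479 0 o) 573020410293746480 0 (b o 573020411364246721 0 o)))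
    573020411364246722 0 (b (b (b o 573020411364279440 2 o) 573020411364279441 1 (b o
    573025269978094759 0 o)) 573025269978118400 0 (b (b o 573033064915317841 0 o)
    573033065212373642 0 o)))))

theorem st_6 : ST 6 := chkSt_sound (C :=
    [(5, sta_15, sta_1), (5, sta_16, sta_9), (5, sta_10, sta_11), (0, o, o), (0, sta_4, o), (0,
    sta_5, o), (0, o, o), (0, o, o), (0, sta_6, o)])
  (by decide +kernel)

theorem st_7 : ST 7 := chkSt_sound (C :=
    [(5, sta_15, sta_1), (5, sta_16, sta_9), (5, sta_10, sta_11), (0, o, o), (0, sta_4, o), (0,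
    sta_5, o), (0, o, o), (0, o, o), (0, sta_6, o)])
  (by decide +kernel)

/-- table -/
noncomputable def sta_17 : Tr :=
    (b (b (b o 1 0 o) 35026767950959 0 o) 326799744982456800 0 (b o 326799744982470859 0 o))

theorem st_8 : ST 8 := chkSt_sound (C :=
    [(5, sta_7, sta_17), (5, sta_8, sta_11), (5, sta_10, sta_11), (0, o, o), (0, sta_4, o), (0,
    sta_5, o), (0, o, o), (0, o, o), (0, sta_6, o)])
  (by decide +kernel)

theorem st_9 : ST 9 := chkSt_sound (C :=
    [(5, sta_7, sta_17), (5, sta_8, sta_11), (5, sta_10, sta_11), (0, o, o), (0, sta_4, o), (0,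
    sta_5, o), (0, o, o), (0, o, o), (0, sta_6, o)])
  (by decide +kernel)

end Pool.Agent.MP_d6da41_co

end MrgPart6

-- marker of a merged file
example : 731051 + 144460 = 731051 + 144460 := rfl
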