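import Mathlib.LinearAlgebra.FreeModule.PID
import Mathlib.RingTheory.Flat.TorsionFree
import Mathlib.Algebra.Order.Archimedean.Real.Hom
import Mathlib.Algebra.Order.Star.Real
import Mathlib.RingTheory.SimpleRing.Principal
import Pool.Agent.MP_d6da41_co.Bridge1
import Mathlib.RingTheory.Flat.FaithfullyFlat.Basic
import Mathlib.Algebra.Ring.IsFormallyReal

-- ======== part 0: formerly Pool.Agent.MP_d6da41_co.LD
section MrgPart0

/-! Linear data: the orthogonal group generated by the linear parts of the generators. -/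

set_option linter.unusedSectionVars false

namespace Pool.Agent.MP_d6da41_co

open Module Submodule
open scoped RealInnerProductSpace

/-- The group generated by `s i`, `i < k`. -/
def HH {Γ : Type} [Group Γ] (s : ℕ → Γ) (k : ℕ) : Subgroup Γ :=
  Subgroup.closure {x | ∃ i, i < k ∧ x = s i}

theorem mem_HH {Γ : Type} [Group Γ] {s : ℕ → Γ} {k i : ℕ} (h : i < k) : s i ∈ HH s k :=
  Subgroup.subset_closure ⟨i, h, rfl⟩

theorem HH_le {Γ : Type} [Group Γ] {s : ℕ → Γ} {k : ℕ} {X : Subgroup Γ}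
    (h : ∀ i, i < k → s i ∈ X) : HH s k ≤ X := by
  rw [HH, Subgroup.closure_le]
  rintro _ ⟨i, hi, rfl⟩
  exact h i hi

theorem HH_mono {Γ : Type} [Group Γ] {s : ℕ → Γ} {k m : ℕ} (h : k ≤ m) : HH s k ≤ HH s m :=
  HH_le fun _ hi => mem_HH (by omega)

theorem HH_map {Γ Γ' : Type} [Group Γ] [Group Γ'] (θ : Γ →* Γ') (s : ℕ → Γ) (k : ℕ) :
    HH (fun i => θ (s i)) k = (HH s k).map θ := by
  apply le_antisymm
  · exact HH_le fun i h => ⟨_, mem_HH h, rfl⟩
  · rw [Subgroup.map_le_iff_le_comap]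
    exact HH_le fun i h => mem_HH (s := fun i => θ (s i)) h

theorem GG_le_HH {Γ : Type} [Group Γ] {s : ℕ → Γ} {k : ℕ} : GG s 0 k ≤ HH s k :=
  GG_le_of_tau fun _ _ h => mem_HH h

variable {V : Type} [NormedAddCommGroup V] [InnerProductSpace ℝ V]

/-- orthogonal group -/
abbrev OV (V : Type) [NormedAddCommGroup V] [InnerProductSpace ℝ V] : Type := V ≃ₗᵢ[ℝ] V

theorem OV.mul_apply (g h : OV V) (x : V) : (g * h) x = g (h x) := rfl
theorem OV.one_apply (x : V) : (1 : OV V) x = x := rfl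
theorem OV.inv_apply_self (g : OV V) (x : V) : g⁻¹ (g x) = x := g.symm_apply_apply x
theorem OV.apply_inv_self (g : OV V) (x : V) : g (g⁻¹ x) = x := g.apply_symm_apply x
theorem OV.inv_fix {g : OV V} {x : V} (h : g x = x) : g⁻¹ x = x := by
  conv_lhs => rw [← h]
  exact g.inv_apply_self x
theorem OV.inner_left (g : OV V) (x y : V) : ⟪g x, y⟫ = ⟪x, g⁻¹ y⟫ := by
  rw [← g.inner_map_map x, g.apply_inv_self]

/-- stabilizer of a vector -/
def stabO (x : V) : Subgroup (OV V) where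
  carrier := {g | g x = x}
  one_mem' := rfl
  mul_mem' := fun {g h} hg hh => by
    show g (h x) = x
    rw [show h x = x from hh]; exact hg
  inv_mem' := fun hg => OV.inv_fix hg

/-- The common fixed space of `s i`, `i < k`. -/
def Fx (s : ℕ → OV V) (k : ℕ) : Submodule ℝ V where
  carrier := {x | ∀ i, i < k → s i x = x}
  zero_mem' := fun _ _ => map_zero _
  add_mem' := fun hx hy i hi => by rw [map_add, hx i hi, hy i hi]
  smul_mem' := fun c x hx i hi => by rw [map_smul, hx i hi]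

theorem mem_Fx {s : ℕ → OV V} {k : ℕ} {x : V} : x ∈ Fx s k ↔ ∀ i, i < k → s i x = x := Iff.rfl

theorem Fx_anti {s : ℕ → OV V} {k m : ℕ} (h : k ≤ m) : Fx s m ≤ Fx s k :=
  fun _ hx i hi => hx i (by omega)

theorem HH_fix {s : ℕ → OV V} {k : ℕ} {g : OV V} (hg : g ∈ HH s k) {x : V} (hx : x ∈ Fx s k) :
    g x = x :=
  HH_le (X := stabO x) hx hg

theorem orth_of_fix {K : Submodule ℝ V} {g : OV V} (h : ∀ x ∈ K, g⁻¹ x ∈ K) {y : V}
    (hy : y ∈ Kᗮ) : g y ∈ Kᗮ := fun x hx => by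
  rw [real_inner_comm, g.inner_left, real_inner_comm]
  exact hy _ (h x hx)

theorem HH_orth {s : ℕ → OV V} {k : ℕ} {g : OV V} (hg : g ∈ HH s k) {y : V}
    (hy : y ∈ (Fx s k)ᗮ) : g y ∈ (Fx s k)ᗮ :=
  orth_of_fix (fun x hx => by rw [HH_fix (inv_mem hg) hx]; exact hx) hy

/-- `t` inverts `s i` for `i < k`. -/
def Inverts (t : OV V) (s : ℕ → OV V) (k : ℕ) : Prop := ∀ i, i < k → t * s i * t⁻¹ = (s i)⁻¹

theorem Inverts.inv {t : OV V} {s : ℕ → OV V} {k : ℕ} (h : Inverts t s k) : Inverts t⁻¹ s k :=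
  fun i hi => by
    have := h i hi
    calc t⁻¹ * s i * t⁻¹⁻¹ = (t⁻¹ * (s i)⁻¹ * t)⁻¹ := by group
      _ = (t⁻¹ * (t * s i * t⁻¹) * t)⁻¹ := by rw [this]
      _ = (s i)⁻¹ := by group

theorem Inverts.fx {t : OV V} {s : ℕ → OV V} {k : ℕ} (h : Inverts t s k) {x : V}
    (hx : x ∈ Fx s k) : t x ∈ Fx s k := fun i hi => by
  have e := congrArg (fun g : OV V => g (t x)) (h i hi)
  simp only [OV.mul_apply, OV.inv_apply_self, hx i hi] at e
  conv_lhs => rw [e]
  exact OV.apply_inv_self _ _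

theorem Inverts.orth {t : OV V} {s : ℕ → OV V} {k : ℕ} (h : Inverts t s k) {y : V}
    (hy : y ∈ (Fx s k)ᗮ) : t y ∈ (Fx s k)ᗮ :=
  orth_of_fix (fun _ hx => h.inv.fx hx) hy

theorem Inverts.mono {t : OV V} {s : ℕ → OV V} {k m : ℕ} (h : Inverts t s m) (hk : k ≤ m) :
    Inverts t s k := fun i hi => h i (by omega)

/-- `x` is a unit vector spanning `B ⊖ A`. -/
structure Frame (A B : Submodule ℝ V) (x : V) : Prop where
  mem : x ∈ B
  orth : x ∈ Aᗮ
  unit : ⟪x, x⟫ = 1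
  sub : ∀ y ∈ B, y - ⟪x, y⟫ • x ∈ A

theorem Frame.ne {A B : Submodule ℝ V} {x : V} (h : Frame A B x) : x ≠ 0 := by
  rintro rfl
  have := h.unit
  simp at this

theorem Frame.norm {A B : Submodule ℝ V} {x : V} (h : Frame A B x) : ‖x‖ = 1 := by
  have := h.unit
  rw [real_inner_self_eq_norm_sq] at this
  nlinarith [norm_nonneg x]

theorem Frame.eq {A B : Submodule ℝ V} {x : V} (h : Frame A B x) {y : V} (h1 : y ∈ B)
    (h2 : y ∈ Aᗮ) : y = ⟪x, y⟫ • x := by
  have h3 : y - ⟪x, y⟫ • x ∈ Aᗮ := Aᗮ.sub_mem h2 (Aᗮ.smul_mem _ h.orth)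
  have := inner_self_eq_zero.1 (h3 _ (h.sub y h1))
  exact sub_eq_zero.1 this

theorem Frame.sub_orth {A B : Submodule ℝ V} {x : V} (h : Frame A B x) {w : V} (hw : w ∈ Aᗮ) :
    w - ⟪x, w⟫ • x ∈ Bᗮ := fun y hy => by
  have e : y = (y - ⟪x, y⟫ • x) + ⟪x, y⟫ • x := by abel
  have h3 : w - ⟪x, w⟫ • x ∈ Aᗮ := Aᗮ.sub_mem hw (Aᗮ.smul_mem _ h.orth)
  rw [e, inner_add_left, h3 _ (h.sub y hy), inner_smul_left, inner_sub_right, inner_smul_right,
    h.unit]
  simp

theorem pm_of_map {g : OV V} {x : V} {c : ℝ} (hx : x ≠ 0) (h : g x = c • x) :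
    g x = x ∨ g x = -x := by
  have := g.norm_map x
  rw [h, norm_smul, Real.norm_eq_abs] at this
  have h1 : |c| = 1 := by
    have := mul_right_cancel₀ (norm_ne_zero_iff.2 hx) (this.trans (one_mul _).symm)
    exact this
  rcases abs_eq (zero_le_one) |>.1 h1 with rfl | rfl
  · left; rw [h, one_smul]
  · right; rw [h, neg_one_smul]

/-- reflection in the hyperplane orthogonal to `n` -/
noncomputable def rf (n : V) : OV V := Submodule.reflection (ℝ ∙ n)ᗮ

theorem rf_apply {n : V} (hn : ⟪n, n⟫ = 1) (x : V) : rf n x = x - (2 * ⟪n, x⟫) • n := by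
  rw [real_inner_self_eq_norm_sq] at hn
  rw [rf, reflection_orthogonal_apply, reflection_singleton_apply]
  simp only [RCLike.ofReal_real_eq_id, id, hn, div_one]
  rw [neg_sub, two_smul, two_mul, add_smul]

theorem rf_inv (n : V) : (rf n)⁻¹ = rf n := Submodule.reflection_inv

theorem rf_comm {n : V} (hn : ⟪n, n⟫ = 1) {t : OV V} (h : t n = n ∨ t n = -n) :
    rf n * t = t * rf n := by
  ext x
  rw [OV.mul_apply, OV.mul_apply, rf_apply hn, rf_apply hn, map_sub, map_smul]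
  rcases h with h | h
  · conv_lhs => rw [← h, t.inner_map_map]
  · have : n = -t n := by rw [h, neg_neg]
    conv_lhs => rw [this, inner_neg_left, t.inner_map_map]
    simp

variable [FiniteDimensional ℝ V]

theorem exists_frame {A B : Submodule ℝ V} (hAB : A ≤ B) (h : finrank ℝ A + 1 = finrank ℝ B) :
    ∃ x, Frame A B x := by
  have h1 := Submodule.finrank_add_inf_finrank_orthogonal' hAB h
  obtain ⟨v, hv, hall⟩ := finrank_eq_one_iff'.1 h1
  have hv' : (v : V) ≠ 0 := fun e => hv (Subtype.ext e)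
  have hn : ‖(v : V)‖ ≠ 0 := norm_ne_zero_iff.2 hv'
  have hu : ⟪‖(v : V)‖⁻¹ • (v : V), ‖(v : V)‖⁻¹ • (v : V)⟫ = 1 := by
    rw [real_inner_smul_left, real_inner_smul_right, real_inner_self_eq_norm_sq]
    field_simp
  have ho : ‖(v : V)‖⁻¹ • (v : V) ∈ Aᗮ := Aᗮ.smul_mem _ v.2.1
  refine ⟨‖(v : V)‖⁻¹ • (v : V), B.smul_mem _ v.2.2, ho, hu, fun y hy => ?_⟩
  obtain ⟨a, ha, z, hz, rfl⟩ := A.exists_add_mem_mem_orthogonal y
  have hzB : z ∈ B := by
    have := B.sub_mem hy (hAB ha)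
    rwa [add_sub_cancel_left] at this
  obtain ⟨c, hc⟩ := hall ⟨z, hz, hzB⟩
  have hc' : z = (c * ‖(v : V)‖) • (‖(v : V)‖⁻¹ • (v : V)) := by
    rw [smul_smul, mul_assoc, mul_inv_cancel₀ hn, mul_one]
    exact (congrArg Subtype.val hc).symm
  generalize ‖(v : V)‖⁻¹ • (v : V) = x at hu ho hc'
  rw [hc', inner_add_right, real_inner_smul_right, hu, real_inner_comm, ho a ha]
  simpa using ha

theorem ext_orth {K : Submodule ℝ V} {g h : OV V} (h1 : ∀ x ∈ K, g x = h x)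
    (h2 : ∀ x ∈ Kᗮ, g x = h x) : g = h := by
  ext x
  obtain ⟨a, ha, z, hz, rfl⟩ := K.exists_add_mem_mem_orthogonal x
  rw [map_add, map_add, h1 a ha, h2 z hz]

/-- The linear data. -/
structure LD (s : ℕ → OV V) (m : ℕ) : Prop where
  pos : 1 ≤ m
  sq : s 0 * s 0 ≠ 1
  invol : ∀ i, 1 ≤ i → i < m → s i * s i = 1
  inverts : ∀ i, i < m → Inverts (s i) s (i - 1)
  codim : ∀ k, 1 ≤ k → k ≤ m → finrank ℝ (Fx s k) + (k + 1) = finrank ℝ V
  stab : ∀ k, 1 ≤ k → k ≤ m → ∀ g ∈ HH s m, (∀ x ∈ Fx s k, g x = x) → g ∈ HH s k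
  digon : ∀ j, j + 1 < m → s (j + 1) * (s j)⁻¹ * (s (j + 1) * (s j)⁻¹) ∉ HH s (j + 1)
  inter : ∀ k, k < m → ∀ g ∈ GG s 0 (k + 1), g ∈ HH s k → g ∈ GG s 0 k

namespace LD

variable {s : ℕ → OV V} {m : ℕ} (h : LD s m)
include h

theorem mono {k : ℕ} (h1 : 1 ≤ k) (hk : k ≤ m) : LD s k :=
  ⟨h1, h.sq, fun i a b => h.invol i a (by omega), fun i a => h.inverts i (by omega),
    fun i a b => h.codim i a (by omega),
    fun i a b g hg => h.stab i a (by omega) g (HH_mono hk hg),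
    fun i a => h.digon i (by omega), fun i a => h.inter i (by omega)⟩

theorem frame {k : ℕ} (h1 : 1 ≤ k) (hk : k < m) : ∃ x, Frame (Fx s (k + 1)) (Fx s k) x :=
  exists_frame (Fx_anti (by omega)) (by
    have := h.codim k h1 hk.le
    have := h.codim (k + 1) (by omega) hk
    omega)

theorem stab' {k : ℕ} (h1 : 1 ≤ k) (hk : k < m) {x : V} (hx : Frame (Fx s (k + 1)) (Fx s k) x)
    {g : OV V} (hg : g ∈ HH s (k + 1)) (e : g x = x) : g ∈ HH s k :=
  h.stab k h1 hk.le g (HH_mono hk hg) fun y hy => by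
    have := HH_fix hg (hx.sub y hy)
    rw [map_sub, map_smul, e] at this
    exact sub_left_injective this

theorem not_pm {k : ℕ} (h1 : 1 ≤ k) (hk : k < m) {x : V} (hx : Frame (Fx s (k + 1)) (Fx s k) x) :
    s k x ≠ x ∧ s k x ≠ -x := by
  constructor
  · intro e
    have : x ∈ Fx s (k + 1) := fun i hi => by
      rcases (Nat.lt_succ_iff.1 hi).eq_or_lt with rfl | hi
      · exact e
      · exact hx.mem i hi
    have := hx.orth x this
    rw [hx.unit] at this
    exact one_ne_zero this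
  · intro e
    obtain ⟨j, rfl⟩ : ∃ j, k = j + 1 := ⟨k - 1, by omega⟩
    have a : s (j + 1) * (s j)⁻¹ ∈ HH s (j + 1 + 1) :=
      mul_mem (mem_HH (by omega)) (inv_mem (mem_HH (by omega)))
    refine h.digon j hk (h.stab' h1 hk hx (mul_mem a a) ?_)
    have e' : (s j)⁻¹ x = x := OV.inv_fix (hx.mem j (by omega))
    simp only [OV.mul_apply, e', e, map_neg, neg_neg]

/-- `s 0` is a rotation of a plane. -/
theorem plane {n : V} (hn : n ∈ (Fx s 1)ᗮ) (hu : ⟪n, n⟫ = 1) :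
    ∃ (y : V) (α β : ℝ), y ∈ (Fx s 1)ᗮ ∧ ⟪y, y⟫ = 1 ∧ ⟪n, y⟫ = 0 ∧ β ≠ 0 ∧ α ^ 2 + β ^ 2 = 1 ∧
      s 0 n = α • n + β • y ∧ s 0 y = (-β) • n + α • y ∧
      ∀ z ∈ (Fx s 1)ᗮ, z = ⟪n, z⟫ • n + ⟪y, z⟫ • y := by
  have hn0 : n ≠ 0 := by rintro rfl; simp at hu
  obtain ⟨y, hy⟩ := exists_frame (A := ℝ ∙ n) (B := (Fx s 1)ᗮ)
    ((Submodule.span_singleton_le_iff_mem _ _).2 hn) (by
      rw [finrank_span_singleton hn0,
        Submodule.finrank_add_finrank_orthogonal' (h.codim 1 le_rfl h.pos)])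
  have hny : ⟪n, y⟫ = 0 := hy.orth n (Submodule.mem_span_singleton_self n)
  have hyn : ⟪y, n⟫ = 0 := by rw [real_inner_comm]; exact hny
  have hall : ∀ z ∈ (Fx s 1)ᗮ, z = ⟪n, z⟫ • n + ⟪y, z⟫ • y := by
    intro z hz
    obtain ⟨c, hc⟩ := Submodule.mem_span_singleton.1 (hy.sub z hz)
    have : ⟪n, c • n⟫ = ⟪n, z - ⟪y, z⟫ • y⟫ := by rw [hc]
    rw [real_inner_smul_right, inner_sub_right, real_inner_smul_right, hu, hny] at this
    rw [← show c = ⟪n, z⟫ by linarith, hc]; abel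
  have e1 := hall _ (HH_orth (mem_HH (s := s) (i := 0) (by omega)) hn)
  have e2 := hall _ (HH_orth (mem_HH (s := s) (i := 0) (by omega)) hy.mem)
  generalize ⟪n, s 0 n⟫ = α at e1
  generalize ⟪y, s 0 n⟫ = β at e1
  generalize ⟪n, s 0 y⟫ = γ at e2
  generalize ⟪y, s 0 y⟫ = δ at e2
  have r1 := (s 0).inner_map_map n n
  have r2 := (s 0).inner_map_map y y
  have r3 := (s 0).inner_map_map n y
  rw [e1] at r1 r3
  rw [e2] at r2 r3
  simp only [inner_add_left, inner_add_right, real_inner_smul_left, real_inner_smul_right, hu, hny,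
    hyn, hy.unit] at r1 r2 r3
  have hsq : ∀ α β γ δ : ℝ, s 0 n = α • n + β • y → s 0 y = γ • n + δ • y →
      α * α + β * γ = 1 → α * β + β * δ = 0 → γ * α + δ * γ = 0 → γ * β + δ * δ = 1 → False := by
    intro α β γ δ e1 e2 a1 a2 a3 a4
    refine h.sq (ext_orth (K := Fx s 1) (fun x hx => ?_) fun z hz => ?_)
    · rw [OV.mul_apply, hx 0 (by omega), hx 0 (by omega), OV.one_apply]
    · have f1 : s 0 (s 0 n) = n := by
        rw [e1, map_add, map_smul, map_smul, e1, e2]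
        calc _ = (α * α + β * γ) • n + (α * β + β * δ) • y := by module
          _ = n := by rw [a1, a2]; simp
      have f2 : s 0 (s 0 y) = y := by
        rw [e2, map_add, map_smul, map_smul, e1, e2]
        calc _ = (γ * α + δ * γ) • n + (γ * β + δ * δ) • y := by module
          _ = y := by rw [a3, a4]; simp
      rw [hall z hz, OV.mul_apply, OV.one_apply]
      simp only [map_add, map_smul, f1, f2]
  have hd : (α * δ - β * γ - 1) * (α * δ - β * γ + 1) = 0 := by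
    linear_combination (γ * γ + δ * δ) * r1 + r2 - (α * γ + β * δ) * r3
  rcases mul_eq_zero.1 hd with hd | hd
  · have a1 : δ = α := by nlinarith [sq_nonneg (α - δ), sq_nonneg (β + γ)]
    have a2 : γ = -β := by nlinarith [sq_nonneg (α - δ), sq_nonneg (β + γ)]
    subst a1 a2
    refine ⟨y, δ, β, hy.mem, hy.unit, hny, ?_, by linarith, e1, e2, hall⟩
    rintro rfl
    exact hsq _ _ _ _ e1 e2 (by linarith) (by ring) (by ring) (by linarith)
  · have a1 : δ = -α := by nlinarith [sq_nonneg (α + δ), sq_nonneg (β - γ)]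
    have a2 : γ = β := by nlinarith [sq_nonneg (α + δ), sq_nonneg (β - γ)]
    subst a1 a2
    exact (hsq _ _ _ _ e1 e2 (by linarith) (by ring) (by ring) (by linarith)).elim

theorem rf_inverts {n : V} (hn : n ∈ (Fx s 1)ᗮ) (hu : ⟪n, n⟫ = 1) : Inverts (rf n) s 1 := by
  obtain ⟨y, α, β, hy, hyy, hny, -, hab, e1, e2, hall⟩ := h.plane hn hu
  intro i hi
  obtain rfl : i = 0 := by omega
  have hyn : ⟪y, n⟫ = 0 := by rw [real_inner_comm]; exact hny
  have Rn : rf n n = -n := by rw [rf_apply hu, hu]; module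
  have Ry : rf n y = y := by rw [rf_apply hu, hny]; simp
  rw [rf_inv, eq_inv_iff_mul_eq_one]
  refine ext_orth (K := Fx s 1) (fun x hx => ?_) fun z hz => ?_
  · have : rf n x = x := by rw [rf_apply hu, real_inner_comm, hn x hx]; simp
    simp only [OV.mul_apply, OV.one_apply, hx 0 (by omega), this]
  · have f1 : rf n (s 0 (rf n (s 0 n))) = n := by
      simp only [e1, e2, map_add, map_smul, map_neg, Rn, Ry]
      calc _ = (α ^ 2 + β ^ 2) • n := by module
        _ = n := by rw [hab, one_smul]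
    have f2 : rf n (s 0 (rf n (s 0 y))) = y := by
      simp only [e1, e2, map_add, map_smul, map_neg, Rn, Ry]
      calc _ = (α ^ 2 + β ^ 2) • y := by module
        _ = y := by rw [hab, one_smul]
    rw [hall z hz]
    simp only [OV.mul_apply, OV.one_apply, map_add, map_smul, f1, f2]

theorem exists_normal (z : V) : ∃ n ∈ (Fx s 1)ᗮ, ⟪n, n⟫ = 1 ∧ ⟪n, z⟫ = 0 ∧
    (z ∉ Fx s 1 → ∀ n' ∈ (Fx s 1)ᗮ, ⟪n', z⟫ = 0 → n' = ⟪n, n'⟫ • n) := by
  obtain ⟨a, ha, w, hw, rfl⟩ := (Fx s 1).exists_add_mem_mem_orthogonal z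
  by_cases hw0 : w = 0
  · subst hw0
    have : (Fx s 1)ᗮ ≠ ⊥ := fun e => by
      have := Submodule.finrank_add_finrank_orthogonal' (h.codim 1 le_rfl h.pos)
      rw [e, finrank_bot] at this
      omega
    obtain ⟨n, hn, hn0⟩ := (Submodule.ne_bot_iff _).1 this
    have hn1 : ‖n‖ ≠ 0 := norm_ne_zero_iff.2 hn0
    refine ⟨‖n‖⁻¹ • n, Submodule.smul_mem _ _ hn, ?_, ?_, fun hz => ?_⟩
    · rw [real_inner_smul_left, real_inner_smul_right, real_inner_self_eq_norm_sq]
      field_simp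
    · rw [add_zero, real_inner_smul_left, real_inner_comm, hn a ha, mul_zero]
    · exact absurd (by simpa using ha) hz
  · have hn1 : ‖w‖ ≠ 0 := norm_ne_zero_iff.2 hw0
    obtain ⟨y, α, β, hy, hyy, hny, -, -, -, -, hall⟩ := h.plane (n := ‖w‖⁻¹ • w)
      (Submodule.smul_mem _ _ hw) (by
        rw [real_inner_smul_left, real_inner_smul_right, real_inner_self_eq_norm_sq]
        field_simp)
    rw [real_inner_smul_left, mul_eq_zero, or_iff_right (inv_ne_zero hn1)] at hny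
    refine ⟨y, hy, hyy, ?_, fun _ n' hn' e => ?_⟩
    · rw [inner_add_right, real_inner_comm, hy a ha, real_inner_comm, hny, add_zero]
    · rw [inner_add_right, real_inner_comm, hn' a ha, zero_add, real_inner_comm] at e
      conv_lhs => rw [hall n' hn', real_inner_smul_left, e]
      simp

/-- Span lemma. -/
theorem span {k : ℕ} (h1 : 1 ≤ k) (hk : k ≤ m) {U : Submodule ℝ V}
    (hU : ∀ i, i < k → ∀ y ∈ U, s i y ∈ U) {y : V} (hy : y ∈ U) (y1 : y ∈ Fx s (k - 1))
    (y2 : y ∈ (Fx s k)ᗮ) (y0 : y ≠ 0) : (Fx s k)ᗮ ≤ U := by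
  induction k, h1 using Nat.le_induction generalizing y with
  | base =>
    have hn1 : ‖y‖ ≠ 0 := norm_ne_zero_iff.2 y0
    obtain ⟨z, α, β, -, -, -, hb, -, e1, -, hall⟩ := h.plane (n := ‖y‖⁻¹ • y)
      (Submodule.smul_mem _ _ y2) (by
        rw [real_inner_smul_left, real_inner_smul_right, real_inner_self_eq_norm_sq]
        field_simp)
    have hn : ‖y‖⁻¹ • y ∈ U := U.smul_mem _ hy
    have hz : z ∈ U := by
      have := U.sub_mem (hU 0 (by omega) _ hn) (U.smul_mem α hn)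
      rw [e1, add_sub_cancel_left] at this
      exact (U.smul_mem_iff hb).1 this
    intro w hw
    rw [hall w hw]
    exact U.add_mem (U.smul_mem _ hn) (U.smul_mem _ hz)
  | succ k h1 ih =>
    obtain ⟨x, hx⟩ := h.frame h1 hk
    have hxU : x ∈ U := by
      have e := hx.eq y1 y2
      have : ⟪x, y⟫ ≠ 0 := fun e' => y0 (by rw [e, e', zero_smul])
      rw [e] at hy
      exact (U.smul_mem_iff this).1 hy
    have z2 : s k x ∈ (Fx s (k + 1))ᗮ := HH_orth (mem_HH (by omega)) hx.orth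
    have := ih (by omega) (fun i hi => hU i (by omega))
      (U.sub_mem (hU k (by omega) x hxU) (U.smul_mem _ hxU))
      (Submodule.sub_mem _ ((h.inverts k hk).fx (Fx_anti (by omega) hx.mem))
        (Submodule.smul_mem _ _ (Fx_anti (by omega) hx.mem)))
      (hx.sub_orth z2) (fun e => by
        rcases pm_of_map hx.ne (sub_eq_zero.1 e) with e | e
        · exact (h.not_pm h1 hk hx).1 e
        · exact (h.not_pm h1 hk hx).2 e)
    intro w hw
    have := U.add_mem (this (hx.sub_orth hw)) (U.smul_mem ⟪x, w⟫ hxU)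
    rwa [sub_add_cancel] at this

theorem finite {y : V} (y1 : y ∈ Fx s (m - 1)) (y2 : y ∈ (Fx s m)ᗮ) (y0 : y ≠ 0)
    (hf : {z | ∃ g ∈ HH s m, g y = z}.Finite) : Finite (HH s m) := by
  set O := {z | ∃ g ∈ HH s m, g y = z}
  have hO : ∀ g ∈ HH s m, ∀ z ∈ O, g z ∈ O := by
    rintro g hg _ ⟨g', hg', rfl⟩
    exact ⟨g * g', mul_mem hg hg', rfl⟩
  have hs : (Fx s m)ᗮ ≤ Submodule.span ℝ O := h.span h.pos le_rfl (fun i hi z hz => by
      have : (Submodule.span ℝ O).map (s i).toLinearEquiv.toLinearMap ≤ Submodule.span ℝ O := by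
        rw [Submodule.map_span_le]
        exact fun z hz => Submodule.subset_span (hO _ (mem_HH hi) z hz)
      exact this ⟨z, hz, rfl⟩)
    (Submodule.subset_span ⟨1, one_mem _, rfl⟩) y1 y2 y0
  have := hf.to_subtype
  refine Finite.of_injective (fun g : HH s m => fun z : O => (⟨g.1 z, hO _ g.2 _ z.2⟩ : O)) ?_
  intro g g' e
  refine Subtype.ext (ext_orth (K := Fx s m) (fun x hx => ?_) fun x hx => ?_)
  · rw [HH_fix g.2 hx, HH_fix g'.2 hx]
  · refine Submodule.span_induction (p := fun x _ => g.1 x = g'.1 x) ?_ ?_ ?_ ?_ (hs hx)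
    · exact fun z hz => congrArg Subtype.val (congrFun e ⟨z, hz⟩)
    · simp
    · intro a b _ _ ha hb; rw [map_add, map_add, ha, hb]
    · intro c a _ ha; rw [map_smul, map_smul, ha]

/-- Lifting lemma: a mirror commutes with the next generator. -/
theorem lift {k : ℕ} (h2 : 2 ≤ k) (hk : k ≤ m) {R t : OV V} (hR : Inverts R s k)
    (hF : ∀ x ∈ Fx s k, R x = x) (ht : Inverts t s k) : R * t = t * R := by
  obtain ⟨j, rfl⟩ : ∃ j, k = j + 1 := ⟨k - 1, by omega⟩
  obtain ⟨x, hx⟩ := h.frame (k := j) (by omega) hk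
  have hc : ∀ i, i < j + 1 → ∀ y, R (t (s i y)) = s i (R (t y)) := by
    intro i hi y
    have : R * t * s i = s i * (R * t) := by
      calc R * t * s i = R * (t * s i * t⁻¹) * t := by group
        _ = (R * s i * R⁻¹)⁻¹ * (R * t) := by rw [ht i hi]; group
        _ = _ := by rw [hR i hi, inv_inv]
    exact congrArg (fun g : OV V => g y) this
  have e := hx.eq (y := R (t x)) (fun i hi => by rw [← hc i (by omega), hx.mem i hi])
    (hR.orth (ht.orth hx.orth))
  generalize ⟪x, R (t x)⟫ = c at e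
  let U : Submodule ℝ V :=
    { carrier := {y | R (t y) = c • y}
      zero_mem' := by simp
      add_mem' := fun {a b} ha hb => by
        show R (t (a + b)) = c • (a + b)
        rw [map_add, map_add, smul_add, show R (t a) = c • a from ha, show R (t b) = c • b from hb]
      smul_mem' := fun d a ha => by
        show R (t (d • a)) = c • d • a
        rw [map_smul, map_smul, show R (t a) = c • a from ha, smul_comm] }
  have hU : (Fx s (j + 1))ᗮ ≤ U := h.span (by omega) hk (fun i hi y hy => by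
    show R (t (s i y)) = c • s i y
    rw [hc i hi, show R (t y) = c • y from hy, map_smul]) e hx.mem hx.orth hx.ne
  refine ext_orth (K := Fx s (j + 1)) (fun y hy => ?_) fun y hy => ?_
  · rw [OV.mul_apply, OV.mul_apply, hF _ (ht.fx hy), hF y hy]
  · have e1 : R (t y) = c • y := hU hy
    have e2 : R (t (R y)) = c • R y := hU (hR.orth hy)
    rw [OV.mul_apply, OV.mul_apply, e1]
    apply R.injective
    rw [e2, map_smul]

/-- `R` is a mirror at level `k`. -/
def Mir (s : ℕ → OV V) (k : ℕ) (R : OV V) : Prop :=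
  Inverts R s (k + 1) ∧ ∀ x ∈ Fx s k, R x = x

theorem mir_succ {k : ℕ} (h2 : 2 ≤ k) (hk : k + 1 < m) {R : OV V} (hR : Mir s k R) :
    Mir s (k + 1) R := by
  refine ⟨fun i hi => ?_, fun x hx => hR.2 x (Fx_anti (by omega) hx)⟩
  rcases (Nat.lt_succ_iff.1 hi).eq_or_lt with rfl | hi
  · rw [h.lift h2 (by omega) (hR.1.mono (by omega)) hR.2 (h.inverts (k + 1) hk), mul_assoc,
      mul_inv_cancel, mul_one, eq_inv_iff_mul_eq_one]
    exact h.invol _ (by omega) hk
  · exact hR.1 i hi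

theorem mir_le {k : ℕ} (h2 : 2 ≤ k) {R : OV V} (hR : Mir s k R) {j : ℕ} (hj : k ≤ j) (hm : j < m) :
    Mir s j R := by
  induction j, hj using Nat.le_induction with
  | base => exact hR
  | succ j hj ih => exact h.mir_succ (by omega) hm (ih (by omega))

theorem mir_one (hm : 2 ≤ m) : ∃ R, Mir s 1 R := by
  obtain ⟨u, hu⟩ := h.frame (k := 1) le_rfl hm
  obtain ⟨n, hn, hnn, e, hall⟩ := h.exists_normal (s 1 u)
  have hz : s 1 u ∉ Fx s 1 := fun hz => by
    rcases pm_of_map hu.ne (hu.eq hz (HH_orth (mem_HH (by omega)) hu.orth)) with e | e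
    · exact (h.not_pm le_rfl hm hu).1 e
    · exact (h.not_pm le_rfl hm hu).2 e
  have hi : (s 1)⁻¹ = s 1 := inv_eq_of_mul_eq_one_right (h.invol 1 le_rfl hm)
  have hn2 : s 1 n ∈ (Fx s 2)ᗮ :=
    HH_orth (mem_HH (by omega)) (Submodule.orthogonal_le (Fx_anti (by omega)) hn)
  have hn1 : s 1 n ∈ (Fx s 1)ᗮ := by
    have := hu.sub_orth hn2
    rwa [real_inner_comm, OV.inner_left, hi, e, zero_smul, sub_zero] at this
  have e2 := hall hz _ hn1 (by rw [(s 1).inner_map_map, real_inner_comm]; exact hn u hu.mem)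
  have n0 : n ≠ 0 := by rintro rfl; simp at hnn
  refine ⟨rf n, fun i hi' => ?_, fun x hx => ?_⟩
  · rcases (Nat.lt_succ_iff.1 hi').eq_or_lt with rfl | hi'
    · rw [rf_comm hnn (pm_of_map n0 e2), mul_assoc, mul_inv_cancel, mul_one, hi]
    · exact h.rf_inverts hn hnn i hi'
  · rw [rf_apply hnn, real_inner_comm, hn x hx]; simp

end LD

end Pool.Agent.MP_d6da41_co

end MrgPart0

-- ======== part 1: formerly Pool.Agent.MP_d6da41_co.Quat
section MrgPart1

/-! Isometries of the quaternions and discrete groups of unit quaternions. -/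

namespace Pool.Agent.MP_d6da41_co

open Quaternion
open scoped RealInnerProductSpace

/-- unit quaternion -/
def Un (p : ℍ) : Prop := normSq p = 1

namespace Un
variable {p q : ℍ}
theorem one : Un 1 := map_one _
theorem mul (hp : Un p) (hq : Un q) : Un (p * q) := by
  rw [Un, map_mul, show normSq p = 1 from hp, show normSq q = 1 from hq, one_mul]
theorem star (hp : Un p) : Un (star p) := by rw [Un, normSq_star]; exact hp
theorem neg (hp : Un p) : Un (-p) := by rw [Un, normSq_neg]; exact hp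
theorem ms (hp : Un p) : p * Star.star p = 1 := by
  rw [self_mul_star, show normSq p = 1 from hp]; rfl
theorem sm (hp : Un p) : Star.star p * p = 1 := by
  rw [star_mul_self, show normSq p = 1 from hp]; rfl
theorem ms' (hp : Un p) (x : ℍ) : p * (Star.star p * x) = x := by rw [← mul_assoc, hp.ms, one_mul]
theorem sm' (hp : Un p) (x : ℍ) : Star.star p * (p * x) = x := by rw [← mul_assoc, hp.sm, one_mul]
theorem def' (hp : Un p) : p.re ^ 2 + p.imI ^ 2 + p.imJ ^ 2 + p.imK ^ 2 = 1 := by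
  rw [← normSq_def']; exact hp
theorem ne (hp : Un p) : p ≠ 0 := by
  rintro rfl
  have := hp.def'
  simp at this
theorem norm (hp : Un p) : ‖p‖ = 1 := by
  have : ‖p‖ * ‖p‖ = 1 := by rw [← normSq_eq_norm_mul_self]; exact hp
  nlinarith [norm_nonneg p]
theorem of_norm (hp : ‖p‖ = 1) : Un p := by rw [Un, normSq_eq_norm_mul_self, hp, one_mul]
theorem inner (hp : Un p) : ⟪p, p⟫ = 1 := hp
theorem re_sq_le (hp : Un p) : p.re ^ 2 ≤ 1 := by
  have := hp.def'
  nlinarith [sq_nonneg p.imI, sq_nonneg p.imJ, sq_nonneg p.imK]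
theorem sq (hp : Un p) : p * p = (2 * p.re) • p - 1 := by
  have := hp.def'
  ext <;> simp <;> nlinarith
theorem pure_sq (hp : Un p) (h : p.re = 0) : p * p = -1 := by rw [hp.sq, h]; simp
theorem eq_pm (hp : Un p) (h : p.re ^ 2 = 1) : p = 1 ∨ p = -1 := by
  have := hp.def'
  have h1 : p.imI = 0 := by nlinarith [sq_nonneg p.imI, sq_nonneg p.imJ, sq_nonneg p.imK]
  have h2 : p.imJ = 0 := by nlinarith [sq_nonneg p.imI, sq_nonneg p.imJ, sq_nonneg p.imK]
  have h3 : p.imK = 0 := by nlinarith [sq_nonneg p.imI, sq_nonneg p.imJ, sq_nonneg p.imK]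
  rcases sq_eq_one_iff_of_ne_zero_aux h with h | h
  · left; ext <;> simp [*]
  · right; ext <;> simp [*]
where sq_eq_one_iff_of_ne_zero_aux {x : ℝ} (h : x ^ 2 = 1) : x = 1 ∨ x = -1 := by
        have : (x - 1) * (x + 1) = 0 := by linarith
        rcases mul_eq_zero.1 this with h | h
        · left; linarith
        · right; linarith
end Un

theorem inner_coord (p q : ℍ) :
    ⟪p, q⟫ = p.re * q.re + p.imI * q.imI + p.imJ * q.imJ + p.imK * q.imK := by
  rw [Quaternion.inner_def]; simp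

theorem unit_of_ne {v : ℍ} (hv : v ≠ 0) : Un (‖v‖⁻¹ • v) :=
  Un.of_norm (by rw [norm_smul, norm_inv, norm_norm, inv_mul_cancel₀ (norm_ne_zero_iff.2 hv)])

/-- `g x = p x q⁻¹` -/
structure IsLR (g : ℍ → ℍ) (p q : ℍ) : Prop where
  l : Un p
  r : Un q
  eq : ∀ x, g x = p * x * star q

/-- `g x = p x̄ q⁻¹` -/
structure IsLB (g : ℍ → ℍ) (p q : ℍ) : Prop where
  l : Un p
  r : Un q
  eq : ∀ x, g x = p * star x * star q

theorem IsLR.id : IsLR id 1 1 := ⟨Un.one, Un.one, by simp⟩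

theorem IsLR.comp {g h : ℍ → ℍ} {p q p' q' : ℍ} (h1 : IsLR g p q) (h2 : IsLR h p' q') :
    IsLR (g ∘ h) (p * p') (q * q') :=
  ⟨h1.l.mul h2.l, h1.r.mul h2.r, fun x => by
    simp only [Function.comp, h1.eq, h2.eq, star_mul, mul_assoc]⟩

theorem IsLR.neg {g : ℍ → ℍ} {p q : ℍ} (h : IsLR g p q) : IsLR g (-p) (-q) :=
  ⟨h.l.neg, h.r.neg, fun x => by rw [h.eq]; simp⟩

theorem IsLR.inv {g h : ℍ → ℍ} {p q : ℍ} (hg : IsLR g p q) (e : ∀ x, g (h x) = x) :
    IsLR h (star p) (star q) :=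
  ⟨hg.l.star, hg.r.star, fun x => by
    conv_rhs => rw [← e x, hg.eq]
    simp only [star_star, mul_assoc, hg.l.sm', hg.r.sm, mul_one]⟩

theorem IsLR.invO {g : OV ℍ} {p q : ℍ} (hg : IsLR g p q) : IsLR (g⁻¹ : OV ℍ) (star p) (star q) :=
  hg.inv g.apply_inv_self

theorem IsLR.mulO {g h : OV ℍ} {p q p' q' : ℍ} (h1 : IsLR g p q) (h2 : IsLR h p' q') :
    IsLR (g * h : OV ℍ) (p * p') (q * q') := h1.comp h2

theorem IsLR.unique {g h : ℍ → ℍ} {p q : ℍ} (h1 : IsLR g p q) (h2 : IsLR h p q) : g = h :=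
  funext fun x => by rw [h1.eq, h2.eq]

theorem IsLR.uniqueO {g h : OV ℍ} {p q : ℍ} (h1 : IsLR g p q) (h2 : IsLR h p q) : g = h :=
  DFunLike.coe_injective (h1.unique h2)

theorem IsLR.fix_one {g : ℍ → ℍ} {p q : ℍ} (h : IsLR g p q) (e : g 1 = 1) : q = p := by
  rw [h.eq, mul_one] at e
  calc q = (p * star q) * q := by rw [e, one_mul]
    _ = p := by rw [mul_assoc, h.r.sm, mul_one]

theorem IsLB.fix_one {g : ℍ → ℍ} {p q : ℍ} (h : IsLB g p q) (e : g 1 = 1) : q = p := by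
  rw [h.eq, star_one, mul_one] at e
  calc q = (p * star q) * q := by rw [e, one_mul]
    _ = p := by rw [mul_assoc, h.r.sm, mul_one]

theorem IsLB.neg {g : ℍ → ℍ} {p q : ℍ} (h : IsLB g p q) : IsLB g (-p) (-q) :=
  ⟨h.l.neg, h.r.neg, fun x => by rw [h.eq]; simp⟩

theorem central {c : ℍ} (h1 : c * qt 0 1 0 0 = qt 0 1 0 0 * c) (h2 : c * qt 0 0 1 0 = qt 0 0 1 0 * c) :
    c.imI = 0 ∧ c.imJ = 0 ∧ c.imK = 0 := by
  have a1 := congrArg (·.imJ) h1
  have a2 := congrArg (·.imK) h1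
  have a3 := congrArg (·.imK) h2
  simp [qt] at a1 a2 a3
  exact ⟨by linarith, by linarith, by linarith⟩

theorem IsLR.pm {g : ℍ → ℍ} {p q p' q' : ℍ} (h1 : IsLR g p q) (h2 : IsLR g p' q') :
    (p' = p ∧ q' = q) ∨ (p' = -p ∧ q' = -q) := by
  have key : ∀ x, star p' * p * x = x * (star q' * q) := fun x => by
    have := (h1.eq x).symm.trans (h2.eq x)
    calc star p' * p * x = star p' * (p * x * star q) * q := by
          simp only [mul_assoc, h1.r.sm, mul_one]
      _ = _ := by rw [this]; simp only [mul_assoc, h2.l.sm']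
  have e := key 1
  rw [mul_one, one_mul] at e
  have hu := h2.l.star.mul h1.l
  have hc := central (c := star p' * p) (by rw [key, e]) (by rw [key, e])
  have := hu.def'
  rw [hc.1, hc.2.1, hc.2.2] at this
  have e1 : p = p' * (star p' * p) := (h2.l.ms' p).symm
  have e2 : q = q' * (star p' * p) := by rw [e, h2.r.ms']
  rcases hu.eq_pm (by linarith) with h | h
  · left; rw [h, mul_one] at e1 e2; exact ⟨e1.symm, e2.symm⟩
  · right; rw [h] at e1 e2; exact ⟨by rw [e1]; simp, by rw [e2]; simp⟩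

theorem not_LR_LB {g : ℍ → ℍ} {p q p' q' : ℍ} (h1 : IsLR g p q) (h2 : IsLB g p' q') : False := by
  have key : ∀ x, star p' * p * x = star x * (star q' * q) := fun x => by
    have := (h1.eq x).symm.trans (h2.eq x)
    calc star p' * p * x = star p' * (p * x * star q) * q := by
          simp only [mul_assoc, h1.r.sm, mul_one]
      _ = _ := by rw [this]; simp only [mul_assoc, h2.l.sm']
  have e := key 1
  rw [mul_one, star_one, one_mul] at e
  have hu := (h2.l.star.mul h1.l).def'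
  have k1 := key (qt 0 1 0 0)
  have k2 := key (qt 0 0 1 0)
  have k3 := key (qt 0 0 0 1)
  rw [← e] at k1 k2 k3
  generalize star p' * p = c at hu k1 k2 k3
  have a1 := congrArg (·.re) k1
  have a2 := congrArg (·.re) k2
  have a3 := congrArg (·.re) k3
  have a4 := congrArg (·.imI) k1
  simp [qt] at a1 a2 a3 a4
  rw [show c.imI = 0 by linarith, show c.imJ = 0 by linarith, show c.imK = 0 by linarith,
    show c.re = 0 by linarith] at hu
  simp at hu

theorem rf_isLB {n : ℍ} (hn : Un n) : IsLB (rf n) (-n) (star n) :=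
  ⟨hn.neg, hn.star, fun x => by
    have := hn.def'
    rw [rf_apply hn.inner, inner_coord]
    ext <;> simp
    · linear_combination (-x.re) * this
    · linear_combination (-x.imI) * this
    · linear_combination (-x.imJ) * this
    · linear_combination (-x.imK) * this⟩

/-- Every orthogonal map of the quaternions is `p x q⁻¹` or `p x̄ q⁻¹`. -/
theorem O4 (g : OV ℍ) : ∃ p q, IsLR g p q ∨ IsLB g p q := by
  obtain ⟨l, -, rfl⟩ := g.reflections_generate_dim
  induction l with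
  | nil => exact ⟨1, 1, Or.inl IsLR.id⟩
  | cons v l ih =>
    rw [List.map_cons, List.prod_cons]
    by_cases hv : v = 0
    · have : Submodule.reflection (ℝ ∙ v)ᗮ = 1 := by
        ext1 x
        exact Submodule.reflection_mem_subspace_eq_self (by simp [hv])
      rw [this, one_mul]
      exact ih
    · have hn := unit_of_ne hv
      have : Submodule.reflection (ℝ ∙ v)ᗮ = rf (‖v‖⁻¹ • v) := by
        simp only [rf, Submodule.span_singleton_smul_eq
          (IsUnit.mk0 _ (inv_ne_zero (norm_ne_zero_iff.2 hv))) v]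
      rw [this]
      have hr := rf_isLB hn
      obtain ⟨p, q, h | h⟩ := ih
      · exact ⟨_, _, Or.inr ⟨hr.l.mul h.r, hr.r.mul h.l, fun x => by
          rw [OV.mul_apply, hr.eq, h.eq]; simp only [star_mul, star_star, mul_assoc]⟩⟩
      · exact ⟨_, _, Or.inl ⟨hr.l.mul h.r, hr.r.mul h.l, fun x => by
          rw [OV.mul_apply, hr.eq, h.eq]; simp only [star_mul, star_star, mul_assoc]⟩⟩

theorem O3 {g : OV ℍ} (e : g 1 = 1) : ∃ p, IsLR g p p ∨ IsLB g p p := by
  obtain ⟨p, q, h | h⟩ := O4 g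
  · obtain rfl := h.fix_one e; exact ⟨_, Or.inl h⟩
  · obtain rfl := h.fix_one e; exact ⟨_, Or.inr h⟩

/-- an orthogonal map from a norm preserving linear map -/
noncomputable def mkO (f : ℍ →ₗ[ℝ] ℍ) (h : ∀ x, ‖f x‖ = ‖x‖) : OV ℍ :=
  (⟨f, h⟩ : ℍ →ₗᵢ[ℝ] ℍ).toLinearIsometryEquiv rfl

/-- `x ↦ p x q⁻¹` -/
noncomputable def lrO {p q : ℍ} (hp : Un p) (hq : Un q) : OV ℍ :=
  mkO (LinearMap.mulRight ℝ (star q) ∘ₗ LinearMap.mulLeft ℝ p) fun x => by
    show ‖p * x * star q‖ = _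
    rw [norm_mul, norm_mul, hp.norm, hq.star.norm, one_mul, mul_one]

theorem lrO_isLR {p q : ℍ} (hp : Un p) (hq : Un q) : IsLR (lrO hp hq) p q := ⟨hp, hq, fun _ => rfl⟩

/-- conjugation -/
noncomputable def barO : OV ℍ :=
  mkO { toFun := star, map_add' := star_add, map_smul' := fun c x => by simp } Quaternion.norm_star

theorem barO_apply (x : ℍ) : barO x = star x := rfl

theorem barO_mul : barO * barO = 1 := by ext1 x; exact star_star x

theorem barO_inv : barO⁻¹ = barO := inv_eq_of_mul_eq_one_right barO_mul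

theorem IsLB.mul_bar {g : OV ℍ} {p q : ℍ} (h : IsLB g p q) : IsLR (g * barO : OV ℍ) p q :=
  ⟨h.l, h.r, fun x => by rw [OV.mul_apply, barO_apply, h.eq, star_star]⟩

theorem IsLR.mul_bar {g : OV ℍ} {p q : ℍ} (h : IsLR g p q) : IsLB (g * barO : OV ℍ) p q :=
  ⟨h.l, h.r, fun x => by rw [OV.mul_apply, barO_apply, h.eq]⟩

theorem IsLR.bar_conj {g : OV ℍ} {p q : ℍ} (h : IsLR g p q) :
    IsLR (barO * g * barO : OV ℍ) q p :=
  ⟨h.r, h.l, fun x => by
    rw [OV.mul_apply, OV.mul_apply, barO_apply, barO_apply, h.eq]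
    simp only [star_mul, star_star, mul_assoc]⟩

/-! ### Commuting pure quaternions -/

theorem pure_sq {y : ℍ} (h : y.re = 0) : y * y = -((normSq y : ℝ) : ℍ) := by
  rw [← sq]; exact sq_eq_neg_normSq.2 h

theorem pm_of_comm {y z : ℍ} (hy : y.re = 0) (hz : z.re = 0) (hn : normSq z = normSq y)
    (hc : z * y = y * z) : z = y ∨ z = -y := by
  have : (z - y) * (z + y) = 0 := by
    rw [sub_mul, mul_add, mul_add, pure_sq hy, pure_sq hz, hn, hc]; abel
  rcases mul_eq_zero.1 this with h | h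
  · exact Or.inl (sub_eq_zero.1 h)
  · exact Or.inr (eq_neg_of_add_eq_zero_left h)

theorem conj_re {k : ℍ} (hk : Un k) (y : ℍ) : (k * y * star k).re = y.re := by
  have := hk.def'
  simp
  linear_combination y.re * this

theorem conj_normSq {k : ℍ} (hk : Un k) (y : ℍ) : normSq (k * y * star k) = normSq y := by
  rw [map_mul, map_mul, normSq_star, show normSq k = 1 from hk, one_mul, mul_one]

theorem comm_trans {y u w : ℍ} (hy : y.re = 0) (y0 : y ≠ 0) (h1 : u * y = y * u)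
    (h2 : w * y = y * w) : u * w = w * u := by
  have a1 := congrArg (·.imI) h1
  have a2 := congrArg (·.imJ) h1
  have a3 := congrArg (·.imK) h1
  have b1 := congrArg (·.imI) h2
  have b2 := congrArg (·.imJ) h2
  have b3 := congrArg (·.imK) h2
  simp at a1 a2 a3 b1 b2 b3
  have hN : y.imI ^ 2 + y.imJ ^ 2 + y.imK ^ 2 ≠ 0 := fun e => y0 (by
    rw [← normSq_eq_zero, normSq_def', hy]; linarith)
  ext <;> simp
  · ring
  · apply mul_left_cancel₀ hN
    linear_combination (-(u.imI * y.imI + u.imJ * y.imJ + u.imK * y.imK)) * b1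
      + (y.imI * w.imI + y.imJ * w.imJ + y.imK * w.imK) * a1
      - y.imI * (w.imI * a1 + w.imJ * a2 + w.imK * a3)
  · apply mul_left_cancel₀ hN
    linear_combination (-(u.imI * y.imI + u.imJ * y.imJ + u.imK * y.imK)) * b2
      + (y.imI * w.imI + y.imJ * w.imJ + y.imK * w.imK) * a2
      - y.imJ * (w.imI * a1 + w.imJ * a2 + w.imK * a3)
  · apply mul_left_cancel₀ hN
    linear_combination (-(u.imI * y.imI + u.imJ * y.imJ + u.imK * y.imK)) * b3
      + (y.imI * w.imI + y.imJ * w.imJ + y.imK * w.imK) * a3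
      - y.imK * (w.imI * a1 + w.imJ * a2 + w.imK * a3)

theorem comm_im (p x : ℍ) : p.im * x - x * p.im = p * x - x * p := by
  ext <;> simp <;> ring

theorem comm_im_iff (p x : ℍ) : x * p.im = p.im * x ↔ x * p = p * x := by
  rw [eq_comm, ← sub_eq_zero, comm_im, sub_eq_zero, eq_comm]

theorem Un.normSq_im {p : ℍ} (hp : Un p) : normSq p.im = 1 - p.re ^ 2 := by
  have := hp.def'
  rw [normSq_def']; simp; linarith

/-- A set of unit quaternions closed under products and inverses. -/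
structure QSet (Q : Set ℍ) : Prop where
  unit : ∀ p ∈ Q, Un p
  one : 1 ∈ Q
  mul : ∀ p ∈ Q, ∀ q ∈ Q, p * q ∈ Q
  star : ∀ p ∈ Q, star p ∈ Q
  neg : ∀ p ∈ Q, -p ∈ Q

/-- No invariant axis. -/
def Irr (Q : Set ℍ) : Prop :=
  ∀ y : ℍ, y.re = 0 → y ≠ 0 → ∃ k ∈ Q, k * y * star k * y ≠ y * (k * y * star k)

theorem irr_of {Q : Set ℍ} {s a : ℍ} (hs : s ∈ Q) (ha : a ∈ Q) (us : Un s) (ua : Un a)
    (h0 : s.re ≠ 0) (h2 : a * s.im * star a * s.im ≠ s.im * (a * s.im * star a)) :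
    Irr Q := by
  intro y hy y0
  by_contra hne
  push Not at hne
  have e1 := pm_of_comm hy ((conj_re us y).trans hy) (conj_normSq us y) (hne s hs)
  have e2 : s * s * y = y * (s * s) := by
    have : s * (s * y * star s) * star s = y := by
      rcases e1 with e | e
      · rw [e, e]
      · rw [e, mul_neg, neg_mul, e, neg_neg]
    conv_rhs => rw [← this]
    simp only [mul_assoc, us.sm', us.sm, mul_one]
  rw [us.sq, sub_mul, mul_sub, one_mul, mul_one, sub_left_inj, smul_mul_assoc, mul_smul_comm,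
    smul_right_inj (by simpa using h0)] at e2
  have e3 : s.im * y = y * s.im := ((comm_im_iff s y).2 e2.symm).symm
  have e4 := hne a ha
  have e5 : a * s.im * star a * (a * y * star a) = a * y * star a * (a * s.im * star a) := by
    simp only [mul_assoc, ua.sm']
    rw [← mul_assoc s.im, e3, mul_assoc]
  have y0' : a * y * star a ≠ 0 := mul_ne_zero (mul_ne_zero ua.ne y0) ua.star.ne
  have e6 := comm_trans ((conj_re ua y).trans hy) y0' e5 e4.symm
  exact h2 (comm_trans hy y0 e6 e3)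

/-- The commutator estimate. -/
theorem commutator_est {p p' : ℍ} (hp : Un p) (hp' : Un p') (e : p'.re = p.re)
    (hne : p' * p ≠ p * p') :
    0 < 1 - (p * p' * star p * star p').re ∧
      1 - (p * p' * star p * star p').re ≤ 2 * (1 - p.re ^ 2) ^ 2 := by
  have hc := ((hp.mul hp').mul hp.star).mul hp'.star
  have e1 : p * p' * star p * star p' - 1 = (p * p' - p' * p) * (star p * star p') := by
    simp only [sub_mul, mul_assoc, hp.ms', hp'.ms]
  have e2 : normSq (p * p' * star p * star p' - 1) = normSq (p * p' - p' * p) := by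
    rw [e1, map_mul, show normSq (star p * star p') = 1 from hp.star.mul hp'.star, mul_one]
  have e3 : ∀ c : ℍ, Un c → normSq (c - 1) = 2 * (1 - c.re) := fun c hc => by
    have := hc.def'
    rw [normSq_def']; simp; linarith
  rw [e3 _ hc] at e2
  have h1 : 0 < normSq (p * p' - p' * p) :=
    lt_of_le_of_ne normSq_nonneg (Ne.symm (normSq_ne_zero.2 (sub_ne_zero.2 hne.symm)))
  have h2 : normSq (p * p' - p' * p) ≤ 4 * (1 - p.re ^ 2) ^ 2 := by
    have a1 := hp.def'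
    have a2 := hp'.def'
    rw [e] at a2
    have : normSq (p * p' - p' * p) = 4 * ((p.imI ^ 2 + p.imJ ^ 2 + p.imK ^ 2) *
        (p'.imI ^ 2 + p'.imJ ^ 2 + p'.imK ^ 2)
        - (p.imI * p'.imI + p.imJ * p'.imJ + p.imK * p'.imK) ^ 2) := by
      rw [normSq_def']; simp; ring
    rw [this, show p.imI ^ 2 + p.imJ ^ 2 + p.imK ^ 2 = 1 - p.re ^ 2 by linarith,
      show p'.imI ^ 2 + p'.imJ ^ 2 + p'.imK ^ 2 = 1 - p.re ^ 2 by linarith]
    nlinarith [sq_nonneg (p.imI * p'.imI + p.imJ * p'.imJ + p.imK * p'.imK)]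
  constructor <;> linarith

theorem conj_im {k : ℍ} (hk : Un k) (p : ℍ) : (k * p * star k).im = k * p.im * star k := by
  have e : k * p * star k = (p.re : ℍ) + k * p.im * star k := by
    conv_lhs => rw [← re_add_im p]
    rw [mul_add, add_mul, mul_coe_eq_smul, smul_mul_assoc, hk.ms, ← coe_mul_eq_smul, mul_one]
  have e2 : (k * p.im * star k).re = 0 := conj_re hk _
  rw [e]
  ext <;> simp only [re_im, imI_im, imJ_im, imK_im, imI_add, imJ_add, imK_add, imI_coe, imJ_coe,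
    imK_coe, zero_add, e2]

theorem Irr.exists_conj {Q : Set ℍ} (hQ : QSet Q) (hI : Irr Q) {p : ℍ} (hp : Un p)
    (h : p.re ^ 2 ≠ 1) : ∃ k ∈ Q, k * p * star k * p ≠ p * (k * p * star k) := by
  have : p.im ≠ 0 := fun e => h (by
    have := hp.normSq_im
    rw [e, map_zero] at this; linarith)
  obtain ⟨k, hk, hne⟩ := hI p.im rfl this
  refine ⟨k, hk, fun e => hne ?_⟩
  rw [← conj_im (hQ.unit k hk), comm_im_iff, eq_comm, comm_im_iff]
  exact e.symm

/-- The eleven possible coordinates. -/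
noncomputable def cv : ℕ → ℝ
  | 0 => 0
  | 1 => 1 / 2
  | 2 => -(1 / 2)
  | 3 => √2 / 2
  | 4 => -(√2 / 2)
  | 5 => (1 + √5) / 4
  | 6 => -((1 + √5) / 4)
  | 7 => (√5 - 1) / 4
  | 8 => -((√5 - 1) / 4)
  | 9 => 1
  | _ => -1

/-- one of the eleven values -/
def InC (x : ℝ) : Prop := ∃ k, k < 11 ∧ x = cv k

theorem sq2 : √2 * √2 = (2 : ℝ) := Real.mul_self_sqrt (by norm_num)
theorem sq5 : √5 * √5 = (5 : ℝ) := Real.mul_self_sqrt (by norm_num)

theorem inC_of_cheb {t : ℝ} (h1 : t ^ 2 = 1 ∨ t ^ 2 < 3 / 4)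
    (h2 : (2 * t ^ 2 - 1) ^ 2 = 1 ∨ (2 * t ^ 2 - 1) ^ 2 < 3 / 4)
    (h3 : (4 * t ^ 3 - 3 * t) ^ 2 = 1 ∨ (4 * t ^ 3 - 3 * t) ^ 2 < 3 / 4)
    (h4 : (8 * t ^ 4 - 8 * t ^ 2 + 1) ^ 2 = 1 ∨ (8 * t ^ 4 - 8 * t ^ 2 + 1) ^ 2 < 3 / 4)
    (h5 : (16 * t ^ 5 - 20 * t ^ 3 + 5 * t) ^ 2 = 1 ∨
      (16 * t ^ 5 - 20 * t ^ 3 + 5 * t) ^ 2 < 3 / 4) : InC t := by
  have pm : ∀ c : ℝ, t ^ 2 = c ^ 2 → t = c ∨ t = -c := fun c h => sq_eq_sq_iff_eq_or_eq_neg.1 h
  rcases h1 with h1 | h1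
  · rcases pm 1 (by linarith) with h | h
    · exact ⟨9, by omega, h⟩
    · exact ⟨10, by omega, h⟩
  obtain ⟨s, hs⟩ : ∃ s, s = t ^ 2 := ⟨_, rfl⟩
  have s0 : 0 ≤ s := hs ▸ sq_nonneg t
  have e3 : (4 * t ^ 3 - 3 * t) ^ 2 = 1 - (1 - s) * (4 * s - 1) ^ 2 := by rw [hs]; ring
  have e4 : 8 * t ^ 4 - 8 * t ^ 2 + 1 = 8 * s ^ 2 - 8 * s + 1 := by rw [hs]; ring
  have e5 : (16 * t ^ 5 - 20 * t ^ 3 + 5 * t) ^ 2
      = 1 - (1 - s) * (16 * s ^ 2 - 12 * s + 1) ^ 2 := by rw [hs]; ring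
  rw [e3] at h3
  rw [e4] at h4
  rw [e5] at h5
  rw [← hs] at h1 h2
  have five : (1 - s) * (16 * s ^ 2 - 12 * s + 1) ^ 2 ≤ 1 / 4 → InC t := by
    intro hle
    have : (1 - s) * (16 * s ^ 2 - 12 * s + 1) ^ 2 = 0 := by
      rcases h5 with h | h <;> linarith
    rw [mul_eq_zero, or_iff_right (by linarith), pow_eq_zero_iff (by omega)] at this
    have e : (t ^ 2 - ((1 + √5) / 4) ^ 2) * (t ^ 2 - ((√5 - 1) / 4) ^ 2) = 0 := by
      rw [← hs]
      linear_combination (1 / 16) * this + (-(s / 8) + (√5 * √5 + 3) / 256) * sq5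
    rcases mul_eq_zero.1 e with e | e
    · rcases pm _ (sub_eq_zero.1 e) with h | h
      · exact ⟨5, by omega, h⟩
      · exact ⟨6, by omega, h⟩
    · rcases pm _ (sub_eq_zero.1 e) with h | h
      · exact ⟨7, by omega, h⟩
      · exact ⟨8, by omega, h⟩
  by_cases c1 : s ≤ 6 / 100
  · have : s = 0 := by
      rcases h2 with h | h
      · nlinarith
      · nlinarith
    exact ⟨0, by omega, pow_eq_zero_iff (n := 2) (by omega) |>.1 (hs ▸ this)⟩
  by_cases c2 : s ≤ 14 / 100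
  · refine five ?_
    have : (16 * s ^ 2 - 12 * s + 1) ^ 2 ≤ (4 / 10) ^ 2 :=
      sq_le_sq' (by nlinarith) (by nlinarith)
    nlinarith [sq_nonneg (16 * s ^ 2 - 12 * s + 1)]
  by_cases c3 : s ≤ 39 / 100
  · have hle : (1 - s) * (4 * s - 1) ^ 2 ≤ 1 / 4 := by
      by_cases c : s ≤ 1 / 4
      · have : (4 * s - 1) ^ 2 ≤ (44 / 100) ^ 2 := sq_le_sq' (by linarith) (by linarith)
        nlinarith [sq_nonneg (4 * s - 1)]
      · have : (4 * s - 1) ^ 2 ≤ (56 / 100) ^ 2 := sq_le_sq' (by linarith) (by linarith)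
        nlinarith [sq_nonneg (4 * s - 1)]
    have : (1 - s) * (4 * s - 1) ^ 2 = 0 := by
      rcases h3 with h | h <;> linarith
    rw [mul_eq_zero, or_iff_right (by linarith), pow_eq_zero_iff (by omega)] at this
    rcases pm (1 / 2) (by linarith) with h | h
    · exact ⟨1, by omega, h⟩
    · exact ⟨2, by omega, h⟩
  by_cases c4 : s ≤ 6 / 10
  · have hle : 8 * s ^ 2 - 8 * s + 1 ≤ -(9 / 10) := by nlinarith
    have : (8 * s ^ 2 - 8 * s + 1) ^ 2 = 1 := by
      rcases h4 with h | h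
      · exact h
      · nlinarith
    have e : (8 * s ^ 2 - 8 * s) * (2 * (2 * s - 1) ^ 2) = 0 := by linear_combination this
    rw [mul_eq_zero, or_iff_right (by linarith), mul_eq_zero, or_iff_right (by norm_num),
      pow_eq_zero_iff (by omega)] at e
    rcases pm (√2 / 2) (by linear_combination (1 / 2) * e - hs - (1 / 4) * sq2) with h | h
    · exact ⟨3, by omega, h⟩
    · exact ⟨4, by omega, h⟩
  refine five ?_
  by_cases c5 : s ≤ 7 / 10
  · have : (16 * s ^ 2 - 12 * s + 1) ^ 2 ≤ (44 / 100) ^ 2 :=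
      sq_le_sq' (by nlinarith) (by nlinarith)
    nlinarith [sq_nonneg (16 * s ^ 2 - 12 * s + 1)]
  · have a1 : 0 ≤ 16 * s ^ 2 - 12 * s + 1 := by nlinarith
    have a2 : 16 * s ^ 2 - 12 * s + 1 ≤ 1 - 112 / 10 * (3 / 4 - s) := by nlinarith
    have a3 : (1 - s) * (16 * s ^ 2 - 12 * s + 1) ≤ 1 / 4 := by nlinarith
    have a4 : 16 * s ^ 2 - 12 * s + 1 ≤ 1 := by nlinarith
    nlinarith

/-- The real parts of a discrete irreducible group of unit quaternions. -/
theorem lemmaR {Q : Set ℍ} (hQ : QSet Q) (hI : Irr Q) {δ : ℝ} (hδ : 0 < δ)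
    (hd : ∀ p ∈ Q, p.re ^ 2 = 1 ∨ δ ≤ 1 - p.re ^ 2) : ∀ p ∈ Q, InC p.re := by
  have step : ∀ p ∈ Q, p.re ^ 2 ≠ 1 → 1 - p.re ^ 2 ≤ 1 / 4 → ∃ c ∈ Q, c.re ^ 2 ≠ 1 ∧
      1 - c.re ^ 2 ≤ 15 / 64 ∧ 1 - c.re ^ 2 ≤ 4 * (1 - p.re ^ 2) ^ 2 := by
    intro p hp h1 h2
    have up := hQ.unit p hp
    obtain ⟨k, hk, hne⟩ := hI.exists_conj hQ up h1
    have hp' : k * p * star k ∈ Q := hQ.mul _ (hQ.mul _ hk _ hp) _ (hQ.star _ hk)
    obtain ⟨a1, a2⟩ := commutator_est up (hQ.unit _ hp') (conj_re (hQ.unit k hk) p) hne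
    refine ⟨_, hQ.mul _ (hQ.mul _ (hQ.mul _ hp _ hp') _ (hQ.star _ hp)) _ (hQ.star _ hp'), ?_⟩
    generalize (p * (k * p * star k) * star p * star (k * p * star k)).re = c at a1 a2
    have := up.re_sq_le
    have a3 : 1 - c ≤ 1 / 8 := by nlinarith
    refine ⟨fun e => ?_, by nlinarith, by nlinarith⟩
    nlinarith
  have big : ∀ p ∈ Q, p.re ^ 2 = 1 ∨ p.re ^ 2 < 3 / 4 := by
    intro p hp
    by_contra hne
    push Not at hne
    have key : ∀ N : ℕ, ∃ c ∈ Q, c.re ^ 2 ≠ 1 ∧ 1 - c.re ^ 2 ≤ 15 / 64 ∧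
        1 - c.re ^ 2 ≤ (15 / 16) ^ N := by
      intro N
      induction N with
      | zero =>
        obtain ⟨c, hc, a1, a2, -⟩ := step p hp hne.1 (by linarith [hne.2])
        exact ⟨c, hc, a1, a2, by linarith⟩
      | succ N ih =>
        obtain ⟨c, hc, a1, a2, a3⟩ := ih
        obtain ⟨d, hd, b1, b2, b3⟩ := step c hc a1 (by linarith)
        have := (hQ.unit c hc).re_sq_le
        exact ⟨d, hd, b1, b2, by rw [pow_succ (15 / 16 : ℝ)]; nlinarith⟩
    obtain ⟨N, hN⟩ := exists_pow_lt_of_lt_one hδ (show (15 / 16 : ℝ) < 1 by norm_num)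
    obtain ⟨c, hc, a1, -, a3⟩ := key N
    rcases hd c hc with h | h
    · exact a1 h
    · linarith
  intro p hp
  have up := hQ.unit p hp
  have rec' : ∀ q : ℍ, (p * (p * q)).re = 2 * p.re * (p * q).re - q.re := fun q => by
    rw [← mul_assoc, up.sq, sub_mul, one_mul, smul_mul_assoc, re_sub, re_smul, smul_eq_mul]
  have m2 := hQ.mul _ hp _ hp
  have m3 := hQ.mul _ hp _ m2
  have m4 := hQ.mul _ hp _ m3
  have m5 := hQ.mul _ hp _ m4
  have r2 : (p * p).re = 2 * p.re ^ 2 - 1 := by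
    have := rec' 1
    rw [mul_one] at this
    rw [this]; simp; ring
  have r3 : (p * (p * p)).re = 4 * p.re ^ 3 - 3 * p.re := by rw [rec', r2]; ring
  have r4 : (p * (p * (p * p))).re = 8 * p.re ^ 4 - 8 * p.re ^ 2 + 1 := by
    rw [rec', r3, r2]; ring
  have r5 : (p * (p * (p * (p * p)))).re = 16 * p.re ^ 5 - 20 * p.re ^ 3 + 5 * p.re := by
    rw [rec', r4, r3]; ring
  exact inC_of_cheb (big p hp) (r2 ▸ big _ m2) (r3 ▸ big _ m3) (r4 ▸ big _ m4) (r5 ▸ big _ m5)

theorem discrete_of_finite {Q : Set ℍ} (hQ : QSet Q) (hf : ((fun p : ℍ => p.re ^ 2) '' Q).Finite) :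
    ∃ δ : ℝ, 0 < δ ∧ ∀ p ∈ Q, p.re ^ 2 = 1 ∨ δ ≤ 1 - p.re ^ 2 := by
  by_cases hne : ((fun p : ℍ => p.re ^ 2) '' Q \ {1}).Nonempty
  · obtain ⟨_, ⟨⟨q, hq, rfl⟩, h1⟩, hm⟩ := Set.exists_max_image _ id (hf.sdiff) hne
    refine ⟨1 - q.re ^ 2, sub_pos.2 (lt_of_le_of_ne (hQ.unit q hq).re_sq_le h1), fun p hp => ?_⟩
    by_cases e : p.re ^ 2 = 1
    · exact Or.inl e
    · exact Or.inr (sub_le_sub_left (hm _ ⟨⟨p, hp, rfl⟩, e⟩) 1)
  · refine ⟨1, one_pos, fun p hp => Or.inl ?_⟩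
    by_contra e
    exact hne ⟨_, ⟨p, hp, rfl⟩, e⟩

/-- left factors -/
def QL (G : Subgroup (OV ℍ)) : Set ℍ := {p | ∃ g ∈ G, ∃ q, IsLR g p q}

/-- right factors -/
def QR (G : Subgroup (OV ℍ)) : Set ℍ := {q | ∃ g ∈ G, ∃ p, IsLR g p q}

theorem QL_qset (G : Subgroup (OV ℍ)) : QSet (QL G) :=
  ⟨fun _ ⟨_, _, _, h⟩ => h.l, ⟨1, one_mem _, 1, IsLR.id⟩,
    fun _ ⟨_, a, _, h⟩ _ ⟨_, b, _, h'⟩ => ⟨_, mul_mem a b, _, h.mulO h'⟩,
    fun _ ⟨_, a, _, h⟩ => ⟨_, inv_mem a, _, h.invO⟩, fun _ ⟨_, a, _, h⟩ => ⟨_, a, _, h.neg⟩⟩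

theorem QR_qset (G : Subgroup (OV ℍ)) : QSet (QR G) :=
  ⟨fun _ ⟨_, _, _, h⟩ => h.r, ⟨1, one_mem _, 1, IsLR.id⟩,
    fun _ ⟨_, a, _, h⟩ _ ⟨_, b, _, h'⟩ => ⟨_, mul_mem a b, _, h.mulO h'⟩,
    fun _ ⟨_, a, _, h⟩ => ⟨_, inv_mem a, _, h.invO⟩, fun _ ⟨_, a, _, h⟩ => ⟨_, a, _, h.neg⟩⟩

theorem QL_inC (G : Subgroup (OV ℍ)) [Finite G] (hI : Irr (QL G)) : ∀ p ∈ QL G, InC p.re := by
  obtain ⟨δ, h1, h2⟩ := discrete_of_finite (QL_qset G) (by
    refine (Set.finite_range fun g : G => (O4 g.1).choose.re ^ 2).subset ?_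
    rintro _ ⟨p, ⟨g, hg, q, h⟩, rfl⟩
    refine ⟨⟨g, hg⟩, ?_⟩
    obtain ⟨q', h' | h'⟩ := (O4 g).choose_spec
    · rcases h.pm h' with e | e
      · exact congrArg (fun x : ℍ => x.re ^ 2) e.1
      · show (O4 g).choose.re ^ 2 = p.re ^ 2
        rw [e.1]; simp
    · exact (not_LR_LB h h').elim)
  exact lemmaR (QL_qset G) hI h1 h2

theorem QR_inC (G : Subgroup (OV ℍ)) [Finite G] (hI : Irr (QR G)) : ∀ p ∈ QR G, InC p.re := by
  obtain ⟨δ, h1, h2⟩ := discrete_of_finite (QR_qset G) (by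
    refine (Set.finite_range fun g : G => (O4 g.1).choose_spec.choose.re ^ 2).subset ?_
    rintro _ ⟨p, ⟨g, hg, q, h⟩, rfl⟩
    refine ⟨⟨g, hg⟩, ?_⟩
    rcases (O4 g).choose_spec.choose_spec with h' | h'
    · rcases h.pm h' with e | e
      · exact congrArg (fun x : ℍ => x.re ^ 2) e.2
      · show (O4 g).choose_spec.choose.re ^ 2 = p.re ^ 2
        rw [e.2]; simp
    · exact (not_LR_LB h h').elim)
  exact lemmaR (QR_qset G) hI h1 h2

/-- Normal form of a pair of quaternions under conjugation. -/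
theorem exists_conj_pair {s a s0 a0 n0 : ℍ} (us : Un s) (ua : Un a) (us0 : Un s0) (ua0 : Un a0)
    (un : Un n0) (ha : a.re = 0) (ha0 : a0.re = 0) (h1 : s.re = s0.re) (h2 : ⟪s, a⟫ = ⟪s0, a0⟫)
    (n1 : n0 * s0 * star n0 = star s0) (n2 : n0 * a0 * star n0 = -a0) :
    ∃ q, Un q ∧ q * s * star q = s0 ∧ q * a * star q = a0 := by
  let φ1 : OV ℍ := Submodule.reflection (ℝ ∙ (a - a0))ᗮ
  have f1 : φ1 a = a0 := Submodule.reflection_sub (by rw [ua.norm, ua0.norm])
  have f2 : φ1 1 = 1 := Submodule.reflection_mem_subspace_eq_self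
    (Submodule.mem_orthogonal_singleton_iff_inner_right.2 (by
      rw [inner_coord]; simp [ha, ha0]))
  let φ2 : OV ℍ := Submodule.reflection (ℝ ∙ (φ1 s - s0))ᗮ
  have g1 : φ2 (φ1 s) = s0 := Submodule.reflection_sub (by rw [φ1.norm_map, us.norm, us0.norm])
  have g2 : φ2 1 = 1 := Submodule.reflection_mem_subspace_eq_self
    (Submodule.mem_orthogonal_singleton_iff_inner_right.2 (by
      rw [inner_sub_left, ← f2, φ1.inner_map_map, f2, inner_coord, inner_coord]; simp [h1]))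
  have g3 : φ2 a0 = a0 := Submodule.reflection_mem_subspace_eq_self
    (Submodule.mem_orthogonal_singleton_iff_inner_right.2 (by
      rw [inner_sub_left, ← h2, ← f1, φ1.inner_map_map, sub_self]))
  obtain ⟨q, h | h⟩ := O3 (g := φ2 * φ1) (by rw [OV.mul_apply, f2, g2])
  · exact ⟨q, h.l, by rw [← h.eq, OV.mul_apply, g1], by rw [← h.eq, OV.mul_apply, f1, g3]⟩
  · have e1 : q * star s * star q = s0 := by rw [← h.eq, OV.mul_apply, g1]
    have e2 : q * star a * star q = a0 := by rw [← h.eq, OV.mul_apply, f1, g3]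
    have e3 : q * s * star q = star s0 := by rw [← e1]; simp [mul_assoc]
    have e4 : q * a * star q = -a0 := by rw [← e2, star_eq_neg.2 ha]; simp
    have n3 : n0 * star s0 * star n0 = s0 := by
      have := congrArg star n1
      simpa [mul_assoc] using this
    refine ⟨n0 * q, un.mul h.l, ?_, ?_⟩
    · rw [← n3, ← e3]; simp [mul_assoc]
    · rw [← neg_neg a0, ← n2, ← neg_mul, ← mul_neg, ← e4]; simp [mul_assoc]

end Pool.Agent.MP_d6da41_co

end MrgPart1

-- marker of a merged file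
example : 731051 + 687628 = 731051 + 687628 := rfl
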