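import Mathlib.Data.Int.Star
import Mathlib.Algebra.Order.Ring.Star
import Mathlib.NumberTheory.Real.Irrational
import Pool.Agent.MP_d6da41_co.Quat
import Mathlib.NumberTheory.Zsqrtd.Basic
import Mathlib.Analysis.InnerProductSpace.Adjoint
import Mathlib.Analysis.Normed.Affine.MazurUlam

-- ======== part 0: formerly Pool.Agent.MP_d6da41_co.Mod
section MrgPart0

/-! Arithmetic of quaternions modulo the prime 32719, search trees and generic checkers. -/

namespace Pool.Agent.MP_d6da41_co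

open Quaternion

/-- residues -/
abbrev ZP : Type := ZMod 32719

/-- The graph of the reduction map from `ℤ[1/2, √2, √5]`. -/
def RelZ (x : ℝ) (m : ZP) : Prop :=
  ∃ (k : ℕ) (a b c d : ℤ), 2 ^ k * x = a + b * √2 + c * √5 + d * (√2 * √5) ∧
    2 ^ k * m = a + b * 14059 + c * 14562 + d * (14059 * 14562)

theorem descent : ∀ (n : ℕ) (a b c d : ℤ), c ^ 2 + 2 * d ^ 2 ≤ n →
    a ^ 2 + 2 * b ^ 2 = 5 * (c ^ 2 + 2 * d ^ 2) → c = 0 ∧ d = 0 := by
  intro n
  induction n with
  | zero =>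
    intro a b c d h _
    rw [Nat.cast_zero] at h
    constructor <;> nlinarith [sq_nonneg c, sq_nonneg d]
  | succ n ih =>
    intro a b c d h e
    have h5 : ∀ x y : ZMod 5, x ^ 2 + 2 * y ^ 2 = 0 → x = 0 ∧ y = 0 := by decide
    have := h5 a b (by
      have := congrArg (Int.cast : ℤ → ZMod 5) e
      push_cast at this
      rw [this]
      exact mul_eq_zero_of_left rfl _)
    obtain ⟨a', rfl⟩ := (ZMod.intCast_zmod_eq_zero_iff_dvd a 5).1 this.1
    obtain ⟨b', rfl⟩ := (ZMod.intCast_zmod_eq_zero_iff_dvd b 5).1 this.2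
    push_cast at e h
    have e' : c ^ 2 + 2 * d ^ 2 = 5 * (a' ^ 2 + 2 * b' ^ 2) := by linarith
    obtain ⟨rfl, rfl⟩ := ih c d a' b' (by nlinarith [sq_nonneg a', sq_nonneg b']) e'
    constructor <;> nlinarith [sq_nonneg c, sq_nonneg d]

theorem indep2 {u v : ℤ} (h : (u : ℝ) + v * √2 = 0) : u = 0 ∧ v = 0 := by
  by_cases hv : v = 0
  · subst hv; simpa using h
  · exact absurd (by push_cast; linarith) ((irrational_sqrt_two.intCast_mul hv).ne_int (-u))

theorem indep {a b c d : ℤ} (h : (a : ℝ) + b * √2 + c * √5 + d * (√2 * √5) = 0) :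
    a = 0 ∧ b = 0 ∧ c = 0 ∧ d = 0 := by
  have e := indep2 (u := a ^ 2 + 2 * b ^ 2 - 5 * (c ^ 2 + 2 * d ^ 2)) (v := 2 * a * b - 10 * c * d)
    (by
      push_cast
      linear_combination (a + b * √2 - (c * √5 + d * (√2 * √5))) * h - (b ^ 2 - 5 * d ^ 2) * sq2
        + (c + d * √2) ^ 2 * sq5)
  obtain ⟨rfl, rfl⟩ := descent (c ^ 2 + 2 * d ^ 2).toNat a b c d (Int.self_le_toNat _)
    (by linarith [e.1])
  have := indep2 (u := a) (v := b) (by simpa using h)
  exact ⟨this.1, this.2, rfl, rfl⟩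

theorem r2_sq : (14059 * 14059 : ZP) = 2 := by decide
theorem r5_sq : (14562 * 14562 : ZP) = 5 := by decide
theorem two_unit : (2 * 16360 : ZP) = 1 := by decide

namespace RelZ
variable {x y : ℝ} {m m' : ZP}

theorem add (h : RelZ x m) (h' : RelZ y m') : RelZ (x + y) (m + m') := by
  obtain ⟨k, a, b, c, d, h1, h2⟩ := h
  obtain ⟨k', a', b', c', d', h1', h2'⟩ := h'
  refine ⟨k + k', 2 ^ k' * a + 2 ^ k * a', 2 ^ k' * b + 2 ^ k * b', 2 ^ k' * c + 2 ^ k * c',
    2 ^ k' * d + 2 ^ k * d', ?_, ?_⟩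
  · push_cast; linear_combination 2 ^ k' * h1 + 2 ^ k * h1'
  · push_cast; linear_combination 2 ^ k' * h2 + 2 ^ k * h2'

theorem neg (h : RelZ x m) : RelZ (-x) (-m) := by
  obtain ⟨k, a, b, c, d, h1, h2⟩ := h
  refine ⟨k, -a, -b, -c, -d, ?_, ?_⟩
  · push_cast; linear_combination -h1
  · push_cast; linear_combination -h2

theorem sub (h : RelZ x m) (h' : RelZ y m') : RelZ (x - y) (m - m') := by
  rw [sub_eq_add_neg, sub_eq_add_neg]; exact h.add h'.neg

theorem mul_id {R : Type} [CommRing R] {r w : R} (hr : r * r = 2) (hw : w * w = 5)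
    (a b c d a' b' c' d' : R) :
    (a + b * r + c * w + d * (r * w)) * (a' + b' * r + c' * w + d' * (r * w)) =
      (a * a' + 2 * b * b' + 5 * c * c' + 10 * d * d') + (a * b' + b * a' + 5 * (c * d' + d * c')) * r
      + (a * c' + c * a' + 2 * (b * d' + d * b')) * w
      + (a * d' + d * a' + b * c' + c * b') * (r * w) := by
  linear_combination ((b + d * w) * (b' + d' * w)) * hr
    + (c * c' + (c * d' + d * c') * r + 2 * d * d') * hw

theorem mul (h : RelZ x m) (h' : RelZ y m') : RelZ (x * y) (m * m') := by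
  obtain ⟨k, a, b, c, d, h1, h2⟩ := h
  obtain ⟨k', a', b', c', d', h1', h2'⟩ := h'
  refine ⟨k + k', a * a' + 2 * b * b' + 5 * c * c' + 10 * d * d',
    a * b' + b * a' + 5 * (c * d' + d * c'), a * c' + c * a' + 2 * (b * d' + d * b'),
    a * d' + d * a' + b * c' + c * b', ?_, ?_⟩
  · push_cast; rw [← mul_id sq2 sq5, ← h1, ← h1']; ring
  · push_cast; rw [← mul_id r2_sq r5_sq, ← h2, ← h2']; ring

theorem int (a : ℤ) : RelZ a a := ⟨0, a, 0, 0, 0, by simp, by simp⟩

theorem zero (h : RelZ 0 m) : m = 0 := by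
  obtain ⟨k, a, b, c, d, h1, h2⟩ := h
  obtain ⟨rfl, rfl, rfl, rfl⟩ := indep (by rw [← h1, mul_zero])
  have : ((2 * 16360) ^ k : ZP) * m = 0 := by
    rw [mul_pow, mul_comm (2 ^ k : ZP), mul_assoc, h2]; simp
  rwa [two_unit, one_pow, one_mul] at this

theorem unique (h : RelZ x m) (h' : RelZ x m') : m = m' := by
  have := h.sub h'
  rw [sub_self] at this
  exact sub_eq_zero.1 this.zero

end RelZ

/-- residues of the eleven values -/
def cm : ℕ → ℕ
  | 0 => 0
  | 1 => 16360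
  | 2 => 16359
  | 3 => 23389
  | 4 => 9330
  | 5 => 28180
  | 6 => 4539
  | 7 => 11820
  | 8 => 20899
  | 9 => 1
  | _ => 32718

theorem relZ_cv : ∀ k, RelZ (cv k) (cm k : ℕ)
  | 0 => ⟨0, 0, 0, 0, 0, by simp [cv], by decide⟩
  | 1 => ⟨1, 1, 0, 0, 0, by simp [cv], by decide⟩
  | 2 => ⟨1, -1, 0, 0, 0, by simp [cv], by decide⟩
  | 3 => ⟨1, 0, 1, 0, 0, by simp [cv]; ring, by decide⟩
  | 4 => ⟨1, 0, -1, 0, 0, by simp [cv]; ring, by decide⟩
  | 5 => ⟨2, 1, 0, 1, 0, by simp [cv]; ring, by decide⟩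
  | 6 => ⟨2, -1, 0, -1, 0, by simp [cv]; ring, by decide⟩
  | 7 => ⟨2, -1, 0, 1, 0, by simp [cv]; ring, by decide⟩
  | 8 => ⟨2, 1, 0, -1, 0, by simp [cv]; ring, by decide⟩
  | 9 => ⟨0, 1, 0, 0, 0, by simp [cv], by decide⟩
  | _ + 10 => ⟨0, -1, 0, 0, 0, by simp [cv], by simp only [cm]; decide⟩

theorem cm_inj : ∀ k, k < 11 → ∀ k', k' < 11 → ((cm k : ℕ) : ZP) = (cm k' : ℕ) → k = k' := by
  decide

theorem InC.eq {x y : ℝ} {m : ZP} (hx : InC x) (hy : InC y) (h1 : RelZ x m) (h2 : RelZ y m) :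
    x = y := by
  obtain ⟨k, hk, rfl⟩ := hx
  obtain ⟨k', hk', rfl⟩ := hy
  rw [cm_inj k hk k' hk' (((relZ_cv k).unique h1).trans (h2.unique (relZ_cv k')))]

/-- all four coordinates lie in the list -/
def InC4 (x : ℍ) : Prop := InC x.re ∧ InC x.imI ∧ InC x.imJ ∧ InC x.imK

/-! ### Packed quaternions -/

/-- evaluate the argument first -/
noncomputable def force {α : Type} (x : ℕ) (k : ℕ → α) : α :=
  Nat.rec (k 0) (fun n _ => k (Nat.succ n)) x

theorem force_eq {α : Type} (x : ℕ) (k : ℕ → α) : force x k = k x := by cases x <;> rfl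

/-- digits -/
def d0 (x : ℕ) : ℕ := Nat.mod x 32719
/-- digits -/
def d1 (x : ℕ) : ℕ := Nat.mod (Nat.div x 32719) 32719
/-- digits -/
def d2 (x : ℕ) : ℕ := Nat.mod (Nat.div x 1070532961) 32719
/-- digits -/
def d3 (x : ℕ) : ℕ := Nat.div x 35026767950959

/-- pack four residues -/
def pk (a b c d : ℕ) : ℕ :=
  Nat.add (Nat.mod a 32719) (Nat.mul 32719 (Nat.add (Nat.mod b 32719) (Nat.mul 32719
    (Nat.add (Nat.mod c 32719) (Nat.mul 32719 (Nat.mod d 32719))))))

/-- `m` is the code of `x` -/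
structure RelQ (x : ℍ) (m : ℕ) : Prop where
  lt : m < 1146040820587427521
  h0 : RelZ x.re (d0 m : ℕ)
  h1 : RelZ x.imI (d1 m : ℕ)
  h2 : RelZ x.imJ (d2 m : ℕ)
  h3 : RelZ x.imK (d3 m : ℕ)

theorem pk_eq (a b c d : ℕ) : pk a b c d =
    a % 32719 + 32719 * (b % 32719 + 32719 * (c % 32719 + 32719 * (d % 32719))) := rfl

theorem relQ_pk {x : ℍ} {a b c d : ℕ} (h0 : RelZ x.re a) (h1 : RelZ x.imI b) (h2 : RelZ x.imJ c)
    (h3 : RelZ x.imK d) : RelQ x (pk a b c d) := by
  have e0 : d0 (pk a b c d) = a % 32719 := by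
    show pk a b c d % 32719 = _
    rw [pk_eq]; omega
  have e1 : d1 (pk a b c d) = b % 32719 := by
    show pk a b c d / 32719 % 32719 = _
    rw [pk_eq]; omega
  have e2 : d2 (pk a b c d) = c % 32719 := by
    show pk a b c d / 1070532961 % 32719 = _
    rw [pk_eq]; omega
  have e3 : d3 (pk a b c d) = d % 32719 := by
    show pk a b c d / 35026767950959 = _
    rw [pk_eq]; omega
  refine ⟨by rw [pk_eq]; omega, ?_, ?_, ?_, ?_⟩
  · rwa [e0, ZMod.natCast_mod]
  · rwa [e1, ZMod.natCast_mod]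
  · rwa [e2, ZMod.natCast_mod]
  · rwa [e3, ZMod.natCast_mod]

theorem cast_inj {a b : ℕ} (ha : a < 32719) (hb : b < 32719) (h : (a : ZP) = b) : a = b := by
  have := (ZMod.natCast_eq_natCast_iff' a b 32719).1 h
  omega

theorem RelQ.unique {x : ℍ} {m m' : ℕ} (h : RelQ x m) (h' : RelQ x m') : m = m' := by
  have l1 := h.lt
  have l2 := h'.lt
  have e0 : m % 32719 = m' % 32719 :=
    cast_inj (Nat.mod_lt _ (by omega)) (Nat.mod_lt _ (by omega)) (h.h0.unique h'.h0)
  have e1 : m / 32719 % 32719 = m' / 32719 % 32719 :=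
    cast_inj (Nat.mod_lt _ (by omega)) (Nat.mod_lt _ (by omega)) (h.h1.unique h'.h1)
  have e2 : m / 1070532961 % 32719 = m' / 1070532961 % 32719 :=
    cast_inj (Nat.mod_lt _ (by omega)) (Nat.mod_lt _ (by omega)) (h.h2.unique h'.h2)
  have e3 : m / 35026767950959 = m' / 35026767950959 :=
    cast_inj (by omega) (by omega) (h.h3.unique h'.h3)
  omega

theorem RelQ.eq {x y : ℍ} {m : ℕ} (h : RelQ x m) (h' : RelQ y m) (hx : InC4 x) (hy : InC4 y) :
    x = y :=
  Quaternion.ext _ _ (hx.1.eq hy.1 h.h0 h'.h0) (hx.2.1.eq hy.2.1 h.h1 h'.h1)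
    (hx.2.2.1.eq hy.2.2.1 h.h2 h'.h2) (hx.2.2.2.eq hy.2.2.2 h.h3 h'.h3)

/-- product of unpacked quaternions -/
def mul8 (a b c d e f g h : ℕ) : ℕ :=
  pk (Nat.add (Nat.mul a e)
      (Nat.mul 32718 (Nat.add (Nat.add (Nat.mul b f) (Nat.mul c g)) (Nat.mul d h))))
    (Nat.add (Nat.add (Nat.add (Nat.mul a f) (Nat.mul b e)) (Nat.mul c h))
      (Nat.mul 32718 (Nat.mul d g)))
    (Nat.add (Nat.add (Nat.add (Nat.mul a g) (Nat.mul c e)) (Nat.mul d f))
      (Nat.mul 32718 (Nat.mul b h)))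
    (Nat.add (Nat.add (Nat.add (Nat.mul a h) (Nat.mul b g)) (Nat.mul d e))
      (Nat.mul 32718 (Nat.mul c f)))

/-- product -/
def mulA (x y : ℕ) : ℕ := mul8 (d0 x) (d1 x) (d2 x) (d3 x) (d0 y) (d1 y) (d2 y) (d3 y)

/-- negative -/
def negA (x : ℕ) : ℕ :=
  pk (Nat.mul 32718 (d0 x)) (Nat.mul 32718 (d1 x)) (Nat.mul 32718 (d2 x)) (Nat.mul 32718 (d3 x))

/-- conjugate -/
def starA (x : ℕ) : ℕ :=
  pk (d0 x) (Nat.mul 32718 (d1 x)) (Nat.mul 32718 (d2 x)) (Nat.mul 32718 (d3 x))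

/-- sum -/
def addA (x y : ℕ) : ℕ :=
  pk (Nat.add (d0 x) (d0 y)) (Nat.add (d1 x) (d1 y)) (Nat.add (d2 x) (d2 y))
    (Nat.add (d3 x) (d3 y))

theorem m1 : ((32718 : ℕ) : ZP) = -1 := by decide

theorem RelZ.of_eq {x y : ℝ} {m m' : ZP} (h : RelZ x m) (e1 : y = x) (e2 : m' = m) : RelZ y m' := by
  rw [e1, e2]; exact h

theorem RelQ.mul {x y : ℍ} {m m' : ℕ} (h : RelQ x m) (h' : RelQ y m') :
    RelQ (x * y) (mulA m m') := by
  refine relQ_pk ?_ ?_ ?_ ?_
  · refine ((((h.h0.mul h'.h0).sub (h.h1.mul h'.h1)).sub (h.h2.mul h'.h2)).sub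
      (h.h3.mul h'.h3)).of_eq (re_mul x y) ?_
    simp only [Nat.add_eq, Nat.mul_eq, Nat.cast_add, Nat.cast_mul, m1]; ring
  · refine ((((h.h0.mul h'.h1).add (h.h1.mul h'.h0)).add (h.h2.mul h'.h3)).sub
      (h.h3.mul h'.h2)).of_eq (imI_mul x y) ?_
    simp only [Nat.add_eq, Nat.mul_eq, Nat.cast_add, Nat.cast_mul, m1]; ring
  · refine ((((h.h0.mul h'.h2).sub (h.h1.mul h'.h3)).add (h.h2.mul h'.h0)).add
      (h.h3.mul h'.h1)).of_eq (imJ_mul x y) ?_
    simp only [Nat.add_eq, Nat.mul_eq, Nat.cast_add, Nat.cast_mul, m1]; ring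
  · refine ((((h.h0.mul h'.h3).add (h.h1.mul h'.h2)).sub (h.h2.mul h'.h1)).add
      (h.h3.mul h'.h0)).of_eq (imK_mul x y) ?_
    simp only [Nat.add_eq, Nat.mul_eq, Nat.cast_add, Nat.cast_mul, m1]; ring

theorem relZ_negN {x : ℝ} {m : ℕ} (h : RelZ x m) : RelZ (-x) (Nat.mul 32718 m : ℕ) :=
  h.neg.of_eq rfl (by simp only [Nat.mul_eq, Nat.cast_mul, m1]; ring)

theorem RelQ.neg {x : ℍ} {m : ℕ} (h : RelQ x m) : RelQ (-x) (negA m) :=
  relQ_pk (relZ_negN h.h0) (relZ_negN h.h1) (relZ_negN h.h2) (relZ_negN h.h3)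

theorem RelQ.star {x : ℍ} {m : ℕ} (h : RelQ x m) : RelQ (star x) (starA m) :=
  relQ_pk (h.h0.of_eq (re_star x) rfl) ((relZ_negN h.h1).of_eq (imI_star x) rfl)
    ((relZ_negN h.h2).of_eq (imJ_star x) rfl) ((relZ_negN h.h3).of_eq (imK_star x) rfl)

theorem RelQ.add {x y : ℍ} {m m' : ℕ} (h : RelQ x m) (h' : RelQ y m') :
    RelQ (x + y) (addA m m') :=
  relQ_pk ((h.h0.add h'.h0).of_eq rfl (Nat.cast_add _ _))
    ((h.h1.add h'.h1).of_eq rfl (Nat.cast_add _ _))
    ((h.h2.add h'.h2).of_eq rfl (Nat.cast_add _ _))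
    ((h.h3.add h'.h3).of_eq rfl (Nat.cast_add _ _))

/-- the quaternion with the given base 11 digits -/
noncomputable def cq (c : ℕ) : ℍ :=
  ⟨cv (c % 11), cv (c / 11 % 11), cv (c / 121 % 11), cv (c / 1331 % 11)⟩

/-- its code -/
def enc (c : ℕ) : ℕ := pk (cm (c % 11)) (cm (c / 11 % 11)) (cm (c / 121 % 11)) (cm (c / 1331 % 11))

theorem relQ_cq (c : ℕ) : RelQ (cq c) (enc c) :=
  relQ_pk (relZ_cv _) (relZ_cv _) (relZ_cv _) (relZ_cv _)

theorem inC4_cq (c : ℕ) : InC4 (cq c) :=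
  ⟨⟨_, Nat.mod_lt _ (by omega), rfl⟩, ⟨_, Nat.mod_lt _ (by omega), rfl⟩,
    ⟨_, Nat.mod_lt _ (by omega), rfl⟩, ⟨_, Nat.mod_lt _ (by omega), rfl⟩⟩

theorem InC4.exists {x : ℍ} (h : InC4 x) : ∃ c, c < 14641 ∧ x = cq c := by
  obtain ⟨⟨a, ha, e0⟩, ⟨b, hb, e1⟩, ⟨c, hc, e2⟩, ⟨d, hd, e3⟩⟩ := h
  refine ⟨a + 11 * (b + 11 * (c + 11 * d)), by omega, Quaternion.ext _ _ ?_ ?_ ?_ ?_⟩
  · rw [e0]; show _ = cv _; congr 1; omega
  · rw [e1]; show _ = cv _; congr 1; omega
  · rw [e2]; show _ = cv _; congr 1; omega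
  · rw [e3]; show _ = cv _; congr 1; omega

theorem cq_one : cq 9 = 1 := rfl

theorem relQ_one : RelQ 1 1 := relQ_cq 9

theorem relQ_zero : RelQ 0 0 := relQ_cq 0

theorem inC4_finite : {x : ℍ | InC4 x}.Finite :=
  ((Set.finite_lt_nat 14641).image cq).subset fun _ hx =>
    let ⟨c, h1, h2⟩ := InC4.exists hx
    ⟨c, h1, h2.symm⟩

/-- the residue is one of the eleven -/
def isC (m : ℕ) : Bool := (List.range 11).any fun k => Nat.beq (cm k) m

theorem isC_of {x : ℍ} {m : ℕ} (h : RelQ x m) (hx : InC x.re) : isC (d0 m) = true := by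
  obtain ⟨k, hk, e⟩ := hx
  refine List.any_eq_true.2 ⟨k, List.mem_range.2 hk, ?_⟩
  rw [Nat.beq_eq]
  have : ∀ k, k < 11 → cm k < 32719 := by decide
  exact cast_inj (this k hk) (Nat.mod_lt _ (by omega)) ((relZ_cv k).unique (e ▸ h.h0))

/-- A set of unit quaternions on which codes are faithful. -/
structure Good (U : Set ℍ) : Prop extends QSet U where
  inC : ∀ p ∈ U, InC4 p

theorem InC.neg {x : ℝ} (h : InC x) : InC (-x) := by
  obtain ⟨k, hk, rfl⟩ := h
  interval_cases k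
  · exact ⟨0, by omega, neg_zero⟩
  · exact ⟨2, by omega, rfl⟩
  · exact ⟨1, by omega, neg_neg _⟩
  · exact ⟨4, by omega, rfl⟩
  · exact ⟨3, by omega, neg_neg _⟩
  · exact ⟨6, by omega, rfl⟩
  · exact ⟨5, by omega, neg_neg _⟩
  · exact ⟨8, by omega, rfl⟩
  · exact ⟨7, by omega, neg_neg _⟩
  · exact ⟨10, by omega, rfl⟩
  · exact ⟨9, by omega, neg_neg _⟩

theorem good_of {Q : Set ℍ} (hQ : QSet Q) (hR : ∀ p ∈ Q, InC p.re) (hi : cq 99 ∈ Q)
    (hj : cq 1089 ∈ Q) : Good Q := by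
  refine ⟨hQ, fun p hp => ⟨hR p hp, ?_, ?_, ?_⟩⟩
  · have := (hR _ (hQ.mul _ hp _ hi)).neg
    simpa [cq, cv] using this
  · have := (hR _ (hQ.mul _ hp _ hj)).neg
    simpa [cq, cv] using this
  · have := (hR _ (hQ.mul _ hp _ (hQ.mul _ hi _ hj))).neg
    simpa [cq, cv] using this

/-! ### Trees, words, generic checkers -/

/-- search trees with values -/
inductive Tr : Type
  | nil : Tr
  | node (l : Tr) (k v : ℕ) (r : Tr) : Tr

/-- membership -/
noncomputable def Tr.mem (t : Tr) (x : ℕ) : Bool :=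
  Tr.rec false (fun _ k _ _ il ir => cond (Nat.blt x k) il (cond (Nat.beq x k) true ir)) t

/-- all entries -/
noncomputable def Tr.all (t : Tr) (f : ℕ → ℕ → Bool) : Bool :=
  Tr.rec true (fun _ k v _ il ir => cond il (cond (f k v) ir false) false) t

theorem Tr.of_mem {t : Tr} {f : ℕ → ℕ → Bool} (h : t.all f = true) {x : ℕ} (hx : t.mem x = true) :
    ∃ v, f x v = true := by
  induction t with
  | nil => exact absurd hx (by simp [Tr.mem])
  | node l k v r il ir =>
    have h' : cond (l.all f) (cond (f k v) (r.all f) false) false = true := h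
    have hx' : cond (Nat.blt x k) (l.mem x) (cond (Nat.beq x k) true (r.mem x)) = true := hx
    rcases e1 : l.all f with _ | _
    · simp [e1] at h'
    rcases e2 : f k v with _ | _
    · simp [e1, e2] at h'
    simp only [e1, e2, cond_true] at h'
    rcases e3 : Nat.blt x k with _ | _
    · rcases e4 : Nat.beq x k with _ | _
      · simp only [e3, e4, cond_false] at hx'
        exact ir h' hx'
      · exact ⟨v, by rw [Nat.eq_of_beq_eq_true e4]; exact e2⟩
    · simp only [e3, cond_true] at hx'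
      exact il e1 hx'

/-- all members of a list -/
noncomputable def allL {α : Type} (L : List α) (f : α → Bool) : Bool :=
  List.rec true (fun a _ ih => cond (f a) ih false) L

theorem allL_iff {α : Type} {L : List α} {f : α → Bool} :
    allL L f = true ↔ ∀ a ∈ L, f a = true := by
  induction L with
  | nil => simp [allL]
  | cons a L ih =>
    have : allL (a :: L) f = cond (f a) (allL L f) false := rfl
    rw [this, List.forall_mem_cons, ← ih]
    cases f a <;> simp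

/-- evaluate a word given by its base 8 digits -/
noncomputable def evW (L : List (ℕ → ℕ)) (w x : ℕ) : ℕ :=
  (Nat.rec (fun _ x => x) (fun _ ih w x => cond (Nat.beq w 0) x
    (force (L.getD (Nat.pred (Nat.mod w 8)) id x) (force (Nat.div w 8) ih))) 64 : ℕ → ℕ → ℕ) w x

theorem evW_ind {L : List (ℕ → ℕ)} {P : ℕ → Prop} (hL : ∀ F ∈ L, ∀ x, P x → P (F x)) (w : ℕ)
    {x : ℕ} (hx : P x) : P (evW L w x) := by
  unfold evW
  generalize 64 = n
  induction n generalizing w x with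
  | zero => exact hx
  | succ n ih =>
    show P (cond (Nat.beq w 0) x (force _ (force _ _)))
    cases Nat.beq w 0
    · rw [cond_false, force_eq, force_eq]
      refine ih _ ?_
      rw [List.getD_eq_getElem?_getD]
      rcases e : L[Nat.pred (Nat.mod w 8)]? with _ | F
      · exact hx
      · exact hL F (List.mem_of_getElem? e) x hx
    · exact hx

section Generic

variable {Γ : Type} [Group Γ] (Rep : Γ → ℕ → Prop)

/-- `F` computes left multiplication by `γ`. -/
def Compat (γ : Γ) (F : ℕ → ℕ) : Prop := ∀ g x, Rep g x → Rep (γ * g) (F x)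

/-- the members of `L` compute left multiplications by elements of `X` -/
def Gens (X : Subgroup Γ) (L : List (ℕ → ℕ)) : Prop := ∀ F ∈ L, ∃ γ ∈ X, Compat Rep γ F

/-- every element of `Y` has a code in every set closed under `L` -/
def Cover (Y : Subgroup Γ) (L : List (ℕ → ℕ)) (one : ℕ) : Prop :=
  ∀ Z : ℕ → Prop, (∀ F ∈ L, ∀ x, Z x → Z (F x)) → Z one → ∀ g ∈ Y, ∃ x, Rep g x ∧ Z x

variable {Rep}

/-- composition with evaluation of the intermediate result -/
noncomputable def cmp (F G : ℕ → ℕ) (x : ℕ) : ℕ := force (G x) F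

theorem Compat.cmp {γ δ : Γ} {F G : ℕ → ℕ} (h1 : Compat Rep γ F) (h2 : Compat Rep δ G) :
    Compat Rep (γ * δ) (cmp F G) := fun g x h => by
  rw [MP_d6da41_co.cmp, force_eq, mul_assoc]
  exact h1 _ _ (h2 _ _ h)

theorem Gens.evW {X : Subgroup Γ} {L : List (ℕ → ℕ)} (h : Gens Rep X L) {one : ℕ}
    (h1 : Rep 1 one) (w : ℕ) : ∃ g ∈ X, Rep g (evW L w one) := by
  refine evW_ind (P := fun x => ∃ g ∈ X, Rep g x) ?_ w ⟨1, one_mem _, h1⟩
  rintro F hF x ⟨g, hg, hx⟩
  obtain ⟨γ, hγ, hc⟩ := h F hF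
  exact ⟨_, mul_mem hγ hg, hc g x hx⟩

/-- The elements whose left multiplications preserve the coded set. -/
def covGrp (Rep : Γ → ℕ → Prop) (Z : ℕ → Prop) : Subgroup Γ where
  carrier := {γ | ∀ g, (∃ x, Rep g x ∧ Z x) →
    (∃ x, Rep (γ * g) x ∧ Z x) ∧ ∃ x, Rep (γ⁻¹ * g) x ∧ Z x}
  one_mem' := fun g h => by rw [inv_one, one_mul]; exact ⟨h, h⟩
  mul_mem' := fun {a b} ha hb g h => by
    rw [mul_inv_rev, mul_assoc, mul_assoc]
    exact ⟨(ha _ (hb g h).1).1, (hb _ (ha g h).2).2⟩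
  inv_mem' := fun {a} ha g h => by rw [inv_inv]; exact ⟨(ha g h).2, (ha g h).1⟩

theorem cover_of {Y : Subgroup Γ} {L : List (ℕ → ℕ)} {one : ℕ} (h1 : Rep 1 one)
    (h : ∀ X : Subgroup Γ, (∀ γ, (∃ F ∈ L, Compat Rep γ F) → (∃ F ∈ L, Compat Rep γ⁻¹ F) → γ ∈ X)
      → Y ≤ X) : Cover Rep Y L one := by
  intro Z hZ hone g hg
  have := h (covGrp Rep Z) (by
    rintro γ ⟨F, hF, c1⟩ ⟨G, hG, c2⟩ g ⟨x, hx, hz⟩
    exact ⟨⟨_, c1 g x hx, hZ F hF x hz⟩, ⟨_, c2 g x hx, hZ G hG x hz⟩⟩) hg 1 ⟨one, h1, hone⟩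
  simpa using this.1

/-- generators of `GG τ a (a + k + 1)` and their inverses -/
noncomputable def gensGG (F F' : ℕ → ℕ → ℕ) (a : ℕ) : ℕ → List (ℕ → ℕ)
  | 0 => []
  | k + 1 => cmp (F (a + k)) (F' (a + k + 1)) :: cmp (F (a + k + 1)) (F' (a + k)) ::
      gensGG F F' a k

theorem mem_gensGG {F F' : ℕ → ℕ → ℕ} {a k i : ℕ} (h : i < k) :
    cmp (F (a + i)) (F' (a + i + 1)) ∈ gensGG F F' a k ∧
      cmp (F (a + i + 1)) (F' (a + i)) ∈ gensGG F F' a k := by
  induction k with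
  | zero => omega
  | succ k ih =>
    rcases (Nat.lt_succ_iff.1 h).eq_or_lt with rfl | h
    · simp [gensGG]
    · simp [gensGG, ih h]

theorem gens_GG {τ : ℕ → Γ} {F F' : ℕ → ℕ → ℕ} {a k : ℕ}
    (h : ∀ i, a ≤ i → i ≤ a + k → Compat Rep (τ i) (F i) ∧ Compat Rep (τ i)⁻¹ (F' i)) :
    Gens Rep (GG τ a (a + k + 1)) (gensGG F F' a k) := by
  induction k with
  | zero => intro _ h; simp [gensGG] at h
  | succ k ih =>
    intro G hG
    simp only [gensGG, List.mem_cons] at hG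
    rcases hG with rfl | rfl | hG
    · exact ⟨_, mem_GG (by omega) (by omega) (by omega) (by omega),
        (h _ (by omega) (by omega)).1.cmp (h _ (by omega) (by omega)).2⟩
    · exact ⟨_, mem_GG (by omega) (by omega) (by omega) (by omega),
        (h _ (by omega) (by omega)).1.cmp (h _ (by omega) (by omega)).2⟩
    · obtain ⟨γ, h1, h2⟩ := ih (fun i h1 h2 => h i h1 (by omega)) G hG
      exact ⟨γ, GG_mono le_rfl (by omega) h1, h2⟩

theorem cover_GG {τ : ℕ → Γ} {F F' : ℕ → ℕ → ℕ} {a k one : ℕ} (h1 : Rep 1 one)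
    (h : ∀ i, a ≤ i → i ≤ a + k → Compat Rep (τ i) (F i) ∧ Compat Rep (τ i)⁻¹ (F' i)) :
    Cover Rep (GG τ a (a + k + 1)) (gensGG F F' a k) one := by
  refine cover_of h1 fun X hX => GG_le fun i h2 h3 => ?_
  obtain ⟨j, rfl⟩ : ∃ j, i = a + j := ⟨i - a, by omega⟩
  have hm := mem_gensGG (F := F) (F' := F') (a := a) (k := k) (i := j) (by omega)
  refine hX _ ⟨_, hm.1, (h _ (by omega) (by omega)).1.cmp (h _ (by omega) (by omega)).2⟩
    ⟨_, hm.2, ?_⟩
  rw [mul_inv_rev, inv_inv]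
  exact (h _ (by omega) (by omega)).1.cmp (h _ (by omega) (by omega)).2

/-- the table is closed, and entries passing the test are words in the smaller group -/
noncomputable def chkQ (T : Tr) (L L' : List (ℕ → ℕ)) (one : ℕ) (test : ℕ → Bool) : Bool :=
  cond (T.mem one) (T.all fun x w => cond (allL L fun F => force (F x) T.mem)
    (cond (test x) (Nat.beq (evW L' w one) x) true) false) false

theorem chkQ_sound {T : Tr} {L L' : List (ℕ → ℕ)} {one : ℕ} {test : ℕ → Bool} {X Y : Subgroup Γ}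
    {P : Γ → Prop} (h : chkQ T L L' one test = true) (hY : Cover Rep Y L one) (hX : Gens Rep X L')
    (h1 : Rep 1 one) (ht : ∀ g x, Rep g x → P g → test x = true)
    (hu : ∀ g, ∀ g' ∈ X, ∀ x, Rep g x → Rep g' x → P g → g = g') : ∀ g ∈ Y, P g → g ∈ X := by
  unfold chkQ at h
  rcases e : T.mem one with _ | _
  · simp [e] at h
  rw [e, cond_true] at h
  intro g hg hP
  obtain ⟨x, hx, hz⟩ := hY (fun x => T.mem x = true) (fun F hF x hx => by
    obtain ⟨v, hv⟩ := Tr.of_mem h hx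
    rcases e' : allL L fun F => force (F x) T.mem with _ | _
    · simp [e'] at hv
    · have := allL_iff.1 e' F hF
      rwa [force_eq] at this) e g hg
  obtain ⟨w, hw⟩ := Tr.of_mem h hz
  rcases e' : allL L fun F => force (F x) T.mem with _ | _
  · simp [e'] at hw
  rw [e', cond_true, ht g x hx hP, cond_true] at hw
  obtain ⟨g', hg', hr⟩ := hX.evW h1 w
  rw [Nat.eq_of_beq_eq_true hw] at hr
  rw [hu g g' hg' x hx hr hP]
  exact hg'

end Generic

end Pool.Agent.MP_d6da41_co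

end MrgPart0

-- ======== part 1: formerly Pool.Agent.MP_d6da41_co.Good
section MrgPart1

/-! The binary octahedral group and the two binary icosahedral groups. -/

namespace Pool.Agent.MP_d6da41_co

open Quaternion

/-- empty tree -/
def o : Tr := Tr.nil
/-- node -/
def b : Tr → ℕ → ℕ → Tr → Tr := Tr.node

/-- four times the eleven values -/
def cz (D : ℤ) : ℕ → ℤ√D
  | 0 => ⟨0, 0⟩
  | 1 => ⟨2, 0⟩
  | 2 => ⟨-2, 0⟩
  | 3 => ⟨0, 2⟩
  | 4 => ⟨0, -2⟩
  | 5 => ⟨1, 1⟩
  | 6 => ⟨-1, -1⟩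
  | 7 => ⟨-1, 1⟩
  | 8 => ⟨1, -1⟩
  | 9 => ⟨4, 0⟩
  | _ => ⟨-4, 0⟩

/-- digits allowed for `D` -/
def okz (D : ℤ) (k : ℕ) : Bool := if D = 2 then decide (k < 5 ∨ 8 < k) else decide (k < 3 ∨ 4 < k)

/-- all digits allowed -/
def okq (D : ℤ) (c : ℕ) : Bool :=
  okz D (c % 11) && okz D (c / 11 % 11) && okz D (c / 121 % 11) && okz D (c / 1331 % 11)

/-- four times `cq c` -/
def qz (D : ℤ) (c : ℕ) : ℍ[ℤ√D] :=
  ⟨cz D (c % 11), cz D (c / 11 % 11), cz D (c / 121 % 11), cz D (c / 1331 % 11)⟩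

/-- exact product check -/
def chkM (D : ℤ) (c1 c2 c3 : ℕ) : Bool :=
  okq D c1 && okq D c2 && okq D c3 &&
  decide ((qz D c1 * qz D c2).re = 4 * (qz D c3).re) &&
  decide ((qz D c1 * qz D c2).imI = 4 * (qz D c3).imI) &&
  decide ((qz D c1 * qz D c2).imJ = 4 * (qz D c3).imJ) &&
  decide ((qz D c1 * qz D c2).imK = 4 * (qz D c3).imK)

theorem chkM_sound {D : ℤ} (φ : ℤ√D →+* ℝ) (hφ : ∀ k, okz D k = true → φ (cz D k) = 4 * cv k)
    {c1 c2 c3 : ℕ} (h : chkM D c1 c2 c3 = true) : cq c1 * cq c2 = cq c3 := by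
  simp only [chkM, okq, Bool.and_eq_true, decide_eq_true_eq] at h
  obtain ⟨⟨⟨⟨⟨⟨⟨⟨⟨a0, a1⟩, a2⟩, a3⟩, ⟨⟨b0, b1⟩, b2⟩, b3⟩, ⟨⟨d0, d1⟩, d2⟩, d3⟩, e0⟩, e1⟩, e2⟩, e3⟩ := h
  have f0 := congrArg φ e0
  have f1 := congrArg φ e1
  have f2 := congrArg φ e2
  have f3 := congrArg φ e3
  simp only [qz, re_mul, imI_mul, imJ_mul, imK_mul, map_add, map_sub, map_mul, map_ofNat,
    hφ _ a0, hφ _ a1, hφ _ a2, hφ _ a3, hφ _ b0, hφ _ b1, hφ _ b2, hφ _ b3, hφ _ d0, hφ _ d1,
    hφ _ d2, hφ _ d3] at f0 f1 f2 f3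
  refine Quaternion.ext _ _ ?_ ?_ ?_ ?_
  · rw [re_mul]; simp only [cq]; linarith
  · rw [imI_mul]; simp only [cq]; linarith
  · rw [imJ_mul]; simp only [cq]; linarith
  · rw [imK_mul]; simp only [cq]; linarith

theorem phi2 (k : ℕ) (h : okz 2 k = true) :
    Zsqrtd.lift ⟨√2, by rw [sq2]; norm_num⟩ (cz 2 k) = 4 * cv k := by
  rw [Zsqrtd.lift_apply_apply]
  rcases k with _ | _ | _ | _ | _ | _ | _ | _ | _ | _ | k
  all_goals first | exact absurd h (by decide) | (simp [cz, cv] <;> ring)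

theorem phi5 (k : ℕ) (h : okz 5 k = true) :
    Zsqrtd.lift ⟨√5, by rw [sq5]; norm_num⟩ (cz 5 k) = 4 * cv k := by
  rw [Zsqrtd.lift_apply_apply]
  rcases k with _ | _ | _ | _ | _ | _ | _ | _ | _ | _ | k
  all_goals first | exact absurd h (by decide) | (simp [cz, cv] <;> ring)

/-- words in two quaternions -/
theorem word2 {Q : Set ℍ} (h1 : 1 ∈ Q) (hm : ∀ p ∈ Q, ∀ q ∈ Q, p * q ∈ Q) {p q : ℍ} {m m' : ℕ}
    (hp : p ∈ Q) (hq : q ∈ Q) (rp : RelQ p m) (rq : RelQ q m') (w : ℕ) :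
    ∃ x ∈ Q, RelQ x (evW [mulA m, mulA m'] w 1) := by
  refine evW_ind (P := fun z => ∃ x ∈ Q, RelQ x z) ?_ w ⟨1, h1, relQ_one⟩
  rintro F hF z ⟨x, hx, rx⟩
  simp only [List.mem_cons, List.not_mem_nil, or_false] at hF
  rcases hF with rfl | rfl
  · exact ⟨_, hm _ hp _ hx, rp.mul rx⟩
  · exact ⟨_, hm _ hq _ hx, rq.mul rx⟩

/-- closure check -/
noncomputable def chkG (D : ℤ) (g1 g2 : ℕ) (T : Tr) (s1 s2 : ℕ) : Bool :=
  T.mem 9 && T.mem 10 && T.mem s1 && T.mem s2 && Nat.beq (enc s1) (starA (enc g1)) &&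
    Nat.beq (enc s2) (starA (enc g2)) && T.all fun c v =>
    chkM D g1 c (v % 14641) && chkM D g2 c (v / 14641 % 14641) && T.mem (v % 14641) &&
      T.mem (v / 14641 % 14641) &&
      Nat.beq (evW [mulA (enc g1), mulA (enc g2)] (v / 14641 / 14641) 1) (enc c)

theorem InC4.star {x : ℍ} (h : InC4 x) : InC4 (star x) :=
  ⟨by rw [re_star]; exact h.1, h.2.1.neg, h.2.2.1.neg, h.2.2.2.neg⟩

theorem InC4.neg {x : ℍ} (h : InC4 x) : InC4 (-x) :=
  ⟨h.1.neg, h.2.1.neg, h.2.2.1.neg, h.2.2.2.neg⟩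

theorem chkG_sound {D : ℤ} (φ : ℤ√D →+* ℝ) (hφ : ∀ k, okz D k = true → φ (cz D k) = 4 * cv k)
    {g1 g2 s1 s2 : ℕ} {T : Tr} (h : chkG D g1 g2 T s1 s2 = true) (u1 : Un (cq g1))
    (u2 : Un (cq g2)) : Good (Submonoid.closure {cq g1, cq g2} : Submonoid ℍ) ∧
      (∀ c, T.mem c = true → cq c ∈ Submonoid.closure {cq g1, cq g2}) ∧
      ∀ p ∈ Submonoid.closure {cq g1, cq g2}, ∃ c, T.mem c = true ∧ p = cq c := by
  simp only [chkG, Bool.and_eq_true, Nat.beq_eq] at h
  obtain ⟨⟨⟨⟨⟨⟨t9, t10⟩, t1⟩, t2⟩, e1⟩, e2⟩, hT⟩ := h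
  set U := Submonoid.closure {cq g1, cq g2}
  have a1 : ∀ p ∈ U, ∃ c, T.mem c = true ∧ p = cq c := by
    intro p hp
    induction hp using Submonoid.closure_induction_left with
    | one => exact ⟨9, t9, rfl⟩
    | mul_left x hx y _ ih =>
      obtain ⟨c, hc, rfl⟩ := ih
      obtain ⟨v, hv⟩ := Tr.of_mem hT hc
      simp only [Bool.and_eq_true] at hv
      rcases hx with rfl | rfl
      · exact ⟨_, hv.1.1.2, chkM_sound φ hφ hv.1.1.1.1⟩
      · exact ⟨_, hv.1.2, chkM_sound φ hφ hv.1.1.1.2⟩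
  have a2 : ∀ p ∈ U, InC4 p := fun p hp => by
    obtain ⟨c, -, rfl⟩ := a1 p hp
    exact inC4_cq c
  have m1 : cq g1 ∈ U := Submonoid.subset_closure (by simp)
  have m2 : cq g2 ∈ U := Submonoid.subset_closure (by simp)
  have a3 : ∀ c, T.mem c = true → cq c ∈ U := fun c hc => by
    obtain ⟨v, hv⟩ := Tr.of_mem hT hc
    simp only [Bool.and_eq_true, Nat.beq_eq] at hv
    obtain ⟨x, hx, rx⟩ := word2 (Q := U) U.one_mem (fun _ h _ h' => U.mul_mem h h') m1 m2
      (relQ_cq g1) (relQ_cq g2) (v / 14641 / 14641)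
    rw [hv.2] at rx
    rw [← rx.eq (relQ_cq c) (a2 x hx) (inC4_cq c)]
    exact hx
  refine ⟨⟨⟨fun p hp => ?_, U.one_mem, fun _ h _ h' => U.mul_mem h h', fun p hp => ?_,
    fun p hp => ?_⟩, a2⟩, a3, a1⟩
  · induction hp using Submonoid.closure_induction_left with
    | one => exact Un.one
    | mul_left x hx y _ ih =>
      rcases hx with rfl | rfl
      · exact u1.mul ih
      · exact u2.mul ih
  · induction hp using Submonoid.closure_induction_left with
    | one => rw [star_one]; exact U.one_mem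
    | mul_left x hx y _ ih =>
      rw [star_mul]
      refine U.mul_mem ih ?_
      rcases hx with rfl | rfl
      · rw [← (relQ_cq s1).eq (e1 ▸ (relQ_cq g1).star) (inC4_cq _) (inC4_cq _).star]
        exact a3 _ t1
      · rw [← (relQ_cq s2).eq (e2 ▸ (relQ_cq g2).star) (inC4_cq _) (inC4_cq _).star]
        exact a3 _ t2
  · have : cq 10 = -1 := by ext <;> simp [cq, cv]
    rw [← neg_one_mul, ← this]
    exact U.mul_mem (a3 _ t10) hp

/-- table -/
def tabO : Tr :=
    (b (b (b (b (b (b o 9 528540 o) 10 15648904009 (b o 36 430167617 o)) 37 17363221099 (b (b o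
    47 8905539846910 o) 48 235153303495 o)) 99 3859004371 (b (b (b o 110 1991180335332 o) 366
    71244553486821 o) 367 15884167358 (b (b o 396 2165038242 o) 407 1883378727978 o))) 487
    8137320174833 (b (b (b (b o 488 139161788425 o) 517 65208443031116 o) 528 1113208523727 (b (b
    o 1089 127452924166009 o) 1210 1126969675261 o)) 1464 273305012 (b (b (b o 1465 1987750016 o)
    1475 15931639271097 o) 1476 235425158652 (b (b o 1585 65208193528577 o) 1586 31089185470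
    o)))) 1596 9015298589969 (b (b (b (b (b o 1597 248878392499 o) 2795 127437432347830 o) 2796
    17582804296 (b (b o 2806 15929656883834 o) 2807 127335134311 o)) 2916 8151074884657 (b (b (b
    o 2917 140911805375 o) 2927 1003491914577 o) 2928 125478541200 (b (b o 3996 65098457422020 o)
    3997 29390548862 o))) 4026 3667321640 (b (b (b (b o 4037 1991417376003 o) 4356
    520787863443489 o) 4477 9015523533225 (b (b o 5327 15051678469138 o) 5328 127155919088 o))
    5357 120536826393676 (b (b (b o 5368 1881468981230 o) 5687 15067087331065 o) 5808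
    1017327767382 (b (b o 11979 72124540803889 o) 13310 1018931027566 o)))))

theorem chkO : chkG 2 1464 36 tabO 2927 47 = true := by decide +kernel

/-- table -/
def tabI : Tr :=
    (b (b (b (b (b (b (b o 9 12636647 o) 10 15662783677 (b o 99 8156875399071126 o)) 110
    15931503787541 (b (b o 183 3861154486 o) 184 31309057225 (b o 194 127452881990496 o))) 195
    267093842886921578 (b (b (b o 304 521667685217107 o) 305 65255880209742659 (b o 315
    16039417848184 o)) 316 1991184258339 (b (b o 683 1026523883993726 o) 684 17715698721 (b o 694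
    1026537485985440 o)))) 695 36983061880669654 (b (b (b (b o 804 72232554834430 o) 805
    525587193953857310 (b o 815 9015450972896 o)) 816 2005065466224 (b (b o 863 431406998 o) 864
    17363218527 (b o 874 128315578787947 o))) 875 127466581415 (b (b (b o 984 65208342676528 o)
    985 250745069181 (b o 995 8905539844327 o)) 996 235156330409 (b (b o 1089 4615954655016069 o)
    1210 9015555526209 o)))) 1413 65098571444335 (b (b (b (b (b o 1414 29507218758 o) 1424
    72122566719023 (b o 1425 235389433831 o)) 1464 247053699 (b (b o 1465 1949932313 o) 1475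
    576994411387603 (b o 1476 33386716708871539 o))) 1585 521667421353540 (b (b (b o 1586
    65255002164839203 o) 1596 72124400923774 (b o 1597 1991541367365 o)) 1943 576980682898094 (b
    (b o 1944 4622869096485514 o) 2064 72124487026214 o))) 2065 522047041568300732 (b (b (b (b o
    2233 3781346575 o) 2244 267093843166291119 (b o 2354 7714356202618331 o)) 2365 15931604122782
    (b (b o 2744 120523107405647 o) 2745 140874143429 (b o 2755 15051795298754 o))) 2756
    127271713085 (b (b (b o 2795 1019609543414506 o) 2796 36927637384538375 (b o 2806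
    127451155679618 o)) 2807 267093733105172842 (b (b o 2916 65208517507321 o) 2917
    295421098159727331 o))))) 2927 1003454257925 (b (b (b (b (b (b o 2928 125454061448 o) 3274
    1019623113419570 (b o 3275 36927746988701555 o)) 3395 9029141539500 (b (b o 3396
    1127006400928 o) 3564 8156985035023008 (b o 3575 15067074236347 o))) 3685 7714358244581439 (b
    (b (b o 3696 1881584777847 o) 6673 521665736505817 (b o 6674 7713478207387156 o)) 6684
    576996128025207 (b (b o 6685 33386730432232691 o) 6853 520787785770401 o))) 6864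
    4622882880978573 (b (b (b (b o 6974 4173341411651464 o) 6985 493718922111270207 (b o 7503
    577858694238460 o)) 7504 4173325942258303 (b (b o 7624 577860334611780 o) 7625
    61714849829730319 (b o 8004 964294832157004 o))) 8005 65255882225618216 (b (b (b o 8015
    15065397599081 o) 8016 1018900113683 (b o 8184 8156985256402928 o)) 8195 295421978136873199
    (b (b o 8305 2366915961103320265 o) 8316 1017250240715 o)))) 8834 120536833387081 (b (b (b (b
    (b o 8835 295864495127860967 o) 8955 8151125799393 (b o 8956 1128716878736 o)) 9373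
    964184747675476 (b (b o 9374 31096461875 o) 9384 128317176252937 (b o 9385 1883391764496 o)))
    9443 71244553489318 (b (b (b o 9444 15883421615 o) 9564 72232312187806 (b o 9565 248882611293
    o)) 9933 2165047319 (b (b o 9944 4615968446023382 o) 10054 61714865400026751 o))) 10065
    16039629562925 (b (b (b (b o 10704 964294550164693 o) 10705 65698399251419541 (b o 10715
    15929664321411 o)) 10716 1883144380410 (b (b o 10774 127437436550651 o) 10775 141060965289 (b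
    o 10895 8137317657408 o))) 10896 139161790933 (b (b (b o 11264 8212299884622924 o) 11275
    36927747338477094 (b o 11385 522047057106014678 o)) 11396 1113208534135 (b (b o 11979
    4173339651687417 o) 13310 2136749865152886578 o))))))

theorem chkI : chkG 5 1464 863 tabI 2927 995 = true := by decide +kernel

/-- table -/
def tabJ : Tr :=
    (b (b (b (b (b (b (b o 9 10909009 o) 10 15657483635 (b o 99 8156875341092766 o)) 110
    15931484461421 (b (b o 203 267093842885310716 o) 204 127452881994488 (b o 214 31307296313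
    o))) 215 3861594068 (b (b (b o 324 1991184404837 o) 325 16039412576096 (b o 335
    65255880209743987 o)) 336 521667680385489 (b (b o 623 250686623277 o) 624 65208284698200 (b o
    634 235156443665 o)))) 635 8905539844319 (b (b (b (b o 744 17363218495 o) 745 431874542 (b o
    755 127447255303 o)) 756 128315559348571 (b (b o 903 9015392554946 o) 904 2005008776392 (b o
    914 72232554830470 o))) 915 525587193955586268 (b (b (b o 1024 1026537491289442 o) 1025
    36983061880668334 (b o 1035 1026523869821598 o)) 1036 17696226071 (b (b o 1089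
    4615954660286829 o) 1210 9015557283129 o)))) 1393 235389433919 (b (b (b (b (b o 1394
    72122566605887 o) 1404 29487742236 (b o 1405 65098552440229 o)) 1464 245765291 (b (b o 1465
    1949785903 o) 1475 576994468077555 (b o 1476 33386716767289129 o))) 1585 521667421822052 (b
    (b (b o 1586 65255002166449713 o) 1596 72124381480526 (b o 1597 1991523651755 o)) 2013
    15931604122902 (b (b o 2024 7714356203053601 o) 2134 267093843224741951 o))) 2145 3762342437
    (b (b (b (b o 2183 522047041568296860 o) 2184 72124488636756 (b o 2304 4622869153175434 o))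
    2305 576980741202428 (b (b o 2724 127213412271 o) 2725 15051736879836 (b o 2735 140873676245
    o))) 2736 120523107405999 (b (b (b o 2795 1019609490267676 o) 2796 36927637326091503 (b o
    2806 127451160511148 o)) 2807 267093733105289970 (b (b o 2916 65208536979851 o) 2917
    295421098173899819 o))))) 2927 1003453818695 (b (b (b (b (b (b o 2928 125448907816 o) 3344
    1881526477025 (b o 3355 7714358264026007 o)) 3465 15067074381437 (b (b o 3476
    8156985035023368 o) 3514 1127025405914 (b o 3515 9029155711980 o))) 3635 36927746993533093 (b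
    (b (b o 3636 1019623113418602 o) 6733 15929662593743 (b o 6734 1883144380420 o)) 6744
    964294548872655 (b (b o 6745 65698399251274341 o) 6783 141059204387 o))) 6784 127437441704645
    (b (b (b (b o 6904 139161792231 o) 6905 8137317540162 (b o 7513 522047057125342128 o)) 7524
    1113208530145 (b (b o 7634 8212299889776886 o) 7645 36927747324304496 (b o 8064
    128317175817337 o))) 8065 1883386609654 (b (b (b o 8075 964184747675506 o) 8076 31091161823
    (b o 8114 15882952741 o)) 8115 71244553493300 (b (b o 8235 248883899819 o) 8236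
    72232306915748 o)))) 8844 61714865343336469 (b (b (b (b (b o 8855 16039630851443 o) 8965
    2165045989 (b o 8976 4615968504005732 o)) 9333 65255882243335124 (b (b o 9334 964294851483486
    o) 9344 1018898499191 (b o 9345 15065397598963 o))) 9493 295421978083726379 (b (b (b o 9504
    8156985261670058 o) 9614 1017269713215 (b o 9625 2366915961103321475 o)) 9923 8151143511013
    (b (b o 9924 1128736323314 o) 10044 120536838687453 o))) 10045 295864495127860857 (b (b (b (b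
    o 10664 7713478207386794 o) 10665 521665731672989 (b o 10675 33386730490211169 o)) 10676
    576996181176019 (b (b o 10824 4622882880982203 o) 10835 520787844187981 (b o 10945
    493718922113025917 o))) 10956 4173341393935884 (b (b (b o 11254 577860334611450 o) 11255
    61714849831458067 (b o 11375 577858752689322 o)) 11376 4173325995403803 (b (b o 11979
    4173339709987879 o) 13310 2136749865171890596 o))))))

theorem chkJ : chkG 5 1464 745 tabJ 2927 635 = true := by decide +kernel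

theorem un1464 : Un (cq 1464) := by simp [Un, normSq_def', cq, cv]; norm_num
theorem un36 : Un (cq 36) := by simp [Un, normSq_def', cq, cv]; linear_combination (1 / 2) * sq2
theorem un863 : Un (cq 863) := by simp [Un, normSq_def', cq, cv]; linear_combination (1 / 8) * sq5
theorem un745 : Un (cq 745) := by simp [Un, normSq_def', cq, cv]; linear_combination (1 / 8) * sq5

/-- the three groups -/
def UU : ℕ → Set ℍ
  | 0 => (Submonoid.closure {cq 1464, cq 36} : Submonoid ℍ)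
  | 1 => (Submonoid.closure {cq 1464, cq 863} : Submonoid ℍ)
  | _ => (Submonoid.closure {cq 1464, cq 745} : Submonoid ℍ)

/-- their tables -/
def tabU : ℕ → Tr
  | 0 => tabO
  | 1 => tabI
  | _ => tabJ

theorem UU_good : ∀ u, Good (UU u)
  | 0 => (chkG_sound _ phi2 chkO un1464 un36).1
  | 1 => (chkG_sound _ phi5 chkI un1464 un863).1
  | _ + 2 => (chkG_sound _ phi5 chkJ un1464 un745).1

theorem mem_UU : ∀ {u c : ℕ}, (tabU u).mem c = true → cq c ∈ UU u
  | 0, _, h => (chkG_sound _ phi2 chkO un1464 un36).2.1 _ h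
  | 1, _, h => (chkG_sound _ phi5 chkI un1464 un863).2.1 _ h
  | _ + 2, _, h => (chkG_sound _ phi5 chkJ un1464 un745).2.1 _ h

theorem UU_tab : ∀ {u : ℕ} {p : ℍ}, p ∈ UU u → ∃ c, (tabU u).mem c = true ∧ p = cq c
  | 0, _, h => (chkG_sound _ phi2 chkO un1464 un36).2.2 _ h
  | 1, _, h => (chkG_sound _ phi5 chkI un1464 un863).2.2 _ h
  | _ + 2, _, h => (chkG_sound _ phi5 chkJ un1464 un745).2.2 _ h

end Pool.Agent.MP_d6da41_co

end MrgPart1

-- ======== part 2: formerly Pool.Agent.MP_d6da41_co.ModP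
section MrgPart2

-- ======== part 0: formerly Pool.Agent.MP_d6da41_co.Chain
section MrgPart0

/-! The chain of fixed spaces of a chiral flag system of full rank. -/

set_option linter.unusedSectionVars false

namespace Pool.Agent.MP_d6da41_co

open Module Submodule
open scoped RealInnerProductSpace

variable {V : Type} [NormedAddCommGroup V] [InnerProductSpace ℝ V]

/-- linear part of an isometry -/
noncomputable def lin : (V ≃ᵢ V) →* OV V where
  toFun g := g.toRealLinearIsometryEquiv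
  map_one' := by ext x; simp
  map_mul' g h := by
    ext x
    rw [OV.mul_apply, IsometryEquiv.toRealLinearIsometryEquiv_apply h, map_sub]
    simp

theorem lin_apply (g : V ≃ᵢ V) (x : V) : lin g x = g x - g 0 :=
  IsometryEquiv.toRealLinearIsometryEquiv_apply g x

theorem lin_sub (g : V ≃ᵢ V) (x y : V) : lin g (x - y) = g x - g y := by
  rw [map_sub, lin_apply, lin_apply]; abel

theorem apply_eq_lin (g : V ≃ᵢ V) (o x : V) : g x = lin g (x - o) + g o := by
  rw [lin_sub]; abel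

theorem eq_of_lin {g h : V ≃ᵢ V} {o : V} (h1 : lin g = lin h) (h2 : g o = h o) : g = h := by
  ext x
  rw [apply_eq_lin g o, apply_eq_lin h o, h1, h2]

/-- the isometry `x ↦ R (x - o) + o'` -/
noncomputable def aff (R : OV V) (o o' : V) : V ≃ᵢ V :=
  ((IsometryEquiv.subRight o).trans R.toIsometryEquiv).trans (IsometryEquiv.addRight o')

theorem aff_apply (R : OV V) (o o' x : V) : aff R o o' x = R (x - o) + o' := rfl

theorem lin_aff (R : OV V) (o o' : V) : lin (aff R o o') = R := by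
  ext x
  rw [lin_apply, aff_apply, aff_apply, map_sub, map_sub, map_zero]; abel

namespace Man

variable {n : ℕ} {M : Man V n} {a : M.Ω} {τ : ℕ → V ≃ᵢ V}

/-- the stabilizer of the faces of rank `< k` of the base flag -/
def Hs (M : Man V n) (a : M.Ω) (k : ℕ) : Subgroup (V ≃ᵢ V) where
  carrier := {g | ∃ b, M.B g a b ∧ ∀ i, i < k → i ≤ n → M.f i b = M.f i a}
  one_mem' := ⟨a, B.one a, fun _ _ _ => rfl⟩
  mul_mem' := by
    rintro g h ⟨b, hb, hb'⟩ ⟨c, hc, hc'⟩
    obtain ⟨d, hd⟩ := hb.exists' c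
    exact ⟨d, hc.mul hd, fun i h1 h2 => by
      rw [hd i h2, hc' i h1 h2, ← hb i h2, hb' i h1 h2]⟩
  inv_mem' := by
    rintro g ⟨b, hb, hb'⟩
    obtain ⟨d, hd⟩ := hb.inv.exists' a
    exact ⟨d, hd, fun i h1 h2 => by
      rw [hd i h2, ← hb' i h1 h2, ← hb.inv i h2, hb' i h1 h2]⟩

theorem Hs_anti {k m : ℕ} (h : k ≤ m) : M.Hs a m ≤ M.Hs a k := by
  rintro g ⟨b, hb, hb'⟩
  exact ⟨b, hb, fun i h1 => hb' i (by omega)⟩

theorem Hs_conn {j : ℕ} {g : V ≃ᵢ V} (hg : g ∈ M.Hs a (j + 1)) {b : M.Ω}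
    (hb : M.C (· < j) a b) : ∃ c, M.B g b c ∧ M.C (j < ·) b c := by
  obtain ⟨c, hc, hc'⟩ := hg
  refine Conn.induction (P := fun b => ∃ c, M.B g b c ∧ M.C (j < ·) b c)
    ⟨c, hc, conn_of_agree fun i h1 h2 => (hc' i (by omega) h1.le).symm⟩ ?_ hb
  rintro b i hi hI - ⟨c, h1, h2⟩
  exact ⟨_, h1.r' hi, Conn.map_comm (t := M.r i) (fun k hk hk' x => comm (by omega) hk x) h2⟩

theorem Hs_vertex {j : ℕ} {g : V ≃ᵢ V} (hg : g ∈ M.Hs a (j + 1)) {b : M.Ω}
    (hb : M.C (· < j) a b) : g (M.vt b) = M.vt b := by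
  obtain ⟨c, h1, h2⟩ := Hs_conn hg hb
  rw [← h1.vertex]
  exact cfix h2 (Nat.zero_le n) (by omega)

theorem mem_Hs_of_vertex {j : ℕ} (hj : j ≤ n) {g : V ≃ᵢ V} {b : M.Ω} (hg : M.B g a b)
    (h : ∀ b, M.C (· < j) a b → g (M.vt b) = M.vt b) : g ∈ M.Hs a (j + 1) :=
  ⟨b, hg, fun i h1 h2 => by
    rw [hg i h2, map_fix_of_vertices hj h i (by omega) a (Conn.refl a)]⟩

theorem Hs_conj {k : ℕ} {g h : V ≃ᵢ V} {c c' : M.Ω} (hh : M.B h a c) (hg : M.B g c c')
    (e : ∀ i, i < k → i ≤ n → M.f i c' = M.f i c) : h⁻¹ * g * h ∈ M.Hs a k := by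
  obtain ⟨d, hd⟩ := hh.inv.exists' c'
  refine ⟨d, ?_, fun i h1 h2 => by rw [hd i h2, e i h1 h2, ← hh.inv i h2]⟩
  rw [mul_assoc]
  exact (hh.mul hg).mul hd

theorem Base.mem_Hs (hb : M.Base a τ) {k i : ℕ} (h1 : k ≤ i) (h2 : i < n) : τ i ∈ M.Hs a k := by
  by_cases e : i = n - 1
  · rw [e, hb.last]; exact one_mem _
  exact ⟨_, hb.act i h2, fun j h3 h4 => by
    rw [M.fix _ (by omega) j h4 (by omega), M.fix _ h2 j h4 (by omega)]⟩

theorem Base.GG_le_Hs (hb : M.Base a τ) (k : ℕ) : GG τ k n ≤ M.Hs a k :=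
  GG_le_of_tau fun _ h1 h2 => hb.mem_Hs h1 h2

theorem Base.conj_mem (hb : M.Base a τ) {k i : ℕ} (h1 : i + 2 ≤ k) (h2 : k < n) {g : V ≃ᵢ V}
    (hg : g ∈ M.Hs a k) : (τ i)⁻¹ * g * τ i ∈ M.Hs a k ∧ τ i * g * (τ i)⁻¹ ∈ M.Hs a k := by
  obtain ⟨j, rfl⟩ : ∃ j, k = j + 1 := ⟨k - 1, by omega⟩
  obtain ⟨c, c1, c2⟩ := Hs_conn hg (Conn.step a (i := i) (by omega) (by omega))
  have e : ∀ l, l < j + 1 → l ≤ n →
      M.f l (M.r (n - 1) c) = M.f l (M.r (n - 1) (M.r i a)) := fun l h3 h4 => by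
    rw [M.fix _ (by omega) l h4 (by omega), M.fix _ (by omega) l h4 (by omega),
      cfix c2 h4 (by omega)]
  refine ⟨Hs_conj (hb.act i (by omega)) (c1.r' (by omega)) e, ?_⟩
  have := hb.act_inv (i := i) (by omega)
  rw [comm (by omega) (by omega)] at this
  have := Hs_conj this (c1.r' (by omega)) e
  rwa [inv_inv] at this

theorem Hs_last (hc : M.Chi) {g : V ≃ᵢ V} (hg : g ∈ M.Hs a (n - 1)) : M.B g a a := by
  obtain ⟨b, hb, hb'⟩ := hg
  rcases adj (a := a) (b := b) (i := n - 1) (fun j h1 h2 => (hb' j (by omega) h1.le).symm)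
    with rfl | rfl
  · exact hb
  · exact absurd hb (hc.adj a _ (by have := hc.pos; omega) g)

/-- fixed points of `Hs k` -/
def AF (M : Man V n) (a : M.Ω) (k : ℕ) : Set V := {p | ∀ g ∈ M.Hs a k, g p = p}

theorem AF_map {k : ℕ} {h : V ≃ᵢ V} (hh : ∀ g ∈ M.Hs a k, h⁻¹ * g * h ∈ M.Hs a k) {p : V}
    (hp : p ∈ M.AF a k) : h p ∈ M.AF a k := fun g hg => by
  have := congrArg h (hp _ (hh g hg))
  simpa using this

theorem Base.AF_ne (hb : M.Base a τ) {k : ℕ} (h1 : 1 ≤ k) (h2 : k + 2 ≤ n) :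
    ¬ M.AF a (k + 1) ⊆ M.AF a k := by
  intro hsub
  let Z : Subgroup (V ≃ᵢ V) :=
    { carrier := {g | ∀ p ∈ M.AF a (k + 1), g p ∈ M.AF a (k + 1) ∧ g⁻¹ p ∈ M.AF a (k + 1)}
      one_mem' := fun p hp => ⟨hp, hp⟩
      mul_mem' := fun {g h} hg hh p hp => ⟨(hg _ (hh p hp).1).1, by
        rw [mul_inv_rev]; exact (hh _ (hg p hp).2).2⟩
      inv_mem' := fun {g} hg p hp => ⟨(hg p hp).2, by rw [inv_inv]; exact (hg p hp).1⟩ }
  have hZ : GG τ 0 n ≤ Z := GG_le_of_tau fun i _ hi p hp => by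
    by_cases e : k ≤ i
    · rw [hsub hp _ (hb.mem_Hs e hi), hsub hp _ (inv_mem (hb.mem_Hs e hi))]
      exact ⟨hp, hp⟩
    · exact ⟨AF_map (fun g hg => (hb.conj_mem (by omega) (by omega) hg).1) hp,
        AF_map (fun g hg => by
          rw [inv_inv]; exact (hb.conj_mem (by omega) (by omega) hg).2) hp⟩
  have hv : M.vt a ∈ M.AF a (k + 1) := fun g hg => Hs_vertex hg (Conn.refl a)
  have hall : ∀ b, τ k (M.vt b) = M.vt b := fun b => by
    obtain ⟨g, hg, e⟩ := hb.vertices (by omega) b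
    rw [e]
    exact hsub (hZ hg _ hv).1 _ (hb.mem_Hs le_rfl (by omega))
  have e := A.unique (hb.act k (by omega)) (B.of_vertices hall a)
  apply M.move k (by omega) a
  rw [← M.fix (n - 1) (by omega) k (by omega) (by omega), e]

/-- linear fixed space of `Hs k` -/
def LF (M : Man V n) (a : M.Ω) (k : ℕ) : Submodule ℝ V where
  carrier := {x | ∀ g ∈ M.Hs a k, lin g x = x}
  zero_mem' := fun _ _ => map_zero _
  add_mem' := fun hx hy i hi => by rw [map_add, hx i hi, hy i hi]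
  smul_mem' := fun c x hx i hi => by rw [map_smul, hx i hi]

theorem LF_mono {k m : ℕ} (h : k ≤ m) : M.LF a k ≤ M.LF a m :=
  fun _ hx g hg => hx g (Hs_anti h hg)

theorem mem_LF_iff {k : ℕ} {o : V} (ho : o ∈ M.AF a k) (p : V) :
    p - o ∈ M.LF a k ↔ p ∈ M.AF a k := by
  refine forall₂_congr fun g hg => ?_
  rw [lin_sub, ho g hg, sub_left_inj]

/-- The consequences of full rank. -/
structure Full (M : Man V n) (a : M.Ω) (τ : ℕ → V ≃ᵢ V) (k0 : ℕ) : Prop where
  faithful : ∀ g, M.B g a a → g = 1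
  ld : LD (fun j => lin (τ (n - 2 - j))) (n - 1 - k0)

variable [FiniteDimensional ℝ V]

theorem Base.dims (hb : M.Base a τ) (hc : M.Chi) {k0 : ℕ} (hk0 : k0 ≤ 1) (hn : k0 + 2 ≤ n)
    (hd : finrank ℝ V + k0 = n) {o : V} (ho : o ∈ M.AF a k0) :
    (∀ g, M.B g a a → g = 1) ∧ ∀ k, k0 ≤ k → k + 2 ≤ n → finrank ℝ (M.LF a k) + k0 = k := by
  have ho' : ∀ k, k0 ≤ k → o ∈ M.AF a k := fun k hk g hg => ho g (Hs_anti hk hg)
  have step : ∀ k, k0 ≤ k → k + 2 ≤ n →
      finrank ℝ (M.LF a k) + 1 ≤ finrank ℝ (M.LF a (k + 1)) := by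
    intro k h1 h2
    refine Submodule.finrank_lt_finrank_of_lt (lt_of_le_of_ne (LF_mono (by omega)) fun e => ?_)
    have hsub : M.AF a (k + 1) ⊆ M.AF a k := fun p hp => by
      rw [← mem_LF_iff (ho' k h1), e, mem_LF_iff (ho' _ (by omega))]; exact hp
    by_cases hk : 1 ≤ k
    · exact hb.AF_ne hk h2 hsub
    · obtain rfl : k = 0 := by omega
      exact hb.move_vertex (by omega) (hsub (fun g hg => Hs_vertex hg (Conn.refl a)) _
        (hb.mem_Hs le_rfl (by omega)))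
  have hvert : ∀ b, M.vt b - o ∈ M.LF a (n - 1) := fun b =>
    (mem_LF_iff (ho' _ (by omega)) _).2 fun g hg => ((Hs_last hc hg).all b).vertex.symm
  have last : finrank ℝ (M.LF a (n - 2)) + 2 ≤ finrank ℝ (M.LF a (n - 1)) := by
    have h1 := step (n - 2) (by omega) (by omega)
    rw [show n - 2 + 1 = n - 1 by omega] at h1
    by_contra hlt
    obtain ⟨x, hx⟩ := exists_frame (A := M.LF a (n - 2)) (B := M.LF a (n - 1))
      (LF_mono (by omega)) (by omega)
    have hS := hb.mem_Hs (k := n - 2) le_rfl (by omega)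
    have e1 : lin (τ (n - 2)) x ∈ M.LF a (n - 1) := fun g hg => by
      have := hx.mem _ (Hs_conj (k := n - 1) (hb.act (n - 2) (by omega)) ((Hs_last hc hg).all _)
        fun _ _ _ => rfl)
      rw [map_mul, map_mul, map_inv] at this
      have := congrArg (lin (τ (n - 2))) this
      rwa [OV.mul_apply, OV.mul_apply, OV.apply_inv_self] at this
    have e2 : lin (τ (n - 2)) x ∈ (M.LF a (n - 2))ᗮ := orth_of_fix (fun y hy => by
      rw [← map_inv, hy _ (inv_mem hS)]; exact hy) hx.orth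
    have e3 : lin (τ (n - 2)) (lin (τ (n - 2)) x) = x := by
      rcases pm_of_map hx.ne (hx.eq e1 e2) with e | e
      · rw [e, e]
      · rw [e, map_neg, e, neg_neg]
    have e4 : ∀ b, (τ (n - 2) * τ (n - 2)) (M.vt b) = M.vt b := fun b => by
      have f1 := hx.sub _ (hvert b)
      have f2 := f1 _ (mul_mem hS hS)
      rw [map_sub, map_smul, map_mul, OV.mul_apply _ _ x, e3, sub_left_inj, ← map_mul, lin_sub,
        ho' (n - 2) (by omega) _ (mul_mem hS hS), sub_left_inj] at f2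
      exact f2
    have := hb.digon (i := n - 2) (by omega)
    rw [show n - 2 + 1 = n - 1 by omega, hb.last, inv_one, mul_one] at this
    exact this (B.of_vertices e4 a)
  have lo : ∀ k, k0 ≤ k → k + 2 ≤ n → k ≤ finrank ℝ (M.LF a k) + k0 := by
    intro k hk
    induction k, hk using Nat.le_induction with
    | base => intro _; omega
    | succ k hk ih => intro h; have := step k hk (by omega); have := ih (by omega); omega
  have htop : finrank ℝ (M.LF a (n - 1)) ≤ finrank ℝ V := Submodule.finrank_le _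
  have hi : ∀ k, k ≤ n - 2 → k0 ≤ k → finrank ℝ (M.LF a k) + k0 ≤ k := by
    intro k hk
    induction hk using Nat.decreasingInduction with
    | self => intro _; omega
    | of_succ k hk ih => intro h; have := step k h (by omega); have := ih (by omega); omega
  refine ⟨fun g hg => ?_, fun k h1 h2 => le_antisymm (hi k (by omega) h1) (lo k h1 h2)⟩
  have hT : M.LF a (n - 1) = ⊤ := Submodule.eq_top_of_finrank_eq (by
    have := lo (n - 2) (by omega) (by omega); omega)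
  have hg' : g ∈ M.Hs a (n - 1) := ⟨a, hg, fun _ _ _ => rfl⟩
  refine eq_of_lin (o := o) ?_ (ho' _ (by omega) g hg')
  ext x
  have : x ∈ M.LF a (n - 1) := by rw [hT]; trivial
  rw [this g hg', map_one, OV.one_apply]

section Faithful

variable (hb : M.Base a τ) (hc : M.Chi) (hf : ∀ g, M.B g a a → g = 1)
include hb hc hf

theorem Base.mem_GG_of {s t : ℕ} {g : V ≃ᵢ V} {b : M.Ω} (hg : M.B g a b)
    (h : ∀ j, j < n → ¬ (s ≤ j ∧ j < t) → M.f j a = M.f j b) : g ∈ GG τ s t := by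
  obtain ⟨g', hg', h'⟩ := hb.stab hc hg (conn_of_agree h)
  have := hf _ (hg.mul h'.inv)
  rw [inv_mul_eq_one] at this
  rwa [← this]

theorem Base.Hs_eq (k : ℕ) : M.Hs a k = GG τ k n := by
  refine le_antisymm ?_ (hb.GG_le_Hs k)
  rintro g ⟨b, h1, h2⟩
  exact hb.mem_GG_of hc hf h1 fun j h3 h4 => (h2 j (by omega) h3.le).symm

theorem Base.inter {s t : ℕ} (ht : t ≤ n) {g : V ≃ᵢ V} (h1 : g ∈ GG τ s t)
    (h2 : g ∈ GG τ (s + 1) n) : g ∈ GG τ (s + 1) t := by
  obtain ⟨b, b1, b2⟩ := hb.of_mem ht h1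
  obtain ⟨c, c1, c2⟩ := hb.of_mem le_rfl h2
  obtain rfl := A.unique b1 c1
  refine hb.mem_GG_of hc hf b1 fun j h3 h4 => ?_
  by_cases e : s ≤ j ∧ j < t
  · exact (cfix c2 h3.le (by omega)).symm
  · exact (cfix b2 h3.le e).symm

theorem Base.stab_vertex {t : ℕ} (ht : t ≤ n) {g : V ≃ᵢ V} (h1 : g ∈ GG τ 0 t)
    (h2 : g (M.vt a) = M.vt a) : g ∈ GG τ 1 t := by
  refine hb.inter hc hf ht h1 ?_
  obtain ⟨b, b1, -⟩ := hb.of_mem ht h1
  rw [← hb.Hs_eq hc hf]
  refine ⟨b, b1, fun i h3 _ => ?_⟩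
  obtain rfl : i = 0 := by omega
  exact b1.vertex.trans h2

omit hc in
theorem Base.g2 {i k : ℕ} (h1 : i + 2 ≤ k) (h2 : k < n) :
    τ i * (τ k)⁻¹ * (τ i * (τ k)⁻¹) = 1 := by
  have e1 := hb.act2 (i := i) (k := k) (by omega) h2
  have e2 := (e1.r' (i := i) (by omega)).r' h2
  rw [comm (i := i) (k := k) h1 h2 (M.r i a), M.inv i (by omega), M.inv k h2] at e2
  exact hf _ (e1.mul e2)

omit hc in
theorem Base.invol {i : ℕ} (h1 : i + 2 < n) : τ i * τ i = 1 := by
  have := hb.g2 hf (i := i) (k := n - 1) (by omega) (by omega)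
  rwa [hb.last, inv_one, mul_one] at this

omit hc in
theorem Base.inverts {i k : ℕ} (h1 : i + 2 ≤ k) (h2 : k < n) :
    τ i * τ k * (τ i)⁻¹ = (τ k)⁻¹ := by
  have e1 := hb.g2 hf h1 h2
  have e2 := hb.invol hf (i := i) (by omega)
  have e3 : (τ i)⁻¹ = τ i := inv_eq_of_mul_eq_one_right e2
  calc τ i * τ k * (τ i)⁻¹ = (τ i * (τ k)⁻¹ * (τ i)⁻¹)⁻¹ := by group
    _ = (τ i * (τ k)⁻¹ * (τ i * (τ k)⁻¹) * τ k)⁻¹ := by rw [e3]; group
    _ = _ := by rw [e1, one_mul]

end Faithful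

theorem HH_eq (hl : τ (n - 1) = 1) {k : ℕ} (hk : k < n) :
    HH (fun j => τ (n - 2 - j)) k = GG τ (n - 1 - k) n := by
  refine le_antisymm (HH_le fun i hi => tau_mem_GG hl (by omega) (by omega))
    (GG_le_of_tau fun i h1 h2 => ?_)
  by_cases e : i = n - 1
  · rw [e, hl]; exact one_mem _
  · have := mem_HH (s := fun j => τ (n - 2 - j)) (k := k) (i := n - 2 - i) (by omega)
    rwa [show n - 2 - (n - 2 - i) = i by omega] at this

theorem KK_eq {k : ℕ} (hk : k < n) :
    GG (fun j => τ (n - 2 - j)) 0 k = GG τ (n - 1 - k) (n - 1) := by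
  refine le_antisymm (GG_le fun i _ hi => mem_GG (by omega) (by omega) (by omega) (by omega))
    (GG_le fun i h1 h2 => ?_)
  have := mem_GG (τ := fun j => τ (n - 2 - j)) (a := 0) (b := k) (i := n - 2 - i)
    (k := n - 2 - (i + 1)) (by omega) (by omega) (by omega) (by omega)
  rwa [show n - 2 - (n - 2 - i) = i by omega, show n - 2 - (n - 2 - (i + 1)) = i + 1 by omega]
    at this

theorem Base.full (hb : M.Base a τ) (hc : M.Chi) {k0 : ℕ} (hk0 : k0 ≤ 1) (hn : k0 + 2 ≤ n)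
    (hd : finrank ℝ V + k0 = n) {o : V} (ho : o ∈ M.AF a k0) : M.Full a τ k0 := by
  obtain ⟨hf, hdim⟩ := hb.dims hc hk0 hn hd ho
  have ho' : ∀ k, k0 ≤ k → ∀ g ∈ GG τ k n, g o = o := fun k hk g hg =>
    ho g (Hs_anti hk (hb.GG_le_Hs k hg))
  have hH : ∀ k, k < n → HH (fun j => lin (τ (n - 2 - j))) k = (GG τ (n - 1 - k) n).map lin :=
    fun k hk => by rw [HH_map lin (fun j => τ (n - 2 - j)), HH_eq hb.last hk]
  have hK : ∀ k, k < n →
      GG (fun j => lin (τ (n - 2 - j))) 0 k = (GG τ (n - 1 - k) (n - 1)).map lin :=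
    fun k hk => by rw [GG_map lin (fun j => τ (n - 2 - j)), KK_eq hk]
  have hF : ∀ k, k < n → Fx (fun j => lin (τ (n - 2 - j))) k = M.LF a (n - 1 - k) := by
    intro k hk
    ext x
    constructor
    · intro hx g hg
      rw [hb.Hs_eq hc hf] at hg
      refine HH_fix ?_ hx
      rw [hH k hk]
      exact ⟨g, hg, rfl⟩
    · intro hx i hi
      exact hx _ (hb.mem_Hs (by omega) (by omega))
  have inj : ∀ g ∈ GG τ k0 n, ∀ g' ∈ GG τ k0 n, lin g = lin g' → g = g' := fun g hg g' hg' e =>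
    eq_of_lin e ((ho' k0 le_rfl g hg).trans (ho' k0 le_rfl g' hg').symm)
  have tm : ∀ i, k0 ≤ i → i < n → τ i ∈ GG τ k0 n := fun i => tau_mem_GG hb.last
  refine ⟨hf, by omega, fun e => ?_, fun i h1 h2 => ?_, fun i h1 k h2 => ?_, fun k h1 h2 => ?_,
    fun k h1 h2 g hg hfix => ?_, fun j hj hm => ?_, fun k hk g h1 h2 => ?_⟩
  · rw [← map_mul, ← map_one lin] at e
    have a1 := tm (n - 2 - 0) (by omega) (by omega)
    have := hb.digon (i := n - 2) (by omega)
    rw [show n - 2 + 1 = n - 1 by omega, hb.last, inv_one, mul_one,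
      show τ (n - 2) * τ (n - 2) = 1 from inj _ (mul_mem a1 a1) _ (one_mem _) e] at this
    exact this (B.one a)
  · rw [← map_mul, hb.invol hf (by omega), map_one]
  · rw [← map_inv, ← map_inv, ← map_mul, ← map_mul, hb.inverts hf (by omega) (by omega)]
  · rw [hF k (by omega)]
    have := hdim (n - 1 - k) (by omega) (by omega)
    omega
  · rw [hH _ (by omega)] at hg ⊢
    obtain ⟨g, hg, rfl⟩ := hg
    rw [show n - 1 - (n - 1 - k0) = k0 by omega] at hg
    refine ⟨g, ?_, rfl⟩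
    by_cases e : n - 1 - k = k0
    · rwa [e]
    obtain ⟨j, hj⟩ : ∃ j, n - 1 - k = j + 1 := ⟨n - 1 - k - 1, by omega⟩
    obtain ⟨b, b1, -⟩ := hb.of_mem le_rfl hg
    rw [hF k (by omega), hj] at hfix
    rw [hj, ← hb.Hs_eq hc hf]
    refine mem_Hs_of_vertex (by omega) b1 fun c hc' => ?_
    have := hfix _ ((mem_LF_iff (o := o) (fun g hg => ho g (Hs_anti (by omega) hg)) (M.vt c)).2
      fun g hg => Hs_vertex hg hc')
    rwa [lin_sub, ho' k0 le_rfl g hg, sub_left_inj] at this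
  · rw [hH _ (by omega)] at hm
    obtain ⟨g, hg, e⟩ := hm
    rw [← map_inv, ← map_mul, ← map_mul] at e
    have a1 := mul_mem (tm (n - 2 - (j + 1)) (by omega) (by omega))
      (inv_mem (tm (n - 2 - j) (by omega) (by omega)))
    obtain rfl := inj _ (GG_mono (by omega) le_rfl hg) _ (mul_mem a1 a1) e
    obtain ⟨i, hi⟩ : ∃ i, n - 2 - (j + 1) = i := ⟨_, rfl⟩
    rw [hi, show n - 2 - j = i + 1 by omega, show n - 1 - (j + 1) = i + 1 by omega] at hg
    have a2 := mem_GG (τ := τ) (a := i) (b := i + 2) (i := i) (k := i + 1) le_rfl (by omega)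
      (by omega) (by omega)
    have := GG_trivial le_rfl (hb.inter hc hf (by omega) (mul_mem a2 a2) hg)
    refine hb.digon (i := i) (by omega) ?_
    rw [this]; exact B.one a
  · rw [hK _ (by omega)] at h1 ⊢
    rw [hH _ (by omega)] at h2
    obtain ⟨g, hg, rfl⟩ := h1
    obtain ⟨g', hg', e⟩ := h2
    obtain rfl := inj _ (GG_mono (by omega) le_rfl hg') _ (GG_mono (by omega) (by omega) hg) e
    refine ⟨g', ?_, rfl⟩
    rw [show n - 1 - k = n - 1 - (k + 1) + 1 by omega] at hg' ⊢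
    exact hb.inter hc hf (by omega) hg hg'

/-- The centroid of the vertices of a finite flag system. -/
theorem exists_center [Finite M.Ω] (a : M.Ω) : ∃ o, o ∈ M.AF a 0 := by
  classical
  have := Fintype.ofFinite M.Ω
  have hN : (Fintype.card M.Ω : ℝ) ≠ 0 := by
    have : Nonempty M.Ω := ⟨a⟩
    exact_mod_cast Fintype.card_ne_zero
  refine ⟨(Fintype.card M.Ω : ℝ)⁻¹ • ∑ b, M.vt b, ?_⟩
  rintro g ⟨c, hg, -⟩
  choose φ hφ using hg.exists'
  have hinj : Function.Injective φ := fun b b' e =>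
    A.unique (B.inv (hφ b)) (e ▸ B.inv (hφ b'))
  have hs : ∑ b, M.vt (φ b) = ∑ b, M.vt b :=
    Fintype.sum_bijective φ (Finite.injective_iff_bijective.1 hinj) _ _ fun _ => rfl
  rw [apply_eq_lin g 0, sub_zero, map_smul, map_sum]
  simp only [lin_apply, ← B.vertex (hφ _)]
  rw [Finset.sum_sub_distrib, hs, Finset.sum_const, Finset.card_univ, smul_sub,
    ← Nat.cast_smul_eq_nsmul ℝ, smul_smul, inv_mul_cancel₀ hN, one_smul]
  abel

/-- A linear mirror at the top level contradicts chirality. -/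
theorem Base.no_mirror' (hb : M.Base a τ) (hc : M.Chi) (hn : 2 ≤ n) {o : V} {R : OV V}
    (h1 : R (M.vt a - o) = M.vt a - o)
    (h2 : ∀ i, i + 1 < n → R * lin (τ i) * R⁻¹ = (lin (τ i))⁻¹)
    (h3 : ∀ i, i + 1 < n → R (τ i o - o) = (τ i)⁻¹ o - o) : False := by
  refine hb.no_mirror hc hn (aff R o o) (by rw [aff_apply, h1]; abel) fun i hi => ?_
  have e : (aff R o o)⁻¹ o = o := mem_stabI.1 (inv_mem (mem_stabI.2 (by simp [aff_apply])))
  refine eq_of_lin (o := o) (by rw [map_mul, map_mul, map_inv, map_inv, lin_aff, h2 i hi]) ?_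
  rw [IsometryEquiv.mul_apply, IsometryEquiv.mul_apply, e, aff_apply, h3 i hi]
  abel

end Man

end Pool.Agent.MP_d6da41_co

end MrgPart0

-- ======== part 1: formerly Pool.Agent.MP_d6da41_co.Ext
section MrgPart1

/-! Extension of orthogonal maps along an isometric embedding. -/

set_option linter.unusedSectionVars false

namespace Pool.Agent.MP_d6da41_co

open Module Submodule
open scoped RealInnerProductSpace

variable {U V : Type} [NormedAddCommGroup U] [InnerProductSpace ℝ U] [FiniteDimensional ℝ U]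
  [NormedAddCommGroup V] [InnerProductSpace ℝ V] [FiniteDimensional ℝ V] (ι : U →ₗᵢ[ℝ] V)

/-- adjoint of the embedding -/
noncomputable def ad : V →ₗ[ℝ] U := LinearMap.adjoint ι.toLinearMap

theorem ad_inner (x : V) (y : U) : ⟪ad ι x, y⟫ = ⟪x, ι y⟫ :=
  LinearMap.adjoint_inner_left ι.toLinearMap y x

theorem ad_emb (y : U) : ad ι (ι y) = y :=
  ext_inner_right ℝ fun z => by rw [ad_inner, ι.inner_map_map]

/-- the extension as a linear isometry -/
noncomputable def extL (g : OV U) : V →ₗᵢ[ℝ] V :=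
  LinearMap.isometryOfInner
    (LinearMap.id + ι.toLinearMap ∘ₗ (g.toLinearEquiv.toLinearMap - LinearMap.id) ∘ₗ ad ι)
    fun x y => by
      show ⟪x + ι (g (ad ι x) - ad ι x), y + ι (g (ad ι y) - ad ι y)⟫ = _
      rw [inner_add_left, inner_add_right, inner_add_right, ι.inner_map_map, ← ad_inner,
        real_inner_comm y (ι _), ← ad_inner, real_inner_comm (g (ad ι x) - ad ι x)]
      simp only [inner_sub_left, inner_sub_right, g.inner_map_map]
      ring

/-- the extension homomorphism -/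
noncomputable def extO : OV U →* OV V where
  toFun g := (extL ι g).toLinearIsometryEquiv rfl
  map_one' := by
    ext x
    show x + ι (ad ι x - ad ι x) = x
    simp
  map_mul' g h := by
    ext x
    show x + ι (g (h (ad ι x)) - ad ι x) = (x + ι (h (ad ι x) - ad ι x)) +
      ι (g (ad ι (x + ι (h (ad ι x) - ad ι x))) - ad ι (x + ι (h (ad ι x) - ad ι x)))
    simp only [map_add, map_sub, ad_emb]
    abel

theorem extO_apply (g : OV U) (x : V) : extO ι g x = x + ι (g (ad ι x) - ad ι x) := rfl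

theorem extO_emb (g : OV U) (y : U) : extO ι g (ι y) = ι (g y) := by
  rw [extO_apply, ad_emb, map_sub]; abel

theorem extO_injective : Function.Injective (extO ι) := fun g h e => by
  ext y
  apply ι.injective
  rw [← extO_emb, ← extO_emb, e]

theorem extO_fix_iff (g : OV U) (x : V) : extO ι g x = x ↔ g (ad ι x) = ad ι x := by
  rw [extO_apply, add_eq_left, map_eq_zero_iff _ ι.injective, sub_eq_zero]

theorem sub_ad_orth (x : V) (y : U) : ⟪ι y, x - ι (ad ι x)⟫ = 0 := by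
  rw [real_inner_comm, ← ad_inner, map_sub, ad_emb, sub_self, inner_zero_left]

theorem exists_extO {s : OV V} (h : ∀ x, (∀ y, ⟪ι y, x⟫ = 0) → s x = x) : ∃ g, s = extO ι g := by
  have key : ∀ y, ι (ad ι (s (ι y))) = s (ι y) := fun y => by
    have h1 := h _ (sub_ad_orth ι (s (ι y)))
    have h2 : ⟪s (ι y), s (ι y) - ι (ad ι (s (ι y)))⟫ = 0 := by
      conv_lhs => rw [← h1, s.inner_map_map]
      exact sub_ad_orth ι _ _
    have h3 : ⟪s (ι y) - ι (ad ι (s (ι y))), s (ι y) - ι (ad ι (s (ι y)))⟫ = 0 := by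
      rw [inner_sub_left, h2, sub_ad_orth, sub_zero]
    exact (sub_eq_zero.1 (inner_self_eq_zero.1 h3)).symm
  let g : U →ₗᵢ[ℝ] U := LinearMap.isometryOfInner
    (ad ι ∘ₗ s.toLinearEquiv.toLinearMap ∘ₗ ι.toLinearMap) fun x y => by
      show ⟪ad ι (s (ι x)), ad ι (s (ι y))⟫ = _
      rw [ad_inner, key, s.inner_map_map, ι.inner_map_map]
  refine ⟨g.toLinearIsometryEquiv rfl, ?_⟩
  ext x
  show s x = x + ι (ad ι (s (ι (ad ι x))) - ad ι x)
  have := h _ (sub_ad_orth ι x)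
  rw [map_sub] at this
  rw [map_sub, key, sub_eq_iff_eq_add.1 this]; abel

theorem mem_Fx_extO (s : ℕ → OV U) (k : ℕ) (x : V) :
    x ∈ Fx (fun i => extO ι (s i)) k ↔ ad ι x ∈ Fx s k :=
  forall₂_congr fun i _ => extO_fix_iff ι (s i) x

theorem finrank_Fx_extO (s : ℕ → OV U) (k : ℕ) :
    finrank ℝ (Fx (fun i => extO ι (s i)) k) + finrank ℝ U = finrank ℝ (Fx s k) + finrank ℝ V := by
  have e : Fx (fun i => extO ι (s i)) k = ((Fx s k)ᗮ.map ι.toLinearMap)ᗮ := by
    ext x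
    rw [mem_Fx_extO, ← (Fx s k).orthogonal_orthogonal, Submodule.mem_orthogonal,
      Submodule.mem_orthogonal, Submodule.orthogonal_orthogonal]
    constructor
    · rintro h _ ⟨w, hw, rfl⟩
      have := h w hw
      rwa [real_inner_comm, ad_inner, real_inner_comm] at this
    · intro h w hw
      rw [real_inner_comm, ad_inner, real_inner_comm]
      exact h _ ⟨w, hw, rfl⟩
  have h1 := Submodule.finrank_add_finrank_orthogonal ((Fx s k)ᗮ.map ι.toLinearMap)
  have h2 := Submodule.finrank_add_finrank_orthogonal (Fx s k)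
  have h3 : finrank ℝ ((Fx s k)ᗮ.map ι.toLinearMap) = finrank ℝ (Fx s k)ᗮ :=
    (LinearEquiv.finrank_eq (Submodule.equivMapOfInjective _ ι.injective _)).symm
  rw [e]
  omega

theorem mem_HH_extO (s : ℕ → OV U) (k : ℕ) (g : OV U) :
    extO ι g ∈ HH (fun i => extO ι (s i)) k ↔ g ∈ HH s k := by
  rw [HH_map, Subgroup.mem_map_iff_mem (extO_injective ι)]

theorem mem_GG_extO (s : ℕ → OV U) (a b : ℕ) (g : OV U) :
    extO ι g ∈ GG (fun i => extO ι (s i)) a b ↔ g ∈ GG s a b := by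
  rw [GG_map, Subgroup.mem_map_iff_mem (extO_injective ι)]

theorem inverts_extO (t : OV U) (s : ℕ → OV U) (k : ℕ) :
    Inverts (extO ι t) (fun i => extO ι (s i)) k ↔ Inverts t s k :=
  forall₂_congr fun i _ => by
    rw [← map_inv, ← map_inv, ← map_mul, ← map_mul, (extO_injective ι).eq_iff]

theorem LD_extO (s : ℕ → OV U) (m : ℕ) : LD (fun i => extO ι (s i)) m ↔ LD s m := by
  have inj := extO_injective ι
  have one : ∀ g h : OV U, extO ι g * extO ι h = 1 ↔ g * h = 1 := fun g h => by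
    rw [← map_mul, map_eq_one_iff _ inj]
  constructor
  · intro h
    refine ⟨h.pos, fun e => h.sq ((one _ _).2 e), fun i a b => (one _ _).1 (h.invol i a b),
      fun i a => (inverts_extO ι _ _ _).1 (h.inverts i a), fun k a b => ?_,
      fun k a b g hg hf => ?_, fun j a e => h.digon j a ?_, fun k a g h1 h2 => ?_⟩
    · have := h.codim k a b
      have := finrank_Fx_extO ι s k
      omega
    · rw [← mem_HH_extO ι] at hg ⊢
      exact h.stab k a b _ hg fun x hx =>
        (extO_fix_iff ι g x).2 (hf _ ((mem_Fx_extO ι s k x).1 hx))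
    · rw [← mem_HH_extO ι] at e
      simpa only [map_mul, map_inv] using e
    · rw [← mem_GG_extO ι] at h1 ⊢
      rw [← mem_HH_extO ι] at h2
      exact h.inter k a _ h1 h2
  · intro h
    refine ⟨h.pos, fun e => h.sq ((one _ _).1 e), fun i a b => (one _ _).2 (h.invol i a b),
      fun i a => (inverts_extO ι _ _ _).2 (h.inverts i a), fun k a b => ?_,
      fun k a b g hg hf => ?_, fun j a e => h.digon j a ?_, fun k a g h1 h2 => ?_⟩
    · have := h.codim k a b
      have := finrank_Fx_extO ι s k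
      omega
    · rw [HH_map] at hg
      obtain ⟨g, hg, rfl⟩ := hg
      rw [mem_HH_extO]
      refine h.stab k a b g hg fun y hy => ι.injective ?_
      rw [← extO_emb]
      exact hf _ ((mem_Fx_extO ι s k _).2 (by rwa [ad_emb]))
    · rw [← mem_HH_extO ι]
      simpa only [map_mul, map_inv] using e
    · rw [HH_map] at h2
      obtain ⟨g, h2, rfl⟩ := h2
      rw [mem_GG_extO] at h1 ⊢
      exact h.inter k a _ h1 h2

theorem Mir_extO {s : ℕ → OV U} {k : ℕ} {R : OV U} :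
    LD.Mir (fun i => extO ι (s i)) k (extO ι R) ↔ LD.Mir s k R := by
  refine and_congr (inverts_extO ι _ _ _) ⟨fun h y hy => ι.injective ?_, fun h x hx => ?_⟩
  · rw [← extO_emb]
    exact h _ ((mem_Fx_extO ι s k _).2 (by rwa [ad_emb]))
  · exact (extO_fix_iff ι R x).2 (h _ ((mem_Fx_extO ι s k x).1 hx))

theorem finite_extO (s : ℕ → OV U) (k : ℕ) :
    Finite (HH (fun i => extO ι (s i)) k) ↔ Finite (HH s k) := by
  rw [HH_map]
  exact ((HH s k).equivMapOfInjective _ (extO_injective ι)).toEquiv.finite_iff.symm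

theorem LD_congr {s s' : ℕ → OV V} {m : ℕ} (e : ∀ i, i < m → s i = s' i) (h : LD s m) :
    LD s' m := by
  have hH : ∀ k, k ≤ m → HH s k = HH s' k := fun k hk => le_antisymm
    (HH_le fun i hi => by rw [e i (by omega)]; exact mem_HH hi)
    (HH_le fun i hi => by rw [← e i (by omega)]; exact mem_HH hi)
  have hG : ∀ k, k ≤ m → GG s 0 k = GG s' 0 k := fun k hk => le_antisymm
    (GG_le fun i _ hi => by
      rw [e i (by omega), e (i + 1) (by omega)]
      exact mem_GG (by omega) (by omega) (by omega) hi)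
    (GG_le fun i _ hi => by
      rw [← e i (by omega), ← e (i + 1) (by omega)]
      exact mem_GG (by omega) (by omega) (by omega) hi)
  have hF : ∀ k, k ≤ m → Fx s k = Fx s' k := fun k hk => Submodule.ext fun x =>
    forall₂_congr fun i hi => by rw [e i (by omega)]
  have hp := h.pos
  refine ⟨hp, by rw [← e 0 hp]; exact h.sq, fun i a b => by rw [← e i b]; exact h.invol i a b,
    fun i a j b => by rw [← e i a, ← e j (by omega)]; exact h.inverts i a j b,
    fun k a b => by rw [← hF k b]; exact h.codim k a b,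
    fun k a b => by rw [← hF k b, ← hH k b, ← hH m le_rfl]; exact h.stab k a b,
    fun j a => by rw [← e j (by omega), ← e _ a, ← hH _ a.le]; exact h.digon j a,
    fun k a => by rw [← hG _ a, ← hG _ a.le, ← hH _ a.le]; exact h.inter k a⟩

/-- An isometric embedding with prescribed image and prescribed value. -/
theorem exists_emb {W : Submodule ℝ V} (hd : finrank ℝ U = finrank ℝ W) {u : U} {w : V}
    (hw : w ∈ W) (hn : ‖u‖ = ‖w‖) :
    ∃ ι : U →ₗᵢ[ℝ] V, ι u = w ∧ (∀ y, ι y ∈ W) ∧ ∀ x ∈ W, ∃ y, ι y = x := by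
  let e : U ≃ₗᵢ[ℝ] W := (stdOrthonormalBasis ℝ U).equiv (stdOrthonormalBasis ℝ W) (finCongr hd)
  let R : W ≃ₗᵢ[ℝ] W := Submodule.reflection (ℝ ∙ (e u - ⟨w, hw⟩))ᗮ
  have hR : R (e u) = ⟨w, hw⟩ := Submodule.reflection_sub (by rw [e.norm_map, hn]; rfl)
  refine ⟨W.subtypeₗᵢ.comp (e.trans R).toLinearIsometry, congrArg Subtype.val hR,
    fun y => (R (e y)).2, fun x hx => ⟨(e.trans R).symm ⟨x, hx⟩, ?_⟩⟩
  exact congrArg Subtype.val ((e.trans R).apply_symm_apply ⟨x, hx⟩)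

end Pool.Agent.MP_d6da41_co

end MrgPart1

-- ======== part 2: formerly Pool.Agent.MP_d6da41_co.Types
section MrgPart2

/-! The nine types of vertex-figures. -/

namespace Pool.Agent.MP_d6da41_co

open Quaternion
open scoped RealInnerProductSpace

theorem IsLR.mulLB {g h : OV ℍ} {p q p' q' : ℍ} (h1 : IsLR g p q) (h2 : IsLB h p' q') :
    IsLB (g * h : OV ℍ) (p * p') (q * q') :=
  ⟨h1.l.mul h2.l, h1.r.mul h2.r, fun x => by
    rw [OV.mul_apply, h1.eq, h2.eq]; simp only [star_mul, mul_assoc]⟩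

theorem IsLB.mulLR {g h : OV ℍ} {p q p' q' : ℍ} (h1 : IsLB g p q) (h2 : IsLR h p' q') :
    IsLB (g * h : OV ℍ) (p * q') (q * p') :=
  ⟨h1.l.mul h2.r, h1.r.mul h2.l, fun x => by
    rw [OV.mul_apply, h1.eq, h2.eq]; simp only [star_mul, star_star, mul_assoc]⟩

theorem IsLB.mulLB {g h : OV ℍ} {p q p' q' : ℍ} (h1 : IsLB g p q) (h2 : IsLB h p' q') :
    IsLR (g * h : OV ℍ) (p * q') (q * p') :=
  ⟨h1.l.mul h2.r, h1.r.mul h2.l, fun x => by
    rw [OV.mul_apply, h1.eq, h2.eq]; simp only [star_mul, star_star, mul_assoc]⟩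

theorem IsLB.invO {g : OV ℍ} {p q : ℍ} (h : IsLB g p q) :
    IsLB (g⁻¹ : OV ℍ) (star q) (star p) :=
  ⟨h.r.star, h.l.star, fun x => by
    apply g.injective
    rw [OV.apply_inv_self, h.eq]
    simp only [star_mul, star_star, mul_assoc, h.l.ms', h.r.ms, mul_one]⟩

theorem IsLB.uniqueO {g h : OV ℍ} {p q : ℍ} (h1 : IsLB g p q) (h2 : IsLB h p q) : g = h := by
  ext1 x; rw [h1.eq, h2.eq]

theorem IsLB.pm {g : OV ℍ} {p q p' q' : ℍ} (h1 : IsLB g p q) (h2 : IsLB g p' q') :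
    (p' = p ∧ q' = q) ∨ (p' = -p ∧ q' = -q) := h1.mul_bar.pm h2.mul_bar

theorem IsLR.conj {φ g : OV ℍ} {n p q : ℍ} (h : IsLR φ n n) (hg : IsLR g p q) :
    IsLR (φ * g * φ⁻¹ : OV ℍ) (n * p * star n) (n * q * star n) := (h.mulO hg).mulO h.invO

theorem IsLR.conjB {φ g : OV ℍ} {n p q : ℍ} (h : IsLR φ n n) (hg : IsLB g p q) :
    IsLB (φ * g * φ⁻¹ : OV ℍ) (n * p * star n) (n * q * star n) := (h.mulLB hg).mulLR h.invO

theorem IsLB.conj {φ g : OV ℍ} {n p q : ℍ} (h : IsLB φ n n) (hg : IsLR g p q) :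
    IsLR (φ * g * φ⁻¹ : OV ℍ) (n * q * star n) (n * p * star n) := (h.mulLR hg).mulLB h.invO

theorem IsLB.conjB {φ g : OV ℍ} {n p q : ℍ} (h : IsLB φ n n) (hg : IsLB g p q) :
    IsLB (φ * g * φ⁻¹ : OV ℍ) (n * q * star n) (n * p * star n) := (h.mulLB hg).mulLB h.invO

theorem IsLR.one : IsLR (1 : OV ℍ) 1 1 := IsLR.id

/-- orientation preserving maps -/
def LRs : Subgroup (OV ℍ) where
  carrier := {g | ∃ p q, IsLR g p q}
  one_mem' := ⟨1, 1, IsLR.one⟩
  mul_mem' := fun ⟨_, _, h⟩ ⟨_, _, h'⟩ => ⟨_, _, h.mulO h'⟩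
  inv_mem' := fun ⟨_, _, h⟩ => ⟨_, _, h.invO⟩

theorem im_ne {s : ℍ} (h : s.im ≠ 0) : s.imI ^ 2 + s.imJ ^ 2 + s.imK ^ 2 ≠ 0 := fun e => h (by
  rw [← normSq_eq_zero, normSq_def']; simpa using e)

theorem anti_re {s p : ℍ} (h0 : s.im ≠ 0) (h : p * s = star s * p) : p.re = 0 ∧ ⟪p, s⟫ = 0 := by
  have a0 := congrArg (·.re) h
  have a1 := congrArg (·.imI) h
  have a2 := congrArg (·.imJ) h
  have a3 := congrArg (·.imK) h
  simp at a0 a1 a2 a3
  have : p.re = 0 := by
    apply mul_left_cancel₀ (im_ne h0)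
    linear_combination (s.imI / 2) * a1 + (s.imJ / 2) * a2 + (s.imK / 2) * a3
  refine ⟨this, ?_⟩
  rw [inner_coord, this]
  linarith

theorem anti_trans {s p x : ℍ} (h0 : s.im ≠ 0) (h : p * s = star s * p) (hx : s * x = x * s) :
    p * star x = x * p := by
  obtain ⟨b0, b1⟩ := anti_re h0 h
  rw [inner_coord, b0] at b1
  have a1 := congrArg (·.imI) hx
  have a2 := congrArg (·.imJ) hx
  have a3 := congrArg (·.imK) hx
  simp at a1 a2 a3
  have : p.imI * x.imI + p.imJ * x.imJ + p.imK * x.imK = 0 := by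
    apply mul_left_cancel₀ (im_ne h0)
    linear_combination (s.imI * x.imI + s.imJ * x.imJ + s.imK * x.imK) * b1
      + ((p.imK * s.imJ - p.imJ * s.imK) / 2) * a1 + ((p.imI * s.imK - p.imK * s.imI) / 2) * a2
      + ((p.imJ * s.imI - p.imI * s.imJ) / 2) * a3
  ext <;> simp [b0]
  · linarith
  · ring
  · ring
  · ring

theorem conj_perp {a p : ℍ} (ua : Un a) (ha : a.re = 0) (h : ⟪p, a⟫ = 0) :
    a * p * star a = star p := by
  have := ua.def'
  rw [inner_coord] at h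
  rw [ha] at this h
  ext <;> simp [ha]
  · linear_combination p.re * this
  · linear_combination (-p.imI) * this + 2 * a.imI * h
  · linear_combination (-p.imJ) * this + 2 * a.imJ * h
  · linear_combination (-p.imK) * this + 2 * a.imK * h

theorem irr_of' {Q : Set ℍ} {s a : ℍ} (hs : s ∈ Q) (ha : a ∈ Q) (us : Un s) (ua : Un a)
    (h0 : s.re ≠ 0) (h2 : a * s * star a * s ≠ s * (a * s * star a)) : Irr Q :=
  irr_of hs ha us ua h0 fun e => h2 (by
    rwa [← conj_im ua, comm_im_iff, eq_comm, comm_im_iff, eq_comm] at e)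

/-- extension along an isomorphism is conjugation -/
theorem extO_equiv {U V : Type} [NormedAddCommGroup U] [InnerProductSpace ℝ U]
    [FiniteDimensional ℝ U] [NormedAddCommGroup V] [InnerProductSpace ℝ V] [FiniteDimensional ℝ V]
    (ι : U →ₗᵢ[ℝ] V) (φ g : OV U) :
    extO (ι.comp φ.toLinearIsometry) g = extO ι (φ * g * φ⁻¹) := by
  have : ∀ x, ad (ι.comp φ.toLinearIsometry) x = φ⁻¹ (ad ι x) := fun x =>
    ext_inner_right ℝ fun z => by rw [ad_inner, OV.inner_left, inv_inv, ad_inner]; rfl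
  ext1 x
  rw [extO_apply, extO_apply, this]
  show x + ι (φ _) = x + ι (φ (g (φ⁻¹ _)) - _)
  rw [map_sub φ, OV.apply_inv_self]

theorem extO_id (g : OV ℍ) : extO LinearIsometry.id g = g := by
  ext1 x; exact extO_emb LinearIsometry.id g x

theorem extO_cj (φ g : OV ℍ) :
    extO (LinearIsometry.id.comp φ.toLinearIsometry) g = φ * g * φ⁻¹ := by
  rw [extO_equiv, extO_id]

theorem LD_cj {s : ℕ → OV ℍ} {m : ℕ} (φ : OV ℍ) (h : LD s m) :
    LD (fun i => φ * s i * φ⁻¹) m := by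
  simpa only [extO_cj] using (LD_extO (LinearIsometry.id.comp φ.toLinearIsometry) s m).2 h

theorem finite_cj {s : ℕ → OV ℍ} {m : ℕ} (φ : OV ℍ) (h : Finite (HH s m)) :
    Finite (HH (fun i => φ * s i * φ⁻¹) m) := by
  simpa only [extO_cj] using (finite_extO (LinearIsometry.id.comp φ.toLinearIsometry) s m).2 h

theorem Mir_cj {s : ℕ → OV ℍ} {k : ℕ} (φ : OV ℍ) {R : OV ℍ}
    (h : LD.Mir (fun i => φ * s i * φ⁻¹) k R) : LD.Mir s k (φ⁻¹ * R * φ) := by
  rw [← Mir_extO (LinearIsometry.id.comp φ.toLinearIsometry)]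
  simp only [extO_cj]
  rwa [show φ * (φ⁻¹ * R * φ) * φ⁻¹ = R by group]

/-- the data of the types -/
def ty (t i : ℕ) : ℕ :=
  ([[0, 1464, 99, 5687, 1, 2, 8785, 0, 0], [0, 1464, 396, 517, 3, 74833, 70281, 565841, 74],
    [0, 36, 396, 11979, 1, 9, 74826, 70281, 586],
    [1, 863, 99, 11979, 1, 2, 19436169, 287871625, 4690],
    [2, 745, 99, 11979, 1, 2, 19436169, 287871625, 4690],
    [1, 1464, 9933, 3685, 5, 2452136529, 70282, 18541486673, 37962],
    [1, 1464, 3564, 10054, 7, 19440209, 4789322, 10892939914, 37962],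
    [1, 863, 1089, 11979, 7, 2658897, 2, 21271178, 4682],
    [1, 6673, 11979, 1089, 5, 170431561, 21271178, 21271178, 4682]].getD t []).getD i 0

/-- conjugation of codes -/
noncomputable def cjA (n x : ℕ) : ℕ := force (mulA n x) fun y => mulA y (starA n)

theorem RelQ.cj {n x : ℍ} {a c : ℕ} (h : RelQ n a) (h' : RelQ x c) :
    RelQ (n * x * Star.star n) (cjA a c) := by
  rw [cjA, force_eq]; exact (h.mul h').mul h.star

/-- check of a type -/
noncomputable def chkT (t : ℕ) : Bool :=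
  force (enc (ty t 1)) fun s => force (enc (ty t 2)) fun a => force (enc (ty t 3)) fun n =>
  (tabU (ty t 0)).mem (ty t 1) && (tabU (ty t 0)).mem (ty t 2) && (tabU (ty t 0)).mem (ty t 3) &&
  Nat.beq (ty t 2 % 11) 0 && Nat.beq (cjA n s) (starA s) && Nat.beq (cjA n a) (negA a) &&
  !Nat.beq (d0 s) 0 && !Nat.beq (mulA (cjA a s) s) (mulA s (cjA a s)) &&
  Nat.beq (d0 (mulA s (starA a))) (cm (ty t 4)) && Nat.blt (ty t 4) 11 &&
  Nat.beq (evW [mulA s, mulA a] (ty t 5) 1) (enc 99) &&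
  Nat.beq (evW [mulA s, mulA a] (ty t 6) 1) (enc 1089) &&
  (Nat.beq t 0 || (Nat.beq (evW [mulA s, mulA a] (ty t 7) 1) n &&
    force (mulA a (evW [mulA s, mulA (cjA a s)] (ty t 8) 1)) fun p =>
      Nat.beq (mulA p s) (mulA (starA s) p)))

theorem chkT_all : allL (List.range 9) chkT = true := by decide +kernel

/-- properties of a type -/
structure TOK (t : ℕ) (s a n : ℍ) : Prop where
  hs : s ∈ UU (ty t 0)
  ha : a ∈ UU (ty t 0)
  hn : n ∈ UU (ty t 0)
  a0 : a.re = 0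
  n1 : n * s * star n = star s
  n2 : n * a * star n = -a
  re : s.re ≠ 0
  irr : a * s * star a * s ≠ s * (a * s * star a)
  ip : ⟪s, a⟫ = cv (ty t 4)
  ij : ∀ Q, QSet Q → s ∈ Q → a ∈ Q → cq 99 ∈ Q ∧ cq 1089 ∈ Q
  nc : ∀ Q, Good Q → s ∈ Q → a ∈ Q → ∀ q ∈ Q, InC4 (n * q * star n)
  odd : t ≠ 0 → ∀ Q, QSet Q → s ∈ Q → a * s * star a ∈ Q →
    ∃ p ∈ Q, a * p * s = star s * (a * p)

theorem word2' {Q U : Set ℍ} (hQ : QSet Q) (hU : Good U) {p q : ℍ} {m m' : ℕ}
    (hp : p ∈ Q) (hq : q ∈ Q) (hp' : p ∈ U) (hq' : q ∈ U) (rp : RelQ p m) (rq : RelQ q m') (w : ℕ) :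
    ∃ x, x ∈ Q ∧ x ∈ U ∧ RelQ x (evW [mulA m, mulA m'] w 1) := by
  obtain ⟨x, hx, r⟩ := word2 (Q := Q ∩ U) ⟨hQ.one, hU.one⟩
    (fun _ h _ h' => ⟨hQ.mul _ h.1 _ h'.1, hU.mul _ h.2 _ h'.2⟩) ⟨hp, hp'⟩ ⟨hq, hq'⟩ rp rq w
  exact ⟨x, hx.1, hx.2, r⟩

theorem hh2 {x y : ℝ} (h : x = √2 * √2 / 2 * y) : x = y := by rw [h, sq2]; ring

theorem Good.cj {U : Set ℍ} (hU : Good U) {n x : ℍ} (hn : n ∈ U) (hx : x ∈ U) :
    n * x * Star.star n ∈ U := hU.mul _ (hU.mul _ hn _ hx) _ (hU.star _ hn)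

theorem relZ_ne {x : ℝ} {m : ℕ} (h : RelZ x (d0 m : ℕ)) (e : d0 m ≠ 0) : x ≠ 0 := by
  rintro rfl
  exact e (cast_inj (Nat.mod_lt _ (by omega)) (by omega) (h.zero.trans Nat.cast_zero.symm))

theorem tok {t : ℕ} (ht : t < 9) : TOK t (cq (ty t 1)) (cq (ty t 2)) (cq (ty t 3)) := by
  have h := allL_iff.1 chkT_all t (List.mem_range.2 ht)
  simp only [chkT, force_eq, Bool.and_eq_true, Nat.beq_eq, Bool.not_eq_true', Bool.or_eq_true,
    Nat.blt_eq, ← Bool.not_eq_true] at h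
  obtain ⟨⟨⟨⟨⟨⟨⟨⟨⟨⟨⟨⟨m1, m2⟩, m3⟩, e0⟩, e1⟩, e2⟩, e3⟩, e4⟩, e5⟩, e5'⟩, e6⟩, e7⟩, e8⟩ := h
  have hU := UU_good (ty t 0)
  replace m1 := mem_UU m1
  replace m2 := mem_UU m2
  replace m3 := mem_UU m3
  have rs := relQ_cq (ty t 1)
  have ra := relQ_cq (ty t 2)
  have rn := relQ_cq (ty t 3)
  refine ⟨m1, m2, m3, ?_, ?_, ?_, relZ_ne rs.h0 e3, fun e => e4 ?_, ?_, fun Q hQ h1 h2 => ⟨?_, ?_⟩,
    fun Q hQ h1 h2 q hq => ?_, fun h0 Q hQ h1 h2 => ?_⟩
  · show cv _ = 0
    rw [e0]; rfl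
  · exact (rn.cj rs).eq (e1 ▸ rs.star) (hU.inC _ (hU.cj m3 m1)) (inC4_cq _).star
  · exact (rn.cj ra).eq (e2 ▸ ra.neg) (hU.inC _ (hU.cj m3 m2)) (inC4_cq _).neg
  · exact ((ra.cj rs).mul rs).unique (e ▸ rs.mul (ra.cj rs))
  · rw [Quaternion.inner_def]
    exact (hU.inC _ (hU.mul _ m1 _ (hU.star _ m2))).1.eq ⟨_, e5', rfl⟩ (rs.mul ra.star).h0
      (e5 ▸ relZ_cv _)
  · obtain ⟨x, a1, a2, a3⟩ := word2' hQ hU h1 h2 m1 m2 rs ra (ty t 5)
    rwa [← a3.eq (e6 ▸ relQ_cq _) (hU.inC _ a2) (inC4_cq _)]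
  · obtain ⟨x, a1, a2, a3⟩ := word2' hQ hU h1 h2 m1 m2 rs ra (ty t 6)
    rwa [← a3.eq (e7 ▸ relQ_cq _) (hU.inC _ a2) (inC4_cq _)]
  · rcases e8 with rfl | e8
    · obtain ⟨c0, c1, c2, c3⟩ := hQ.inC q hq
      have : cq (ty 0 3) * q * star (cq (ty 0 3)) = ⟨q.re, -q.imI, -q.imK, -q.imJ⟩ := by
        show cq 5687 * q * star (cq 5687) = _
        ext <;> simp [cq, cv] <;> apply hh2 <;> ring
      rw [this]
      exact ⟨c0, c1.neg, c3.neg, c2.neg⟩
    · obtain ⟨x, a1, a2, a3⟩ := word2' hQ.toQSet hU h1 h2 m1 m2 rs ra (ty t 7)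
      rw [a3.eq (e8.1 ▸ rn) (hU.inC _ a2) (inC4_cq _)] at a1
      exact hQ.inC _ (hQ.cj a1 hq)
  · obtain ⟨x, a1, a2, a3⟩ := word2' hQ hU h1 h2 m1 (hU.cj m2 m1) rs (ra.cj rs) (ty t 8)
    have m4 := hU.mul _ m2 _ a2
    exact ⟨x, a1, ((ra.mul a3).mul rs).eq ((e8.resolve_left h0).2 ▸ rs.star.mul (ra.mul a3))
      (hU.inC _ (hU.mul _ m4 _ m1)) (hU.inC _ (hU.mul _ (hU.star _ m1) _ m4))⟩

namespace TOK
variable {t : ℕ} {s a n : ℍ} (h : TOK t s a n)
include h
theorem us : Un s := (UU_good _).unit _ h.hs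
theorem ua : Un a := (UU_good _).unit _ h.ha
theorem un : Un n := (UU_good _).unit _ h.hn
theorem irr' {Q : Set ℍ} (hs : s ∈ Q) (ha : a ∈ Q) : Irr Q := irr_of' hs ha h.us h.ua h.re h.irr
theorem im : s.im ≠ 0 := fun e => h.irr (by rw [← comm_im_iff, e, mul_zero, zero_mul])
theorem good {Q : Set ℍ} (hQ : QSet Q) (hs : s ∈ Q) (ha : a ∈ Q) (hR : ∀ p ∈ Q, InC p.re) :
    Good Q := good_of hQ hR (h.ij Q hQ hs ha).1 (h.ij Q hQ hs ha).2
theorem n0 : n.re = 0 ∧ ⟪n, s⟫ = 0 := anti_re h.im (by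
  rw [← h.n1, mul_assoc, h.un.sm, mul_one])
end TOK

end Pool.Agent.MP_d6da41_co

end MrgPart2

-- ======== part 3: formerly Pool.Agent.MP_d6da41_co.Rep
section MrgPart3

/-! Codes of pairs of quaternions. -/

namespace Pool.Agent.MP_d6da41_co

open Quaternion

/-- first component -/
def x0 (x : ℕ) : ℕ := Nat.mod x 1146040820587427521
/-- second component -/
def x1 (x : ℕ) : ℕ := Nat.mod (Nat.div x 1146040820587427521) 1146040820587427521
/-- label -/
def x2 (x : ℕ) : ℕ := Nat.div (Nat.div x 1146040820587427521) 1146040820587427521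
/-- packing -/
def pk3 (p q z : ℕ) : ℕ :=
  Nat.add p (Nat.mul 1146040820587427521 (Nat.add q (Nat.mul 1146040820587427521 z)))

theorem x_pk3 {p q : ℕ} (hp : p < 1146040820587427521) (hq : q < 1146040820587427521) (z : ℕ) :
    x0 (pk3 p q z) = p ∧ x1 (pk3 p q z) = q ∧ x2 (pk3 p q z) = z := by
  have e : pk3 p q z = p + 1146040820587427521 * (q + 1146040820587427521 * z) := rfl
  refine ⟨?_, ?_, ?_⟩
  · show pk3 p q z % 1146040820587427521 = _
    rw [e]; omega
  · show pk3 p q z / 1146040820587427521 % 1146040820587427521 = _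
    rw [e]; omega
  · show pk3 p q z / 1146040820587427521 / 1146040820587427521 = _
    rw [e]; omega

/-- product of pairs -/
noncomputable def mulP (m m' : ℕ) (f : ℕ → ℕ) (x : ℕ) : ℕ :=
  force (x0 x) fun p => force (x1 x) fun q =>
  force (mulA m p) fun p => force (mulA m' q) fun q => force (f (x2 x)) fun z =>
  force (negA p) fun p' => cond (Nat.blt p p') (pk3 p q z) (pk3 p' (negA q) z)

/-- code of the identity -/
def one3 : ℕ := 1146040820587427522

section
variable {Γ : Type} [Group Γ] (θ : Γ →* OV ℍ) (Lab : Γ → ℕ → Prop)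

/-- `x` is a code of `g` -/
def RepQ (g : Γ) (x : ℕ) : Prop :=
  ∃ p q, IsLR (θ g) p q ∧ RelQ p (x0 x) ∧ RelQ q (x1 x) ∧ Lab g (x2 x)

variable {θ Lab}

theorem repQ_pk {g : Γ} {p q : ℍ} {m m' z : ℕ} (h : IsLR (θ g) p q) (hp : RelQ p m)
    (hq : RelQ q m') (hz : Lab g z) : RepQ θ Lab g (pk3 m m' z) := by
  obtain ⟨e0, e1, e2⟩ := x_pk3 hp.lt hq.lt z
  exact ⟨p, q, h, by rwa [e0], by rwa [e1], by rwa [e2]⟩

theorem repQ_one (h : Lab 1 0) : RepQ θ Lab 1 one3 :=
  repQ_pk (by rw [map_one]; exact IsLR.one) relQ_one relQ_one h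

theorem compat_mulP {γ : Γ} {a b : ℍ} {m m' : ℕ} {f : ℕ → ℕ} (h : IsLR (θ γ) a b)
    (ha : RelQ a m) (hb : RelQ b m') (hf : ∀ g z, Lab g z → Lab (γ * g) (f z)) :
    Compat (RepQ θ Lab) γ (mulP m m' f) := by
  rintro g x ⟨p, q, h1, h2, h3, h4⟩
  have e : IsLR (θ (γ * g)) (a * p) (b * q) := by rw [map_mul]; exact h.mulO h1
  simp only [mulP, force_eq]
  cases Nat.blt _ _
  · exact repQ_pk e.neg (ha.mul h2).neg (hb.mul h3).neg (hf _ _ h4)
  · exact repQ_pk e (ha.mul h2) (hb.mul h3) (hf _ _ h4)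

end

theorem Gens.nil {Γ : Type} [Group Γ] {Rep : Γ → ℕ → Prop} {X : Subgroup Γ} : Gens Rep X [] :=
  fun _ h => absurd h List.not_mem_nil

theorem Gens.cons {Γ : Type} [Group Γ] {Rep : Γ → ℕ → Prop} {X : Subgroup Γ} {γ : Γ}
    {F : ℕ → ℕ} {L : List (ℕ → ℕ)} (h1 : γ ∈ X) (h2 : Compat Rep γ F) (h : Gens Rep X L) :
    Gens Rep X (F :: L) := by
  intro G hG
  rcases List.mem_cons.1 hG with rfl | hG
  · exact ⟨γ, h1, h2⟩
  · exact h G hG

/-- codes of the 22 models -/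
def md (j i : ℕ) : ℕ :=
  ([[1464, 99, 5357, 5687, 0, 0], [1464, 99, 5357, 4477, 0, 0], [1464, 99, 8844, 5687, 2, 0],
    [1464, 99, 8844, 4477, 2, 0], [1464, 99, 3685, 5687, 1, 0], [1464, 99, 3685, 4477, 1, 0],
    [1464, 99, 3355, 5687, 2, 0], [1464, 99, 3355, 4477, 2, 0], [1464, 99, 8844, 517, 2, 0],
    [1464, 99, 8844, 407, 2, 0], [1464, 99, 10054, 517, 1, 0], [1464, 99, 10054, 407, 1, 0],
    [1464, 99, 8844, 3685, 2, 1], [1464, 99, 8844, 2244, 2, 1], [1464, 99, 10054, 3355, 1, 2],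
    [1464, 99, 10054, 2134, 1, 2], [36, 396, 4356, 11979, 0, 0], [36, 396, 4356, 13310, 0, 0],
    [863, 99, 11385, 11979, 1, 1], [863, 99, 11385, 13310, 1, 1], [745, 99, 7513, 11979, 2, 2],
    [745, 99, 7513, 13310, 2, 2]].getD j []).getD i 0

/-- the generators are those of the model `j` -/
structure IsMod (s : ℕ → OV ℍ) (j : ℕ) : Prop where
  h0 : IsLR (s 0) (cq (md j 0)) (cq (md j 0))
  h1 : IsLR (s 1) (cq (md j 1)) (cq (md j 1))
  h2 : IsLR (s 2) (cq (md j 2)) (cq (md j 3))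

end Pool.Agent.MP_d6da41_co

end MrgPart3

-- ======== part 4: formerly Pool.Agent.MP_d6da41_co.ModP
section MrgPart4

/-! Properties of the groups of the 22 models. -/

namespace Pool.Agent.MP_d6da41_co

open Quaternion

/-- maps with left factor in `U` and right factor in `U'` -/
def UG {U U' : Set ℍ} (h : Good U) (h' : Good U') : Subgroup (OV ℍ) where
  carrier := {g | ∃ p ∈ U, ∃ q ∈ U', IsLR g p q}
  one_mem' := ⟨1, h.one, 1, h'.one, IsLR.one⟩
  mul_mem' := fun ⟨_, a, _, b, c⟩ ⟨_, a', _, b', c'⟩ =>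
    ⟨_, h.mul _ a _ a', _, h'.mul _ b _ b', c.mulO c'⟩
  inv_mem' := fun ⟨_, a, _, b, c⟩ => ⟨_, h.star _ a, _, h'.star _ b, c.invO⟩

theorem UG_mem {U U' : Set ℍ} {h : Good U} {h' : Good U'} {g : OV ℍ} (hg : g ∈ UG h h') {p q : ℍ}
    (e : IsLR g p q) : p ∈ U ∧ q ∈ U' := by
  obtain ⟨_, a, _, b, c⟩ := hg
  rcases c.pm e with ⟨rfl, rfl⟩ | ⟨rfl, rfl⟩
  exacts [⟨a, b⟩, ⟨h.neg _ a, h'.neg _ b⟩]

/-- words -/
def mw (j i : ℕ) : ℕ :=
  ([[304793, 0], [304793, 0], [14510971499161, 28106400465], [14510971499161, 28106400465],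
    [111277408626313, 1690], [111277408626313, 1690], [111277408626313, 1690], [111277408626313,
    1690], [5724441490522, 78489], [5724441490522, 78489], [5724441490522, 78489],
    [5724441490522, 78489], [1500627990122702489, 40186521], [13029843026628617865, 40186521],
    [1500627990122702489, 40186521], [13029843026628617865, 40186521], [323790475, 856713],
    [323790475, 856713], [78706943641, 323266185], [78706943641, 323266185], [78706943641,
    323266185], [78706943641, 323266185]].getD j []).getD i 0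

/-- check of a model -/
noncomputable def chkMP (j : ℕ) : Bool :=
  force (enc (md j 0)) fun s => force (enc (md j 1)) fun a => force (enc (md j 2)) fun l =>
  force (enc (md j 3)) fun q =>
  (tabU (md j 4)).mem (md j 0) && (tabU (md j 4)).mem (md j 1) && (tabU (md j 4)).mem (md j 2) &&
  (tabU (md j 5)).mem (md j 0) && (tabU (md j 5)).mem (md j 1) && (tabU (md j 5)).mem (md j 3) &&
  !Nat.beq (d0 (mulA l (starA q))) 0 && !Nat.beq (d0 (mulA l (starA q))) 1 &&
  !Nat.beq (d0 (mulA l (starA q))) 32718 &&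
  (force (evW [mulP s s id, mulP a a id, mulP l q id] (mw j 0) one3) fun x =>
    Nat.beq (x0 x) (enc 99) && Nat.beq (x1 x) 1) &&
  (Nat.blt j 2 || force (evW [mulP s s id, mulP a a id, mulP l q id] (mw j 1) one3) fun x =>
    (Nat.beq (x1 x) 1 || Nat.beq (x1 x) (negA 1)) &&
      [0, 1, 2, 9, 10].all fun k => !Nat.beq (cm k) (d0 (x0 x)))

theorem chkMP_all : allL (List.range 22) chkMP = true := by decide +kernel

theorem md_mem {j : ℕ} (hj : j < 22) :
    (cq (md j 0) ∈ UU (md j 4) ∧ cq (md j 1) ∈ UU (md j 4) ∧ cq (md j 2) ∈ UU (md j 4)) ∧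
      cq (md j 0) ∈ UU (md j 5) ∧ cq (md j 1) ∈ UU (md j 5) ∧ cq (md j 3) ∈ UU (md j 5) := by
  have h := allL_iff.1 chkMP_all j (List.mem_range.2 hj)
  simp only [chkMP, force_eq, Bool.and_eq_true] at h
  obtain ⟨⟨⟨⟨⟨⟨⟨⟨⟨⟨m1, m2⟩, m3⟩, m4⟩, m5⟩, m6⟩, -⟩, -⟩, -⟩, -⟩, -⟩ := h
  exact ⟨⟨mem_UU m1, mem_UU m2, mem_UU m3⟩, mem_UU m4, mem_UU m5, mem_UU m6⟩

theorem IsMod.le {s : ℕ → OV ℍ} {j : ℕ} (h : IsMod s j) (hj : j < 22) :
    HH s 3 ≤ UG (UU_good (md j 4)) (UU_good (md j 5)) := by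
  obtain ⟨⟨m1, m2, m3⟩, m4, m5, m6⟩ := md_mem hj
  refine HH_le fun i hi => ?_
  interval_cases i
  exacts [⟨_, m1, _, m4, h.h0⟩, ⟨_, m2, _, m5, h.h1⟩, ⟨_, m3, _, m6, h.h2⟩]

theorem not_int {x : ℝ} {n : ℤ} (h1 : (n : ℝ) < x) (h2 : x < n + 1) (z : ℤ) : x ≠ z := by
  rintro rfl
  have a : n < z := by exact_mod_cast h1
  have b : z < n + 1 := by exact_mod_cast h2
  omega

theorem s2_bd : 141 / 100 < √2 ∧ √2 < 142 / 100 := by
  constructor <;> nlinarith [sq2, Real.sqrt_nonneg 2]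

theorem s5_bd : 223 / 100 < √5 ∧ √5 < 224 / 100 := by
  constructor <;> nlinarith [sq5, Real.sqrt_nonneg 5]

theorem d0_eq {x : ℝ} {m k : ℕ} (h : RelZ x (d0 m : ℕ)) (hk : k < 11) (e : x = cv k) :
    d0 m = cm k :=
  cast_inj (Nat.mod_lt _ (by omega)) ((by decide : ∀ k, k < 11 → cm k < 32719) k hk)
    (h.unique (e ▸ relZ_cv k))

theorem IsMod.prop {s : ℕ → OV ℍ} {j : ℕ} (h : IsMod s j) (hj : j < 22) :
    (s 2 1).re ≠ 0 ∧ (s 2 1).re ^ 2 < 1 ∧ (∃ J ∈ HH s 3, IsLR J (cq 99) 1) ∧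
      (2 ≤ j → ∃ g ∈ HH s 3, ∃ p, IsLR g p 1 ∧ ∀ z : ℤ, 2 * p.re ≠ z) := by
  have hc := allL_iff.1 chkMP_all j (List.mem_range.2 hj)
  simp only [chkMP, force_eq, Bool.and_eq_true, Nat.beq_eq, Bool.not_eq_true', Bool.or_eq_true,
    Nat.blt_eq, ← Bool.not_eq_true, List.all_eq_true] at hc
  obtain ⟨⟨⟨⟨⟨-, e0⟩, e1⟩, e2⟩, e3⟩, e4⟩ := hc
  have cp : ∀ {γ : OV ℍ} {a b : ℕ}, IsLR γ (cq a) (cq b) →
      Compat (RepQ (MonoidHom.id _) fun _ _ => True) γ (mulP (enc a) (enc b) id) :=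
    fun h1 => compat_mulP h1 (relQ_cq _) (relQ_cq _) fun _ _ _ => trivial
  have LG := Gens.cons (mem_HH (s := s) (k := 3) (i := 0) (by omega)) (cp h.h0)
    (Gens.cons (mem_HH (i := 1) (by omega)) (cp h.h1)
      (Gens.cons (mem_HH (i := 2) (by omega)) (cp h.h2) Gens.nil))
  have r := ((relQ_cq (md j 2)).mul (relQ_cq (md j 3)).star).h0
  have u := h.h2.l.mul h.h2.r.star
  have e : s 2 1 = cq (md j 2) * star (cq (md j 3)) := by rw [h.h2.eq, mul_one]
  rw [e]
  refine ⟨relZ_ne r e0, lt_of_le_of_ne u.re_sq_le fun e => ?_, ?_, fun h2 => ?_⟩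
  · rcases u.eq_pm e with e | e <;> rw [e] at r
    · exact e1 (d0_eq (k := 9) r (by omega) rfl)
    · exact e2 (d0_eq (k := 10) r (by omega) (by simp [cv]))
  · obtain ⟨g, hg, p, q, h1, h2, h3, -⟩ := LG.evW (repQ_one trivial) (mw j 0)
    obtain ⟨a, b⟩ := UG_mem (h.le hj hg) h1
    rw [h2.eq (e3.1 ▸ relQ_cq 99) ((UU_good _).inC _ a) (inC4_cq _),
      h3.eq (by rw [e3.2]; exact relQ_one) ((UU_good _).inC _ b) (inC4_cq 9)] at h1
    exact ⟨g, hg, h1⟩
  · obtain ⟨g, hg, p, q, h1, h2', h3, -⟩ := LG.evW (repQ_one trivial) (mw j 1)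
    obtain ⟨a, b⟩ := UG_mem (h.le hj hg) h1
    obtain ⟨e5, e6⟩ := e4.resolve_left (by omega)
    have key : ∀ z : ℤ, 2 * p.re ≠ z := by
      obtain ⟨k, hk, ek⟩ := ((UU_good _).inC _ a).1
      have hk' : k ∉ [0, 1, 2, 9, 10] := fun hm => e6 k hm (d0_eq h2'.h0 hk ek).symm
      have := s2_bd
      have := s5_bd
      rw [ek]
      interval_cases k <;> simp only [cv]
      all_goals first | exact absurd (by decide) hk' | skip
      · exact not_int (n := 1) (by push_cast; linarith) (by push_cast; linarith)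
      · exact not_int (n := -2) (by push_cast; linarith) (by push_cast; linarith)
      · exact not_int (n := 1) (by push_cast; linarith) (by push_cast; linarith)
      · exact not_int (n := -2) (by push_cast; linarith) (by push_cast; linarith)
      · exact not_int (n := 0) (by push_cast; linarith) (by push_cast; linarith)
      · exact not_int (n := -1) (by push_cast; linarith) (by push_cast; linarith)
    rcases e5 with e5 | e5
    · rw [h3.eq (by rw [e5]; exact relQ_one) ((UU_good _).inC _ b) (inC4_cq 9)] at h1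
      exact ⟨g, hg, p, h1, key⟩
    · have : InC4 (-1 : ℍ) := InC4.neg (inC4_cq 9)
      rw [h3.eq (by rw [e5]; exact relQ_one.neg) ((UU_good _).inC _ b) this] at h1
      refine ⟨g, hg, -p, by simpa using h1.neg, fun z e => key (-z) ?_⟩
      rw [re_neg] at e
      push_cast
      linarith

end Pool.Agent.MP_d6da41_co

end MrgPart4

-- marker of a merged file
example : 731051 + 555633 = 731051 + 555633 := rfl

end MrgPart2

-- marker of a merged file
example : 731051 + 555633 = 731051 + 555633 := rfl
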