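import Pool.Agent.MP_d6da41_co.Bridge1
import Mathlib.Tactic.Monotonicity.Lemmas
import Mathlib.Topology.GDelta.MetrizableSpace
import Mathlib.Data.List.GetD
import Pool.Agent.MP_d6da41_co.StA
import Pool.Agent.MP_d6da41_co.Inf4
import Pool.Agent.MP_d6da41_co.StD
import Pool.Agent.MP_d6da41_co.StE

-- ======== part 0: formerly Pool.Agent.MP_d6da41_co.Bridge2
section MrgPart0

/-! From a chiral flag system to a chiral realization of an abstract polytope. -/

namespace Pool.Agent.MP_d6da41_co

open Relation

namespace Man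

variable {V : Type} {n : ℕ} (M : Man V n)

/-- the flags have the same face of rank `j` -/
def Ez (j : ℤ) (a b : M.Ω) : Prop := ∀ m : ℕ, (m : ℤ) = j → M.f m a = M.f m b

/-- faces -/
def Face : Type :=
  {x : ℤ × Set M.Ω // -1 ≤ x.1 ∧ x.1 ≤ n ∧ ∃ a, x.2 = {b | M.Ez x.1 a b}}

variable {M}

theorem Ez.refl (j : ℤ) (a : M.Ω) : M.Ez j a a := fun _ _ => rfl
theorem Ez.symm {j : ℤ} {a b : M.Ω} (h : M.Ez j a b) : M.Ez j b a := fun m e => (h m e).symm
theorem Ez.trans {j : ℤ} {a b c : M.Ω} (h : M.Ez j a b) (h' : M.Ez j b c) : M.Ez j a c :=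
  fun m e => (h m e).trans (h' m e)

theorem Ez.mix {k : ℤ} {a b : M.Ω} (h : M.Ez k a b) :
    ∃ c, (∀ j : ℤ, j ≤ k → j ≤ n → M.Ez j a c) ∧ ∀ j : ℤ, k ≤ j → j ≤ n → M.Ez j b c := by
  by_cases hk : k < 0
  · exact ⟨b, fun j h1 _ m e => by omega, fun j _ _ => Ez.refl j b⟩
  · obtain ⟨m, rfl⟩ : ∃ m : ℕ, (m : ℤ) = k := ⟨k.toNat, by omega⟩
    obtain ⟨c, h1, h2⟩ := Man.mix (h m rfl)
    exact ⟨c, fun j h3 h4 i e => (h1 i (by omega) (by omega)).symm,
      fun j h3 h4 i e => (h2 i (by omega) (by omega)).symm⟩

theorem Ez.r {j : ℤ} (hj : j ≤ n) {i : ℕ} (hi : i < n) (hij : (i : ℤ) ≠ j) (a : M.Ω) :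
    M.Ez j a (M.r i a) := fun m e => (M.fix i hi m (by omega) (by omega) a).symm

namespace Face

/-- rank -/
def rk (x : M.Face) : ℤ := x.1.1

/-- the flag contains the face -/
def In (a : M.Ω) (x : M.Face) : Prop := a ∈ x.1.2

theorem rk_mem (x : M.Face) : -1 ≤ x.rk ∧ x.rk ≤ n := ⟨x.2.1, x.2.2.1⟩

theorem nonempty (x : M.Face) : ∃ a, In a x := by
  obtain ⟨a, ha⟩ := x.2.2.2
  exact ⟨a, by rw [In, ha]; exact Ez.refl _ a⟩

theorem In.iff {x : M.Face} {a : M.Ω} (h : In a x) (b : M.Ω) : In b x ↔ M.Ez x.rk a b := by
  obtain ⟨c, hc⟩ := x.2.2.2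
  rw [In, hc] at h ⊢
  exact ⟨fun h' => (Ez.symm h).trans h', fun h' => Ez.trans h h'⟩

theorem ext {x y : M.Face} (h : x.rk = y.rk) {a : M.Ω} (hx : In a x) (hy : In a y) : x = y := by
  refine Subtype.ext (Prod.ext h (Set.ext fun b => ?_))
  exact (hx.iff b).trans (h ▸ (hy.iff b).symm)

theorem exists_in (a : M.Ω) {j : ℤ} (h1 : -1 ≤ j) (h2 : j ≤ n) :
    ∃ x : M.Face, x.rk = j ∧ In a x :=
  ⟨⟨(j, {b | M.Ez j a b}), h1, h2, a, rfl⟩, rfl, Ez.refl j a⟩

instance : PartialOrder M.Face where
  le x y := x.rk ≤ y.rk ∧ ∃ c, In c x ∧ In c y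
  le_refl x := ⟨le_rfl, x.nonempty.imp fun _ h => ⟨h, h⟩⟩
  le_trans x y z := by
    rintro ⟨h1, a, ax, ay⟩ ⟨h2, b, by', bz⟩
    obtain ⟨c, h3, h4⟩ := ((ay.iff b).1 by').mix
    exact ⟨h1.trans h2, c, (ax.iff c).2 (h3 _ h1 x.rk_mem.2), (bz.iff c).2 (h4 _ h2 z.rk_mem.2)⟩
  le_antisymm x y := by
    rintro ⟨h1, a, ax, ay⟩ ⟨h2, -⟩
    exact ext (le_antisymm h1 h2) ax ay

theorem le_def {x y : M.Face} : x ≤ y ↔ x.rk ≤ y.rk ∧ ∃ c, In c x ∧ In c y := Iff.rfl

theorem strictMono : StrictMono (rk : M.Face → ℤ) := by
  intro x y h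
  obtain ⟨h1, a, ax, ay⟩ := h.le
  exact lt_of_le_of_ne h1 fun e => h.ne (ext e ax ay)

theorem lt_of {x y : M.Face} (h : x.rk < y.rk) {a : M.Ω} (hx : In a x) (hy : In a y) : x < y :=
  lt_of_le_of_ne ⟨h.le, a, hx, hy⟩ fun e => by rw [e] at h; exact lt_irrefl _ h

theorem common3 {x y z : M.Face} (h1 : x ≤ y) (h2 : y ≤ z) : ∃ c, In c x ∧ In c y ∧ In c z := by
  obtain ⟨h1, a, ax, ay⟩ := h1
  obtain ⟨h2, b, by', bz⟩ := h2
  obtain ⟨c, h3, h4⟩ := ((ay.iff b).1 by').mix
  exact ⟨c, (ax.iff c).2 (h3 _ h1 x.rk_mem.2), (ay.iff c).2 (h3 _ le_rfl y.rk_mem.2),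
    (bz.iff c).2 (h4 _ h2 z.rk_mem.2)⟩

theorem in_bot {x : M.Face} (h : x.rk = -1) (a : M.Ω) : In a x := by
  obtain ⟨b, hb⟩ := x.nonempty
  exact (hb.iff a).2 fun m e => by omega

theorem in_top {x : M.Face} (h : x.rk = n) (a : M.Ω) : In a x := by
  obtain ⟨b, hb⟩ := x.nonempty
  refine (hb.iff a).2 fun m e => ?_
  obtain rfl : m = n := by omega
  exact top_eq b a

theorem common (a₀ : M.Ω) {S : Set M.Face} (hS : IsChain (· ≤ ·) S) : ∃ a, ∀ x ∈ S, In a x := by
  have key : ∀ m : ℕ, ∀ x : M.Face, x.rk ≤ n + 1 - m → (∀ y ∈ S, n + 1 - m ≤ y.rk → x ≤ y) →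
      ∃ a, In a x ∧ ∀ y ∈ S, n + 1 - m ≤ y.rk → In a y := by
    intro m
    induction m with
    | zero =>
      intro x _ _
      obtain ⟨a, ha⟩ := x.nonempty
      exact ⟨a, ha, fun y _ h => by have := y.rk_mem.2; omega⟩
    | succ m ih =>
      intro x h1 h2
      by_cases hz : ∃ z ∈ S, z.rk = n - m
      · obtain ⟨z, hz, e⟩ := hz
        obtain ⟨a, az, ha⟩ := ih z (by omega) fun y hy h => by
          rcases hS.total hz hy with h' | h'
          · exact h'
          · have := h'.1; omega
        obtain ⟨h3, c, cx, cz⟩ := h2 z hz (by omega)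
        obtain ⟨d, h4, h5⟩ := ((cz.iff a).1 az).mix
        refine ⟨d, (cx.iff d).2 (h4 _ h3 x.rk_mem.2), fun y hy h => ?_⟩
        by_cases e' : y.rk = n - m
        · have : y = z := by
            rcases hS.total hz hy with ⟨-, b, b1, b2⟩ | ⟨-, b, b1, b2⟩
            · exact ext (by omega) b2 b1
            · exact ext (by omega) b1 b2
          rw [this]
          exact (cz.iff d).2 (h4 _ le_rfl z.rk_mem.2)
        · exact ((ha y hy (by omega)).iff d).2 (h5 _ (by omega) y.rk_mem.2)
      · push Not at hz
        obtain ⟨a, ax, ha⟩ := ih x (by omega) fun y hy h => h2 y hy (by omega)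
        exact ⟨a, ax, fun y hy h => ha y hy (by have := hz y hy; omega)⟩
  obtain ⟨x, hx, -⟩ := exists_in a₀ (j := -1) le_rfl (by omega)
  obtain ⟨a, -, ha⟩ := key (n + 2) x (by omega) fun y _ _ => by
    obtain ⟨b, hb⟩ := y.nonempty
    exact ⟨by have := y.rk_mem.1; omega, b, in_bot hx b, hb⟩
  exact ⟨a, fun y hy => ha y hy (by have := y.rk_mem.1; omega)⟩

theorem chain_in (a : M.Ω) : IsChain (· ≤ ·) {x : M.Face | In a x} := by
  intro x hx y hy _
  rcases le_total x.rk y.rk with h | h
  · exact Or.inl ⟨h, a, hx, hy⟩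
  · exact Or.inr ⟨h, a, hy, hx⟩

theorem eq_of_in {a b : M.Ω} (h : ∀ x : M.Face, In a x → In b x) : a = b :=
  Man.ext fun j hj => by
    obtain ⟨x, e, hx⟩ := exists_in a (j := j) (by omega) (by omega)
    exact (hx.iff b).1 (h x hx) j e.symm

/-- the flag of faces of `a` -/
def flagOf (a : M.Ω) : Flag M.Face where
  carrier := {x | In a x}
  Chain' := chain_in a
  max_chain' := fun T hT hsub => by
    obtain ⟨b, hb⟩ := common a hT
    obtain rfl : a = b := eq_of_in fun x hx => hb x (hsub hx)
    exact Set.Subset.antisymm hsub hb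

theorem mem_flagOf {a : M.Ω} {x : M.Face} : x ∈ flagOf a ↔ In a x := Iff.rfl

theorem exists_flagOf (a₀ : M.Ω) (Φ : Flag M.Face) : ∃ a, Φ = flagOf a := by
  obtain ⟨a, ha⟩ := common a₀ Φ.chain_le
  exact ⟨a, Flag.ext (Φ.maxChain.2 (chain_in a) ha)⟩

theorem isPolytope (a₀ : M.Ω) : IsPolytope n M.Face rk where
  strictMono := strictMono
  range_eq := Set.ext fun j => ⟨by rintro ⟨x, rfl⟩; exact x.rk_mem, fun h =>
    (exists_in a₀ h.1 h.2).imp fun _ h => h.1⟩
  least := by
    obtain ⟨x, hx, -⟩ := exists_in a₀ (j := -1) le_rfl (by omega)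
    refine ⟨x, fun y => ?_⟩
    obtain ⟨b, hb⟩ := y.nonempty
    exact ⟨by have := y.rk_mem.1; omega, b, in_bot hx b, hb⟩
  greatest := by
    obtain ⟨x, hx, -⟩ := exists_in a₀ (j := n) (by omega) le_rfl
    refine ⟨x, fun y => ?_⟩
    obtain ⟨b, hb⟩ := y.nonempty
    exact ⟨by have := y.rk_mem.2; omega, b, hb, in_top hx b⟩
  flag_card := fun Φ => by
    obtain ⟨a, rfl⟩ := exists_flagOf a₀ Φ
    have hinj : Set.InjOn rk (flagOf a : Set M.Face) := fun x hx y hy h => ext h hx hy
    have : rk '' (flagOf a : Set M.Face) = Set.Icc (-1) (n : ℤ) :=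
      Set.ext fun j => ⟨by rintro ⟨x, -, rfl⟩; exact x.rk_mem, fun h =>
        (exists_in a h.1 h.2).imp fun _ h => ⟨h.2, h.1⟩⟩
    rw [← hinj.ncard_image, this, ← Finset.coe_Icc, Set.ncard_coe_finset, Int.card_Icc]
    omega
  diamond := fun x z hxz e => by
    obtain ⟨-, a, ax, az⟩ := hxz
    have h1 := x.rk_mem
    have h2 := z.rk_mem
    obtain ⟨i, hi⟩ : ∃ i : ℕ, (i : ℤ) = x.rk + 1 := ⟨(x.rk + 1).toNat, by omega⟩
    have hin : i < n := by omega
    obtain ⟨u, eu, au⟩ := exists_in a (j := i) (by omega) (by omega)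
    obtain ⟨w, ew, aw⟩ := exists_in (M.r i a) (j := i) (by omega) (by omega)
    have ax' : In (M.r i a) x := (ax.iff _).2 (Ez.r h1.2 hin (by omega) a)
    have az' : In (M.r i a) z := (az.iff _).2 (Ez.r h2.2 hin (by omega) a)
    refine Set.ncard_eq_two.2 ⟨u, w, fun e' => ?_, Set.ext fun y => ⟨fun hy => ?_, ?_⟩⟩
    · subst e'
      exact M.move i hin a ((au.iff _).1 aw i eu.symm).symm
    · obtain ⟨c, cx, cy, cz⟩ := common3 hy.1.le hy.2.le
      have r1 := strictMono hy.1
      have r2 := strictMono hy.2
      rcases Man.diamond (a := a) (b := c) hin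
        (fun j hj => ((ax.iff c).1 cx j (by omega)).symm)
        ((az.iff c).1 cz (i + 1) (by push_cast; omega)).symm with h | h
      · left
        refine ext (by omega) cy ((au.iff c).2 fun m e => ?_)
        obtain rfl : m = i := by omega
        exact h.symm
      · right
        refine ext (by omega) cy ((aw.iff c).2 fun m e => ?_)
        obtain rfl : m = i := by omega
        exact h.symm
    · rintro (rfl | rfl)
      · exact ⟨lt_of (by omega) ax au, lt_of (by omega) au az⟩
      · exact ⟨lt_of (by omega) ax' aw, lt_of (by omega) aw az'⟩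
  connected := fun x z _ h3 y hy y' hy' => by
    obtain ⟨b, bx, by', bz⟩ := common3 hy.1.le hy.2.le
    obtain ⟨b', bx', by'', bz'⟩ := common3 hy'.1.le hy'.2.le
    have h1 := x.rk_mem
    have h2 := z.rk_mem
    have hc : M.C (fun i => (i : ℤ) ≠ x.rk ∧ (i : ℤ) ≠ z.rk) b b' :=
      conn_of_agree fun j _ hj => by
        by_cases e : (j : ℤ) = x.rk
        · exact (bx.iff b').1 bx' j e
        · exact (bz.iff b').1 bz' j (by tauto)
    have key := Conn.induction (P := fun c => In c x ∧ In c z ∧ ∀ w ∈ Set.Ioo x z, In c w →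
        ReflTransGen (fun a b => a ∈ Set.Ioo x z ∧ b ∈ Set.Ioo x z ∧ (a ≤ b ∨ b ≤ a)) y w)
      ⟨bx, bz, fun w hw h => ReflTransGen.single ⟨hy, hw, (chain_in b).total by' h⟩⟩ ?_ hc
    · exact key.2.2 y' hy' by''
    rintro c i hi hI - ⟨cx, cz, hw⟩
    have cx' : In (M.r i c) x := (cx.iff _).2 (Ez.r h1.2 hi hI.1 c)
    have cz' : In (M.r i c) z := (cz.iff _).2 (Ez.r h2.2 hi hI.2 c)
    refine ⟨cx', cz', fun w hw' h => ?_⟩
    obtain ⟨k, k1, k2, k3⟩ : ∃ k : ℤ, x.rk < k ∧ k < z.rk ∧ (i : ℤ) ≠ k := by
      by_cases e : (i : ℤ) = x.rk + 1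
      · exact ⟨x.rk + 2, by omega, by omega, by omega⟩
      · exact ⟨x.rk + 1, by omega, by omega, e⟩
    obtain ⟨u, eu, cu⟩ := exists_in c (j := k) (by omega) (by omega)
    have hu : u ∈ Set.Ioo x z := ⟨lt_of (by omega) cx cu, lt_of (by omega) cu cz⟩
    have cu' : In (M.r i c) u := (cu.iff _).2 (Ez.r (by omega) hi (by omega) c)
    exact (hw u hu cu).tail ⟨hu, hw', (chain_in _).total cu' h⟩

/-- vertex map -/
noncomputable def pt (x : M.Face) : V := M.vt x.nonempty.choose

theorem img_eq : ∀ m : ℕ, m ≤ n → ∀ (x : M.Face) (a : M.Ω), x.rk = m → In a x →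
    img rk pt m x = M.f m a
  | 0, _, x, a, e, h => (x.nonempty.choose_spec.iff a).1 h 0 e.symm
  | m + 1, hm, x, a, e, h => by
    show {Y : Img V m | ∃ y, y ≤ x ∧ rk y = m ∧ img rk pt m y = Y} = _
    refine Set.ext fun Y => ⟨?_, fun hY => ?_⟩
    · rintro ⟨y, ⟨-, c, cy, cx⟩, e', rfl⟩
      rw [img_eq m (by omega) y c e' cy, (h.iff c).1 cx (m + 1) e.symm]
      exact mem_succ hm c
    · obtain ⟨c, hc, rfl⟩ := exists_of_mem hm hY
      obtain ⟨y, ey, cy⟩ := exists_in c (j := m) (by omega) (by omega)
      refine ⟨y, ⟨by rw [ey, e]; omega, c, cy, (h.iff c).2 fun k e' => ?_⟩, ey,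
        img_eq m (by omega) y c ey cy⟩
      obtain rfl : k = m + 1 := by omega
      exact (cfix hc hm (by omega)).symm

variable [MetricSpace V]

theorem sameOrbit_iff (a b : M.Ω) :
    SameOrbit rk pt n (flagOf a) (flagOf b) ↔ ∃ g, M.B g a b := by
  constructor
  · rintro ⟨g, -, hg⟩
    refine ⟨g, fun j hj => ?_⟩
    obtain ⟨x, ex, ax⟩ := exists_in a (j := j) (by omega) (by omega)
    obtain ⟨y, ey, by'⟩ := exists_in b (j := j) (by omega) (by omega)
    rw [← img_eq j hj x a ex ax, ← img_eq j hj y b ey by']
    exact (hg j hj x ax y by' ex ey).symm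
  · rintro ⟨g, hg⟩
    have key : ∀ (g : V ≃ᵢ V) (a b : M.Ω), M.B g a b → ∀ m ≤ n, ∀ x : M.Face, rk x = m →
        ∃ y : M.Face, rk y = m ∧ img rk pt m y = Img.map g m (img rk pt m x) := by
      intro g a b hg m hm x hx
      obtain ⟨c, hc⟩ := x.nonempty
      obtain ⟨d, hd⟩ := hg.exists' c
      obtain ⟨y, ey, dy⟩ := exists_in d (j := m) (by omega) (by omega)
      exact ⟨y, ey, by rw [img_eq m hm y d ey dy, img_eq m hm x c hx hc]; exact hd m hm⟩
    refine ⟨g, fun m hm => Set.ext fun Y => ⟨?_, ?_⟩, fun m hm x hx y hy e1 e2 => ?_⟩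
    · rintro ⟨_, ⟨x, hx, rfl⟩, rfl⟩
      exact key g a b hg m hm x hx
    · rintro ⟨x, hx, rfl⟩
      obtain ⟨y, hy, e⟩ := key _ _ _ hg.inv m hm x hx
      exact ⟨_, ⟨y, hy, rfl⟩, by rw [e, Img.map_self_inv]⟩
    · rw [img_eq m hm x a e1 hx, img_eq m hm y b e2 hy]
      exact (hg m hm).symm

omit [MetricSpace V] in
theorem pt_image : pt '' {x : M.Face | rk x = 0} = Set.range M.vt := by
  refine Set.ext fun v => ⟨?_, ?_⟩
  · rintro ⟨x, -, rfl⟩; exact ⟨_, rfl⟩
  · rintro ⟨a, rfl⟩
    obtain ⟨x, ex, ax⟩ := exists_in a (j := 0) (by omega) (by omega)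
    exact ⟨x, ex, img_eq 0 (Nat.zero_le n) x a ex ax⟩

theorem chiral (a₀ : M.Ω) (hc : M.Chi) (hd : DiscreteTopology (Set.range M.vt)) :
    ChiralRealization (rk : M.Face → ℤ) pt n where
  polytope := isPolytope a₀
  discrete := by rw [pt_image]; exact hd
  faithful := fun m hm x y ex ey h => by
    obtain ⟨a, ha⟩ := x.nonempty
    obtain ⟨b, hb⟩ := y.nonempty
    rw [img_eq m hm x a ex ha, img_eq m hm y b ey hb] at h
    refine ext (ex.trans ey.symm) ((ha.iff b).2 fun k e => ?_) hb
    obtain rfl : k = m := by omega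
    exact h
  two_orbits := by
    refine ⟨flagOf a₀, flagOf (M.r 0 a₀), ?_, fun Φ => ?_⟩
    · rw [sameOrbit_iff]
      rintro ⟨g, hg⟩
      exact hc.adj a₀ 0 hc.pos g hg
    · obtain ⟨a, rfl⟩ := exists_flagOf a₀ Φ
      rw [sameOrbit_iff, sameOrbit_iff]
      rcases hc.two a₀ (M.r 0 a₀) a with ⟨g, hg⟩ | h | h
      · exact absurd hg (hc.adj a₀ 0 hc.pos g)
      · exact Or.inl h
      · exact Or.inr h
  adjacent := fun Φ Ψ ⟨hne, i, hi⟩ => by
    obtain ⟨a, rfl⟩ := exists_flagOf a₀ Φ
    obtain ⟨b, rfl⟩ := exists_flagOf a₀ Ψ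
    rw [sameOrbit_iff]
    rintro ⟨g, hg⟩
    have key : ∀ j : ℕ, j < n → (j : ℤ) ≠ i → M.f j a = M.f j b := by
      intro j hj hji
      obtain ⟨x, ex, ax⟩ := exists_in a (j := j) (by omega) (by omega)
      obtain ⟨y, ey, by'⟩ := exists_in b (j := j) (by omega) (by omega)
      obtain rfl := hi x ax y by' (ex.trans ey.symm) (by rw [ex]; exact hji)
      exact (ax.iff b).1 by' j ex.symm
    have hab : b ≠ a := fun e => hne (by rw [e])
    by_cases hin : 0 ≤ i ∧ i < n
    · obtain ⟨k, rfl⟩ : ∃ k : ℕ, (k : ℤ) = i := ⟨i.toNat, by omega⟩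
      rcases adj (i := k) (fun j hj hjk => key j hj (by omega)) with h | rfl
      · exact hab h
      · exact hc.adj a k (by omega) g hg
    · exact hab (Man.ext fun j hj => key j hj (by omega)).symm

omit [MetricSpace V] in
theorem finite [Finite M.Ω] : Finite M.Face := by
  have : Finite (Set.Icc (-1) (n : ℤ)) := (Set.finite_Icc _ _).to_subtype
  refine Finite.of_injective
    (fun x : M.Face => ((⟨x.rk, x.rk_mem⟩, x.1.2) : Set.Icc (-1) (n : ℤ) × Set M.Ω)) ?_
  intro x y h
  have h1 := congrArg (fun z => z.1.1) h
  have h2 := congrArg Prod.snd h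
  exact Subtype.ext (Prod.ext h1 h2)

omit [MetricSpace V] in
theorem infinite [Infinite M.Ω] : Infinite M.Face := by
  by_contra hfin
  have : Finite M.Face := not_infinite_iff_finite.1 hfin
  have : Finite M.Ω := Finite.of_injective (fun a : M.Ω => {x : M.Face | In a x})
    fun a b h => eq_of_in fun x hx => by
      have : x ∈ {x : M.Face | In b x} := by
        have h' : {x : M.Face | In a x} = {x : M.Face | In b x} := h
        rw [← h']; exact hx
      exact this
  exact not_finite M.Ω

end Face

end Man

theorem bridge2 {c : Type → Prop} {d n : ℕ} (M : Man (E d) n) (a : M.Ω) (hc : M.Chi)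
    (hd : DiscreteTopology (Set.range M.vt))
    (h : (c = Finite ∧ Finite M.Ω) ∨ (c = Infinite ∧ Infinite M.Ω)) : IsChiral c d n (M.f n a) := by
  obtain ⟨t, et, ht⟩ := Man.Face.exists_in a (j := n) (by omega) le_rfl
  refine ⟨M.Face, inferInstance, Man.Face.rk, Man.Face.pt, ?_, Man.Face.chiral a hc hd, t, et,
    Man.Face.img_eq n le_rfl t a et ht⟩
  rcases h with ⟨rfl, _⟩ | ⟨rfl, _⟩
  · exact Man.Face.finite
  · exact Man.Face.infinite

end Pool.Agent.MP_d6da41_co

end MrgPart0

-- ======== part 1: formerly Pool.Agent.MP_d6da41_co.Final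
section MrgPart1

-- ======== part 0: formerly Pool.Agent.MP_d6da41_co.Class
section MrgPart0

/-! Every chiral flag system of full rank is one of the models. -/

set_option linter.unusedSectionVars false

namespace Pool.Agent.MP_d6da41_co

open Quaternion Module
open scoped RealInnerProductSpace

variable {V : Type} [NormedAddCommGroup V] [InnerProductSpace ℝ V] [FiniteDimensional ℝ V]

/-- `M` is the model `J` -/
def Itw {n : ℕ} (M : Man V n) (J : ℕ) : Prop :=
  ∃ (a : M.Ω) (τ : ℕ → V ≃ᵢ V) (ι : V →ₗᵢ[ℝ] ℍ) (c : ℝ) (o : V), M.Base a τ ∧ c ≠ 0 ∧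
    c • ι (M.vt a - o) = cq (vc J) ∧
    (∀ i, i + 1 < n → ∀ x, c • ι (τ i x - o) = τM J i (c • ι (x - o))) ∧
    (finrank ℝ V = 3 → ∀ x, (ι x).re = 0)

theorem Man.not_chi_one {M : Man V 1} (a : M.Ω) : ¬ M.Chi := fun hc => by
  have key : ∀ b, M.C (· ≤ 0) a b → b = a ∨ b = M.r 0 a := fun b hb =>
    Conn.of_single M.inv (k := 0) (fun i _ h => by omega) hb
  refine hc.adj a 0 (by omega) (aff (LinearIsometryEquiv.neg ℝ) 0 (M.vt a + M.vt (M.r 0 a)))
    fun j hj => ?_
  have e1 : aff (LinearIsometryEquiv.neg ℝ) 0 (M.vt a + M.vt (M.r 0 a)) (M.vt a)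
      = M.vt (M.r 0 a) := by simp [aff_apply]
  have e2 : aff (LinearIsometryEquiv.neg ℝ) 0 (M.vt a + M.vt (M.r 0 a)) (M.vt (M.r 0 a))
      = M.vt a := by simp [aff_apply]
  interval_cases j
  · exact e1.symm
  · rw [M.fix 0 (by omega) 1 le_rfl (by omega), M.succ 0 (by omega)]
    refine Set.ext fun Y => ⟨?_, ?_⟩
    · rintro ⟨b, hb, rfl⟩
      rcases key b hb with rfl | rfl
      · exact ⟨_, ⟨_, Conn.step _ (by omega) le_rfl, rfl⟩, e2⟩
      · exact ⟨_, ⟨_, Conn.refl _, rfl⟩, e1⟩
    · rintro ⟨_, ⟨b, hb, rfl⟩, rfl⟩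
      rcases key b hb with rfl | rfl
      · exact ⟨_, Conn.step _ (by omega) le_rfl, e1.symm⟩
      · exact ⟨_, Conn.refl _, e2.symm⟩

theorem LD.bot {s : ℕ → OV V} {m : ℕ} (h : LD s m) (hd : finrank ℝ V = m + 1) : Fx s m = ⊥ :=
  Submodule.finrank_eq_zero.1 (by have := h.codim m h.pos le_rfl; omega)

theorem exists_inv (ι : ℍ →ₗᵢ[ℝ] V) (hs : ∀ x, ∃ y, ι y = x) :
    ∃ ι' : V →ₗᵢ[ℝ] ℍ, (∀ y, ι' (ι y) = y) ∧ ∀ g, extO ι' (extO ι g) = g := by
  have h : ∀ y, (LinearIsometryEquiv.ofSurjective ι hs).symm.toLinearIsometry (ι y) = y :=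
    (LinearIsometryEquiv.ofSurjective ι hs).symm_apply_apply
  refine ⟨_, h, fun g => ?_⟩
  ext1 x
  conv_lhs => rw [← h x, extO_emb, extO_emb, h]

theorem IsMod.τM {s : ℕ → OV ℍ} {j : ℕ} (h : IsMod s j) (hj : j < 22) {i : ℕ} (hi : i < 3) (y : ℍ) :
    s (2 - i) y = τM j i y := by
  rw [τM_apply (by omega) (by omega), tc, if_neg (by omega), cq_zero, add_zero, pc, qc, mt,
    if_pos hj]
  interval_cases i
  exacts [h.h2.eq y, h.h1.eq y, h.h0.eq y]

theorem fin_class {n : ℕ} {M : Man V n} [Finite M.Ω] (a : M.Ω) (hc : M.Chi)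
    (hd : finrank ℝ V = n) : n = 4 ∧ ∃ j, j < 22 ∧ Itw M j := by
  have hp := hc.pos
  have hn : 2 ≤ n := by
    by_contra h
    obtain rfl : n = 1 := by omega
    exact Man.not_chi_one a hc
  obtain ⟨τ, hb⟩ := hc.exists_base a
  obtain ⟨o, ho⟩ := Man.exists_center a
  have h := (hb.full hc (k0 := 0) (by omega) hn hd ho).ld
  have ho' : ∀ g ∈ GG τ 0 n, g o = o := fun g hg => ho g (hb.GG_le_Hs 0 hg)
  have ho'' : ∀ i, i < n → τ i o = o := fun i hi => ho' _ (tau_mem_GG hb.last (by omega) hi)
  have y1 : M.vt a - o ∈ Fx (fun j => lin (τ (n - 2 - j))) (n - 2) := fun i hi => by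
    rw [lin_sub, hb.fix_vertex hn (by omega) (by omega), ho'' _ (by omega)]
  have y0 : M.vt a - o ≠ 0 := fun e => hb.move_vertex hn (by
    rw [sub_eq_zero.1 e, ho'' 0 (by omega)])
  have bot := h.bot (by omega)
  have fin : Finite (HH (fun j => lin (τ (n - 2 - j))) (n - 1 - 0)) := by
    refine h.finite y1 (by rw [bot]; simp) y0
      ((Set.finite_range fun b => M.vt b - o).subset ?_)
    rintro _ ⟨g, hg, rfl⟩
    rw [HH_map lin (fun j => τ (n - 2 - j)), Man.HH_eq hb.last (by omega)] at hg
    obtain ⟨g, hg, rfl⟩ := hg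
    have hg' := GG_mono (Nat.zero_le _) le_rfl hg
    obtain ⟨b, e⟩ := hb.vertex_mem hg'
    exact ⟨b, by simp only [lin_sub, e, ho' g hg']⟩
  have mir : ∀ R, Inverts R (fun j => lin (τ (n - 2 - j))) (n - 1) →
      R (M.vt a - o) = M.vt a - o → False := fun R h1 h2 =>
    hb.no_mirror' hc hn h2 (fun i hi => by
      have := h1 (n - 2 - i) (by omega)
      simpa only [show n - 2 - (n - 2 - i) = i by omega] using this) fun i hi => by
      rw [ho'' i (by omega), mem_stabI.1 (inv_mem (mem_stabI.2 (ho'' i (by omega)))), sub_self,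
        map_zero]
  by_cases e2 : n = 2
  · subst e2
    obtain ⟨m, h1, h2, h3, -⟩ := h.exists_normal (M.vt a - o)
    exact (mir _ (h.rf_inverts h1 h2) (by rw [rf_apply h2, h3]; simp)).elim
  by_cases e3 : n = 3
  · subst e3
    obtain ⟨R, hR⟩ := h.mir_one le_rfl
    exact (mir R hR.1 (hR.2 _ y1)).elim
  by_cases e4 : n = 4
  swap
  · obtain ⟨R, hR⟩ := ld_big h (by omega) fin
    exact (mir R (hR.1.mono (by omega)) (hR.2 _ y1)).elim
  subst e4
  refine ⟨rfl, ?_⟩
  rcases ld4 h le_rfl fin with ⟨R, hR⟩ | ⟨ι, s', j, he⟩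
  · exact (mir R hR.1 (hR.2 _ y1)).elim
  replace bot : Fx (fun j => lin (τ (4 - 2 - j))) 3 = ⊥ := bot
  obtain ⟨ι', i1, i2⟩ := exists_inv ι fun x => he.sur x (by rw [bot]; simp)
  have e := he.fr.eq y1 (by rw [bot]; simp)
  generalize ⟪ι 1, M.vt a - o⟫ = c at e
  have c0 : c ≠ 0 := fun e' => y0 (by rw [e, e', zero_smul])
  have v1 : c⁻¹ • ι' (M.vt a - o) = cq (vc j) := by
    rw [e, map_smul, i1, smul_smul, inv_mul_cancel₀ c0, one_smul, vc, if_pos he.lt]; rfl
  have key : ∀ (g : V ≃ᵢ V) (i : ℕ), i + 1 < 4 → g o = o → lin g = extO ι (s' (2 - i)) → ∀ x,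
      c⁻¹ • ι' (g x - o) = τM j i (c⁻¹ • ι' (x - o)) := fun g i hi e1 e2 x => by
    rw [← he.md.τM he.lt (by omega), map_smul, ← i2 (s' _), ← e2, extO_emb, lin_sub, e1]
  refine ⟨j, he.lt, ?_⟩
  rcases he.eq with hs | hs
  · refine ⟨a, τ, ι', c⁻¹, o, hb, inv_ne_zero c0, v1, fun i hi => key _ i hi (ho'' i (by omega)) ?_,
      by omega⟩
    simpa only [show 4 - 2 - (2 - i) = i by omega] using hs (2 - i) (by omega)
  · refine ⟨_, _, ι', c⁻¹, o, hb.swap (by omega), inv_ne_zero c0,
      by rwa [Man.vt_r (by omega) (by omega)], fun i hi => key _ i hi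
        (mem_stabI.1 (inv_mem (mem_stabI.2 (ho'' i (by omega))))) ?_, by omega⟩
    simpa only [show 4 - 2 - (2 - i) = i by omega, map_inv] using hs (2 - i) (by omega)

/-! ### Infinite case -/

theorem Man.Base.sep {n : ℕ} {M : Man V n} {a : M.Ω} {τ : ℕ → V ≃ᵢ V} (hb : M.Base a τ)
    (hn : 2 ≤ n) (hd : DiscreteTopology (Set.range M.vt)) :
    ∃ ε, 0 < ε ∧ ∀ b b', M.vt b ≠ M.vt b' → ε ≤ dist (M.vt b) (M.vt b') := by
  obtain ⟨ε, hε, h⟩ := Metric.isOpen_iff.1
    (isOpen_discrete ({⟨M.vt a, a, rfl⟩} : Set (Set.range M.vt))) _ rfl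
  refine ⟨ε, hε, fun b b' hne => ?_⟩
  obtain ⟨g, hg, e⟩ := hb.vertices hn b
  obtain ⟨g', hg', e'⟩ := hb.vertices hn b'
  obtain ⟨c, e''⟩ := hb.vertex_mem (mul_mem (inv_mem hg') hg)
  have e3 : g' (M.vt c) = M.vt b := by rw [e'', e]; exact g'.apply_symm_apply _
  rw [← e3, e', g'.dist_eq]
  by_contra hlt
  have := congrArg Subtype.val (h (a := ⟨M.vt c, c, rfl⟩) (not_le.1 hlt))
  exact hne (by rw [← e3, e']; exact congrArg g' this)

theorem finite_of_sep {S : Set V} {ε : ℝ} (hε : 0 < ε) (h : ∀ x ∈ S, ∀ y ∈ S, x ≠ y → ε ≤ dist x y)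
    (hb : Bornology.IsBounded S) : S.Finite := by
  obtain ⟨t, ht, hs⟩ := Metric.totallyBounded_iff.1
    (hb.isCompact_closure.totallyBounded.subset subset_closure) (ε / 2) (by linarith)
  refine (ht.biUnion (t := fun y => S ∩ Metric.ball y (ε / 2)) fun y _ =>
    Set.Subsingleton.finite fun u hu w hw => ?_).subset fun x hx => ?_
  · by_contra hne
    have := h u hu.1 w hw.1 hne
    have := dist_triangle_right u w y
    have := Metric.mem_ball.1 hu.2
    have := Metric.mem_ball.1 hw.2
    linarith
  · obtain ⟨y, hy, e⟩ := Set.mem_iUnion₂.1 (hs hx)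
    exact Set.mem_iUnion₂.2 ⟨y, hy, hx, e⟩

/-- transport of isometries to the quaternions -/
noncomputable def Th (ι : V →ₗᵢ[ℝ] ℍ) (c : ℝ) (v : V) : (V ≃ᵢ V) →* (ℍ ≃ᵢ ℍ) where
  toFun g := aff (extO ι (lin g)) 0 (c • ι (g v - v))
  map_one' := eq_of_lin (o := 0) (by simp [lin_aff]) (by simp [aff_apply])
  map_mul' g h := eq_of_lin (o := 0) (by simp only [lin_aff, map_mul]) (by
    simp only [IsometryEquiv.mul_apply, aff_apply, sub_zero, map_zero, zero_add, map_smul,
      extO_emb, lin_sub]
    rw [← smul_add, ← map_add, sub_add_sub_cancel])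

theorem lin_Th (ι : V →ₗᵢ[ℝ] ℍ) (c : ℝ) (v : V) (g : V ≃ᵢ V) :
    lin (Th ι c v g) = extO ι (lin g) := lin_aff _ _ _

theorem Th_apply (ι : V →ₗᵢ[ℝ] ℍ) (c : ℝ) (v : V) (g : V ≃ᵢ V) (x : V) :
    Th ι c v g (c • ι (x - v)) = c • ι (g x - v) := by
  show aff _ _ _ _ = _
  rw [aff_apply, sub_zero, map_smul, extO_emb, lin_sub, ← smul_add, ← map_add, sub_add_sub_cancel]

theorem Th_zero (ι : V →ₗᵢ[ℝ] ℍ) (c : ℝ) (v : V) (g : V ≃ᵢ V) :
    Th ι c v g 0 = c • ι (g v - v) := by
  simpa using Th_apply ι c v g v

section
variable {n : ℕ} {M : Man V n} {a : M.Ω} {τ : ℕ → V ≃ᵢ V} (hb : M.Base a τ) (ι : V →ₗᵢ[ℝ] ℍ)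
  {c : ℝ} (c0 : c ≠ 0)
include hb c0

theorem Th_sep (h : ∃ ε, 0 < ε ∧ ∀ b b', M.vt b ≠ M.vt b' → ε ≤ dist (M.vt b) (M.vt b')) :
    ∃ ε, 0 < ε ∧ ∀ g ∈ GG (fun i => Th ι c (M.vt a) (τ i)) 0 n, g 0 ≠ 0 → ε ≤ ‖g 0‖ := by
  obtain ⟨ε, hε, h⟩ := h
  refine ⟨|c| * ε, by positivity, fun g hg e => ?_⟩
  rw [GG_map] at hg
  obtain ⟨g, hg, rfl⟩ := hg
  obtain ⟨b, e'⟩ := hb.vertex_mem hg
  rw [Th_zero, ← e'] at e ⊢
  rw [norm_smul, ι.norm_map, ← dist_eq_norm]
  exact mul_le_mul_of_nonneg_left (h _ _ fun e' => e (by rw [e']; simp)) (abs_nonneg c)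

theorem Th_st (hc : M.Chi) (hf : ∀ g, M.B g a a → g = 1) {t : ℕ} (ht : t ≤ n) :
    ∀ g ∈ GG (fun i => Th ι c (M.vt a) (τ i)) 0 t, g 0 = 0 →
      g ∈ GG (fun i => Th ι c (M.vt a) (τ i)) 1 t := by
  intro g hg e
  rw [GG_map] at hg ⊢
  obtain ⟨g, hg, rfl⟩ := hg
  rw [Th_zero, smul_eq_zero_iff_right c0, map_eq_zero_iff _ ι.injective, sub_eq_zero] at e
  exact ⟨g, hb.stab_vertex hc hf ht hg e, rfl⟩

end

theorem a4_of {M : Man V 5} {a : M.Ω} {τ : ℕ → V ≃ᵢ V} (hb : M.Base a τ) (hc : M.Chi)
    (hf : ∀ g, M.B g a a → g = 1) (hd : finrank ℝ V = 4)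
    (h : ∃ ε, 0 < ε ∧ ∀ b b', M.vt b ≠ M.vt b' → ε ≤ dist (M.vt b) (M.vt b'))
    {ι : ℍ →ₗᵢ[ℝ] V} (hs : ∀ x, ∃ y, ι y = x) {s' : ℕ → OV ℍ} {j : ℕ} (hj : j < 22)
    (hm : IsMod s' j) (e : ∀ i, i < 3 → lin (τ (3 - i)) = extO ι (s' i)) {c : ℝ} (c0 : c ≠ 0)
    (hw : τ 0 (M.vt a) - M.vt a = c • ι 1) : j < 2 ∧ Itw M (25 + j) := by
  obtain ⟨ι', i1, i2⟩ := exists_inv ι hs
  have c1 := inv_ne_zero c0
  have e' : ∀ i, i < 3 → lin (Th ι' c⁻¹ (M.vt a) (τ (3 - i))) = s' i := fun i hi => by
    rw [lin_Th, e i hi, i2]
  have : A4 (fun i => Th ι' c⁻¹ (M.vt a) (τ i)) j :=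
    ⟨hj, ⟨(e' 0 (by omega)).symm ▸ hm.h0, (e' 1 (by omega)).symm ▸ hm.h1,
      (e' 2 (by omega)).symm ▸ hm.h2⟩,
      by rw [Th_zero, hw, map_smul, i1, smul_smul, inv_mul_cancel₀ c0, one_smul],
      fun i h1 h2 => by rw [Th_zero, hb.fix_vertex (by omega) h1 (by omega)]; simp,
      by rw [show τ 4 = 1 from hb.last, map_one],
      by rw [← map_mul, hb.invol hf (by omega), map_one],
      by rw [← map_mul, hb.invol hf (by omega), map_one],
      by rw [← map_mul, hb.invol hf (by omega), map_one],
      by rw [← map_inv, ← map_inv, ← map_mul, ← map_mul, hb.inverts hf (by omega) (by omega)],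
      by rw [← map_inv, ← map_inv, ← map_mul, ← map_mul, hb.inverts hf (by omega) (by omega)],
      Th_sep hb ι' c1 h, Th_st hb ι' c1 hc hf (by omega)⟩
  obtain ⟨h1, h2⟩ := this.final
  refine ⟨h1, a, τ, ι', c⁻¹, M.vt a, hb, c1, ?_, fun i hi x => ?_, by omega⟩
  · rw [vc, if_neg (by omega)]; simp [cq_zero]
  · rw [← h2 i (by omega), Th_apply]

theorem extO_post (ι : V →ₗᵢ[ℝ] ℍ) (φ : OV ℍ) (g : OV V) :
    extO (φ.toLinearIsometry.comp ι) g = φ * extO ι g * φ⁻¹ := by
  have : ∀ x, ad (φ.toLinearIsometry.comp ι) x = ad ι (φ⁻¹ x) := fun x =>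
    ext_inner_right ℝ fun z => by rw [ad_inner, ad_inner, OV.inner_left, inv_inv]; rfl
  ext1 x
  rw [OV.mul_apply, OV.mul_apply, extO_apply, extO_apply, this, map_add, OV.apply_inv_self]
  rfl

theorem re_fix {φ : OV ℍ} (h : φ 1 = 1) (x : ℍ) : (φ x).re = x.re := by
  have := φ.inner_map_map 1 x
  rw [h, inner_coord, inner_coord] at this
  simpa using this

theorem par {y w : ℍ} (hy : y.re = 0) (y0 : y ≠ 0) (hw : w.re = 0) (h : w * y = y * w) :
    ∃ c : ℝ, c • y = w := by
  have a1 := congrArg (·.imI) h
  have a2 := congrArg (·.imJ) h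
  have a3 := congrArg (·.imK) h
  simp at a1 a2 a3
  have hN : y.imI ^ 2 + y.imJ ^ 2 + y.imK ^ 2 ≠ 0 := fun e => y0 (by
    rw [← normSq_eq_zero, normSq_def', hy]; linarith)
  refine ⟨(y.imI * w.imI + y.imJ * w.imJ + y.imK * w.imK) /
    (y.imI ^ 2 + y.imJ ^ 2 + y.imK ^ 2), ?_⟩
  ext <;> simp [hy, hw] <;> field_simp
  · linear_combination (-y.imJ / 2) * a3 + (y.imK / 2) * a2
  · linear_combination (-y.imK / 2) * a1 + (y.imI / 2) * a3
  · linear_combination (-y.imI / 2) * a2 + (y.imJ / 2) * a1

theorem a3_of {M : Man V 4} [Infinite M.Ω] {a : M.Ω} {τ : ℕ → V ≃ᵢ V} (hb : M.Base a τ)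
    (hc : M.Chi) (hf : ∀ g, M.B g a a → g = 1) (hd : finrank ℝ V = 3)
    (hsep : ∃ ε, 0 < ε ∧ ∀ b b', M.vt b ≠ M.vt b' → ε ≤ dist (M.vt b) (M.vt b'))
    (h : LD (fun j => lin (τ (2 - j))) 2) (fin : Finite (HH (fun j => lin (τ (2 - j))) 2)) :
    ∃ k, k < 3 ∧ Itw M (22 + k) := by
  obtain ⟨ι0, -, p0, s0⟩ := exists_emb (U := V) (W := (ℝ ∙ (1 : ℍ))ᗮ) (by
    have := Submodule.finrank_add_finrank_orthogonal (ℝ ∙ (1 : ℍ))
    rw [finrank_span_singleton one_ne_zero, Quaternion.finrank_eq_four] at this
    omega) (u := 0) (zero_mem _) (by simp)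
  have mem : ∀ x : ℍ, x ∈ (ℝ ∙ (1 : ℍ))ᗮ ↔ x.re = 0 := fun x => by
    rw [Submodule.mem_orthogonal_singleton_iff_inner_right, inner_coord]; simp
  simp only [mem] at p0 s0
  have one : ∀ ι : V →ₗᵢ[ℝ] ℍ, (∀ y, (ι y).re = 0) → ∀ g, extO ι g 1 = 1 := fun ι p g => by
    have : ad ι 1 = 0 := ext_inner_right ℝ fun z => by
      rw [ad_inner, inner_coord, p]; simp
    rw [extO_fix_iff, this, map_zero]
  have := (finite_extO ι0 _ 2).2 fin
  obtain ⟨φ, t, e1, ht, hS, hA⟩ := ld3 ((LD_extO ι0 _ 2).2 h) le_rfl fun i _ => one ι0 p0 _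
  simp only [← extO_post] at hS hA
  have p1 : ∀ y, ((φ.toLinearIsometry.comp ι0) y).re = 0 := fun y => (re_fix e1 _).trans (p0 y)
  have s1 : ∀ x : ℍ, x.re = 0 → ∃ y, (φ.toLinearIsometry.comp ι0) y = x := fun x hx => by
    obtain ⟨y, e⟩ := s0 (φ⁻¹ x) ((re_fix (OV.inv_fix e1) x).trans hx)
    exact ⟨y, (congrArg φ e).trans (φ.apply_inv_self x)⟩
  generalize φ.toLinearIsometry.comp ι0 = ι at hS hA p1 s1
  have i0 := hb.invol hf (i := 0) (by omega)
  have mk : ∀ c : ℝ, c ≠ 0 → A3 (fun i => Th ι c (M.vt a) (τ i)) t := fun c c0 =>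
    ⟨ht, by rwa [lin_Th], by rwa [lin_Th], by rw [lin_Th]; exact one ι p1 _,
      by rw [Th_zero, re_smul, p1, smul_zero],
      by rw [Th_zero, hb.fix_vertex (by omega) (by omega) (by omega)]; simp,
      by rw [Th_zero, hb.fix_vertex (by omega) (by omega) (by omega)]; simp,
      by rw [show τ 3 = 1 from hb.last, map_one], by rw [← map_mul, i0, map_one],
      by rw [← map_mul, hb.invol hf (by omega), map_one],
      by rw [← map_inv, ← map_inv, ← map_mul, ← map_mul, hb.inverts hf (by omega) (by omega)],
      by
        rw [Th_zero, ne_eq, smul_eq_zero_iff_right c0, map_eq_zero_iff _ ι.injective, sub_eq_zero]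
        exact hb.move_vertex (by omega),
      Th_sep hb ι c0 hsep, Th_st hb ι c0 hc hf le_rfl, Th_st hb ι c0 hc hf (by omega),
      fun hfin => by
        refine (Man.finite_of_vertices (M := M) (Set.Finite.of_injOn (f := fun x =>
          c • ι (x - M.vt a)) ?_ (fun x _ y _ e => ?_) hfin)).not_infinite ‹_›
        · rintro _ ⟨b, rfl⟩
          obtain ⟨g, hg, e⟩ := hb.vertices (by omega) b
          rw [GG_map]
          exact ⟨_, ⟨g, hg, rfl⟩, by rw [Th_zero, e]⟩
        · simpa [smul_right_inj c0] using e,
      fun R r1 r2 r3 => by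
        obtain ⟨R, rfl⟩ := exists_extO ι (s := R) fun x hx => by
          have : x.im = 0 := by
            obtain ⟨y, e⟩ := s1 x.im rfl
            have := hx y
            rw [e, inner_coord] at this
            rw [← normSq_eq_zero, normSq_def']
            simp at this ⊢
            linarith
          rw [← re_add_im x, this, add_zero, ← mul_one (x.re : ℍ), coe_mul_eq_smul, map_smul, r1]
        rw [Th_zero, map_smul, extO_emb, smul_right_inj c0, ι.injective.eq_iff] at r2
        refine hb.no_mirror' hc (by omega) (o := M.vt a) (R := R) (by simp) (fun i hi => ?_)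
          fun i hi => ?_
        · have := r3 i (by omega)
          rwa [lin_Th, ← map_inv, ← map_inv, ← map_mul, ← map_mul,
            (extO_injective ι).eq_iff] at this
        · rcases Nat.eq_zero_or_pos i with rfl | h0
          · rw [r2, inv_eq_of_mul_eq_one_right i0]
          · have := hb.fix_vertex (by omega) h0 (by omega : i < 4)
            rw [this, mem_stabI.1 (inv_mem (mem_stabI.2 this))]; simp⟩
  have A := mk 1 one_ne_zero
  obtain ⟨c, hc'⟩ : ∃ c : ℝ, c • Th ι 1 (M.vt a) (τ 0) 0 = cq (if t = 2 then 99 else 13167) := by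
    refine par A.pure A.mv (by split_ifs <;> rfl) (comm_trans (y := (cq (ty t 1)).im) rfl
      (tok ht).im ((comm_im_iff _ _).2 ?_) ((comm_im_iff _ _).2 A.comm.symm))
    obtain ⟨_, -, ⟨rfl | rfl, -⟩ | ⟨rfl, -⟩⟩ := A.cases
    · show cq 13167 * cq 1464 = cq 1464 * cq 13167
      ext <;> simp [cq, cv]
    · show cq 13167 * cq 1464 = cq 1464 * cq 13167
      ext <;> simp [cq, cv]
    · show cq 99 * cq 36 = cq 36 * cq 99
      ext <;> simp [cq, cv]
  have c0 : c ≠ 0 := by
    rintro rfl
    have := congrArg (·.imI) hc'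
    split_ifs at this <;> simp [cq, cv] at this
  rw [Th_zero, one_smul, ← Th_zero] at hc'
  obtain ⟨k, ψ, hk, f1, hh⟩ := (mk c c0).final hc'
  have pu : ∀ x, (c • ι x).re = 0 := fun x => by rw [re_smul, p1, smul_zero]
  have v0 : c • (ψ.toLinearIsometry.comp ι) (M.vt a - M.vt a) = cq (vc (22 + k)) := by
    rw [vc, if_neg (by omega)]; simp [cq_zero]
  have e : ∀ x, c • (ψ.toLinearIsometry.comp ι) x = ψ (c • ι x) := fun x => (map_smul ψ _ _).symm
  refine ⟨k, hk, ?_⟩
  rcases hh with hh | hh
  · exact ⟨a, τ, _, c, M.vt a, hb, c0, v0, fun i hi x => by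
      rw [e, e, ← hh i (by omega) _ (pu _), Th_apply], fun _ x => (re_fix f1 _).trans (p1 x)⟩
  · exact ⟨_, _, _, c, M.vt a, hb.swap (by omega), c0, by rwa [Man.vt_r (by omega) (by omega)],
      fun i hi x => by rw [e, e, ← hh i (by omega) _ (pu _), ← map_inv, Th_apply],
      fun _ x => (re_fix f1 _).trans (p1 x)⟩

theorem inf_class {n : ℕ} {M : Man V n} [Infinite M.Ω] (a : M.Ω) (hc : M.Chi)
    (hd : finrank ℝ V + 1 = n) (hdis : DiscreteTopology (Set.range M.vt)) :
    (n = 4 ∧ ∃ k, k < 3 ∧ Itw M (22 + k)) ∨ (n = 5 ∧ ∃ j, j < 2 ∧ Itw M (25 + j)) := by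
  have hn : 2 ≤ n := by
    by_contra h
    obtain rfl : n = 1 := by omega
    exact Man.not_chi_one a hc
  obtain ⟨τ, hb⟩ := hc.exists_base a
  have w0 : τ 0 (M.vt a) - M.vt a ≠ 0 := sub_ne_zero.2 (hb.move_vertex hn)
  by_cases e2 : n = 2
  · subst e2
    exfalso
    have span := (finrank_eq_one_iff_of_nonzero' (K := ℝ) _ w0).1 (by omega)
    obtain ⟨c, e⟩ := span (lin (τ 0) (τ 0 (M.vt a) - M.vt a))
    rcases pm_of_map w0 e.symm with e | e
    · have l : lin (τ 0) = 1 := by
        ext x
        obtain ⟨c, rfl⟩ := span x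
        rw [map_smul, e]; rfl
      refine hb.no_mirror' hc le_rfl (o := M.vt a) (R := LinearIsometryEquiv.neg ℝ) (by simp)
        (fun i hi => ?_) fun i hi => ?_
      · obtain rfl : i = 0 := by omega
        simp [l]
      · obtain rfl : i = 0 := by omega
        have := lin_sub (τ 0) ((τ 0)⁻¹ (M.vt a)) (M.vt a)
        rw [l, OV.one_apply] at this
        rw [this, show τ 0 ((τ 0)⁻¹ (M.vt a)) = M.vt a from (τ 0).apply_symm_apply _]
        simp
    · have : τ 0 * τ 0 = 1 := by
        refine eq_of_lin (o := M.vt a) ?_ ?_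
        · ext x
          obtain ⟨c, rfl⟩ := span x
          rw [map_mul, OV.mul_apply, map_smul, e, map_smul, map_neg, e, neg_neg, map_one]; rfl
        · rw [lin_sub, neg_sub, sub_left_inj] at e
          exact e
      refine hb.digon (i := 0) (by omega) ?_
      rw [show τ (0 + 1) = 1 from hb.last, inv_one, mul_one, this]
      exact Man.B.one a
  obtain ⟨hf, h⟩ := hb.full hc (k0 := 1) le_rfl (by omega) hd (o := M.vt a)
    fun g hg => Man.Hs_vertex hg (Conn.refl a)
  have hsep := hb.sep hn hdis
  have i0 := hb.invol hf (i := 0) (by omega)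
  have i0' : (τ 0)⁻¹ = τ 0 := inv_eq_of_mul_eq_one_right i0
  have fv : ∀ g ∈ GG τ 1 n, g (M.vt a) = M.vt a := fun g hg =>
    GG_le_of_tau (X := stabI (M.vt a)) (fun i h1 h2 => hb.fix_vertex hn h1 h2) hg
  have ht : Inverts (lin (τ 0)) (fun j => lin (τ (n - 2 - j))) (n - 3) := fun i hi => by
    rw [← map_inv, ← map_inv, ← map_mul, ← map_mul, hb.inverts hf (by omega) (by omega)]
  have y1 : τ 0 (M.vt a) - M.vt a ∈ Fx (fun j => lin (τ (n - 2 - j))) (n - 3) := fun i hi => by
    have f := hb.fix_vertex (i := n - 2 - i) hn (by omega) (by omega)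
    have e : τ (n - 2 - i) * τ 0 * τ (n - 2 - i) = τ 0 := by
      have := hb.inverts hf (i := 0) (k := n - 2 - i) (by omega) (by omega)
      rw [mul_assoc, mul_inv_eq_iff_eq_mul.1 this, mul_inv_cancel_left]
    have := congrArg (fun g : V ≃ᵢ V => g (M.vt a)) e
    simp only [IsometryEquiv.mul_apply, f] at this
    rw [lin_sub, f, this]
  have tw : lin (τ 0) (τ 0 (M.vt a) - M.vt a) = -(τ 0 (M.vt a) - M.vt a) := by
    rw [lin_sub, ← IsometryEquiv.mul_apply, i0, neg_sub]; rfl
  have bot := h.bot (by omega)
  have fin : Finite (HH (fun j => lin (τ (n - 2 - j))) (n - 1 - 1)) := by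
    obtain ⟨ε, hε, hs⟩ := hsep
    have vx : ∀ g ∈ HH (fun j => lin (τ (n - 2 - j))) (n - 1 - 1),
        ∃ b, g (τ 0 (M.vt a) - M.vt a) = M.vt b - M.vt a := fun g hg => by
      rw [HH_map lin (fun j => τ (n - 2 - j)), Man.HH_eq hb.last (by omega),
        show n - 1 - (n - 1 - 1) = 1 by omega] at hg
      obtain ⟨g, hg, rfl⟩ := hg
      obtain ⟨b, e⟩ := hb.vertex_mem (mul_mem (GG_mono (Nat.zero_le _) le_rfl hg)
        (tau_mem_GG hb.last le_rfl (by omega)))
      exact ⟨b, by rw [lin_sub, fv g hg, e]; rfl⟩
    refine h.finite y1 (by rw [bot]; simp) w0 (finite_of_sep hε ?_ ?_)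
    · rintro _ ⟨g, hg, rfl⟩ _ ⟨g', hg', rfl⟩ hne
      obtain ⟨b, e⟩ := vx g hg
      obtain ⟨b', e'⟩ := vx g' hg'
      rw [e, e'] at hne ⊢
      rw [dist_sub_right]
      exact hs _ _ fun e => hne (by rw [e])
    · refine (Metric.isBounded_closedBall (x := 0) (r := ‖τ 0 (M.vt a) - M.vt a‖)).subset ?_
      rintro _ ⟨g, -, rfl⟩
      rw [mem_closedBall_zero_iff, g.norm_map]
  have mir : ∀ R, Inverts R (fun j => lin (τ (n - 2 - j))) (n - 2) →
      R * lin (τ 0) = lin (τ 0) * R → R (τ 0 (M.vt a) - M.vt a) = τ 0 (M.vt a) - M.vt a → False :=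
    fun R h1 h2 h3 => hb.no_mirror' hc hn (o := M.vt a) (R := R) (by simp) (fun i hi => by
      rcases Nat.eq_zero_or_pos i with rfl | h0
      · rw [h2, mul_inv_cancel_right, ← map_inv, i0']
      · have := h1 (n - 2 - i) (by omega)
        simpa only [show n - 2 - (n - 2 - i) = i by omega] using this) fun i hi => by
      rcases Nat.eq_zero_or_pos i with rfl | h0
      · rw [h3, i0']
      · have := hb.fix_vertex hn h0 (by omega : i < n)
        rw [this, mem_stabI.1 (inv_mem (mem_stabI.2 this))]; simp
  have mir' : 5 ≤ n → ∀ R, LD.Mir (fun j => lin (τ (n - 2 - j))) (n - 3) R → False :=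
    fun h5 R hR => mir R (hR.1.mono (by omega))
      (h.lift (by omega) (by omega) (hR.1.mono (by omega)) hR.2 ht) (hR.2 _ y1)
  by_cases e3 : n = 3
  · subst e3
    replace bot : Fx (fun j => lin (τ (3 - 2 - j))) 1 = ⊥ := bot
    obtain ⟨m, h1, h2, h3, h4⟩ := h.exists_normal (τ 0 (M.vt a) - M.vt a)
    refine (mir _ (h.rf_inverts h1 h2) (rf_comm h2 (pm_of_map (fun e => by simp [e] at h2)
      (h4 (by rw [bot]; exact w0) _ (by rw [bot]; simp) ?_))) (by rw [rf_apply h2, h3]; simp)).elim
    rw [OV.inner_left, ← map_inv, i0', tw, inner_neg_right, h3, neg_zero]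
  by_cases e4 : n = 4
  · subst e4
    exact Or.inl ⟨rfl, a3_of hb hc hf (by omega) hsep h fin⟩
  by_cases e5 : n = 5
  swap
  · obtain ⟨R, hR⟩ := ld_big h (by omega) fin
    exact (mir' (by omega) R hR).elim
  subst e5
  refine Or.inr ⟨rfl, ?_⟩
  rcases ld4 h le_rfl fin with ⟨R, hR⟩ | ⟨ι, s', j, he⟩
  · exact (mir' le_rfl R hR).elim
  replace bot : Fx (fun j => lin (τ (5 - 2 - j))) 3 = ⊥ := bot
  have sur : ∀ x, ∃ y, ι y = x := fun x => he.sur x (by rw [bot]; simp)
  have e := he.fr.eq y1 (by rw [bot]; simp)
  generalize ⟪ι 1, τ 0 (M.vt a) - M.vt a⟫ = c at e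
  have c0 : c ≠ 0 := fun e' => w0 (by rw [e, e', zero_smul])
  rcases he.eq with hs | hs
  · exact ⟨j, a4_of hb hc hf (by omega) hsep sur he.lt he.md hs c0 e⟩
  · exact ⟨j, a4_of (hb.swap (by omega)) hc (fun g hg => hf g (hg.all a)) (by omega) hsep sur he.lt
      he.md (fun i hi => by rw [map_inv]; exact hs i hi) c0
      (by rw [Man.vt_r (by omega) (by omega), i0']; exact e)⟩

end Pool.Agent.MP_d6da41_co

end MrgPart0

-- ======== part 1: formerly Pool.Agent.MP_d6da41_co.Orb
section MrgPart1

/-! Shapes and vertex sets of the models. -/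

namespace Pool.Agent.MP_d6da41_co

open Quaternion

/-- the generators or their inverses -/
noncomputable def sτ (J : ℕ) (s : Bool) (i : ℕ) : ℍ ≃ᵢ ℍ := cond s (τM J i) (τM J i)⁻¹

/-- code of the image of the initial vertex -/
noncomputable def wc (J : ℕ) (s : Bool) (w : List ℕ) : ℕ :=
  List.rec (enc (vc J)) (fun i _ ih => force ih (cond s (ptF J i) (ptG J i))) w

theorem relQ_wc {J : ℕ} (hJ : J < 27) (s : Bool) : ∀ w : List ℕ, (∀ i ∈ w, i < 4) →
    RelQ ((w.map (sτ J s)).prod (vM J 0)) (wc J s w)
  | [], _ => relQ_cq _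
  | i :: w, hw => by
    have := relQ_wc hJ s w fun j hj => hw j (by simp [hj])
    have hi : i < 5 := (hw i (by simp)).trans (by omega)
    rw [List.map_cons, List.prod_cons, IsometryEquiv.mul_apply]
    show RelQ _ (force (wc J s w) _)
    rw [force_eq]
    cases s
    · exact relQ_ptG hJ hi this
    · exact relQ_ptF hJ hi this

/-- code of the squared displacement -/
noncomputable def nd (J : ℕ) (s : Bool) (w : List ℕ) : ℕ :=
  force (wc J s w) fun y => force (addA y (negA (enc (vc J)))) fun x => d0 (mulA x (starA x))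

theorem relZ_nd {J : ℕ} (hJ : J < 27) (s : Bool) {w : List ℕ} (hw : ∀ i ∈ w, i < 4) :
    RelZ (ND (sτ J s) (vM J 0) w ^ 2) (nd J s w : ℕ) := by
  have := (relQ_wc hJ s w hw).add (relQ_cq (vc J)).neg
  rw [nd, force_eq, force_eq]
  refine (this.mul this.star).h0.of_eq ?_ rfl
  rw [self_mul_star, re_coe, normSq_eq_norm_mul_self, ND, dist_eq_norm, sq, sub_eq_add_neg]
  rfl

/-- test words -/
def tw : ℕ → List ℕ
  | 0 => [0]
  | 1 => [0, 1, 0, 2, 1, 0]
  | 2 => [0, 1, 0]
  | _ => [0, 1, 2, 3, 1, 2, 1, 0]

theorem tw_lt : ∀ t, ∀ i ∈ tw t, i < 4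
  | 0 => by decide
  | 1 => by decide
  | 2 => by decide
  | _ + 3 => by simp [tw]

/-- table of displacements -/
noncomputable def ndT : List ℕ :=
  List.rec [] (fun x _ ih => nd (x / 8) (Nat.beq (x / 4 % 2) 1) (tw (x % 4)) :: ih) (List.range 216)

theorem ndT_eq : ndT = (List.range 216).map
    fun x => nd (x / 8) (Nat.beq (x / 4 % 2) 1) (tw (x % 4)) := by
  unfold ndT
  induction List.range 216 with
  | nil => rfl
  | cons a L ih => exact congrArg _ ih

theorem ndT_getD {J t : ℕ} (hJ : J < 27) (s : Bool) (ht : t < 4) :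
    ndT.getD (8 * J + 4 * s.toNat + t) 0 = nd J s (tw t) := by
  have := Bool.toNat_le s
  rw [ndT_eq, List.getD_eq_getElem _ _ (by simp; omega), List.getElem_map, List.getElem_range,
    show (8 * J + 4 * s.toNat + t) / 8 = J by omega,
    show (8 * J + 4 * s.toNat + t) / 4 % 2 = s.toNat by omega,
    show (8 * J + 4 * s.toNat + t) % 4 = t by omega]
  cases s <;> rfl

/-- separation test -/
def sepT (T : List ℕ) (J J' : ℕ) (s : Bool) (t : ℕ) : Bool :=
  !Nat.beq (T.getD (8 * J' + 4 * s.toNat + t) 0 * T.getD (8 * J + 4 * true.toNat + 0) 0 % 32719)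
    (T.getD (8 * J' + 4 * s.toNat + 0) 0 * T.getD (8 * J + 4 * true.toNat + t) 0 % 32719)

theorem sep_all : forceL ndT (fun T => allL (List.range 27) fun J => allL (List.range 27) fun J' =>
    allL [true, false] fun s => (Nat.beq J J' && s) || (Nat.blt J 22 != Nat.blt J' 22) ||
      sepT T J J' s 1 || sepT T J J' s 2 || sepT T J J' s 3) = true := by decide +kernel

theorem dif_of_sep {J J' t n : ℕ} {s : Bool} (hJ : J < 27) (hJ' : J' < 27) (ht : t < 4)
    (hn : 4 ≤ n) (h : sepT ndT J J' s t = true) :
    Dif n (τM J) (vM J 0) (sτ J' s) (vM J' 0) := by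
  refine ⟨tw t, tw 0, fun i hi => (tw_lt t i hi).trans_le hn, fun i hi => (tw_lt 0 i hi).trans_le hn,
    fun e => ?_⟩
  rw [sepT, ndT_getD hJ' s ht, ndT_getD hJ true ht, ndT_getD hJ' s (by omega),
    ndT_getD hJ true (by omega), Bool.not_eq_true', ← Bool.not_eq_true, Nat.beq_eq] at h
  apply h
  rw [← ZMod.natCast_eq_natCast_iff', Nat.cast_mul, Nat.cast_mul]
  refine ((relZ_nd hJ' s (tw_lt t)).mul (relZ_nd hJ true (tw_lt 0))).unique
    (((relZ_nd hJ' s (tw_lt 0)).mul (relZ_nd hJ true (tw_lt t))).of_eq ?_ rfl)
  rw [← mul_pow, ← mul_pow]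
  exact congrArg (· ^ 2) e

theorem dif_τM {J J' n : ℕ} (s : Bool) (hJ : J < 27) (hJ' : J' < 27) (hn : 4 ≤ n)
    (h1 : J < 22 ↔ J' < 22) (h2 : J = J' → s = false) :
    Dif n (τM J) (vM J 0) (sτ J' s) (vM J' 0) := by
  have := sep_all
  rw [forceL_eq] at this
  have := allL_iff.1 (allL_iff.1 (allL_iff.1 this J (List.mem_range.2 hJ)) J'
    (List.mem_range.2 hJ')) s (by cases s <;> simp)
  simp only [Bool.or_eq_true, Bool.and_eq_true, Nat.beq_eq, bne_iff_ne] at this
  rcases this with (((⟨a, b⟩ | a) | a) | a) | a
  · rw [h2 a] at b; exact absurd b (by simp)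
  · exact absurd (by rw [Bool.eq_iff_iff, Nat.blt_eq, Nat.blt_eq]; exact h1) a
  all_goals exact dif_of_sep hJ hJ' (by omega) hn a

/-! ### Vertex sets -/

/-- the orbit of the initial vertex -/
def Orb (J : ℕ) : Set ℍ := {x | ∃ g ∈ GG (τM J) 0 (nM J), g (vM J 0) = x}

theorem orb_finite {J : ℕ} (hJ : J < 22) : (Orb J).Finite := by
  have hn := nM_le J
  refine (Set.Finite.image2 (fun p q : ℍ => p * star q) inC4_finite inC4_finite).subset ?_
  rintro _ ⟨g, hg, rfl⟩
  obtain ⟨p, hp, q, hq, h⟩ := GG_le_of_tau (X := (UG (UU_good (uL J)) (UU_good (uR J))).comap lin)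
    (fun i _ h2 => ⟨_, (mt_mem (by omega) (by omega)).1, _, (mt_mem (by omega) (by omega)).2,
      τM_lin (by omega) (by omega)⟩) hg
  refine ⟨p, (UU_good _).inC _ hp, q, (UU_good _).inC _ hq, ?_⟩
  rw [iso_apply, fix0 (by omega) (Or.inr hJ) hg, add_zero, h.eq, vM, vc, if_pos hJ, cq_one, mul_one]

theorem orb_hz {J : ℕ} (hJ : J < 27) (h : 22 ≤ J) : Orb J ⊆ Set.range hz := by
  have hn := nM_le J
  let X : Subgroup (ℍ ≃ᵢ ℍ) :=
    { carrier := {g | ∃ f f', Act g f ∧ Act g⁻¹ f'}
      one_mem' := ⟨id, id, fun _ => rfl, fun _ => rfl⟩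
      mul_mem' := fun ⟨_, _, a, b⟩ ⟨_, _, a', b'⟩ =>
        ⟨_, _, a.mul a', by rw [mul_inv_rev]; exact b'.mul b⟩
      inv_mem' := fun ⟨_, _, a, b⟩ => ⟨_, _, b, by rwa [inv_inv]⟩ }
  rintro _ ⟨g, hg, rfl⟩
  obtain ⟨f, -, a, -⟩ := GG_le_of_tau (X := X)
    (fun i _ h2 => ⟨_, _, τM_act hJ h (by omega)⟩) hg
  exact ⟨f 0, by rw [vM, vc, if_neg (by omega), cq_zero, ← hz_zero, a]⟩

/-- a word that gives a translation -/
noncomputable def chkTr (J w : ℕ) : Bool :=
  force (evW (gensGG
    (fun i => mulP ((tb fun i => enc (pc J i)).getD i 0) ((tb fun i => enc (qc J i)).getD i 0)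
      (labF 3 ((tb (am J)).getD i 0)))
    (fun i => mulP ((tb fun i => starA (enc (pc J i))).getD i 0)
      ((tb fun i => starA (enc (qc J i))).getD i 0) (labF 3 ((tb (am' J)).getD i 0))) 0 3) w one3)
    fun x => Nat.beq (x0 x) 1 && Nat.beq (x1 x) 1 && !labZ 3 (x2 x)

theorem chkTr_all : allL (List.range 5) (fun k =>
    chkTr (22 + k) ([2857, 3185, 365, 181089, 181089].getD k 0)) = true := by decide +kernel

theorem chkTr_sound {J w : ℕ} (hJ : J < 27) (h : 22 ≤ J) (c : chkTr J w = true) :
    ∃ g ∈ GG (τM J) 0 4, IsLR (lin g) 1 1 ∧ g 0 ≠ 0 := by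
  obtain ⟨g, hg, r⟩ := (gens_GG (a := 0) (k := 3) fun i _ _ =>
    compat_pair (i := i) hJ (lab_τM hJ h (by norm_num : 3 ∣ 12) (by omega)) (by omega)).evW
    (repQ_one (lab_one 3)) w
  rw [chkTr, force_eq] at c
  generalize evW _ w one3 = x at c r
  simp only [Bool.and_eq_true, Nat.beq_eq, Bool.not_eq_true'] at c
  obtain ⟨⟨a1, a2⟩, a3⟩ := c
  obtain ⟨p, q, b1, b2, b3, b4⟩ := r
  obtain ⟨c1, c2⟩ := τM_UG hJ (by omega) hg b1
  rw [a1] at b2
  rw [a2] at b3
  rw [b2.eq relQ_one c1 (inC4_cq 9), b3.eq relQ_one c2 (inC4_cq 9)] at b1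
  exact ⟨g, hg, b1, fun e => by rw [labZ_of b4 e] at a3; exact absurd a3 (by simp)⟩

theorem orb_infinite {J : ℕ} (hJ : J < 27) (h : 22 ≤ J) : (Orb J).Infinite := by
  have hn := nM_le J
  have := allL_iff.1 chkTr_all (J - 22) (List.mem_range.2 (by omega))
  rw [show 22 + (J - 22) = J by omega] at this
  obtain ⟨g, hg, b1, g0⟩ := chkTr_sound hJ h this
  have v0 : vM J 0 = 0 := by rw [vM, vc, if_neg (by omega), cq_zero]
  have key : ∀ k : ℕ, (g ^ k) 0 = (k : ℝ) • g 0 := fun k => by
    induction k with
    | zero => simp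
    | succ k ih =>
      rw [pow_succ', IsometryEquiv.mul_apply, ih, iso_apply, b1.eq, Nat.cast_succ, add_smul]
      simp
  refine Set.infinite_of_injective_forall_mem (f := fun k : ℕ => (k : ℝ) • g 0)
    (fun k k' e => Nat.cast_injective (R := ℝ) (smul_left_injective ℝ g0 e)) fun k =>
    ⟨g ^ k, pow_mem (GG_mono le_rfl (by omega) hg) k, by rw [v0, key]⟩

theorem τM_pure {J i : ℕ} (h : 22 ≤ J) (h' : J < 25) (hi : i < 5) (y : ℍ) :
    (τM J i y).re = 0 ↔ y.re = 0 := by
  have : ∀ J, J < 25 → 22 ≤ J → ∀ i, i < 5 → tc J i % 11 = 0 ∧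
    (qc J i = pc J i ∨ enc (qc J i) = negA (enc (pc J i))) := by decide +kernel
  obtain ⟨a, b⟩ := this J h' h i hi
  have u := (τM_lin (J := J) (by omega) hi).l
  have t : (cq (tc J i)).re = 0 := show cv _ = 0 by rw [a]; rfl
  rw [τM_apply (by omega) hi, re_add, t, add_zero]
  rcases b with b | b
  · rw [b, conj_re u]
  · rw [cq_eq b, star_neg, mul_neg, re_neg, conj_re u, neg_eq_zero]

end Pool.Agent.MP_d6da41_co

end MrgPart1

-- ======== part 2: formerly Pool.Agent.MP_d6da41_co.StB
section MrgPart2

/-! Certificates for the stabilizers. -/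

namespace Pool.Agent.MP_d6da41_co

/-- table -/
noncomputable def stb_0 : Tr :=
    (b (b o 1 0 o) 159008872797771199 0 (b o 159008872797771200 0 o))

/-- table -/
noncomputable def stb_1 : Tr :=
    (b (b (b o 1 0 o) 35026767950959 0 o) 326799744982456800 0 (b o 326799744982470859 0 o))

/-- table -/
noncomputable def stb_2 : Tr :=
    (b (b (b (b o 1 0 o) 4859535864918 0 (b o 4859535864919 0 o)) 159004014332439242 0 (b (b o
    159008872797771199 0 o) 159008872797771200 0 o)) 414016398102373159 0 (b (b (b o
    414016398102373160 0 o) 414046565334459200 0 o) 573020411364279440 2 (b (b o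
    573020411364279441 1 o) 573025270900111640 0 o)))

/-- table -/
noncomputable def stb_3 : Tr :=
    (b (b (b (b (b o 1 0 o) 32719 0 (b o 305277600 0 o)) 305291659 0 (b (b o 1070532961 0 o)
    9988072535460 0 o)) 9988072549519 0 (b (b (b o 9988377794400 0 o) 9988837790821 0 o)
    35026767950959 0 (b (b o 326799744982456800 0 o) 326799744982470859 0 o))) 326799745287715740
    0 (b (b (b (b o 326799745747712161 0 o) 326809733054973600 0 o) 326824783677872299 0 (b (b o
    573020410293713760 0 o) 573020410293713761 0 o)) 573020410293746479 0 (b (b (b o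
    573020410293746480 0 o) 573020411364246721 0 o) 573020411364246722 0 (b (b o
    573020411364279440 0 o) 573020411364279441 0 o))))

/-- table -/
noncomputable def stb_4 : Tr :=
    (b (b (b (b (b (b o 1 0 o) 32719 25 (b o 1070532961 34 o)) 4859535864918 0 (b (b o
    4859535864919 0 o) 4859832920719 0 (b o 4859832920720 0 o))) 12654234853680 0 (b (b (b o
    12654234877321 0 o) 12654234886399 0 (b o 12654234910040 0 o)) 17512997232360 0 (b (b o
    17512997241439 0 o) 17513770742239 0 (b o 17513770751318 0 o)))) 35026767950959 97 (b (b (b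
    (b o 158986500264664842 0 o) 158986500264673921 0 (b o 158986500264697561 0 o))
    158986500264706640 0 (b (b o 158999153429018280 0 o) 158999153429018281 0 (b o
    159004012964850480 0 o))) 159004013261906281 0 (b (b (b o 159004014035383441 0 o)
    159004014332439242 0 (b o 159008872797771199 0 o)) 159008872797771200 0 (b (b o
    414016397328863280 0 o) 414016397328863281 0 o)))) 414016398102373159 0 (b (b (b (b (b o
    414016398102373160 0 o) 414021256864695480 0 (b o 414021256864728199 0 o)) 414033910029048918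
    0 (b (b o 414033910029072559 0 o) 414033911099581879 0 (b o 414033911099605520 0 o)))
    414046565334426481 0 (b (b (b o 414046565334459200 0 o) 573002897296481400 0 (b o
    573002897296505041 0 o)) 573002897593537201 0 (b (b o 573002897593560842 0 o)
    573007756058860080 0 o))) 573007756058869159 0 (b (b (b (b o 573015550757848842 0 o)
    573015551531358721 0 (b o 573020410293713760 1 o)) 573020410293713761 2 (b (b o
    573020410293746479 33 o) 573020410293746480 19 (b o 573020411364246721 12 o)))
    573020411364246722 26 (b (b (b o 573020411364279440 4 o) 573020411364279441 3 (b o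
    573025270126601761 0 o)) 573025270900111640 0 (b (b o 573033064528591081 0 o)
    573033064528600160 0 o)))))

/-- table -/
noncomputable def stb_5 : Tr :=
    (b (b o 1146040820587427522 0 o) 656704782453264088429880110754747680 0 (b o
    656704782453264089575920931342175202 0 o))

/-- table -/
noncomputable def stb_6 : Tr :=
    (b (b (b (b o 1146040820587427522 0 o) 37497309608800041092318 0 (b o
    1226874473090328544499552642 0 o)) 40142105885042459647480862893598 0 (b (b o
    656704781226352118029942766214102720 1 o) 656704781226352119175983586801530242 2 o))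
    656704781226389615339551566255195038 0 (b (b (b o 656704781226389616485592386842622560 0 o)
    656704782453226591120271310713655362 0 o) 656704782453226592266312131301082884 0 (b (b o
    656704782453264088429880110754747680 0 o) 656704782453264089575920931342175202 0 o)))

/-- table -/
noncomputable def stb_7 : Tr :=
    (b (b o 1146040820587427522 0 o) 656704781226352118029942766214102720 0 (b o
    656704781226352119175983586801530242 0 o))

theorem st_10 : ST 10 := chkSt_sound (C :=
    [(5, stb_0, stb_1), (5, stb_2, stb_3), (5, stb_4, stb_3), (0, o, o), (0, stb_5, o), (0,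
    stb_6, o), (0, o, o), (0, o, o), (0, stb_7, o)])
  (by decide +kernel)

theorem st_11 : ST 11 := chkSt_sound (C :=
    [(5, stb_0, stb_1), (5, stb_2, stb_3), (5, stb_4, stb_3), (0, o, o), (0, stb_5, o), (0,
    stb_6, o), (0, o, o), (0, o, o), (0, stb_7, o)])
  (by decide +kernel)

/-- table -/
noncomputable def stb_8 : Tr :=
    (b (b o 1 0 o) 414046564799192719 0 (b o 414046564799192720 0 o))

/-- table -/
noncomputable def stb_9 : Tr :=
    (b (b (b o 1 0 o) 414033910029048918 0 o) 414033910029072559 0 (b (b o 573033064528591081 0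
    o) 573033064528600160 0 o))

/-- table -/
noncomputable def stb_10 : Tr :=
    (b (b (b (b o 1 0 o) 12653848126920 0 (b o 12653848126921 0 o)) 158986500413213641 0 (b (b o
    158986500413213642 0 o) 159008873333037680 0 o)) 414033912021598760 0 (b (b (b o
    414046564799192719 0 o) 414046564799192720 0 o) 573020411364279440 2 (b (b o
    573020411364279441 1 o) 573033065212373642 0 o)))

/-- table -/
noncomputable def stb_11 : Tr :=
    (b (b (b (b (b (b o 1 0 o) 32719 0 (b o 1070532961 0 o)) 4859535864918 0 (b (b o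
    4859535864919 0 o) 4859832920719 0 (b o 4859832920720 0 o))) 12654234853680 0 (b (b (b o
    12654234877321 0 o) 12654234886399 0 (b o 12654234910040 0 o)) 17512997232360 0 (b (b o
    17512997241439 0 o) 17513770742239 0 (b o 17513770751318 0 o)))) 35026767950959 0 (b (b (b (b
    o 158986500264664842 0 o) 158986500264673921 0 (b o 158986500264697561 0 o))
    158986500264706640 0 (b (b o 158999153429018280 0 o) 158999153429018281 0 (b o
    159004012964850480 0 o))) 159004013261906281 0 (b (b (b o 159004014035383441 0 o)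
    159004014332439242 0 (b o 159008872797771199 0 o)) 159008872797771200 0 (b (b o
    414016397328863280 0 o) 414016397328863281 0 o)))) 414016398102373159 0 (b (b (b (b (b o
    414016398102373160 0 o) 414021256864695480 0 (b o 414021256864728199 0 o)) 414033910029048918
    0 (b (b o 414033910029072559 0 o) 414033911099581879 0 (b o 414033911099605520 0 o)))
    414046565334426481 0 (b (b (b o 414046565334459200 0 o) 573002897296481400 0 (b o
    573002897296505041 0 o)) 573002897593537201 0 (b (b o 573002897593560842 0 o)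
    573007756058860080 0 o))) 573007756058869159 0 (b (b (b (b o 573015550757848842 0 o)
    573015551531358721 0 (b o 573020410293713760 0 o)) 573020410293713761 0 (b (b o
    573020410293746479 0 o) 573020410293746480 0 (b o 573020411364246721 0 o)))
    573020411364246722 0 (b (b (b o 573020411364279440 0 o) 573020411364279441 0 (b o
    573025270126601761 0 o)) 573025270900111640 0 (b (b o 573033064528591081 0 o)
    573033064528600160 0 o)))))

/-- table -/
noncomputable def stb_12 : Tr :=
    (b (b (b (b (b (b o 1 0 o) 32719 25 (b o 1070532961 34 o)) 4859684371920 0 (b (b o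
    4859684380999 0 o) 4859684404639 0 (b o 4859684413718 0 o))) 12653848126920 0 (b (b (b o
    12653848126921 0 o) 12654621636799 0 (b o 12654621636800 0 o)) 17513235452118 0 (b (b o
    17513235475759 0 o) 17513532507919 0 (b o 17513532531560 0 o)))) 35026767950959 97 (b (b (b
    (b o 158986500116157840 0 o) 158986500116157841 0 (b o 158986500413213641 0 o))
    158986500413213642 0 (b (b o 158999153964252042 0 o) 158999153964284761 0 (b o
    159004012578123720 0 o))) 159004012578132799 0 (b (b (b o 159004013648656681 0 o)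
    159004013648665760 0 (b o 159008873333004961 0 o)) 159008873333037680 0 (b (b o
    414016397715590040 0 o) 414016397715613681 0 o)))) 414016397715622759 0 (b (b (b (b (b o
    414016397715646400 0 o) 414021256329461718 0 (b o 414021256329461719 0 o)) 414033910177555920
    0 (b (b o 414033910951065799 0 o) 414033911248088881 0 (b o 414033912021598760 0 o)))
    414046564799192719 0 (b (b (b o 414046564799192720 0 o) 573002897058261642 0 (b o
    573002897058270721 0 o)) 573002897831771521 0 (b (b o 573002897831780600 0 o)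
    573007756445586840 0 o))) 573007756742642641 0 (b (b (b (b o 573015550609341840 0 o)
    573015550609365481 0 (b o 573020410293713760 1 o)) 573020410293713761 2 (b (b o
    573020410293746479 33 o) 573020410293746480 19 (b o 573020411364246721 12 o)))
    573020411364246722 26 (b (b (b o 573020411364279440 4 o) 573020411364279441 3 (b o
    573025269978094759 0 o)) 573025269978118400 0 (b (b o 573033064915317841 0 o)
    573033065212373642 0 o)))))

theorem st_12 : ST 12 := chkSt_sound (C :=
    [(5, stb_8, stb_9), (5, stb_10, stb_11), (5, stb_12, stb_11), (0, o, o), (0, stb_5, o), (0,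
    stb_6, o), (0, o, o), (0, o, o), (0, stb_7, o)])
  (by decide +kernel)

theorem st_13 : ST 13 := chkSt_sound (C :=
    [(5, stb_8, stb_9), (5, stb_10, stb_11), (5, stb_12, stb_11), (0, o, o), (0, stb_5, o), (0,
    stb_6, o), (0, o, o), (0, o, o), (0, stb_7, o)])
  (by decide +kernel)

/-- table -/
noncomputable def stb_13 : Tr :=
    (b (b (b o 1 0 o) 159004012578123720 0 o) 159004012578132799 0 (b (b o 573025269978094759 0
    o) 573025269978118400 0 o))

/-- table -/
noncomputable def stb_14 : Tr :=
    (b (b (b (b (b (b o 1 0 o) 32719 0 (b o 1070532961 0 o)) 4859684371920 0 (b (b o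
    4859684380999 0 o) 4859684404639 0 (b o 4859684413718 0 o))) 12653848126920 0 (b (b (b o
    12653848126921 0 o) 12654621636799 0 (b o 12654621636800 0 o)) 17513235452118 0 (b (b o
    17513235475759 0 o) 17513532507919 0 (b o 17513532531560 0 o)))) 35026767950959 0 (b (b (b (b
    o 158986500116157840 0 o) 158986500116157841 0 (b o 158986500413213641 0 o))
    158986500413213642 0 (b (b o 158999153964252042 0 o) 158999153964284761 0 (b o
    159004012578123720 0 o))) 159004012578132799 0 (b (b (b o 159004013648656681 0 o)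
    159004013648665760 0 (b o 159008873333004961 0 o)) 159008873333037680 0 (b (b o
    414016397715590040 0 o) 414016397715613681 0 o)))) 414016397715622759 0 (b (b (b (b (b o
    414016397715646400 0 o) 414021256329461718 0 (b o 414021256329461719 0 o)) 414033910177555920
    0 (b (b o 414033910951065799 0 o) 414033911248088881 0 (b o 414033912021598760 0 o)))
    414046564799192719 0 (b (b (b o 414046564799192720 0 o) 573002897058261642 0 (b o
    573002897058270721 0 o)) 573002897831771521 0 (b (b o 573002897831780600 0 o)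
    573007756445586840 0 o))) 573007756742642641 0 (b (b (b (b o 573015550609341840 0 o)
    573015550609365481 0 (b o 573020410293713760 0 o)) 573020410293713761 0 (b (b o
    573020410293746479 0 o) 573020410293746480 0 (b o 573020411364246721 0 o)))
    573020411364246722 0 (b (b (b o 573020411364279440 0 o) 573020411364279441 0 (b o
    573025269978094759 0 o)) 573025269978118400 0 (b (b o 573033064915317841 0 o)
    573033065212373642 0 o)))))

theorem st_14 : ST 14 := chkSt_sound (C :=
    [(5, stb_0, stb_13), (5, stb_2, stb_14), (5, stb_4, stb_14), (0, o, o), (0, stb_5, o), (0,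
    stb_6, o), (0, o, o), (0, o, o), (0, stb_7, o)])
  (by decide +kernel)

theorem st_15 : ST 15 := chkSt_sound (C :=
    [(5, stb_0, stb_13), (5, stb_2, stb_14), (5, stb_4, stb_14), (0, o, o), (0, stb_5, o), (0,
    stb_6, o), (0, o, o), (0, o, o), (0, stb_7, o)])
  (by decide +kernel)

/-- table -/
noncomputable def stb_15 : Tr :=
    (b (b o 1 0 o) 573020411364246721 0 (b o 573020411364246722 0 o))

/-- table -/
noncomputable def stb_16 : Tr :=
    (b (b o 1 0 o) 9988837790821 0 o)

/-- table -/
noncomputable def stb_17 : Tr :=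
    (b (b (b (b o 1 0 o) 32719 0 (b o 1070532961 0 o)) 35026767950959 0 (b (b o
    573020410293713760 1 o) 573020410293713761 2 o)) 573020410293746479 0 (b (b (b o
    573020410293746480 0 o) 573020411364246721 0 o) 573020411364246722 0 (b (b o
    573020411364279440 0 o) 573020411364279441 0 o)))

/-- table -/
noncomputable def stb_18 : Tr :=
    (b (b (b o 1 0 o) 9988837790821 0 (b o 326799745747712161 0 o)) 326824783677872299 0 (b (b o
    573020410293713760 0 o) 573020410293713761 0 o))

/-- table -/
noncomputable def stb_19 : Tr :=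
    (b (b (b (b (b o 1 0 o) 32719 9 (b o 305277600 1 o)) 305291659 2 (b (b o 1070532961 1689 o)
    9988072535460 19 o)) 9988072549519 33 (b (b (b o 9988377794400 25 o) 9988837790821 777 o)
    35026767950959 1690 (b (b o 326799744982456800 26 o) 326799744982470859 12 o)))
    326799745287715740 34 (b (b (b (b o 326799745747712161 1225 o) 326809733054973600 211 o)
    326824783677872299 13513 (b (b o 573020410293713760 3 o) 573020410293713761 4 o))
    573020410293746479 154 (b (b (b o 573020410293746480 97 o) 573020411364246721 265 o)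
    573020411364246722 98 (b (b o 573020411364279440 201 o) 573020411364279441 153 o))))

/-- table -/
noncomputable def stb_20 : Tr :=
    (b (b (b (b (b o 1146040820587427522 0 o) 37497309608800041092318 9 (b o
    349860591210960464090107200 1 o)) 349876703398857102733638998 2 (b (b o
    1226874473090328544499552642 0 o) 11446738844625326176261524930120 0 o))
    11446738860737514072900168461918 0 (b (b (b o 11447088683831415424564217476800 0 o)
    11447615858507205544341934375562 0 o) 40142105885042459647480862893598 0 (b (b o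
    374525847907456841071852531496049600 0 o) 374525847907472953259749170139581398 0 o)))
    374525848257296047161100834188596280 0 (b (b (b (b o 374525848784470722951220611905495042 0
    o) 374537294646280081276316631623419200 0 o) 374554543274497258205323750834013078 0 (b (b o
    656704781226352118029942766214102720 0 o) 656704781226352119175983586801530242 0 o))
    656704781226389615339551566255195038 0 (b (b (b o 656704781226389616485592386842622560 0 o)
    656704782453226591120271310713655362 0 o) 656704782453226592266312131301082884 0 (b (b o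
    656704782453264088429880110754747680 0 o) 656704782453264089575920931342175202 0 o))))

/-- table -/
noncomputable def stb_21 : Tr :=
    (b (b (b o 1146040820587427522 0 o) 37497309608800041092318 0 o) 349860591210960464090107200
    0 (b o 349876703398857102733638998 0 o))

theorem st_16 : ST 16 := chkSt_sound (C :=
    [(5, stb_15, stb_16), (5, stb_17, stb_18), (5, stb_19, stb_3), (0, o, o), (0, stb_7, o), (0,
    stb_20, o), (0, o, o), (0, o, o), (0, stb_21, o)])
  (by decide +kernel)

theorem st_17 : ST 17 := chkSt_sound (C :=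
    [(5, stb_15, stb_16), (5, stb_17, stb_18), (5, stb_19, stb_3), (0, o, o), (0, stb_7, o), (0,
    stb_20, o), (0, o, o), (0, o, o), (0, stb_21, o)])
  (by decide +kernel)

end Pool.Agent.MP_d6da41_co

end MrgPart2

-- ======== part 3: formerly Pool.Agent.MP_d6da41_co.StC
section MrgPart3

/-! Certificates for the stabilizers. -/

namespace Pool.Agent.MP_d6da41_co

/-- table -/
noncomputable def stc_0 : Tr :=
    (b (b o 1 0 o) 158999153429018280 0 (b o 158999153429018281 0 o))

/-- table -/
noncomputable def stc_1 : Tr :=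
    (b (b o 1 0 o) 1070532961 0 o)

/-- table -/
noncomputable def stc_2 : Tr :=
    (b (b (b (b o 1 0 o) 4859535864918 0 (b o 4859535864919 0 o)) 158999153429018280 0 (b (b o
    158999153429018281 0 o) 159004012964850480 0 o)) 414016397328863280 1 (b (b (b o
    414016397328863281 2 o) 414021256864695480 0 o) 573015550757848842 0 (b (b o
    573020410293713760 0 o) 573020410293713761 0 o)))

/-- table -/
noncomputable def stc_3 : Tr :=
    (b (b (b o 1 0 o) 1070532961 0 (b o 159004013261906281 0 o)) 159004014332439242 0 (b (b o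
    414016397328863280 0 o) 414016397328863281 0 o))

/-- table -/
noncomputable def stc_4 : Tr :=
    (b (b (b (b (b (b o 1 0 o) 32719 25 (b o 1070532961 398089 o)) 4859535864918 16993 (b (b o
    4859535864919 9875 o) 4859832920719 777 (b o 4859832920720 1178 o))) 12654234853680 19 (b (b
    (b o 12654234877321 33 o) 12654234886399 2 (b o 12654234910040 1 o)) 17512997232360 18 (b (b
    o 17512997241439 9 o) 17513770742239 1235 (b o 17513770751318 1689 o)))) 35026767950959
    865434 (b (b (b (b o 158986500264664842 79049 o) 158986500264673921 75417 (b o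
    158986500264697561 1690 o)) 158986500264706640 2195 (b (b o 158999153429018280 6291 o)
    158999153429018281 13522 (b o 159004012964850480 108179 o))) 159004013261906281 603337 (b (b
    (b o 159004014035383441 17562 o) 159004014332439242 6894793 (b o 159008872797771199 6220 o))
    159008872797771200 13466 (b (b o 414016397328863280 3 o) 414016397328863281 4 o))))
    414016398102373159 201 (b (b (b (b (b o 414016398102373160 153 o) 414021256864695480 786 (b o
    414021256864728199 861849 o)) 414033910029048918 265 (b (b o 414033910029072559 147 o)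
    414033911099581879 154 (b o 414033911099605520 97 o))) 414046565334426481 107731 (b (b (b o
    414046565334459200 4873 o) 573002897296481400 12 (b o 573002897296505041 26 o))
    573002897593537201 76 (b (b o 573002897593560842 210 o) 573007756058860080 79002 o)))
    573007756058869159 49761 (b (b (b (b o 573015550757848842 9881 o) 573015551531358721 34 (b o
    573020410293713760 609 o)) 573020410293713761 1234 (b (b o 573020410293746479 2124 o)
    573020410293746480 1683 (b o 573020411364246721 9427 o))) 573020411364246722 13513 (b (b (b o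
    573020411364279440 98 o) 573020411364279441 274 (b o 573025270126601761 1225 o))
    573025270900111640 211 (b (b o 573033064528591081 135945 o) 573033064528600160 50330 o)))))

/-- table -/
noncomputable def stc_5 : Tr :=
    (b (b (b (b (b (b o 1 0 o) 32719 0 (b o 1070532961 0 o)) 4859535864918 0 (b (b o
    4859535864919 0 o) 4859832920719 0 (b o 4859832920720 0 o))) 12654234853680 0 (b (b (b o
    12654234877321 0 o) 12654234886399 0 (b o 12654234910040 0 o)) 17512997232360 0 (b (b o
    17512997241439 0 o) 17513770742239 0 (b o 17513770751318 0 o)))) 35026767950959 0 (b (b (b (b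
    o 158986500264664842 0 o) 158986500264673921 0 (b o 158986500264697561 0 o))
    158986500264706640 0 (b (b o 158999153429018280 0 o) 158999153429018281 0 (b o
    159004012964850480 0 o))) 159004013261906281 0 (b (b (b o 159004014035383441 0 o)
    159004014332439242 0 (b o 159008872797771199 0 o)) 159008872797771200 0 (b (b o
    414016397328863280 0 o) 414016397328863281 0 o)))) 414016398102373159 0 (b (b (b (b (b o
    414016398102373160 0 o) 414021256864695480 0 (b o 414021256864728199 0 o)) 414033910029048918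
    0 (b (b o 414033910029072559 0 o) 414033911099581879 0 (b o 414033911099605520 0 o)))
    414046565334426481 0 (b (b (b o 414046565334459200 0 o) 573002897296481400 0 (b o
    573002897296505041 0 o)) 573002897593537201 0 (b (b o 573002897593560842 0 o)
    573007756058860080 0 o))) 573007756058869159 0 (b (b (b (b o 573015550757848842 0 o)
    573015551531358721 0 (b o 573020410293713760 0 o)) 573020410293713761 0 (b (b o
    573020410293746479 0 o) 573020410293746480 0 (b o 573020411364246721 0 o)))
    573020411364246722 0 (b (b (b o 573020411364279440 0 o) 573020411364279441 0 (b o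
    573025270126601761 0 o)) 573025270900111640 0 (b (b o 573033064528591081 0 o)
    573033064528600160 0 o)))))

/-- table -/
noncomputable def stc_6 : Tr :=
    (b (b o 1146040820587427522 0 o) 474479691731420909429351175647192160 0 (b o
    474479691731420910575391996234619682 0 o))

/-- table -/
noncomputable def stc_7 : Tr :=
    (b (b (b (b (b (b o 1146040820587427522 0 o) 37497309608800041092318 0 (b o
    1226874473090328544499552642 0 o)) 5569226470304659063958907473196 0 (b (b o
    5569226470305805104779494900718 0 o) 5569566908378597359531984628318 0 (b o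
    5569566908379743400352572055840 0 o))) 14502269695617453040503274980960 0 (b (b (b o
    14502269722711004080010649028562 0 o) 14502269733114762649303316073278 2 (b o
    14502269760208313688810690120880 1 o)) 20070609719119201502198093011920 18 (b (b o
    20070609729524106112311347484158 9 o) 20071496193015663143969556501758 0 (b o
    20071496203420567754082810973996 0 o)))) 40142105885042459647480862893598 0 (b (b (b (b o
    182205019225639758432774852296581524 0 o) 182205019225650163337384965551053762 0 (b o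
    182205019225677255742383652337673842 0 o)) 182205019225687660646993765592146080 0 (b (b o
    182219520268498400105095611113102160 0 o) 182219520268498401251136431700529682 0 (b o
    182225089494931208600591590566910560 0 o))) 182225089835369282538887163644065682 0 (b (b (b o
    182225090721805681690920135066463202 0 o) 182225091062243755629215708143618324 0 (b o
    182230659061839587197951122551538878 0 o)) 182230659061839588343991943138966400 0 (b (b o
    474479691731420909429351175647192160 0 o) 474479691731420910575391996234619682 0 o))))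
    474479692617894805890992947110681998 0 (b (b (b (b (b o 474479692617894807037033767698109520
    0 o) 474485260957853717924847155101000560 0 (b o 474485260957891215234455955142092878 0 o))
    474499762000712359597167913917521196 0 (b (b o 474499762000739453148207421291568798 0 o)
    474499763227586832687496458417073838 0 (b o 474499763227613926238535965791121440 0 o)))
    474514265497272046381967669025010082 0 (b (b (b o 474514265497309543691576469066102400 0 o)
    656684710616632998828440568121090800 0 (b o 656684710616660092379480075495138402 0 o))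
    656684710957071072766736141198245922 0 (b (b o 656684710957098166317775648572293524 0 o)
    656690278956656500576902262939121760 0 o))) 656690278956666905481512376193593998 0 (b (b (b
    (b o 656699211999881813370878807306629524 0 o) 656699212886355709832520578770119362 0 (b o
    656704781226352118029942766214102720 0 o)) 656704781226352119175983586801530242 0 (b (b o
    656704781226389615339551566255195038 0 o) 656704781226389616485592386842622560 0 (b o
    656704782453226591120271310713655362 0 o))) 656704782453226592266312131301082884 0 (b (b (b o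
    656704782453264088429880110754747680 0 o) 656704782453264089575920931342175202 0 (b o
    656710350793223000463734318745066242 0 o)) 656710351679696896925376090208556080 0 (b (b o
    656719283496074829034022776863131282 0 o) 656719283496085233938632890117603520 0 o)))))

/-- table -/
noncomputable def stc_8 : Tr :=
    (b (b (b o 1146040820587427522 0 o) 14502269733114762649303316073278 0 o)
    14502269760208313688810690120880 0 (b (b o 20070609719119201502198093011920 0 o)
    20070609729524106112311347484158 0 o))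

theorem st_18 : ST 18 := chkSt_sound (C :=
    [(5, stc_0, stc_1), (5, stc_2, stc_3), (5, stc_4, stc_5), (0, o, o), (0, stc_6, o), (0,
    stc_7, o), (0, o, o), (0, o, o), (0, stc_8, o)])
  (by decide +kernel)

theorem st_19 : ST 19 := chkSt_sound (C :=
    [(5, stc_0, stc_1), (5, stc_2, stc_3), (5, stc_4, stc_5), (0, o, o), (0, stc_6, o), (0,
    stc_7, o), (0, o, o), (0, o, o), (0, stc_8, o)])
  (by decide +kernel)

/-- table -/
noncomputable def stc_9 : Tr :=
    (b (b o 1 0 o) 414021256329461718 0 (b o 414021256329461719 0 o))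

/-- table -/
noncomputable def stc_10 : Tr :=
    (b (b (b (b o 1 0 o) 12653848126920 0 (b o 12653848126921 0 o)) 158986500116157840 1 (b (b o
    158986500116157841 2 o) 158999153964252042 0 o)) 414021256329461718 0 (b (b (b o
    414021256329461719 0 o) 414033910177555920 0 o) 573007756445586840 0 (b (b o
    573020410293713760 0 o) 573020410293713761 0 o)))

/-- table -/
noncomputable def stc_11 : Tr :=
    (b (b (b o 1 0 o) 1070532961 0 (b o 158986500116157840 0 o)) 158986500116157841 0 (b (b o
    414033910951065799 0 o) 414033912021598760 0 o))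

/-- table -/
noncomputable def stc_12 : Tr :=
    (b (b (b (b (b (b o 1 0 o) 32719 25 (b o 1070532961 398089 o)) 4859684371920 19 (b (b o
    4859684380999 33 o) 4859684404639 2 (b o 4859684413718 1 o))) 12653848126920 16993 (b (b (b o
    12653848126921 9875 o) 12654621636799 777 (b o 12654621636800 1178 o)) 17513235452118 18 (b
    (b o 17513235475759 9 o) 17513532507919 1235 (b o 17513532531560 1689 o)))) 35026767950959
    865434 (b (b (b (b o 158986500116157840 3 o) 158986500116157841 4 (b o 158986500413213641 201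
    o)) 158986500413213642 153 (b (b o 158999153964252042 786 o) 158999153964284761 861849 (b o
    159004012578123720 265 o))) 159004012578132799 147 (b (b (b o 159004013648656681 154 o)
    159004013648665760 97 (b o 159008873333004961 107731 o)) 159008873333037680 4873 (b (b o
    414016397715590040 79049 o) 414016397715613681 75417 o)))) 414016397715622759 1690 (b (b (b
    (b (b o 414016397715646400 2195 o) 414021256329461718 6291 (b o 414021256329461719 13522 o))
    414033910177555920 108179 (b (b o 414033910951065799 603337 o) 414033911248088881 17562 (b o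
    414033912021598760 6894793 o))) 414046564799192719 6220 (b (b (b o 414046564799192720 13466
    o) 573002897058261642 12 (b o 573002897058270721 26 o)) 573002897831771521 76 (b (b o
    573002897831780600 210 o) 573007756445586840 9881 o))) 573007756742642641 34 (b (b (b (b o
    573015550609341840 79002 o) 573015550609365481 49761 (b o 573020410293713760 609 o))
    573020410293713761 1234 (b (b o 573020410293746479 2124 o) 573020410293746480 1683 (b o
    573020411364246721 9427 o))) 573020411364246722 13513 (b (b (b o 573020411364279440 98 o)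
    573020411364279441 274 (b o 573025269978094759 135945 o)) 573025269978118400 50330 (b (b o
    573033064915317841 1225 o) 573033065212373642 211 o)))))

/-- table -/
noncomputable def stc_13 : Tr :=
    (b (b (b (b (b (b o 1 0 o) 32719 0 (b o 1070532961 0 o)) 4859684371920 0 (b (b o
    4859684380999 0 o) 4859684404639 0 (b o 4859684413718 0 o))) 12653848126920 0 (b (b (b o
    12653848126921 0 o) 12654621636799 0 (b o 12654621636800 0 o)) 17513235452118 0 (b (b o
    17513235475759 0 o) 17513532507919 0 (b o 17513532531560 0 o)))) 35026767950959 0 (b (b (b (b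
    o 158986500116157840 0 o) 158986500116157841 0 (b o 158986500413213641 0 o))
    158986500413213642 0 (b (b o 158999153964252042 0 o) 158999153964284761 0 (b o
    159004012578123720 0 o))) 159004012578132799 0 (b (b (b o 159004013648656681 0 o)
    159004013648665760 0 (b o 159008873333004961 0 o)) 159008873333037680 0 (b (b o
    414016397715590040 0 o) 414016397715613681 0 o)))) 414016397715622759 0 (b (b (b (b (b o
    414016397715646400 0 o) 414021256329461718 0 (b o 414021256329461719 0 o)) 414033910177555920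
    0 (b (b o 414033910951065799 0 o) 414033911248088881 0 (b o 414033912021598760 0 o)))
    414046564799192719 0 (b (b (b o 414046564799192720 0 o) 573002897058261642 0 (b o
    573002897058270721 0 o)) 573002897831771521 0 (b (b o 573002897831780600 0 o)
    573007756445586840 0 o))) 573007756742642641 0 (b (b (b (b o 573015550609341840 0 o)
    573015550609365481 0 (b o 573020410293713760 0 o)) 573020410293713761 0 (b (b o
    573020410293746479 0 o) 573020410293746480 0 (b o 573020411364246721 0 o)))
    573020411364246722 0 (b (b (b o 573020411364279440 0 o) 573020411364279441 0 (b o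
    573025269978094759 0 o)) 573025269978118400 0 (b (b o 573033064915317841 0 o)
    573033065212373642 0 o)))))

/-- table -/
noncomputable def stc_14 : Tr :=
    (b (b o 1146040820587427522 0 o) 182205019055444671997716112112072480 0 (b o
    182205019055444673143756932699500002 0 o))

/-- table -/
noncomputable def stc_15 : Tr :=
    (b (b (b (b (b (b o 1146040820587427522 0 o) 37497309608800041092318 0 (b o
    1226874473090328544499552642 0 o)) 5569396665391094122699091982240 0 (b (b o
    5569396675795998732812346454478 0 o) 5569396702888403731499133074558 2 (b o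
    5569396713293308341612387546796 1 o))) 14501826490964079523360957092240 0 (b (b (b o
    14501826490965225564181544519762 0 o) 14502712964860541165132420582078 0 (b o
    14502712964861687205953008009600 0 o)) 20070882728686139960600226391596 18 (b (b o
    20070882755779691000107600439198 9 o) 20071223166760078256173303546718 0 (b o
    20071223193853629295680677594320 0 o)))) 40142105885042459647480862893598 0 (b (b (b (b o
    182205019055444671997716112112072480 0 o) 182205019055444673143756932699500002 0 (b o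
    182205019395882745936011685189227602 0 o)) 182205019395882747082052505776655124 0 (b (b o
    182219520881898139913671493615499924 0 o) 182219520881935637223280293656592242 0 (b o
    182225089051726555227074448249021840 0 o))) 182225089051736960131684561503494078 0 (b (b (b o
    182225090278601028317402992748574482 0 o) 182225090278611433222013106003046720 0 (b o
    182230659675239327006527005053936642 0 o)) 182230659675276824316135805095028960 0 (b (b o
    474479692174625562802868317965080880 0 o) 474479692174652656353907825339128482 0 o))))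
    474479692174663060112477118006173198 0 (b (b (b (b (b o 474479692174690153663516625380220800
    0 o) 474485260344453978116271272598602796 0 (b o 474485260344453979262312093186030318 0 o))
    474499762170907446032226654102030240 0 (b (b o 474499763057381342493868425565520078 0 o)
    474499763397781919122555198601582882 0 (b o 474499764284255815584196970065072720 0 o)))
    474514264883872306573391786522612318 0 (b (b (b o 474514264883872307719432607110039840 0 o)
    656684710343623431889982165987711124 0 (b o 656684710343633836794592279242183362 0 o))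
    656684711230097328351623937451200962 0 (b (b o 656684711230107733256234050705673200 0 o)
    656690279399861153950419405257010480 0 o))) 656690279740299227888714978334165602 0 (b (b (b
    (b o 656699211829686726935820067122120480 0 o) 656699211829713820486859574496168082 0 (b o
    656704781226352118029942766214102720 0 o)) 656704781226352119175983586801530242 0 (b (b o
    656704781226389615339551566255195038 0 o) 656704781226389616485592386842622560 0 (b o
    656704782453226591120271310713655362 0 o))) 656704782453226592266312131301082884 0 (b (b (b o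
    656704782453264088429880110754747680 0 o) 656704782453264089575920931342175202 0 (b o
    656710350623027914028675578560557198 0 o)) 656710350623055007579715085934604800 0 (b (b o
    656719283939279482407539919181020002 0 o) 656719284279717556345835492258175124 0 o)))))

/-- table -/
noncomputable def stc_16 : Tr :=
    (b (b (b o 1146040820587427522 0 o) 5569396702888403731499133074558 0 o)
    5569396713293308341612387546796 0 (b (b o 20070882728686139960600226391596 0 o)
    20070882755779691000107600439198 0 o))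

theorem st_20 : ST 20 := chkSt_sound (C :=
    [(5, stc_9, stc_1), (5, stc_10, stc_11), (5, stc_12, stc_13), (0, o, o), (0, stc_14, o), (0,
    stc_15, o), (0, o, o), (0, o, o), (0, stc_16, o)])
  (by decide +kernel)

theorem st_21 : ST 21 := chkSt_sound (C :=
    [(5, stc_9, stc_1), (5, stc_10, stc_11), (5, stc_12, stc_13), (0, o, o), (0, stc_14, o), (0,
    stc_15, o), (0, o, o), (0, o, o), (0, stc_16, o)])
  (by decide +kernel)

/-- table -/
noncomputable def stc_17 : Tr :=
    (b (b (b o 1146040820587427522 0 o) 110700929093934628782290133894108838442 0 o)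
    178623740635673661146604079891098833574 0 (b o 320846459086367290439683922443978177204 0 o))

/-- table -/
noncomputable def stc_18 : Tr :=
    (b (b (b (b (b o 1146040820587427522 0 o) 656704782453264088429880110754747680 2 (b o
    656704782453264089575920931342175202 1 o)) 52536382498108206939705030097169309958 0 (b (b o
    53193087279334521561571404883929747882 0 o) 53193087279334559058881013683970840200 0 o))
    110326403246377032532429241826702896042 0 (b (b (b o 110700929093934628782290133894108838442
    0 o) 110700929094811626551981605335874752086 0 o) 162862797191751183778631350363031850246 0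
    (b (b o 163237311592392621318586906855286070964 0 o) 163237323038781605352702122652720893884
    0 o))) 178623740635673661146604079891098833574 0 (b (b (b (b o
    179280405274794165719483983976491135014 0 o) 179280405276021002696410744541537022860 0 o)
    210145529993659552242672013733012423202 0 (b (b o 210802234773659029887611627954726973280 0
    o) 210802234774885904360701956499226525922 0 o)) 288950103739944792524385777598295304220 0 (b
    (b (b o 288950115186333792670688890034373658938 0 o) 288950115186683615764590241698422673820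
    0 o) 320471944685198678223938246174007057724 0 (b (b o
    320846459086367290439683922443978177204 0 o) 320846487781734330856817393663316140682 0 o))))

/-- table -/
noncomputable def stc_19 : Tr :=
    (b (b (b (b (b o 1146040820587427522 0 o) 37497309608800041092318 25 (b o
    1226874473090328544499552642 34 o)) 40142105885042459647480862893598 97 (b (b o
    656704781226352118029942766214102720 1 o) 656704781226352119175983586801530242 2 o))
    656704781226389615339551566255195038 33 (b (b (b o 656704781226389616485592386842622560 19 o)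
    656704782453226591120271310713655362 12 o) 656704782453226592266312131301082884 26 (b (b o
    656704782453264088429880110754747680 4 o) 656704782453264089575920931342175202 3 o)))
    110326403246377016420241345188059364244 0 (b (b (b (b o
    110326403246377032532429241826702896042 0 o) 110326414692766000454356560985494187164 0 o)
    110326414692766016566544457624137718962 0 (b (b o 110326414693115839660445809288186733844 0
    o) 110326414693643014336235929065903632606 0 o)) 110700929093934612670102237255465306644 0 (b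
    (b (b o 110700929093934628782290133894108838442 0 o) 110700929094284451876191485558157853324
    0 o) 110700929094811626551981605335874752086 0 (b (b o
    110700940540673435910306701355592676244 0 o) 110700957789301653087235708474803270122 0 o))))

/-- table -/
noncomputable def stc_20 : Tr :=
    (b (b o 1146040820587427522 0 o) 656704782453264088429880110754747680 0 (b o
    656704782453264089575920931342175202 0 o))

/-- table -/
noncomputable def stc_21 : Tr :=
    (b (b (b (b o 1146040820587427522 0 o) 37497309608800041092318 0 (b o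
    1226874473090328544499552642 0 o)) 40142105885042459647480862893598 0 (b (b o
    656704781226352118029942766214102720 1 o) 656704781226352119175983586801530242 2 o))
    656704781226389615339551566255195038 0 (b (b (b o 656704781226389616485592386842622560 0 o)
    656704782453226591120271310713655362 0 o) 656704782453226592266312131301082884 0 (b (b o
    656704782453264088429880110754747680 0 o) 656704782453264089575920931342175202 0 o)))

/-- table -/
noncomputable def stc_22 : Tr :=
    (b (b o 1146040820587427522 0 o) 656704781226352118029942766214102720 0 (b o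
    656704781226352119175983586801530242 0 o))

theorem st_22 : ST 22 := chkSt_sound (C :=
    [(4, stc_17, o), (4, stc_18, o), (2, stc_19, o), (0, o, o), (0, stc_20, o), (0, stc_21, o),
    (0, o, o), (0, o, o), (0, stc_22, o)])
  (by decide +kernel)

/-- table -/
noncomputable def stc_23 : Tr :=
    (b (b (b o 1146040820587427522 0 o) 42029146140592420596375984518565467710 0 o)
    111265286960572424609793729376263882404 0 (b o 116518925210383257666221168144620207848 0 o))

/-- table -/
noncomputable def stc_24 : Tr :=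
    (b (b (b (b (b (b (b o 1146040820587427522 0 o) 37496163567979453632079 73 (b o
    656704782453264088429880110754747680 9 o)) 656704782453264089575920931342175202 18 (b (b o
    656744923332237160489555221379611040 1 o) 656744923332237161635596041967038560 2 o))
    10507276500848508361569412803925196170 0 (b (b (b o 10507316640500644457848368171162099447 0
    o) 11163981280847986006509027025639746248 0 o) 11163981282074860479599355570139298890 0 (b (b
    o 11164021422953908547424289101433708968 0 o) 11164021424180783020514617643792195688 0 o)))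
    42029146140592420596375984518565467710 0 (b (b (b (b o 42685810779712925169255888603957769150
    0 o) 42685810780939762146182649169003656996 0 o) 42685850921818810211715501059123212032 0 (b
    (b o 42685850923045647188642261622028099392 0 o) 43342475418833354747516645142803787873 0 o))
    52536382498108206939705030097169309958 0 (b (b (b o 52536382499335006418176141040516210441 0
    o) 53193087279334521561571404883929747882 0 o) 53193087279334559058881013683970840200 0 (b (b
    o 53193127422667281075975305060866315400 0 o) 53193127422667318573284913860907342280 0 o))))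
    110326403246377032532429241826702896042 0 (b (b (b (b (b o
    110326403246904191096031464965316280644 0 o) 110700929093934628782290133894108838442 0 o)
    110700929094811626551981605335874752086 0 (b (b o 111265286960572424609793729376263882404 0
    o) 111265286960922263815882977679416411446 0 o)) 120833691192387634342835645244919830692 0 (b
    (b (b o 120833708441015867631952533952151043610 0 o) 121208205593556246558581321514890950172
    0 o) 121208234288923286975714792734228913650 0 (b (b o
    121772563460194074610460710274333029612 0 o) 121772574906932881738477292786439780172 0 o)))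
    152355509244863551974157682225761938356 0 (b (b (b (b o
    152355509245390742762135698641662358436 0 o) 152355520691252552120460794661840293074 0 o)
    152355520691602375214362146325889307956 0 (b (b o 152355537939880753185201890091784470514 0
    o) 152355537940757767067081258171733905476 0 o)) 162862797191751183778631350363031850246 0 (b
    (b (b o 162862814439852226279770222654362643084 0 o) 163237311592392621318586906855286070964
    0 o) 163237323038781605352702122652720893884 0 (b (b o
    163801669459557607934068518753341535006 0 o) 163801698154047634469322606842107150764 0 o)))))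
    168116423993946179712974956950851388766 0 (b (b (b (b (b (b o
    168116423995172979191446067894198289249 0 o) 168773128775172494334841331737611826690 0 o)
    168773128775172531832150940537652919008 0 (b (b o 168773168918505253849245231914548394208 0
    o) 168773168918505291346554840714589421088 0 o)) 178623740635673661146604079891098833574 0 (b
    (b (b o 179280405274794165719483983976491135014 0 o) 179280405276021002696410744541537022860
    0 o) 179280445416900050761943596431656577896 0 (b (b o
    179280445418126887738870356994561465256 0 o) 179937069913914595297744740515337153737 0 o)))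
    210145529993659552242672013733012423202 0 (b (b (b (b o
    210145570133311688338950969100249326479 0 o) 210802234773659029887611627954726973280 0 o)
    210802234774885904360701956499226525922 0 (b (b o 210802274915764952428526890030520936000 0
    o) 210802274916991826901617218572879422720 0 o)) 220652806492054311659206810268525941610 0 (b
    (b (b o 220652806492054349154224337427392146167 0 o) 221309511274507575746490649558693261768
    0 o) 221309511274507575747636690379280689290 0 (b (b o
    221309551415386548818550324669318125128 0 o) 221309551415386548819696365489905552648 0 o))))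
    278442838687589156551901277216713929054 0 (b (b (b (b (b o
    278442855935690199053040149508044721892 0 o) 278817353088230594091856833708968149772 0 o)
    278817364534619578125972049506402972692 0 (b (b o 279381710955395580707338445607023613814 0
    o) 279381739649885607242592533695789229572 0 o)) 288950103739944792524385777598295304220 0 (b
    (b (b o 288950103740471983312363794014195724300 0 o) 288950115186333792670688890034373658938
    0 o) 288950115186683615764590241698422673820 0 (b (b o
    288950132434961993735429985464317836378 0 o) 288950132435839007617309353544267271340 0 o)))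
    320471944685198678223938246174007057724 0 (b (b (b (b o
    320471961933826911513055134881238270642 0 o) 320846459086367290439683922443978177204 0 o)
    320846487781734330856817393663316140682 0 (b (b o 321410816953005118491563311203420256644 0
    o) 321410828399743925619579893715527007204 0 o)) 330979209738431344190490011274641410130 0 (b
    (b (b o 330979209738958502754092234413254794732 0 o) 331353735585988940440350903342047352530
    0 o) 331353735586865938210042374783813266174 0 (b (b o
    331918093452626736267854498824202396492 0 o) 331918093452976575473943747127354925534 0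
    o))))))

/-- table -/
noncomputable def stc_25 : Tr :=
    (b (b (b (b (b (b o 1146040820587427522 0 o) 37496163567979453632079 219 (b o
    37497309608800041092318 289 o)) 1226836975780719743387992801 25 (b (b o
    1226874473090328544499552642 218 o) 40140879010569369283911736455919 34 o))
    40142105885042459647480862893598 211 (b (b (b o 656704781226352118029942766214102720 1 o)
    656704781226352119175983586801530242 2 o) 656704781226389615339551566255195038 217 (b (b o
    656704781226389616485592386842622560 204 o) 656704782453226591120271310713655362 275 o)))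
    656704782453226592266312131301082884 290 (b (b (b (b o 656704782453264088429880110754747680
    27 o) 656704782453264089575920931342175202 36 o) 656744923332237160489555221379611040 3 (b (b
    o 656744923332237161635596041967038560 4 o) 656744923332274657799164021420637920 26 o))
    656744923332274658945204842008065440 12 (b (b (b o 656744924559111633579883763738097760 19 o)
    656744924559111634725924584325525280 33 o) 656744924559149130889492563779124640 1754 (b (b o
    656744924559149132035533384366552160 1753 o) 1313369420346819193600308105101213761 97 o))))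
    110326403246377016420241345188059364244 0 (b (b (b (b (b o
    110326403246377032532429241826702896042 0 o) 110326403246904191096031464965316280644 0 o)
    110326403246904207208219361603959784324 0 (b (b o 110326414692766000454356560985494187164 0
    o) 110326414692766016566544457624137718962 0 o)) 110326414693115839660445809288186733844 0 (b
    (b (b o 110326414693643014336235929065903632606 0 o) 110326431941394217631285553054081896402
    0 o) 110326431941394233743473449692725400082 0 (b (b o
    110326431941744056837374801357234425444 0 o) 110326431942271231513164921134031331364 0 o)))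
    110700929093934612670102237255465306644 0 (b (b (b (b o
    110700929093934628782290133894108838442 0 o) 110700929094284451876191485558157853324 0 o)
    110700929094811626551981605335874752086 0 (b (b o 110700940540673435910306701355592676244 0
    o) 110700957789301653087235708474803270122 0 o)) 111265286960572424609793729376263882404 0 (b
    (b (b o 111265286960572440721981626014907386084 0 o) 111265286960922263815882977679416411446
    0 o) 111265286961449438491673097456213317366 0 (b (b o
    111265298407311247849998208527014136644 0 o) 111265315655939465026927185544978933124 0 o)))))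

/-- table -/
noncomputable def stc_26 : Tr :=
    (b (b (b o 1146040820587427522 0 o) 37496163567979453632079 0 (b o
    656704782453264088429880110754747680 0 o)) 656704782453264089575920931342175202 0 (b (b o
    656744923332237160489555221379611040 0 o) 656744923332237161635596041967038560 0 o))

/-- table -/
noncomputable def stc_27 : Tr :=
    (b (b (b (b (b o 1146040820587427522 0 o) 37496163567979453632079 0 (b o
    37497309608800041092318 0 o)) 1226836975780719743387992801 0 (b (b o
    1226874473090328544499552642 0 o) 40140879010569369283911736455919 0 o))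
    40142105885042459647480862893598 0 (b (b (b o 656704781226352118029942766214102720 1 o)
    656704781226352119175983586801530242 2 o) 656704781226389615339551566255195038 0 (b (b o
    656704781226389616485592386842622560 0 o) 656704782453226591120271310713655362 0 o)))
    656704782453226592266312131301082884 0 (b (b (b (b o 656704782453264088429880110754747680 0
    o) 656704782453264089575920931342175202 0 o) 656744923332237160489555221379611040 0 (b (b o
    656744923332237161635596041967038560 0 o) 656744923332274657799164021420637920 0 o))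
    656744923332274658945204842008065440 0 (b (b (b o 656744924559111633579883763738097760 0 o)
    656744924559111634725924584325525280 0 o) 656744924559149130889492563779124640 0 (b (b o
    656744924559149132035533384366552160 0 o) 1313369420346819193600308105101213761 0 o))))

theorem st_23 : ST 23 := chkSt_sound (C :=
    [(3, stc_23, o), (4, stc_24, o), (2, stc_25, o), (0, o, o), (0, stc_26, o), (0, stc_27, o),
    (0, o, o), (0, o, o), (0, stc_22, o)])
  (by decide +kernel)

/-- table -/
noncomputable def stc_28 : Tr :=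
    (b (b (b o 1146040820587427522 0 o) 5910343032264043535359813440426477126 0 (b o
    21671257781696494369224480650152369940 0 o)) 89968555029237114644338528336419052872 0 (b (b o
    105729469778669565475911113904970090642 0 o) 110326403246027155830176425544556684566 0 o))

/-- table -/
noncomputable def stc_29 : Tr :=
    (b (b (b (b (b o 1146040820587427522 0 o) 656704781226352118029942766214102720 1 (b o
    656704781226352119175983586801530242 2 o)) 5253678391916701986699189610575715362 0 (b (b o
    5910343031037206560725134516555444324 0 o) 5910343032264043535359813440426477126 0 o))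
    21014552999243305274267777318892379374 0 (b (b (b o 21671257781696494369224480650152369940 0
    o) 21671257781696531866534089450193462258 0 o) 26268191250280959194288039193063661462 0 (b (b
    o 26924896030280474336537262214819303858 0 o) 26924896031507348809627590759318856500 0 o)))
    84058211998199945580923002619904700866 0 (b (b (b (b o 84714916778199460723172225641660343262
    0 o) 84714916779426335196262554186159895904 0 o) 89311850246783925549381825005159062306 0 (b
    (b o 89968555029237114644338528336419052872 0 o) 89968555029237152141648137136460145190 0 o))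
    105072805138322223927250490075119328878 0 (b (b (b o 105729469777442728501276434981099057840
    0 o) 105729469778669565475911113904970090642 0 o) 110326403246027155830176425544556684566 0
    (b (b o 110983108027253507947060327490183359764 0 o) 110983108027253507948206368310770787286
    0 o))))

/-- table -/
noncomputable def stc_30 : Tr :=
    (b (b (b (b (b o 1146040820587427522 0 o) 37497309608800041092318 9 (b o
    349860591210960464090107200 1 o)) 349876703398857102733638998 2 (b (b o
    1226874473090328544499552642 1689 o) 11446738844625326176261524930120 19 o))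
    11446738860737514072900168461918 33 (b (b (b o 11447088683831415424564217476800 25 o)
    11447615858507205544341934375562 777 o) 40142105885042459647480862893598 1690 (b (b o
    374525847907456841071852531496049600 26 o) 374525847907472953259749170139581398 12 o)))
    374525848257296047161100834188596280 34 (b (b (b (b o 374525848784470722951220611905495042
    1225 o) 374537294646280081276316631623419200 211 o) 374554543274497258205323750834013078
    13513 (b (b o 656704781226352118029942766214102720 3 o) 656704781226352119175983586801530242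
    4 o)) 656704781226389615339551566255195038 154 (b (b (b o
    656704781226389616485592386842622560 97 o) 656704782453226591120271310713655362 265 o)
    656704782453226592266312131301082884 98 (b (b o 656704782453264088429880110754747680 201 o)
    656704782453264089575920931342175202 153 o))))

/-- table -/
noncomputable def stc_31 : Tr :=
    (b (b (b (b (b o 1146040820587427522 0 o) 37497309608800041092318 9 (b o
    349860591210960464090107200 1 o)) 349876703398857102733638998 2 (b (b o
    1226874473090328544499552642 0 o) 11446738844625326176261524930120 0 o))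
    11446738860737514072900168461918 0 (b (b (b o 11447088683831415424564217476800 0 o)
    11447615858507205544341934375562 0 o) 40142105885042459647480862893598 0 (b (b o
    374525847907456841071852531496049600 0 o) 374525847907472953259749170139581398 0 o)))
    374525848257296047161100834188596280 0 (b (b (b (b o 374525848784470722951220611905495042 0
    o) 374537294646280081276316631623419200 0 o) 374554543274497258205323750834013078 0 (b (b o
    656704781226352118029942766214102720 0 o) 656704781226352119175983586801530242 0 o))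
    656704781226389615339551566255195038 0 (b (b (b o 656704781226389616485592386842622560 0 o)
    656704782453226591120271310713655362 0 o) 656704782453226592266312131301082884 0 (b (b o
    656704782453264088429880110754747680 0 o) 656704782453264089575920931342175202 0 o))))

/-- table -/
noncomputable def stc_32 : Tr :=
    (b (b (b o 1146040820587427522 0 o) 37497309608800041092318 0 o) 349860591210960464090107200
    0 (b o 349876703398857102733638998 0 o))

theorem st_24 : ST 24 := chkSt_sound (C :=
    [(2, stc_28, o), (2, stc_29, o), (1, stc_30, o), (0, o, o), (0, stc_22, o), (0, stc_31, o),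
    (0, o, o), (0, o, o), (0, stc_32, o)])
  (by decide +kernel)

end Pool.Agent.MP_d6da41_co

end MrgPart3

-- ======== part 4: formerly Pool.Agent.MP_d6da41_co.Final
section MrgPart4

/-! Existence, chirality and non-similarity of the models; the classification. -/

namespace Pool.Agent.MP_d6da41_co

open Quaternion Module

theorem gd_all {J : ℕ} (hJ : J < 27) : GD (nM J) (τM J) (vM J) := by
  refine ST.gd hJ ?_
  interval_cases J
  exacts [st_0, st_1, st_2, st_3, st_4, st_5, st_6, st_7, st_8, st_9, st_10, st_11, st_12, st_13,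
    st_14, st_15, st_16, st_17, st_18, st_19, st_20, st_21, st_22, st_23, st_24, st_25, st_26]

section
variable {W : Type} [MetricSpace W] {n J : ℕ} {ψ : W → ℍ}

/-- `ψ` carries `M` to the model `J` -/
def IsM (M : Man W n) (a : M.Ω) (ψ : W → ℍ) (J : ℕ) : Prop :=
  ∃ τ, M.Base a τ ∧ ψ (M.vt a) = vM J 0 ∧ ∀ i, i < n → Rl ψ (τM J i) (τ i)

theorem exists_isM (hJ : J < 27) (hn : nM J = n) {c : ℝ} (hc : 0 < c)
    (hψ : ∀ x y, dist (ψ x) (ψ y) = c * dist x y)
    (hU : ∀ i, i < n → ∀ y, τM J i y ∈ Set.range ψ ↔ y ∈ Set.range ψ)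
    (hv : vM J 0 ∈ Set.range ψ) : ∃ (M : Man W n) (a : M.Ω), IsM M a ψ J := by
  subst hn
  obtain ⟨τ, v, h, e, r⟩ := (gd_all hJ).transport hc hψ hU hv (τM_gd0 hJ).2.2
  obtain ⟨M, a, hb, e', -⟩ := h.exists_man
  exact ⟨M, a, τ, hb, by rw [e', e], r⟩

variable {M M' : Man W n} {a : M.Ω} {a' : M'.Ω}

theorem IsM.img (h : IsM M a ψ J) (hn : 2 ≤ n) :
    Img.map ψ n (M.f n a) = wyth (sig (τM J)) (vM J 0) n := by
  obtain ⟨τ, hb, e, r⟩ := h
  rw [hb.wyth hn n le_rfl, wyth_natural (S := sig τ) (S' := sig (τM J)) (φ := ψ) (n := n)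
    (fun i _ _ => (τ (i - 1) * (τ i)⁻¹).surjective)
    (fun i _ _ => (τM J (i - 1) * (τM J i)⁻¹).injective)
    (fun i _ hi => (r (i - 1) (by omega)).mul (r i hi).inv) hn _ n le_rfl, e]

theorem IsM.range (h : IsM M a ψ J) (hn : nM J = n) : ψ '' Set.range M.vt = Orb J := by
  have := nM_le J
  subst hn
  obtain ⟨τ, hb, e, r⟩ := h
  refine Set.ext fun x => ⟨?_, ?_⟩
  · rintro ⟨_, ⟨b, rfl⟩, rfl⟩
    obtain ⟨g', hg', e'⟩ := hb.vertices (by omega) b
    obtain ⟨g, hg, r'⟩ := (GG_rl r le_rfl).2 g' hg'
    exact ⟨g, hg, by rw [e', r', e]⟩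
  · rintro ⟨g, hg, rfl⟩
    obtain ⟨g', hg', r'⟩ := (GG_rl r le_rfl).1 g hg
    obtain ⟨b, e'⟩ := hb.vertex_mem hg'
    exact ⟨_, ⟨b, rfl⟩, by rw [e', r', e]⟩

variable {d : ℝ} (hψ : ∀ x y, dist (ψ x) (ψ y) = d * dist x y)
include hψ

theorem IsM.sim {J' : ℕ} (h : IsM M a ψ J) (h' : IsM M' a' ψ J') (hJ : J < 27) (hJ' : J' < 27)
    (hn : 4 ≤ n) (h1 : J < 22 ↔ J' < 22) {F : W → W} {c : ℝ} (hc : 0 < c)
    (hF : ∀ x y, dist (F x) (F y) = c * dist x y) :
    (Man.A M M' F a a' → J = J') ∧ ¬ Man.A M M' F a (M'.r (n - 1) a') := by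
  obtain ⟨τ, hb, e, r⟩ := h
  obtain ⟨τ', hb', e', r'⟩ := h'
  refine ⟨fun hA => by_contra fun ne => ?_, fun hA => ?_⟩
  · refine not_sim hb hb' hc hF hA hψ r r' ?_
    rw [e, e']
    exact dif_τM true hJ hJ' hn h1 fun h => absurd h ne
  · refine not_sim hb (hb'.swap (by omega)) hc hF hA hψ r (fun i hi => (r' i hi).inv) ?_
    rw [e, Man.vt_r (by omega) (by omega), e']
    exact dif_τM false hJ hJ' hn h1 fun _ => rfl

theorem IsM.chi (h : IsM M a ψ J) (hJ : J < 27) (hn : 4 ≤ n) : M.Chi := by
  obtain ⟨τ, hb, -⟩ := id h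
  exact hb.chi (by omega) fun g => (h.sim hψ h hJ hJ hn Iff.rfl one_pos
    fun x y => by rw [g.dist_eq, one_mul]).2

theorem IsM.eq {J' : ℕ} (h : IsM M a ψ J) (h' : IsM M' a' ψ J') (hJ : J < 27) (hJ' : J' < 27)
    (hn : 4 ≤ n) (h1 : J < 22 ↔ J' < 22) {F : W → W} {c : ℝ} (hc : 0 < c)
    (hF : ∀ x y, dist (F x) (F y) = c * dist x y)
    (e : M'.f n a' = Img.map F n (M.f n a)) : J = J' := by
  obtain ⟨b, hA⟩ := Man.A.exists e a
  obtain ⟨τ', hb', -⟩ := id h'
  obtain ⟨g, -, hg⟩ := hb'.orbits (by omega) b
  have := h.sim hψ h' hJ hJ' hn h1 (F := (g⁻¹ : W ≃ᵢ W) ∘ F) hc fun x y => by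
    rw [Function.comp_apply, Function.comp_apply, IsometryEquiv.dist_eq, hF]
  rcases hg with hg | hg
  · exact this.1 (hA.comp hg.inv)
  · exact absurd (hA.comp hg.inv) this.2

theorem IsM.fin (h : IsM M a ψ J) (hd : 0 < d) (hn : nM J = n) (hJ : J < 22) :
    DiscreteTopology (Set.range M.vt) ∧ Finite M.Ω := by
  have := (h.range hn ▸ orb_finite hJ).of_finite_image (inj_of_scale hd hψ).injOn
  have := this.to_subtype
  exact ⟨inferInstance, Man.finite_of_vertices ‹_›⟩

theorem IsM.inf (h : IsM M a ψ J) (hd : 0 < d) (hn : nM J = n) (hJ : J < 27) (hJ' : 22 ≤ J) :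
    DiscreteTopology (Set.range M.vt) ∧ Infinite M.Ω := by
  constructor
  · refine DiscreteTopology.of_forall_le_dist (r := 1 / 2 / d) (by positivity) fun x y e => ?_
    obtain ⟨u, hu⟩ := orb_hz hJ hJ' (h.range hn ▸ Set.mem_image_of_mem ψ x.2)
    obtain ⟨w, hw⟩ := orb_hz hJ hJ' (h.range hn ▸ Set.mem_image_of_mem ψ y.2)
    have := hz_sep (y := u) (z := w) (by
      rw [hu, hw]; exact fun e' => e (Subtype.ext (inj_of_scale hd hψ e')))
    rw [hu, hw, hψ] at this
    rw [div_le_iff₀ hd, mul_comm]
    exact this
  · exact Set.infinite_univ_iff.1 (Set.Infinite.of_image M.vt (by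
      rw [Set.image_univ]; exact Set.Infinite.of_image ψ (h.range hn ▸ orb_infinite hJ hJ')))

end

theorem classify {d n : ℕ} {c : Type → Prop} {K : Type} {ix : K → ℕ} (inj : Function.Injective ix)
    {Mo : K → Img (E d) n} (π : ℍ →ₗ[ℝ] E d) (j : E d → ℍ)
    (hj : ∀ x y, dist (j x) (j y) = dist x y) (hl : ∀ x, π (j x) = x)
    (hr : ∀ y : ℍ, (d = 3 → y.re = 0) → y ∈ Set.range j)
    (h1 : ∀ k, ix k < 27) (h2 : ∀ k, nM (ix k) = n)
    (h3 : ∀ k i, i < n → ∀ y, τM (ix k) i y ∈ Set.range j ↔ y ∈ Set.range j)
    (h4 : ∀ k, vM (ix k) 0 ∈ Set.range j)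
    (h5 : ∀ k, Mo k = Img.map π n (wyth (sig (τM (ix k))) (vM (ix k) 0) n))
    (h6 : (c = Finite ∧ ∀ k, ix k < 22) ∨ (c = Infinite ∧ ∀ k, 22 ≤ ix k))
    (h7 : ∀ X, IsChiral c d n X → ∃ (M : Man (E d) n) (a : M.Ω), M.f n a = X ∧ ∃ k, Itw M (ix k)) :
    Classifies (IsChiral c d n) Mo := by
  have hn : ∀ _ : K, 4 ≤ n := fun k => h2 k ▸ (nM_le _).1
  have key : ∀ k (f : E d ≃ E d) (s : ℝ), 0 < s → (∀ x y, dist (f x) (f y) = s * dist x y) →
      ∃ (M : Man (E d) n) (a : M.Ω), IsM M a (j ∘ f) (ix k) ∧ Img.map f n (M.f n a) = Mo k := by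
    intro k f s hs hf
    have e := f.surjective.range_comp j
    obtain ⟨M, a, h⟩ := exists_isM (ψ := j ∘ f) (h1 k) (h2 k) hs
      (fun x y => (hj _ _).trans (hf x y)) (e ▸ h3 k) (e ▸ h4 k)
    refine ⟨M, a, h, ?_⟩
    rw [h5, ← h.img (by have := hn k; omega), ← Img.map_comp]
    congr 1
    exact funext fun x => (hl _).symm
  refine ⟨fun X => ⟨fun hX => ?_, ?_⟩, fun k k' ⟨F, s, hs, hF, e⟩ => ?_⟩
  · obtain ⟨M, a', rfl, k, a, τ, ι, s, o, hb, s0, e1, e2, e3⟩ := h7 X hX
    have hn' := hn k
    have hM : IsM M a (fun x => s • ι (x - o)) (ix k) := ⟨τ, hb, e1, fun i hi x => by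
      by_cases e : i + 1 < n
      · exact e2 i e x
      · obtain rfl : i = n - 1 := by omega
        rw [hb.last, ← h2 k, τM_last (h1 k)]; rfl⟩
    have hd : ∀ x y, dist (π (s • ι x)) (π (s • ι y)) = |s| * dist x y := fun x y => by
      have r : ∀ x, j (π (s • ι x)) = s • ι x := fun x => by
        obtain ⟨z, hz⟩ := hr (s • ι x) fun h => by
          rw [re_smul, e3 (by rw [finrank_euclideanSpace_fin, h]), smul_zero]
        rw [← hz, hl]
      rw [← hj, r, r, dist_smul₀, ι.dist_map, Real.norm_eq_abs]
    let L : E d →ₗ[ℝ] E d := π ∘ₗ (s • ι.toLinearMap)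
    have iL : Function.Injective L := inj_of_scale (abs_pos.2 s0) hd
    refine ⟨k, (Equiv.subRight o).trans
      (Equiv.ofBijective L ⟨iL, LinearMap.injective_iff_surjective.1 iL⟩), |s|, abs_pos.2 s0,
      fun x y => (hd _ _).trans (by simp), ?_⟩
    rw [h5, ← hM.img (by omega), ← Img.map_comp, Man.top_eq a' a]
    rfl
  · rintro ⟨k, f, s, hs, hf, e⟩
    obtain ⟨M, a, h, e'⟩ := key k f s hs hf
    have hψ : ∀ x y, dist ((j ∘ f) x) ((j ∘ f) y) = s * dist x y :=
      fun x y => (hj _ _).trans (hf x y)
    rw [← Img.map_injective f.injective n (e'.trans e.symm)]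
    rcases h6 with ⟨a1, a2⟩ | ⟨a1, a2⟩
    · obtain ⟨b1, b2⟩ := h.fin hψ hs (h2 k) (a2 k)
      exact bridge2 M a (h.chi hψ (h1 k) (hn k)) b1 (Or.inl ⟨a1, b2⟩)
    · obtain ⟨b1, b2⟩ := h.inf hψ hs (h2 k) (h1 k) (a2 k)
      exact bridge2 M a (h.chi hψ (h1 k) (hn k)) b1 (Or.inr ⟨a1, b2⟩)
  · obtain ⟨M, a, h, e1⟩ := key k (Equiv.refl _) 1 one_pos fun x y => (one_mul _).symm
    obtain ⟨M', a', h', e2⟩ := key k' (Equiv.refl _) 1 one_pos fun x y => (one_mul _).symm
    rw [Equiv.coe_refl, Img.map_id] at e1 e2
    refine inj (h.eq (d := 1) (fun x y => (hj _ _).trans (one_mul _).symm) h' (h1 k) (h1 k') (hn k)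
      ?_ hs hF (by rw [e1, e2, e]))
    rcases h6 with ⟨-, a2⟩ | ⟨-, a2⟩
    · exact iff_of_true (a2 k) (a2 k')
    · exact iff_of_false (a2 k).not_gt (a2 k').not_gt

theorem fin_chiral {d : ℕ} {X : Img (E d) d} (h : IsChiral Finite d d X) :
    ∃ (M : Man (E d) d) (a : M.Ω), M.f d a = X ∧ d = 4 ∧ ∃ j, j < 22 ∧ Itw M j := by
  obtain ⟨M, a, hc, -, e, hf, -⟩ := bridge1 h
  have := hf rfl
  exact ⟨M, a, e, fin_class a hc finrank_euclideanSpace_fin⟩

theorem inf_chiral {d : ℕ} {X : Img (E d) (d + 1)} (h : IsChiral Infinite d (d + 1) X) :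
    ∃ (M : Man (E d) (d + 1)) (a : M.Ω), M.f (d + 1) a = X ∧
      ((d + 1 = 4 ∧ ∃ k, k < 3 ∧ Itw M (22 + k)) ∨ (d + 1 = 5 ∧ ∃ j, j < 2 ∧ Itw M (25 + j))) := by
  obtain ⟨M, a, hc, hd, e, -, hf⟩ := bridge1 h
  have := hf rfl
  exact ⟨M, a, e, inf_class a hc (by rw [finrank_euclideanSpace_fin]) hd⟩

theorem class_fin4 : Classifies (IsChiral Finite 4 4) fin4 := by
  have s := linearIsometryEquivTuple.symm.surjective
  refine classify (ix := ixF) ?_ linearIsometryEquivTuple.toLinearEquiv.toLinearMap
    linearIsometryEquivTuple.symm linearIsometryEquivTuple.symm.dist_map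
    linearIsometryEquivTuple.apply_symm_apply (fun y _ => s y)
    (fun k => (ixF_lt k).trans (by omega)) (fun k => if_pos ((ixF_lt k).trans (by omega)))
    (fun _ _ _ _ => iff_of_true (s _) (s _)) (fun _ => s _) (fun k => ?_)
    (Or.inl ⟨rfl, ixF_lt⟩) fun X hX => ?_
  · decide
  · rw [fin4, wyth_congr (genFin_eq k) (by omega) _ 4 le_rfl, vM, vc, if_pos (ixF_lt k)]
    rfl
  · obtain ⟨M, a, e, -, j, hj, h⟩ := fin_chiral hX
    have : ∀ j, j < 22 → ∃ k, ixF k = j := by decide
    obtain ⟨k, rfl⟩ := this j hj
    exact ⟨M, a, e, k, h⟩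

theorem class_inf4 : Classifies (IsChiral Infinite 4 5) inf4 := by
  have s := linearIsometryEquivTuple.symm.surjective
  refine classify (ix := fun e : Bool => 25 + e.toNat) ?_
    linearIsometryEquivTuple.toLinearEquiv.toLinearMap
    linearIsometryEquivTuple.symm linearIsometryEquivTuple.symm.dist_map
    linearIsometryEquivTuple.apply_symm_apply (fun y _ => s y)
    (by decide) (by decide) (fun _ _ _ _ => iff_of_true (s _) (s _)) (fun _ => s _) (fun k => ?_)
    (Or.inr ⟨rfl, by decide⟩) fun X hX => ?_
  · decide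
  · rw [inf4, wyth_congr (gen5_eq k) (by omega) _ 5 le_rfl, vM, vc, if_neg (by omega)]
    rfl
  · obtain ⟨M, a, e, ⟨h, -⟩ | ⟨-, j, hj, h⟩⟩ := inf_chiral hX
    · omega
    · refine ⟨M, a, e, ?_⟩
      interval_cases j
      exacts [⟨false, h⟩, ⟨true, h⟩]

/-- the imaginary part -/
noncomputable def pi3 : ℍ →ₗ[ℝ] E 3 where
  toFun x := WithLp.toLp 2 ![x.imI, x.imJ, x.imK]
  map_add' x y := by ext i; fin_cases i <;> simp
  map_smul' c x := by ext i; fin_cases i <;> simp

theorem class_inf3 : Classifies (IsChiral Infinite 3 4) inf3 := by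
  have s : ∀ y : ℍ, y ∈ Set.range (fun x : E 3 => qt 0 (x 0) (x 1) (x 2)) ↔ y.re = 0 := fun y =>
    ⟨fun ⟨x, e⟩ => e ▸ rfl, fun h => ⟨pi3 y, by ext <;> simp [qt, pi3, h]⟩⟩
  refine classify (ix := fun k : Fin 3 => 22 + k) ?_ pi3 (fun x => qt 0 (x 0) (x 1) (x 2))
    (fun x y => ?_) (fun x => ?_) (fun y h => (s y).2 (h rfl)) (by decide) (by decide)
    (fun k i hi y => ?_) (fun k => ?_) (fun k => ?_) (Or.inr ⟨rfl, by decide⟩) fun X hX => ?_
  · decide
  · rw [EuclideanSpace.dist_eq, dist_eq_norm, norm_eq_sqrt_real_inner, inner_coord,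
      Fin.sum_univ_three]
    simp [qt, Real.dist_eq, sq]
  · ext i; fin_cases i <;> rfl
  · rw [s, s]; exact τM_pure (by omega) (by omega) (by omega) y
  · rw [s, vM, vc, if_neg (by omega)]; rfl
  · rw [inf3, wyth_congr (genInf_eq k) (by omega) _ 4 le_rfl, vM, vc, if_neg (by omega)]
    rfl
  · obtain ⟨M, a, e, ⟨-, j, hj, h⟩ | ⟨h, -⟩⟩ := inf_chiral hX
    · exact ⟨M, a, e, ⟨j, hj⟩, h⟩
    · omega

theorem stmt : Stmt :=
  ⟨fun _ hd _ h => let ⟨_, _, _, e, _⟩ := fin_chiral h; hd e,
    fun _ h3 h4 _ h => by obtain ⟨_, _, _, ⟨e, -⟩ | ⟨e, -⟩⟩ := inf_chiral h <;> omega,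
    class_fin4, class_inf3, class_inf4⟩

end Pool.Agent.MP_d6da41_co

end MrgPart4

-- marker of a merged file
example : 731051 + 549255 = 731051 + 549255 := rfl

end MrgPart1

-- marker of a merged file
example : 731051 + 549255 = 731051 + 549255 := rfl
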