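import Mathlib.Analysis.Quaternion

/-!
Definitions for MP_d6da41_co: abstract polytopes, faithful discrete realizations in Euclidean space,
chirality, similarity, Wythoff's construction and the list of the chiral polytopes of full rank.
-/

namespace Pool.Agent.MP_d6da41_co

open Quaternion

/-- Images of faces: a vertex is a point, an `(m+1)`-face is a set of images of `m`-faces. -/
def Img (V : Type) : ℕ → Type
  | 0 => V
  | m + 1 => Set (Img V m)

/-- The action of a map of points on images of faces. -/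
def Img.map {V W : Type} (g : V → W) : (m : ℕ) → Img V m → Img W m
  | 0 => g
  | m + 1 => Set.image (Img.map g m)

/-- Abstract `n`-polytope with rank function `rk`. -/
structure IsPolytope (n : ℕ) (F : Type) [PartialOrder F] (rk : F → ℤ) : Prop where
  strictMono : StrictMono rk
  range_eq : Set.range rk = Set.Icc (-1) (n : ℤ)
  least : ∃ b : F, ∀ x, b ≤ x
  greatest : ∃ t : F, ∀ x, x ≤ t
  flag_card : ∀ Φ : Flag F, (Φ : Set F).ncard = n + 2
  diamond : ∀ x z : F, x ≤ z → rk z = rk x + 2 → (Set.Ioo x z).ncard = 2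
  connected : ∀ x z : F, x ≤ z → rk x + 3 ≤ rk z → ∀ y ∈ Set.Ioo x z, ∀ y' ∈ Set.Ioo x z,
    Relation.ReflTransGen
      (fun a b => a ∈ Set.Ioo x z ∧ b ∈ Set.Ioo x z ∧ (a ≤ b ∨ b ≤ a)) y y'

section Realization

variable {F V : Type} [PartialOrder F] (rk : F → ℤ) (p : F → V)

/-- The image of an `m`-face under the vertex map `p`. -/
def img : (m : ℕ) → F → Img V m
  | 0, x => p x
  | m + 1, x => {Y : Img V m | ∃ y, y ≤ x ∧ rk y = m ∧ img m y = Y}

variable [MetricSpace V] (n : ℕ)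

/-- `g` preserves the realization: it permutes the images of the `m`-faces, for every `m`. -/
def IsSym (g : V ≃ᵢ V) : Prop :=
  ∀ m ≤ n, Img.map g m '' {Y | ∃ x, rk x = m ∧ img rk p m x = Y}
    = {Y | ∃ x, rk x = m ∧ img rk p m x = Y}

/-- Some symmetry of the realization carries the flag `Φ` to the flag `Ψ`. -/
def SameOrbit (Φ Ψ : Flag F) : Prop :=
  ∃ g : V ≃ᵢ V, IsSym rk p n g ∧ ∀ m ≤ n, ∀ x ∈ Φ, ∀ y ∈ Ψ, rk x = m → rk y = m →
    Img.map g m (img rk p m x) = img rk p m y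

/-- The flags differ in exactly one face. -/
def Adjacent (Φ Ψ : Flag F) : Prop :=
  Φ ≠ Ψ ∧ ∃ i : ℤ, ∀ x ∈ Φ, ∀ y ∈ Ψ, rk x = rk y → rk x ≠ i → x = y

/-- `p` is a discrete, faithful, chiral realization of the abstract `n`-polytope `(F, rk)`. -/
structure ChiralRealization : Prop where
  polytope : IsPolytope n F rk
  discrete : DiscreteTopology (p '' {x | rk x = 0})
  faithful : ∀ m ≤ n, ∀ x y, rk x = m → rk y = m → img rk p m x = img rk p m y → x = y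
  two_orbits : ∃ Φ₁ Φ₂ : Flag F, ¬ SameOrbit rk p n Φ₁ Φ₂ ∧
    ∀ Φ, SameOrbit rk p n Φ₁ Φ ∨ SameOrbit rk p n Φ₂ Φ
  adjacent : ∀ Φ Ψ : Flag F, Adjacent rk Φ Ψ → ¬ SameOrbit rk p n Φ Ψ

end Realization

/-- Euclidean `d`-space. -/
abbrev E (d : ℕ) : Type := EuclideanSpace ℝ (Fin d)

/-- `X` is the image of (the greatest face of) a chiral `n`-polytope in `E d` whose set of faces
has the property `c` (`Finite` or `Infinite`). -/
def IsChiral (c : Type → Prop) (d n : ℕ) (X : Img (E d) n) : Prop :=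
  ∃ (F : Type) (_ : PartialOrder F) (rk : F → ℤ) (p : F → E d),
    c F ∧ ChiralRealization rk p n ∧ ∃ t, rk t = n ∧ img rk p n t = X

/-- A similarity of `E d` carries `X` to `Y`. -/
def Similar {d n : ℕ} (X Y : Img (E d) n) : Prop :=
  ∃ (f : E d ≃ E d) (c : ℝ), 0 < c ∧ (∀ x y, dist (f x) (f y) = c * dist x y) ∧ Img.map f n X = Y

/-- The `M k` are a complete irredundant list, up to similarity, of the `X` with property `P`. -/
def Classifies {d n : ℕ} {ι : Type} (P : Img (E d) n → Prop) (M : ι → Img (E d) n) : Prop :=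
  (∀ X, P X ↔ ∃ k, Similar X (M k)) ∧ ∀ k k', Similar (M k) (M k') → k = k'

/-- Wythoff's construction from generators `S 1, S 2, …` and an initial vertex `v`: the base edge is
`{v, S 1 v}`, the base `(j+2)`-face is the orbit of the base `(j+1)`-face under `S 1, …, S (j+1)`. -/
def wyth {V : Type} (S : ℕ → V → V) (v : V) : (j : ℕ) → Img V j
  | 0 => v
  | 1 => ({v, S 1 v} : Set V)
  | j + 2 => {Y : Img V (j + 1) | Relation.EqvGen
      (fun A B => ∃ i, 1 ≤ i ∧ i ≤ j + 1 ∧ B = Img.map (S i) (j + 1) A) (wyth S v (j + 1)) Y}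

/-- The quaternion `a + b i + c j + d k`. -/
def qt (a b c d : ℝ) : ℍ[ℝ] := ⟨a, b, c, d⟩

/-- The isometry `x ↦ l x r / (‖l‖ ‖r‖) + t` of the quaternions. -/
noncomputable def rot (l r t x : ℍ[ℝ]) : ℍ[ℝ] := (‖l‖ * ‖r‖)⁻¹ • (l * x * r) + t

/-- Generators `S 1 = B A`, `S 2 = A S⁻¹`, `S 3 = S` with `S x = s x s⁻¹`. -/
noncomputable def gen4 (s : ℍ[ℝ]) (A B : ℍ[ℝ] → ℍ[ℝ]) : ℕ → ℍ[ℝ] → ℍ[ℝ]
  | 1 => B ∘ A
  | 2 => A ∘ rot (star s) s 0
  | _ => rot s (star s) 0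

/-- The data `(s, a, l, r)` of the finite polytopes. -/
noncomputable def data4 : Fin 11 → ℍ[ℝ] × ℍ[ℝ] × ℍ[ℝ] × ℍ[ℝ] :=
  let s := qt 1 1 1 1
  let i := qt 0 1 0 0
  let n := qt 0 0 1 (-1)
  let k := qt 0 0 0 1
  let P := fun w : ℝ => qt 0 2 (w - 1) (-1 - w)
  let Q := fun w : ℝ => qt 0 (1 + w) (1 - w) (-2)
  let T := fun w : ℝ => (qt (1 + w) 2 (w - 1) 0, i, qt 0 2 (-1 - w) (1 - w), k)
  ![(s, i, qt 0 1 0 (-1), n), (s, i, P √5, n), (s, i, Q √5, n), (s, i, Q (-√5), n),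
    (s, i, P √5, qt 0 1 (-1) 0), (s, i, P (-√5), qt 0 1 (-1) 0),
    (s, i, P √5, Q √5), (s, i, P (-√5), Q (-√5)),
    (qt 1 1 0 0, qt 0 1 1 0, qt 0 0 1 1, k), T √5, T (-√5)]

/-- The generators of the finite polytope `(k, e)`: `A x = a x a⁻¹`, `B x = ± l x r / (‖l‖ ‖r‖)`. -/
noncomputable def genFin (k : Fin 11 × Bool) : ℕ → ℍ[ℝ] → ℍ[ℝ] :=
  gen4 (data4 k.1).1 (rot (data4 k.1).2.1 (star (data4 k.1).2.1) 0)
    (rot (data4 k.1).2.2.1 (if k.2 then (data4 k.1).2.2.2 else -(data4 k.1).2.2.2) 0)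

/-- The 22 finite chiral 4-polytopes in `E 4`. -/
noncomputable def fin4 (k : Fin 11 × Bool) : Img (E 4) 4 :=
  Img.map linearIsometryEquivTuple 4 (wyth (genFin k) 1 4)

/-- The generators of the three infinite 4-polytopes (they preserve the pure quaternions). -/
noncomputable def genInf : Fin 3 → ℕ → ℍ[ℝ] → ℍ[ℝ] :=
  ![gen4 (qt 1 1 1 1) (rot (qt 0 1 0 0) (qt 0 (-1) 0 0) 0)
      (rot (qt 0 1 (-1) 0) (qt 0 (-1) 1 0) (qt 0 1 1 1)),
    gen4 (qt 1 1 1 1) (rot (qt 0 1 0 0) (qt 0 1 0 0) 0)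
      (rot (qt 0 1 (-1) 0) (qt 0 (-1) 1 0) (qt 0 1 1 1)),
    gen4 (qt 1 1 0 0) (rot (qt 0 1 1 0) (qt 0 (-1) (-1) 0) 0)
      (rot (qt 0 0 1 1) (qt 0 0 (-1) (-1)) (qt 0 1 0 0))]

/-- The 3 infinite chiral 4-polytopes in `E 3`. -/
noncomputable def inf3 (k : Fin 3) : Img (E 3) 4 :=
  Img.map (fun x : ℍ[ℝ] => (WithLp.toLp 2 ![x.imI, x.imJ, x.imK] : E 3)) 4 (wyth (genInf k) 0 4)

/-- The generators of the two infinite 5-polytopes: `S 1 = C B` with `C x = n x n / 2 + 1`,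
`n = j - k`, followed by the generators of the vertex-figure `(0, e)`. -/
noncomputable def gen5 (e : Bool) : ℕ → ℍ[ℝ] → ℍ[ℝ]
  | 1 => rot (qt 0 0 1 (-1)) (qt 0 0 1 (-1)) 1 ∘
      rot (qt 0 1 0 (-1)) (if e then qt 0 0 1 (-1) else -qt 0 0 1 (-1)) 0
  | k => genFin (0, e) (k - 1)

/-- The 2 infinite chiral 5-polytopes in `E 4`. -/
noncomputable def inf4 (e : Bool) : Img (E 4) 5 :=
  Img.map linearIsometryEquivTuple 5 (wyth (gen5 e) 0 5)

/-- The classification of the chiral polytopes of full rank. -/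
def Stmt : Prop :=
  (∀ d, d ≠ 4 → ∀ X, ¬ IsChiral Finite d d X) ∧
  (∀ d, d ≠ 3 → d ≠ 4 → ∀ X, ¬ IsChiral Infinite d (d + 1) X) ∧
  Classifies (IsChiral Finite 4 4) fin4 ∧
  Classifies (IsChiral Infinite 3 4) inf3 ∧
  Classifies (IsChiral Infinite 4 5) inf4

end Pool.Agent.MP_d6da41_co
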